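import Mathlib

set_option autoImplicit false

namespace Pool.Agent.Work.MP_33747a_co

/-- `M` is a matching of the complete graph on `Fin N`; an edge is a pair `(i, j)` with `i < j`. -/
def IsMatching {N : ℕ} (M : Finset (Fin N × Fin N)) : Prop :=
  (∀ e ∈ M, e.1 < e.2) ∧
    ∀ e ∈ M, ∀ f ∈ M, e ≠ f → e.1 ≠ f.1 ∧ e.1 ≠ f.2 ∧ e.2 ≠ f.1 ∧ e.2 ≠ f.2

open Classical in
/-- The `k`-hafnian: the sum over all `k`-matchings of the product of the entries. -/
noncomputable def haf {N : ℕ} (k : ℕ) (B : Matrix (Fin N) (Fin N) ℝ) : ℝ :=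
  ∑ M ∈ (Finset.univ : Finset (Finset (Fin N × Fin N))).filter
    (fun M => IsMatching M ∧ M.card = k), ∏ e ∈ M, B e.1 e.2

/-- The perfect matching polytope: the convex hull of the adjacency matrices of the perfect
matchings (fixed point free involutions) of the complete graph on `Fin (2 * n)`. -/
def Psi (n : ℕ) : Set (Matrix (Fin (2 * n)) (Fin (2 * n)) ℝ) :=
  convexHull ℝ {A | ∃ f : Fin (2 * n) → Fin (2 * n), (∀ i, f (f i) = i) ∧ (∀ i, f i ≠ i) ∧
    A = Matrix.of fun i j => if f i = j then (1 : ℝ) else 0}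

/-- The matrix with zero diagonal and all other entries `1 / (2 n - 1)`. -/
noncomputable def J (n : ℕ) : Matrix (Fin (2 * n)) (Fin (2 * n)) ℝ :=
  Matrix.of fun i j => if i = j then (0 : ℝ) else 1 / (2 * (n : ℝ) - 1)

end Pool.Agent.Work.MP_33747a_co
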