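import Pool.Agent.Work.MP_33747a_co.Gadget

set_option autoImplicit false

namespace Pool.Agent.Work.MP_33747a_co

open Finset

theorem mm_a (ρ k : ℕ) :
    (mm (ρ + 1) k : ℝ) * ((ρ : ℝ) + 1 - 2 * k) = ((ρ : ℝ) + 1) * mm ρ k := by
  unfold mm
  rcases le_or_gt (2 * k) (ρ + 1) with h | h
  · have h1 := Nat.choose_mul_succ_eq ρ (2 * k)
    have h2 : ((ρ.choose (2 * k) * (ρ + 1) : ℕ) : ℝ) =
      (((ρ + 1).choose (2 * k) * (ρ + 1 - 2 * k) : ℕ) : ℝ) := by rw [h1]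
    push_cast [h] at h2 ⊢
    linear_combination (-((2 * k - 1).doubleFactorial : ℝ)) * h2
  · rw [Nat.choose_eq_zero_of_lt h, Nat.choose_eq_zero_of_lt (by omega)]
    simp

theorem mm_b (ρ k : ℕ) :
    (mm (ρ + 2) (k + 1) : ℝ) * (2 * k + 2) = ((ρ : ℝ) + 2) * ((ρ : ℝ) + 1) * mm ρ k := by
  unfold mm
  rw [dfac_succ]
  have h1 := Nat.add_one_mul_choose_eq ρ (2 * k)
  have h2 := Nat.add_one_mul_choose_eq (ρ + 1) (2 * k + 1)
  have h3 : (((ρ + 1) * ρ.choose (2 * k) : ℕ) : ℝ) =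
    (((ρ + 1).choose (2 * k + 1) * (2 * k + 1) : ℕ) : ℝ) := by rw [h1]
  have h4 : (((ρ + 1 + 1) * (ρ + 1).choose (2 * k + 1) : ℕ) : ℝ) =
    (((ρ + 1 + 1).choose (2 * k + 1 + 1) * (2 * k + 1 + 1) : ℕ) : ℝ) := by rw [h2]
  rw [show 2 * (k + 1) = 2 * k + 1 + 1 by ring, show ρ + 2 = ρ + 1 + 1 by ring]
  push_cast at h3 h4 ⊢
  linear_combination (-((2 * k - 1).doubleFactorial : ℝ) * (2 * k + 1)) * h4 -
    (((2 * k - 1).doubleFactorial : ℝ) * (ρ + 2)) * h3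

theorem mm_A (ρ k u : ℕ) : (mm (ρ + u) k : ℝ) * ∏ l ∈ range u, ((ρ : ℝ) + 1 + l - 2 * k) =
    mm ρ k * ∏ l ∈ range u, ((ρ : ℝ) + 1 + l) := by
  induction u with
  | zero => simp
  | succ u ih =>
    rw [prod_range_succ, prod_range_succ, ← add_assoc]
    have := mm_a (ρ + u) k
    push_cast at this
    linear_combination (∏ l ∈ range u, ((ρ : ℝ) + 1 + l - 2 * k)) * this + ((ρ : ℝ) + 1 + u) * ih

theorem mm_AB' (ρ k u i : ℕ) : (mm (ρ + u + 2 * i) (k + i) : ℝ) *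
    (∏ l ∈ range i, (2 * (k : ℝ) + 2 + 2 * l)) * ∏ l ∈ range u, ((ρ : ℝ) + 1 + l - 2 * k) =
    mm ρ k * ∏ l ∈ range (u + 2 * i), ((ρ : ℝ) + 1 + l) := by
  induction i with
  | zero => simpa using mm_A ρ k u
  | succ i ih =>
    rw [show u + 2 * (i + 1) = u + 2 * i + 1 + 1 by ring, prod_range_succ, prod_range_succ,
      prod_range_succ, show ρ + u + 2 * (i + 1) = ρ + u + 2 * i + 2 by ring, ← add_assoc k]
    have := mm_b (ρ + u + 2 * i) (k + i)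
    push_cast at this ⊢
    linear_combination ((∏ l ∈ range i, (2 * (k : ℝ) + 2 + 2 * l)) *
      ∏ l ∈ range u, ((ρ : ℝ) + 1 + l - 2 * k)) * this +
      (((ρ : ℝ) + u + 2 * i + 2) * ((ρ : ℝ) + u + 2 * i + 1)) * ih

theorem mm_AB (ρ k u i N K : ℕ) (hN : N = ρ + u + 2 * i) (hK : K = k + i) : (mm N K : ℝ) *
    (∏ l ∈ range i, (2 * (k : ℝ) + 2 + 2 * l)) * ∏ l ∈ range u, ((ρ : ℝ) + 1 + l - 2 * k) =
    mm ρ k * ∏ l ∈ range (u + 2 * i), ((ρ : ℝ) + 1 + l) := by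
  rw [hN, hK]; exact mm_AB' ρ k u i

theorem mm_pos {ρ k : ℕ} (h : 2 * k ≤ ρ) : (0 : ℝ) < mm ρ k :=
  Nat.cast_pos.2 (Nat.mul_pos (Nat.choose_pos h) (Nat.doubleFactorial_pos _))

noncomputable def Poly (R K : ℝ) : ℝ :=
  1 * (R + 7 - 2 * K) * (R + 6 - 2 * K) * (R + 5 - 2 * K) * (R + 4 - 2 * K) * (R + 3 - 2 * K) * (R + 2 - 2 * K) * (R + 1 - 2 * K)
    + 3 * R ^ 1 * (2 * K) * (R + 7 - 2 * K) * (R + 6 - 2 * K) * (R + 5 - 2 * K) * (R + 4 - 2 * K) * (R + 3 - 2 * K)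
    + 475 / 216 * R ^ 2 * (2 * K) * (2 * K - 2) * (R + 7 - 2 * K) * (R + 6 - 2 * K) * (R + 5 - 2 * K)
    + 25 / 72 * R ^ 3 * (2 * K) * (2 * K - 2) * (2 * K - 4) * (R + 7 - 2 * K)
    + 1 * (2 * K) * (R + 7 - 2 * K) * (R + 6 - 2 * K) * (R + 5 - 2 * K) * (R + 4 - 2 * K) * (R + 3 - 2 * K) * (R + 2 - 2 * K)
    + 41 / 18 * R ^ 1 * (2 * K) * (2 * K - 2) * (R + 7 - 2 * K) * (R + 6 - 2 * K) * (R + 5 - 2 * K) * (R + 4 - 2 * K)
    + 109 / 108 * R ^ 2 * (2 * K) * (2 * K - 2) * (2 * K - 4) * (R + 7 - 2 * K) * (R + 6 - 2 * K)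
    + 127 / 2916 * R ^ 3 * (2 * K) * (2 * K - 2) * (2 * K - 4) * (2 * K - 6)
    + 13 / 36 * (2 * K) * (2 * K - 2) * (R + 7 - 2 * K) * (R + 6 - 2 * K) * (R + 5 - 2 * K) * (R + 4 - 2 * K) * (R + 3 - 2 * K)
    + 67 / 108 * R ^ 1 * (2 * K) * (2 * K - 2) * (2 * K - 4) * (R + 7 - 2 * K) * (R + 6 - 2 * K) * (R + 5 - 2 * K)
    + 95 / 648 * R ^ 2 * (2 * K) * (2 * K - 2) * (2 * K - 4) * (2 * K - 6) * (R + 7 - 2 * K)
    + 1 / 18 * (2 * K) * (2 * K - 2) * (2 * K - 4) * (R + 7 - 2 * K) * (R + 6 - 2 * K) * (R + 5 - 2 * K) * (R + 4 - 2 * K)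
    + 23 / 324 * R ^ 1 * (2 * K) * (2 * K - 2) * (2 * K - 4) * (2 * K - 6) * (R + 7 - 2 * K) * (R + 6 - 2 * K)
    + 5 / 972 * R ^ 2 * (2 * K) * (2 * K - 2) * (2 * K - 4) * (2 * K - 6) * (2 * K - 8)
    + 1 / 324 * (2 * K) * (2 * K - 2) * (2 * K - 4) * (2 * K - 6) * (R + 7 - 2 * K) * (R + 6 - 2 * K) * (R + 5 - 2 * K)
    + 1 / 324 * R ^ 1 * (2 * K) * (2 * K - 2) * (2 * K - 4) * (2 * K - 6) * (2 * K - 8) * (R + 7 - 2 * K)

noncomputable def QQ (R : ℝ) : ℝ :=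
  (R + 1) * (R + 2) * (R + 3) * (R + 4) * (R + 5) * (R + 6) * (R + 7)

theorem GG7 (W : Fin 4 → Fin 4 → ℝ) (β : ℝ) (h00 : W 0 0 = 1 / 3) (h01 : W 0 1 = 1 / 9)
    (h02 : W 0 2 = 1 / 18) (h03 : W 0 3 = 0) (h11 : W 1 1 = 1 / 3) (h12 : W 1 2 = 1 / 12)
    (h13 : W 1 3 = β / 6) (h22 : W 2 2 = 1 / 3) (h23 : W 2 3 = β / 3) (h33 : W 3 3 = β)
    (r k : ℕ) : GG W 7 3 2 2 (r + 4) (k + 7) = β ^ k *
      (1 * β ^ 7 * (mm (r + 4) (k + 7) : ℝ)
      + 3 * β ^ 6 * (mm (r + 4) (k + 6) : ℝ)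
      + 475 / 216 * β ^ 5 * (mm (r + 4) (k + 5) : ℝ)
      + 25 / 72 * β ^ 4 * (mm (r + 4) (k + 4) : ℝ)
      + 1 * ((r : ℝ) + 4) * β ^ 7 * (mm (r + 3) (k + 6) : ℝ)
      + 41 / 18 * ((r : ℝ) + 4) * β ^ 6 * (mm (r + 3) (k + 5) : ℝ)
      + 109 / 108 * ((r : ℝ) + 4) * β ^ 5 * (mm (r + 3) (k + 4) : ℝ)
      + 127 / 2916 * ((r : ℝ) + 4) * β ^ 4 * (mm (r + 3) (k + 3) : ℝ)
      + 13 / 36 * ((r : ℝ) + 4) * ((r : ℝ) + 3) * β ^ 7 * (mm (r + 2) (k + 5) : ℝ)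
      + 67 / 108 * ((r : ℝ) + 4) * ((r : ℝ) + 3) * β ^ 6 * (mm (r + 2) (k + 4) : ℝ)
      + 95 / 648 * ((r : ℝ) + 4) * ((r : ℝ) + 3) * β ^ 5 * (mm (r + 2) (k + 3) : ℝ)
      + 1 / 18 * ((r : ℝ) + 4) * ((r : ℝ) + 3) * ((r : ℝ) + 2) * β ^ 7 * (mm (r + 1) (k + 4) : ℝ)
      + 23 / 324 * ((r : ℝ) + 4) * ((r : ℝ) + 3) * ((r : ℝ) + 2) * β ^ 6 * (mm (r + 1) (k + 3) : ℝ)
      + 5 / 972 * ((r : ℝ) + 4) * ((r : ℝ) + 3) * ((r : ℝ) + 2) * β ^ 5 * (mm (r + 1) (k + 2) : ℝ)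
      + 1 / 324 * ((r : ℝ) + 4) * ((r : ℝ) + 3) * ((r : ℝ) + 2) * ((r : ℝ) + 1) * β ^ 7 * (mm (r + 0) (k + 3) : ℝ)
      + 1 / 324 * ((r : ℝ) + 4) * ((r : ℝ) + 3) * ((r : ℝ) + 2) * ((r : ℝ) + 1) * β ^ 6 * (mm (r + 0) (k + 2) : ℝ)) := by
  simp only [GG, h00, h01, h02, h03, h11, h12, h13, h22, h23, h33, Nat.add_succ_sub_one,
    Nat.reduceSub, zero_mul, mul_zero, add_zero, Nat.cast_zero, zero_add]
  push_cast
  ring

set_option maxRecDepth 20000 in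
theorem GG7_eq (W : Fin 4 → Fin 4 → ℝ) (r k : ℕ) (h00 : W 0 0 = 1 / 3) (h01 : W 0 1 = 1 / 9)
    (h02 : W 0 2 = 1 / 18) (h03 : W 0 3 = 0) (h11 : W 1 1 = 1 / 3) (h12 : W 1 2 = 1 / 12)
    (h13 : W 1 3 = 1 / ((r : ℝ) + 4) / 6) (h22 : W 2 2 = 1 / 3)
    (h23 : W 2 3 = 1 / ((r : ℝ) + 4) / 3) (h33 : W 3 3 = 1 / ((r : ℝ) + 4)) :
    GG W 7 3 2 2 (r + 4) (k + 7) * QQ (r + 4) =
      (1 / ((r : ℝ) + 4)) ^ (k + 7) * mm (r + 11) (k + 7) * Poly (r + 4) (k + 7) := by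
  rw [GG7 W _ h00 h01 h02 h03 h11 h12 h13 h22 h23 h33, pow_add]
  have i0 := mm_AB (r + 4) (k + 7) 7 0 (r + 11) (k + 7) (by ring) (by ring)
  have i1 := mm_AB (r + 4) (k + 6) 5 1 (r + 11) (k + 7) (by ring) (by ring)
  have i2 := mm_AB (r + 4) (k + 5) 3 2 (r + 11) (k + 7) (by ring) (by ring)
  have i3 := mm_AB (r + 4) (k + 4) 1 3 (r + 11) (k + 7) (by ring) (by ring)
  have i4 := mm_AB (r + 3) (k + 6) 6 1 (r + 11) (k + 7) (by ring) (by ring)
  have i5 := mm_AB (r + 3) (k + 5) 4 2 (r + 11) (k + 7) (by ring) (by ring)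
  have i6 := mm_AB (r + 3) (k + 4) 2 3 (r + 11) (k + 7) (by ring) (by ring)
  have i7 := mm_AB (r + 3) (k + 3) 0 4 (r + 11) (k + 7) (by ring) (by ring)
  have i8 := mm_AB (r + 2) (k + 5) 5 2 (r + 11) (k + 7) (by ring) (by ring)
  have i9 := mm_AB (r + 2) (k + 4) 3 3 (r + 11) (k + 7) (by ring) (by ring)
  have i10 := mm_AB (r + 2) (k + 3) 1 4 (r + 11) (k + 7) (by ring) (by ring)
  have i11 := mm_AB (r + 1) (k + 4) 4 3 (r + 11) (k + 7) (by ring) (by ring)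
  have i12 := mm_AB (r + 1) (k + 3) 2 4 (r + 11) (k + 7) (by ring) (by ring)
  have i13 := mm_AB (r + 1) (k + 2) 0 5 (r + 11) (k + 7) (by ring) (by ring)
  have i14 := mm_AB (r + 0) (k + 3) 3 4 (r + 11) (k + 7) (by ring) (by ring)
  have i15 := mm_AB (r + 0) (k + 2) 1 5 (r + 11) (k + 7) (by ring) (by ring)
  simp only [Nat.reduceMul, Nat.reduceAdd, add_zero] at i0 i1 i2 i3 i4 i5 i6 i7 i8 i9 i10 i11 i12 i13 i14 i15
  simp only [prod_range_succ, prod_range_zero] at i0 i1 i2 i3 i4 i5 i6 i7 i8 i9 i10 i11 i12 i13 i14 i15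
  push_cast at i0 i1 i2 i3 i4 i5 i6 i7 i8 i9 i10 i11 i12 i13 i14 i15 ⊢
  have hr : (r : ℝ) + 4 ≠ 0 := by positivity
  unfold QQ Poly
  generalize (1 / ((r : ℝ) + 4)) ^ k = γ
  have b6 : (1 / ((r : ℝ) + 4)) ^ 6 = (1 / ((r : ℝ) + 4)) ^ 7 * ((r : ℝ) + 4) := by field_simp
  have b5 : (1 / ((r : ℝ) + 4)) ^ 5 = (1 / ((r : ℝ) + 4)) ^ 7 * ((r : ℝ) + 4) ^ 2 := by field_simp
  have b4 : (1 / ((r : ℝ) + 4)) ^ 4 = (1 / ((r : ℝ) + 4)) ^ 7 * ((r : ℝ) + 4) ^ 3 := by field_simp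
  rw [b6, b5, b4]
  generalize (1 / ((r : ℝ) + 4)) ^ 7 = δ
  linear_combination (-γ * δ) * (1 * ((r : ℝ) + 4) ^ 0 * i0 + 3 * ((r : ℝ) + 4) ^ 1 * i1 + 475 / 216 * ((r : ℝ) + 4) ^ 2 * i2 + 25 / 72 * ((r : ℝ) + 4) ^ 3 * i3 + 1 * ((r : ℝ) + 4) ^ 0 * i4 + 41 / 18 * ((r : ℝ) + 4) ^ 1 * i5 + 109 / 108 * ((r : ℝ) + 4) ^ 2 * i6 + 127 / 2916 * ((r : ℝ) + 4) ^ 3 * i7 + 13 / 36 * ((r : ℝ) + 4) ^ 0 * i8 + 67 / 108 * ((r : ℝ) + 4) ^ 1 * i9 + 95 / 648 * ((r : ℝ) + 4) ^ 2 * i10 + 1 / 18 * ((r : ℝ) + 4) ^ 0 * i11 + 23 / 324 * ((r : ℝ) + 4) ^ 1 * i12 + 5 / 972 * ((r : ℝ) + 4) ^ 2 * i13 + 1 / 324 * ((r : ℝ) + 4) ^ 0 * i14 + 1 / 324 * ((r : ℝ) + 4) ^ 1 * i15)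

theorem poly_big (x y : ℝ) (hx : 0 ≤ x) (hy : 0 ≤ y) (d n R : ℝ) (hd : d = 1 + x)
    (hn : n = 140 * (1 + x) + y) (hR : R = 2 * n - 7) :
    2009 / 100 * Poly R (n - d) * R ^ 3 <
      (R ^ 3 - ((12 - 6 * d) * R ^ 2 + (18 * d - 9) * R + (378 - 108 * d))) * QQ R := by
  rw [← sub_pos]
  have : (R ^ 3 - ((12 - 6 * d) * R ^ 2 + (18 * d - 9) * R + (378 - 108 * d))) * QQ R -
      2009 / 100 * Poly R (n - d) * R ^ 3 =
      (24124206237565810967031 / 25 + y * (22492820649325599994891 / 50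
      + y * (2037564104963566662187 / 75 + y * (115297632317483313191 / 150
      + y * (8684228861947168706 / 675 + y * (281957109640704722 / 2025
      + y * (6121128111742616 / 6075 + y * (88744295161784 / 18225 + y * (276009041696 / 18225
      + y * (501131488 / 18225 + y * (404608 / 18225)))))))))))
      + x * ((693422788882651118910073 / 50 + y * (327131304704952308408027 / 75
      + y * (3413048675040065900981 / 15 + y * (7522675969824464937361 / 1350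
      + y * (160973739544830444463 / 2025 + y * (482254353941925796 / 675
      + y * (75204498042037784 / 18225 + y * (272124789606232 / 18225 + y * (62614617712 / 2025
      + y * (511091584 / 18225)))))))))) + x * ((5906284466249127729401521 / 75
      + y * (463708024942166309696804 / 25 + y * (20707492006370192756348 / 25
      + y * (6981700979676900454327 / 405 + y * (82622141171673004342 / 405
      + y * (8885915978776670848 / 6075 + y * (115256910647163488 / 18225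
      + y * (92552962110448 / 6075 + y * (95735021536 / 6075)))))))))
      + x * ((12310164571212874234402569 / 50 + y * (61398552795612642370230533 / 1350
      + y * (3467911658908504373685049 / 2025 + y * (179254924976363600588756 / 6075
      + y * (5073261739707906971408 / 18225 + y * (1088868512480304920 / 729
      + y * (15669589654034512 / 3645 + y * (94272309028352 / 18225))))))))
      + x * ((324472121266693760374527247 / 675 + y * (143659741904651306715210221 / 2025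
      + y * (19802605898724289352950 / 9 + y * (110022112518926629434616 / 3645
      + y * (776463566923094389472 / 3645 + y * (4621848058525770352 / 6075
      + y * (19932105705104096 / 18225))))))) + x * ((1254891060059445181217016718 / 2025
      + y * (147946181428151860155660076 / 2025 + y * (10930521440894443440041024 / 6075
      + y * (67269693523458492092992 / 3645 + y * (526620841881496917856 / 6075
      + y * (939441846785855168 / 6075)))))) + x * ((652904523653890111759623328 / 1215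
      + y * (905702365191040289622068648 / 18225 + y * (16669006229960582095972976 / 18225
      + y * (113817743748871996243424 / 18225 + y * (267099554172325620032 / 18225)))))
      + x * ((1130796521439425528444123584 / 3645 + y * (78487735581624097079374016 / 3645
      + y * (321067886337843464146432 / 1215 + y * (3288828923168733839104 / 3645))))
      + x * ((83160857486191008713444864 / 729 + y * (1310409190909260952470016 / 243
      + y * (896990760108719381504 / 27))) + x * ((17531060718475206006845440 / 729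
      + y * (433393376602142572564480 / 729)) + x * (1597440825570059033804800 / 729)))))))))) := by
    subst hR hn hd
    unfold QQ Poly
    ring
  rw [this]
  positivity

theorem poly_big0 (y : ℝ) (hy : 0 ≤ y) (d n R : ℝ) (hd : d = 0)
    (hn : n = 50 + y) (hR : R = 2 * n - 7) :
    2009 / 100 * Poly R (n - d) * R ^ 3 <
      (R ^ 3 - ((12 - 6 * d) * R ^ 2 + (18 * d - 9) * R + (378 - 108 * d))) * QQ R := by
  rw [← sub_pos]
  have : (R ^ 3 - ((12 - 6 * d) * R ^ 2 + (18 * d - 9) * R + (378 - 108 * d))) * QQ R -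
      2009 / 100 * Poly R (n - d) * R ^ 3 =
      644965940305298976
      + 4118370044291940438 / 25 * y ^ 1
      + 1350137462605511357 / 75 * y ^ 2
      + 253397058652400284 / 225 * y ^ 3
      + 30426076489839563 / 675 * y ^ 4
      + 2455887245285278 / 2025 * y ^ 5
      + 45147627832832 / 2025 * y ^ 6
      + 5051812976944 / 18225 * y ^ 7
      + 40718903696 / 18225 * y ^ 8
      + 192343904 / 18225 * y ^ 9
      + 404608 / 18225 * y ^ 10 := by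
    subst hR hn hd
    unfold QQ Poly
    ring
  rw [this]
  positivity

end Pool.Agent.Work.MP_33747a_co
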