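import Pool.Agent.Work.MP_33747a_co.Defs

-- merged part: Pool.Agent.Work.MP_33747a_co.Rec
section
set_option autoImplicit false

namespace Pool.Agent.Work.MP_33747a_co

open Finset Classical

variable {N : ℕ}

/-- matchings of size `k` inside `S` -/
noncomputable def fam (S : Finset (Fin N)) (k : ℕ) : Finset (Finset (Fin N × Fin N)) :=
  univ.filter fun M => (IsMatching M ∧ M.card = k) ∧ ∀ e ∈ M, e.1 ∈ S ∧ e.2 ∈ S

theorem mem_fam {S : Finset (Fin N)} {k : ℕ} {M : Finset (Fin N × Fin N)} :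
    M ∈ fam S k ↔ (IsMatching M ∧ M.card = k) ∧ ∀ e ∈ M, e.1 ∈ S ∧ e.2 ∈ S := by
  simp [fam]

noncomputable def HS (B : Matrix (Fin N) (Fin N) ℝ) (S : Finset (Fin N)) (k : ℕ) : ℝ :=
  ∑ M ∈ fam S k, ∏ e ∈ M, B e.1 e.2

theorem haf_eq (k : ℕ) (B : Matrix (Fin N) (Fin N) ℝ) : haf k B = HS B univ k := by
  unfold haf HS
  refine sum_congr ?_ fun _ _ => rfl
  ext M; simp [mem_fam]

theorem HS_zero (B : Matrix (Fin N) (Fin N) ℝ) (S : Finset (Fin N)) : HS B S 0 = 1 := by
  have : fam S 0 = {∅} := by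
    ext M
    simp only [mem_fam, card_eq_zero, mem_singleton]
    constructor
    · exact fun h => h.1.2
    · rintro rfl; simp [IsMatching]
  unfold HS; rw [this]; simp

theorem HS_empty (B : Matrix (Fin N) (Fin N) ℝ) (k : ℕ) : HS B ∅ (k + 1) = 0 := by
  have : fam (∅ : Finset (Fin N)) (k + 1) = ∅ := by
    ext M
    simp only [mem_fam, notMem_empty, iff_false]
    rintro ⟨⟨_, h1⟩, h2⟩
    obtain ⟨e, he⟩ : M.Nonempty := card_pos.1 (by omega)
    exact (h2 e he).1
  unfold HS; rw [this]; simp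

/-- the edge joining `v` and `u` -/
def edg (v u : Fin N) : Fin N × Fin N := if v < u then (v, u) else (u, v)

theorem edg_cases (v u : Fin N) : edg v u = (v, u) ∨ edg v u = (u, v) := by
  unfold edg; split_ifs <;> simp

theorem edg_lt {v u : Fin N} (h : u ≠ v) : (edg v u).1 < (edg v u).2 := by
  unfold edg; split_ifs with h1
  · exact h1
  · exact lt_of_le_of_ne (not_lt.1 h1) h

theorem eq_edg {v : Fin N} {e : Fin N × Fin N} (h : e.1 < e.2) (hv : e.1 = v ∨ e.2 = v) :
    ∃ u, u ≠ v ∧ e = edg v u ∧ (e.1 = u ∨ e.2 = u) := by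
  obtain ⟨a, b⟩ := e
  rcases hv with hv | hv
  · simp only at hv h; subst hv
    exact ⟨b, h.ne', by simp [edg, h], Or.inr rfl⟩
  · simp only at hv h; subst hv
    exact ⟨a, h.ne, by simp [edg, not_lt.2 h.le], Or.inl rfl⟩

theorem HS_edge (B : Matrix (Fin N) (Fin N) ℝ) (hB : ∀ i j, B i j = B j i) (S : Finset (Fin N))
    {v u : Fin N} (hv : v ∈ S) (hu : u ∈ S) (huv : u ≠ v) (k : ℕ) :
    ∑ M ∈ (fam S (k + 1)).filter (fun M => edg v u ∈ M), ∏ e ∈ M, B e.1 e.2 =
      B v u * HS B ((S.erase v).erase u) k := by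
  have hw : B (edg v u).1 (edg v u).2 = B v u := by
    rcases edg_cases v u with h | h <;> rw [h]
    exact hB _ _
  have hnot : ∀ M ∈ fam ((S.erase v).erase u) k, edg v u ∉ M := by
    intro M hM he
    have := (mem_fam.1 hM).2 _ he
    rcases edg_cases v u with h | h <;> rw [h] at this <;> simp at this
  unfold HS
  rw [mul_sum]
  symm
  refine sum_bij' (fun M _ => insert (edg v u) M) (fun M _ => M.erase (edg v u)) ?_ ?_ ?_ ?_ ?_
  · intro M hM
    obtain ⟨⟨⟨h1, h2⟩, h3⟩, h4⟩ := mem_fam.1 hM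
    have h5 : ∀ f ∈ M, f.1 ≠ u ∧ f.1 ≠ v ∧ f.2 ≠ u ∧ f.2 ≠ v := by
      intro f hf
      have := h4 f hf
      simp only [mem_erase] at this
      exact ⟨this.1.1, this.1.2.1, this.2.1, this.2.2.1⟩
    rw [mem_filter, mem_fam]
    refine ⟨⟨⟨⟨?_, ?_⟩, ?_⟩, ?_⟩, mem_insert_self _ _⟩
    · intro e he
      rcases mem_insert.1 he with rfl | he
      · exact edg_lt huv
      · exact h1 e he
    · intro e he f hf hef
      rcases mem_insert.1 he with rfl | he <;> rcases mem_insert.1 hf with rfl | hf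
      · exact absurd rfl hef
      · obtain ⟨p1, p2, p3, p4⟩ := h5 f hf
        rcases edg_cases v u with h | h <;> rw [h]
        exacts [⟨p2.symm, p4.symm, p1.symm, p3.symm⟩, ⟨p1.symm, p3.symm, p2.symm, p4.symm⟩]
      · obtain ⟨p1, p2, p3, p4⟩ := h5 e he
        rcases edg_cases v u with h | h <;> rw [h]
        exacts [⟨p2, p1, p4, p3⟩, ⟨p1, p2, p3, p4⟩]
      · exact h2 e he f hf hef
    · rw [card_insert_of_notMem (hnot M hM), h3]
    · intro e he
      rcases mem_insert.1 he with rfl | he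
      · rcases edg_cases v u with h | h <;> rw [h] <;> exact ⟨by assumption, by assumption⟩
      · have := h4 e he
        simp only [mem_erase] at this
        exact ⟨this.1.2.2, this.2.2.2⟩
  · intro M hM
    obtain ⟨hM, he⟩ := mem_filter.1 hM
    obtain ⟨⟨⟨h1, h2⟩, h3⟩, h4⟩ := mem_fam.1 hM
    rw [mem_fam]
    refine ⟨⟨⟨fun e he => h1 e (mem_of_mem_erase he), fun e he f hf =>
      h2 e (mem_of_mem_erase he) f (mem_of_mem_erase hf)⟩, ?_⟩, ?_⟩
    · rw [card_erase_of_mem he, h3]; rfl
    · intro e he'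
      obtain ⟨h5, h6⟩ := mem_erase.1 he'
      have h7 := h2 e h6 _ he h5
      have h8 := h4 e h6
      simp only [mem_erase]
      rcases edg_cases v u with h | h <;> rw [h] at h7 <;> obtain ⟨p1, p2, p3, p4⟩ := h7
      exacts [⟨⟨p2, p1, h8.1⟩, p4, p3, h8.2⟩, ⟨⟨p1, p2, h8.1⟩, p3, p4, h8.2⟩]
  · intro M hM
    exact erase_insert (hnot M hM)
  · intro M hM
    exact insert_erase (mem_filter.1 hM).2
  · intro M hM
    rw [prod_insert (hnot M hM), hw]

theorem HS_rec (B : Matrix (Fin N) (Fin N) ℝ) (hB : ∀ i j, B i j = B j i) (S : Finset (Fin N))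
    {v : Fin N} (hv : v ∈ S) (k : ℕ) :
    HS B S (k + 1) = HS B (S.erase v) (k + 1) +
      ∑ u ∈ S.erase v, B v u * HS B ((S.erase v).erase u) k := by
  have h1 : HS B (S.erase v) (k + 1) =
      ∑ M ∈ (fam S (k + 1)).filter (fun M => ∀ e ∈ M, e.1 ≠ v ∧ e.2 ≠ v), ∏ e ∈ M, B e.1 e.2 := by
    unfold HS
    refine sum_congr ?_ fun _ _ => rfl
    ext M
    simp only [mem_filter, mem_fam, mem_erase]
    constructor
    · rintro ⟨h1, h2⟩
      exact ⟨⟨h1, fun e he => ⟨(h2 e he).1.2, (h2 e he).2.2⟩⟩,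
        fun e he => ⟨(h2 e he).1.1, (h2 e he).2.1⟩⟩
    · rintro ⟨⟨h1, h2⟩, h3⟩
      exact ⟨h1, fun e he => ⟨⟨(h3 e he).1, (h2 e he).1⟩, (h3 e he).2, (h2 e he).2⟩⟩
  have h2 : ∑ u ∈ S.erase v, B v u * HS B ((S.erase v).erase u) k =
      ∑ u ∈ S.erase v, ∑ M ∈ (fam S (k + 1)).filter (fun M => edg v u ∈ M),
        ∏ e ∈ M, B e.1 e.2 :=
    sum_congr rfl fun u hu =>
      (HS_edge B hB S hv (mem_of_mem_erase hu) (ne_of_mem_erase hu) k).symm
  rw [h1, h2]
  simp only [sum_filter]
  rw [sum_comm, ← sum_add_distrib]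
  unfold HS
  refine sum_congr rfl fun M hM => ?_
  obtain ⟨⟨⟨m1, m2⟩, -⟩, m4⟩ := mem_fam.1 hM
  by_cases h : ∀ e ∈ M, e.1 ≠ v ∧ e.2 ≠ v
  · rw [if_pos h, sum_eq_zero, add_zero]
    intro u _
    rw [if_neg]
    intro he
    have := h _ he
    rcases edg_cases v u with h3 | h3 <;> rw [h3] at this <;> simp at this
  · rw [if_neg h, zero_add]
    push Not at h
    obtain ⟨e, he, hev⟩ := h
    have hev' : e.1 = v ∨ e.2 = v := by tauto
    obtain ⟨u, hu1, hu2, hu3⟩ := eq_edg (m1 e he) hev'
    have huS : u ∈ S.erase v := by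
      rw [mem_erase]
      refine ⟨hu1, ?_⟩
      rcases hu3 with h3 | h3 <;> rw [← h3]
      · exact (m4 e he).1
      · exact (m4 e he).2
    rw [sum_eq_single_of_mem u huS]
    · rw [if_pos (hu2 ▸ he)]
    · intro w hw hwu
      rw [if_neg]
      intro hw'
      have hne : edg v w ≠ edg v u := by
        intro h3
        have hwv := ne_of_mem_erase hw
        rcases edg_cases v w with h4 | h4 <;> rcases edg_cases v u with h5 | h5 <;>
          rw [h4, h5] at h3 <;> simp only [Prod.mk.injEq] at h3 <;> tauto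
      have := m2 _ hw' _ (hu2 ▸ he) hne
      rcases edg_cases v w with h4 | h4 <;> rcases edg_cases v u with h5 | h5 <;>
        rw [h4, h5] at this <;> simp at this

/-- number of `k`-matchings of the complete graph on `ρ` vertices -/
def mm (ρ k : ℕ) : ℕ := ρ.choose (2 * k) * (2 * k - 1).doubleFactorial

theorem mm_zero (ρ : ℕ) : mm ρ 0 = 1 := by simp [mm]

theorem mm_zero_succ (k : ℕ) : mm 0 (k + 1) = 0 := by
  unfold mm; rw [Nat.choose_eq_zero_of_lt (by omega), zero_mul]

theorem dfac_succ (k : ℕ) :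
    (2 * (k + 1) - 1).doubleFactorial = (2 * k + 1) * (2 * k - 1).doubleFactorial := by
  cases k with
  | zero => rfl
  | succ k =>
    have e1 : 2 * (k + 1 + 1) - 1 = (2 * k + 1) + 2 := by omega
    have e2 : 2 * (k + 1) - 1 = 2 * k + 1 := by omega
    rw [e1, e2, Nat.doubleFactorial_add_two]
    ring

theorem mm_succ (ρ k : ℕ) : mm (ρ + 1) (k + 1) = mm ρ (k + 1) + ρ * mm (ρ - 1) k := by
  unfold mm
  rw [dfac_succ, show 2 * (k + 1) = (2 * k + 1) + 1 by ring, Nat.choose_succ_succ']
  cases ρ with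
  | zero => simp
  | succ ρ =>
    have := Nat.add_one_mul_choose_eq ρ (2 * k)
    simp only [Nat.add_sub_cancel]
    calc ((ρ + 1).choose (2 * k + 1) + (ρ + 1).choose (2 * k + 1 + 1)) *
          ((2 * k + 1) * (2 * k - 1).doubleFactorial)
        = (ρ + 1).choose (2 * k + 1 + 1) * ((2 * k + 1) * (2 * k - 1).doubleFactorial) +
          ((ρ + 1).choose (2 * k + 1) * (2 * k + 1)) * (2 * k - 1).doubleFactorial := by ring
      _ = _ := by rw [← this]; ring

theorem HS_const (B : Matrix (Fin N) (Fin N) ℝ) (hB : ∀ i j, B i j = B j i) (β : ℝ) :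
    ∀ (ρ : ℕ) (S : Finset (Fin N)), S.card = ρ → (∀ i ∈ S, ∀ j ∈ S, i ≠ j → B i j = β) →
      ∀ k, HS B S k = β ^ k * mm ρ k := by
  intro ρ
  induction ρ using Nat.strong_induction_on with
  | _ ρ ih =>
    intro S hS hb k
    cases k with
    | zero => simp [HS_zero, mm_zero]
    | succ k =>
      cases ρ with
      | zero =>
        rw [card_eq_zero.1 hS, HS_empty, mm_zero_succ]; simp
      | succ ρ =>
        obtain ⟨v, hv⟩ : S.Nonempty := card_pos.1 (by omega)
        have hc : (S.erase v).card = ρ := by rw [card_erase_of_mem hv, hS]; rfl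
        rw [HS_rec B hB S hv k, ih ρ (Nat.lt_succ_self ρ) _ hc
          (fun i hi j hj => hb i (mem_of_mem_erase hi) j (mem_of_mem_erase hj)),
          sum_congr rfl (g := fun _ => β * (β ^ k * mm (ρ - 1) k)), sum_const, hc, mm_succ]
        · push_cast; ring
        · intro u hu
          rw [hb v hv u (mem_of_mem_erase hu) (ne_of_mem_erase hu).symm,
            ih (ρ - 1) (by omega) _ (by rw [card_erase_of_mem hu, hc])
            (fun i hi j hj => hb i (mem_of_mem_erase (mem_of_mem_erase hi)) j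
              (mem_of_mem_erase (mem_of_mem_erase hj)))]

end Pool.Agent.Work.MP_33747a_co
end

-- merged part: Pool.Agent.Work.MP_33747a_co.Block
section
set_option autoImplicit false

namespace Pool.Agent.Work.MP_33747a_co

open Finset

variable {N : ℕ}

/-- the hafnians of a matrix that is constant on the blocks of four classes -/
noncomputable def GG (W : Fin 4 → Fin 4 → ℝ) : ℕ → ℕ → ℕ → ℕ → ℕ → ℕ → ℝ
  | 0, _, _, _, ρ, k => W 3 3 ^ k * mm ρ k
  | _ + 1, _, _, _, _, 0 => 1
  | s + 1, a + 1, b, c, ρ, k + 1 => GG W s a b c ρ (k + 1) + (a * (W 0 0 * GG W s (a - 1) b c ρ k) +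
      b * (W 0 1 * GG W s a (b - 1) c ρ k) + c * (W 0 2 * GG W s a b (c - 1) ρ k) +
      ρ * (W 0 3 * GG W s a b c (ρ - 1) k))
  | s + 1, 0, b + 1, c, ρ, k + 1 => GG W s 0 b c ρ (k + 1) +
      (b * (W 1 1 * GG W s 0 (b - 1) c ρ k) + c * (W 1 2 * GG W s 0 b (c - 1) ρ k) +
      ρ * (W 1 3 * GG W s 0 b c (ρ - 1) k))
  | s + 1, 0, 0, c + 1, ρ, k + 1 => GG W s 0 0 c ρ (k + 1) +
      (c * (W 2 2 * GG W s 0 0 (c - 1) ρ k) + ρ * (W 2 3 * GG W s 0 0 c (ρ - 1) k))
  | _ + 1, 0, 0, 0, ρ, k + 1 => W 3 3 ^ (k + 1) * mm ρ (k + 1)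

def cnt (cl : Fin N → Fin 4) (S : Finset (Fin N)) (c : Fin 4) : ℕ :=
  (S.filter fun i => cl i = c).card

theorem cnt_erase (cl : Fin N → Fin 4) {S : Finset (Fin N)} {u : Fin N} (hu : u ∈ S) (c : Fin 4) :
    cnt cl (S.erase u) c = if cl u = c then cnt cl S c - 1 else cnt cl S c := by
  unfold cnt
  rw [filter_erase]
  split_ifs with h
  · rw [card_erase_of_mem (mem_filter.2 ⟨hu, h⟩)]
  · rw [erase_eq_of_notMem]
    intro h'
    exact h (mem_filter.1 h').2

theorem sum_cl (cl : Fin N → Fin 4) (S : Finset (Fin N)) (F : Fin 4 → ℝ) :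
    ∑ u ∈ S, F (cl u) = cnt cl S 0 * F 0 + cnt cl S 1 * F 1 + cnt cl S 2 * F 2 +
      cnt cl S 3 * F 3 := by
  rw [← sum_fiberwise S cl, Fin.sum_univ_four]
  have : ∀ c, ∑ u ∈ S with cl u = c, F (cl u) = cnt cl S c * F c := by
    intro c
    rw [sum_congr rfl (g := fun _ => F c) (fun u hu => by rw [(mem_filter.1 hu).2]), sum_const,
      nsmul_eq_mul]
    rfl
  simp only [this]

theorem exists_cl {cl : Fin N → Fin 4} {S : Finset (Fin N)} {c : Fin 4} {a : ℕ}
    (h : cnt cl S c = a + 1) : ∃ v ∈ S, cl v = c := by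
  obtain ⟨v, hv⟩ : (S.filter fun i => cl i = c).Nonempty := card_pos.1 (by unfold cnt at h; omega)
  exact ⟨v, (mem_filter.1 hv).1, (mem_filter.1 hv).2⟩

theorem HS_last (B : Matrix (Fin N) (Fin N) ℝ) (hB : ∀ i j, B i j = B j i) (cl : Fin N → Fin 4)
    (W : Fin 4 → Fin 4 → ℝ) (hW : ∀ i j, i ≠ j → B i j = W (cl i) (cl j)) (S : Finset (Fin N))
    (h0 : cnt cl S 0 = 0) (h1 : cnt cl S 1 = 0) (h2 : cnt cl S 2 = 0) (k : ℕ) :
    HS B S k = W 3 3 ^ k * mm (cnt cl S 3) k := by
  have h3 : ∀ i ∈ S, cl i = 3 := by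
    intro i hi
    unfold cnt at h0 h1 h2
    rw [card_eq_zero, filter_eq_empty_iff] at h0 h1 h2
    have a0 := h0 hi
    have a1 := h1 hi
    have a2 := h2 hi
    revert a0 a1 a2
    generalize cl i = c
    revert c
    decide
  refine HS_const B hB _ _ S ?_ (fun i hi j hj hij => by rw [hW i j hij, h3 i hi, h3 j hj]) k
  unfold cnt
  rw [filter_true_of_mem h3]

theorem HS_block (B : Matrix (Fin N) (Fin N) ℝ) (hB : ∀ i j, B i j = B j i) (cl : Fin N → Fin 4)
    (W : Fin 4 → Fin 4 → ℝ) (hW : ∀ i j, i ≠ j → B i j = W (cl i) (cl j)) :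
    ∀ (s : ℕ) (S : Finset (Fin N)) (k : ℕ), cnt cl S 0 + cnt cl S 1 + cnt cl S 2 ≤ s →
      HS B S k = GG W s (cnt cl S 0) (cnt cl S 1) (cnt cl S 2) (cnt cl S 3) k := by
  intro s
  induction s with
  | zero =>
    intro S k h
    rw [HS_last B hB cl W hW S (by omega) (by omega) (by omega), GG]
  | succ s ih =>
    intro S k h
    cases k with
    | zero => rw [HS_zero, GG]
    | succ k =>
      have step : ∀ v ∈ S, cnt cl (S.erase v) 0 + cnt cl (S.erase v) 1 + cnt cl (S.erase v) 2 ≤ s →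
          HS B S (k + 1) = GG W s (cnt cl (S.erase v) 0) (cnt cl (S.erase v) 1)
            (cnt cl (S.erase v) 2) (cnt cl (S.erase v) 3) (k + 1) +
          (cnt cl (S.erase v) 0 * (W (cl v) 0 * GG W s (cnt cl (S.erase v) 0 - 1)
            (cnt cl (S.erase v) 1) (cnt cl (S.erase v) 2) (cnt cl (S.erase v) 3) k) +
          cnt cl (S.erase v) 1 * (W (cl v) 1 * GG W s (cnt cl (S.erase v) 0)
            (cnt cl (S.erase v) 1 - 1) (cnt cl (S.erase v) 2) (cnt cl (S.erase v) 3) k) +
          cnt cl (S.erase v) 2 * (W (cl v) 2 * GG W s (cnt cl (S.erase v) 0)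
            (cnt cl (S.erase v) 1) (cnt cl (S.erase v) 2 - 1) (cnt cl (S.erase v) 3) k) +
          cnt cl (S.erase v) 3 * (W (cl v) 3 * GG W s (cnt cl (S.erase v) 0)
            (cnt cl (S.erase v) 1) (cnt cl (S.erase v) 2) (cnt cl (S.erase v) 3 - 1) k)) := by
        intro v hv hs
        rw [HS_rec B hB S hv k, ih _ _ hs]
        congr 1
        set T := S.erase v with hT
        let F : Fin 4 → ℝ := fun c => W (cl v) c * GG W s
          (if c = 0 then cnt cl T 0 - 1 else cnt cl T 0)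
          (if c = 1 then cnt cl T 1 - 1 else cnt cl T 1)
          (if c = 2 then cnt cl T 2 - 1 else cnt cl T 2)
          (if c = 3 then cnt cl T 3 - 1 else cnt cl T 3) k
        rw [sum_congr rfl (g := fun u => F (cl u)), sum_cl]
        · simp [F]
        · intro u hu
          rw [hW v u (ne_of_mem_erase hu).symm, ih]
          · simp only [F, cnt_erase cl hu]
          · simp only [cnt_erase cl hu]
            split_ifs <;> omega
      rcases ha : cnt cl S 0 with _ | a
      · rcases hb : cnt cl S 1 with _ | b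
        · rcases hc : cnt cl S 2 with _ | c
          · rw [HS_last B hB cl W hW S ha hb hc, GG]
          · obtain ⟨v, hv, hcv⟩ := exists_cl hc
            rw [step v hv (by simp [cnt_erase cl hv, hcv]; omega), GG]
            simp [cnt_erase cl hv, hcv, ha, hb, hc]
        · obtain ⟨v, hv, hcv⟩ := exists_cl hb
          rw [step v hv (by simp [cnt_erase cl hv, hcv]; omega), GG]
          simp [cnt_erase cl hv, hcv, ha, hb]
      · obtain ⟨v, hv, hcv⟩ := exists_cl ha
        rw [step v hv (by simp [cnt_erase cl hv, hcv]; omega), GG]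
        simp [cnt_erase cl hv, hcv, ha]

end Pool.Agent.Work.MP_33747a_co
end

-- merged part: Pool.Agent.Work.MP_33747a_co.Gadget
section
set_option autoImplicit false

namespace Pool.Agent.Work.MP_33747a_co

open Finset

section
variable {g m r : ℕ} [NeZero r]

/-- a perfect matching extending a near perfect matching of the gadget -/
def ff (μ : Fin g → Fin g) (p : Fin g) (c : ZMod r) : Fin g ⊕ ZMod r → Fin g ⊕ ZMod r
  | Sum.inl i => if i = p then Sum.inr c else Sum.inl (μ i)
  | Sum.inr o => if o = c then Sum.inl p else Sum.inr (2 * c - o)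

omit [NeZero r] in
theorem two_cancel (hr : Odd r) {a b : ZMod r} (h : 2 * a = 2 * b) : a = b := by
  have hu : IsUnit (2 : ZMod r) := by
    have := (ZMod.isUnit_iff_coprime 2 r).2 (Nat.coprime_two_left.2 hr)
    simpa using this
  exact hu.mul_left_cancel h

omit [NeZero r] in
theorem ff_invol {μ : Fin g → Fin g} {p : Fin g} (h1 : ∀ i, μ (μ i) = i)
    (h2 : ∀ i, μ i = i ↔ i = p) (c : ZMod r) (x : Fin g ⊕ ZMod r) :
    ff μ p c (ff μ p c x) = x := by
  cases x with
  | inl i =>
    by_cases h : i = p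
    · simp [ff, h]
    · have : μ i ≠ p := by
        intro h3
        have h4 := (h2 p).2 rfl
        rw [← h3, h1] at h4
        exact h (h4.trans h3)
      simp [ff, h, this, h1]
  | inr o =>
    by_cases h : o = c
    · simp [ff, h]
    · have : 2 * c - o ≠ c := by
        intro h3; apply h; linear_combination -h3
      simp [ff, h, this]

theorem ff_ne (hr : Odd r) {μ : Fin g → Fin g} {p : Fin g}
    (h2 : ∀ i, μ i = i ↔ i = p) (c : ZMod r) (x : Fin g ⊕ ZMod r) : ff μ p c x ≠ x := by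
  cases x with
  | inl i =>
    by_cases h : i = p
    · simp [ff, h]
    · simp [ff, h, h2]
  | inr o =>
    by_cases h : o = c
    · simp [ff, h]
    · simp only [ff, h, if_false, ne_eq, Sum.inr.injEq]
      intro h3
      exact h (two_cancel hr (by linear_combination -h3))

/-- the block weights -/
noncomputable def WW (m r : ℕ) (Wn : Fin 4 → Fin 4 → ℕ) (a b : Fin 4) : ℝ :=
  if a = 3 then (if b = 3 then 1 / (r : ℝ) else Wn b 3 / ((m : ℝ) * r))
  else if b = 3 then Wn a 3 / ((m : ℝ) * r) else Wn a b / (m : ℝ)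

theorem gadget (n : ℕ) (hn : 2 * n = g + r) (hr : Odd r) (hm : 0 < m)
    (μ : Fin m → Fin g → Fin g) (p : Fin m → Fin g) (h1 : ∀ t i, μ t (μ t i) = i)
    (h2 : ∀ t i, μ t i = i ↔ i = p t) (cl' : Fin g → Fin 4) (hcl : ∀ i, cl' i ≠ 3)
    (Wn : Fin 4 → Fin 4 → ℕ)
    (hW1 : ∀ i j, i ≠ j → (univ.filter fun t => i ≠ p t ∧ μ t i = j).card = Wn (cl' i) (cl' j))
    (hW2 : ∀ i, (univ.filter fun t => i = p t).card = Wn (cl' i) 3) (a b c : ℕ)
    (ha : (univ.filter fun i => cl' i = 0).card = a)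
    (hb : (univ.filter fun i => cl' i = 1).card = b)
    (hc : (univ.filter fun i => cl' i = 2).card = c) :
    ∃ B ∈ Psi n, ∀ k, haf k B = GG (WW m r Wn) (a + b + c) a b c r k := by
  have hr0 : (0 : ℝ) < r := Nat.cast_pos.2 (Nat.pos_of_ne_zero (NeZero.ne r))
  have hm0 : (0 : ℝ) < m := Nat.cast_pos.2 hm
  obtain ⟨e⟩ : Nonempty (Fin (2 * n) ≃ Fin g ⊕ ZMod r) :=
    Fintype.card_eq.1 (by simp [hn, ZMod.card])
  let B' : Fin g ⊕ ZMod r → Fin g ⊕ ZMod r → ℝ := fun x y =>
    ∑ q : Fin m × ZMod r, 1 / ((m : ℝ) * r) * (if ff (μ q.1) (p q.1) q.2 x = y then 1 else 0)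
  have hsym : ∀ x y, B' x y = B' y x := by
    intro x y
    refine sum_congr rfl fun q _ => ?_
    congr 1
    refine if_congr ?_ rfl rfl
    constructor <;> rintro rfl <;> exact ff_invol (h1 _) (h2 _) _ _
  let cl : Fin g ⊕ ZMod r → Fin 4 := Sum.elim cl' fun _ => 3
  have hlr : ∀ i o, B' (Sum.inl i) (Sum.inr o) = Wn (cl' i) 3 / ((m : ℝ) * r) := by
    intro i o
    simp only [B', ← mul_sum]
    rw [Fintype.sum_prod_type, ← hW2, card_filter]
    push_cast
    rw [one_div_mul_eq_div]
    congr 1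
    refine sum_congr rfl fun t _ => ?_
    by_cases h : i = p t <;> simp [ff, h]
  have hB' : ∀ x y, x ≠ y → B' x y = WW m r Wn (cl x) (cl y) := by
    intro x y hxy
    cases x with
    | inl i =>
      cases y with
      | inl j =>
        have hij : i ≠ j := fun h => hxy (by rw [h])
        simp only [B', ← mul_sum, cl, Sum.elim_inl, WW, hcl, if_false]
        rw [Fintype.sum_prod_type, ← hW1 i j hij, card_filter]
        push_cast
        have : ∀ t : Fin m, ∑ c : ZMod r, (if ff (μ t) (p t) c (Sum.inl i) = Sum.inl j then (1 : ℝ)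
            else 0) = r * (if i ≠ p t ∧ μ t i = j then 1 else 0) := by
          intro t
          by_cases h : i = p t
          · simp [ff, h]
          · by_cases h' : μ t i = j <;> simp [ff, h, h', ZMod.card]
        simp only [this, ← mul_sum]
        field_simp
      | inr o =>
        rw [hlr]; simp [cl, WW, hcl]
    | inr o =>
      cases y with
      | inl j => rw [hsym, hlr]; simp [cl, WW, hcl]
      | inr o' =>
        have hoo : o ≠ o' := fun h => hxy (by rw [h])
        simp only [B', ← mul_sum, cl, Sum.elim_inr, WW, if_true]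
        rw [Fintype.sum_prod_type]
        have hu : IsUnit (2 : ZMod r) := by
          have := (ZMod.isUnit_iff_coprime 2 r).2 (Nat.coprime_two_left.2 hr)
          simpa using this
        obtain ⟨w, hw⟩ := hu.exists_left_inv
        have : ∀ t : Fin m, ∑ c : ZMod r, (if ff (μ t) (p t) c (Sum.inr o) = Sum.inr o' then (1 : ℝ)
            else 0) = 1 := by
          intro t
          rw [sum_eq_single (w * (o + o'))]
          · have h3 : o ≠ w * (o + o') := by
              intro h3
              apply hoo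
              linear_combination 2 * h3 + (o + o') * hw
            have h4 : 2 * (w * (o + o')) - o = o' := by linear_combination (o + o') * hw
            simp [ff, h3, h4]
          · intro c _ hc
            rw [if_neg]
            by_cases h : o = c
            · simp [ff, h]
            · simp only [ff, h, if_false, Sum.inr.injEq]
              intro h3
              apply hc
              linear_combination w * h3 - c * hw
          · simp
        simp only [this, sum_const, card_univ, Fintype.card_fin, nsmul_eq_mul]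
        field_simp
  refine ⟨Matrix.of fun i j => B' (e i) (e j), ?_, fun k => ?_⟩
  · have : (Matrix.of fun i j => B' (e i) (e j)) = ∑ q : Fin m × ZMod r, (1 / ((m : ℝ) * r)) •
        (Matrix.of fun i j => if e.symm (ff (μ q.1) (p q.1) q.2 (e i)) = j then (1 : ℝ) else 0) := by
      ext i j
      simp only [B', Matrix.of_apply, Matrix.sum_apply, Matrix.smul_apply, smul_eq_mul,
        Equiv.symm_apply_eq]
    rw [this]
    refine (convex_convexHull ℝ _).sum_mem (fun _ _ => by positivity) ?_ fun q _ =>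
      subset_convexHull ℝ _ ⟨fun i => e.symm (ff (μ q.1) (p q.1) q.2 (e i)), ?_, ?_, rfl⟩
    · simp only [sum_const, card_univ, Fintype.card_prod, Fintype.card_fin, ZMod.card,
        nsmul_eq_mul]
      push_cast
      field_simp
    · intro i
      simp [ff_invol (h1 _) (h2 _)]
    · intro i h
      rw [Equiv.symm_apply_eq] at h
      exact ff_ne hr (h2 _) _ _ h
  · have hcnt : ∀ κ, cnt (fun i => cl (e i)) univ κ =
        (univ.filter fun i => cl' i = κ).card + if κ = 3 then r else 0 := by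
      intro κ
      unfold cnt
      rw [card_filter, card_filter, e.sum_comp (fun x => if cl x = κ then 1 else 0),
        Fintype.sum_sum_type]
      congr 1
      by_cases h : κ = 3
      · simp [cl, h, ZMod.card]
      · simp [cl, h, Ne.symm h]
    have h3 : (univ.filter fun i => cl' i = 3).card = 0 := by
      rw [card_eq_zero, filter_eq_empty_iff]; exact fun i _ => hcl i
    have c0 : cnt (fun i => cl (e i)) univ 0 = a := by rw [hcnt, ha]; simp
    have c1 : cnt (fun i => cl (e i)) univ 1 = b := by rw [hcnt, hb]; simp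
    have c2 : cnt (fun i => cl (e i)) univ 2 = c := by rw [hcnt, hc]; simp
    have c3 : cnt (fun i => cl (e i)) univ 3 = r := by rw [hcnt, h3]; simp
    rw [haf_eq, HS_block (Matrix.of fun i j => B' (e i) (e j)) (fun i j => hsym _ _) (fun i => cl (e i)) (WW m r Wn)
      (fun i j hij => hB' _ _ (e.injective.ne hij)) (a + b + c) univ k (by rw [c0, c1, c2]),
      c0, c1, c2, c3]

end

theorem haf_J (n k : ℕ) : haf k (J n) = (1 / (2 * (n : ℝ) - 1)) ^ k * mm (2 * n) k := by
  rw [haf_eq]
  refine HS_const _ (fun i j => ?_) _ _ _ (by simp) (fun i _ j _ hij => ?_) k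
  · simp [J, eq_comm]
  · simp [J, hij]

end Pool.Agent.Work.MP_33747a_co
end
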