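import Pool.Agent.Work.MP_33747a_co.Expand

set_option autoImplicit false

namespace Pool.Agent.Work.MP_33747a_co

open Finset

def mu7 : Fin 36 → Fin 7 → Fin 7 :=
  ![![3, 2, 1, 0, 5, 4, 6],
    ![3, 2, 1, 0, 6, 5, 4],
    ![4, 2, 1, 5, 0, 3, 6],
    ![4, 2, 1, 6, 0, 5, 3],
    ![3, 2, 1, 0, 4, 6, 5],
    ![3, 2, 1, 0, 4, 6, 5],
    ![4, 2, 1, 3, 0, 6, 5],
    ![4, 2, 1, 3, 0, 6, 5],
    ![5, 2, 1, 4, 3, 0, 6],
    ![6, 2, 1, 4, 3, 5, 0],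
    ![5, 2, 1, 4, 3, 0, 6],
    ![6, 2, 1, 4, 3, 5, 0],
    ![2, 3, 0, 1, 5, 4, 6],
    ![2, 3, 0, 1, 6, 5, 4],
    ![2, 4, 0, 5, 1, 3, 6],
    ![2, 4, 0, 6, 1, 5, 3],
    ![2, 3, 0, 1, 4, 6, 5],
    ![2, 3, 0, 1, 4, 6, 5],
    ![2, 4, 0, 3, 1, 6, 5],
    ![2, 4, 0, 3, 1, 6, 5],
    ![2, 5, 0, 4, 3, 1, 6],
    ![2, 6, 0, 4, 3, 5, 1],
    ![2, 5, 0, 4, 3, 1, 6],
    ![2, 6, 0, 4, 3, 5, 1],
    ![1, 0, 3, 2, 5, 4, 6],
    ![1, 0, 3, 2, 6, 5, 4],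
    ![1, 0, 4, 5, 2, 3, 6],
    ![1, 0, 4, 6, 2, 5, 3],
    ![1, 0, 3, 2, 4, 6, 5],
    ![1, 0, 3, 2, 4, 6, 5],
    ![1, 0, 4, 3, 2, 6, 5],
    ![1, 0, 4, 3, 2, 6, 5],
    ![1, 0, 5, 4, 3, 2, 6],
    ![1, 0, 6, 4, 3, 5, 2],
    ![1, 0, 5, 4, 3, 2, 6],
    ![1, 0, 6, 4, 3, 5, 2]]

def p7 : Fin 36 → Fin 7 :=
  ![6, 5, 6, 5, 4, 4, 3, 3, 6, 5, 6, 5, 6, 5, 6, 5, 4, 4, 3, 3, 6, 5, 6, 5, 6, 5, 6, 5, 4, 4, 3, 3, 6, 5, 6, 5]

def cl7 : Fin 7 → Fin 4 := ![0, 0, 0, 1, 1, 2, 2]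

def Wn7 : Fin 4 → Fin 4 → ℕ := ![![12, 4, 2, 0], ![4, 12, 3, 6], ![2, 3, 12, 12], ![0, 0, 0, 0]]

theorem gadget7 (n r : ℕ) (hn : 2 * n = 7 + r) :
    ∃ B ∈ Psi n, ∀ k, haf k B = GG (WW 36 r Wn7) 7 3 2 2 r k := by
  have : NeZero r := ⟨by omega⟩
  exact gadget n hn ⟨n - 4, by omega⟩ (by norm_num) mu7 p7 (by decide +kernel) (by decide +kernel)
    cl7 (by decide) Wn7 (by decide +kernel) (by decide +kernel) 3 2 2 (by decide) (by decide)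
    (by decide)

theorem gadget3 : ∃ B ∈ Psi 3, ∀ k, haf k B =
    GG (WW 3 3 ![![1, 0, 0, 1], ![0, 0, 0, 0], ![0, 0, 0, 0], ![0, 0, 0, 0]]) 3 3 0 0 3 k :=
  gadget (g := 3) (r := 3) 3 rfl (by decide) (by norm_num) ![![0, 2, 1], ![2, 1, 0], ![1, 0, 2]]
    ![0, 1, 2] (by decide) (by decide) (fun _ => 0) (by decide) _ (by decide) (by decide) 3 0 0
    (by decide) (by decide) (by decide)

theorem pow_le_exp (t : ℝ) (ht : 0 ≤ t) (k : ℕ) :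
    (1 + t) ^ k ≤ Real.exp (k * (t - t ^ 2 / 2 + t ^ 3 / 2)) := by
  rw [Real.exp_nat_mul]
  refine pow_le_pow_left₀ (by linarith) ?_ k
  have h0 : 0 ≤ t - t ^ 2 / 2 + t ^ 3 / 2 := by nlinarith [sq_nonneg (t - 1 / 2)]
  refine le_trans ?_ (Real.quadratic_le_exp_of_nonneg h0)
  have : 0 ≤ t ^ 4 * (5 / 8 - t / 4 + t ^ 2 / 8) :=
    mul_nonneg (by positivity) (by nlinarith [sq_nonneg (t - 1)])
  nlinarith

theorem exp_three_lt : Real.exp 3 < 2009 / 100 := by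
  have h := Real.exp_one_lt_d9
  have h1 : Real.exp 3 = Real.exp 1 ^ 3 := by rw [← Real.exp_nat_mul]; norm_num
  rw [h1]
  exact lt_of_le_of_lt (pow_le_pow_left₀ (Real.exp_pos 1).le h.le 3) (by norm_num)

theorem analytic (k : ℕ) (d n R : ℝ) (hk : (k : ℝ) = n - d) (hR : R = 2 * n - 7) (hR0 : 0 < R)
    (h : 2009 / 100 * Poly R (n - d) * R ^ 3 <
      (R ^ 3 - ((12 - 6 * d) * R ^ 2 + (18 * d - 9) * R + (378 - 108 * d))) * QQ R) :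
    (1 + 6 / R) ^ k * Poly R k < QQ R := by
  have hQ : 0 < QQ R := by unfold QQ; positivity
  rw [hk]
  rcases le_or_gt (Poly R (n - d)) 0 with hP | hP
  · exact lt_of_le_of_lt (mul_nonpos_of_nonneg_of_nonpos (by positivity) hP) hQ
  set τ : ℝ := ((12 - 6 * d) * R ^ 2 + (18 * d - 9) * R + (378 - 108 * d)) / R ^ 3 with hτ
  have hR3 : 0 < R ^ 3 := by positivity
  have h1 : 2009 / 100 * Poly R (n - d) < (1 - τ) * QQ R := by
    refine lt_of_mul_lt_mul_right (a := R ^ 3) ?_ hR3.le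
    refine h.trans_le (le_of_eq ?_)
    rw [hτ]; field_simp
  have h2 : (k : ℝ) * (6 / R - (6 / R) ^ 2 / 2 + (6 / R) ^ 3 / 2) = 3 + τ := by
    have : n = (R + 7) / 2 := by linarith
    rw [hk, hτ, this]; field_simp; ring
  have h3 := pow_le_exp (6 / R) (by positivity) k
  rw [h2, Real.exp_add] at h3
  have h4 : (1 - τ) * Real.exp τ ≤ 1 := by
    have := Real.add_one_le_exp (-τ)
    have h5 : Real.exp (-τ) * Real.exp τ = 1 := by rw [← Real.exp_add]; simp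
    nlinarith [Real.exp_pos τ]
  have hτp := Real.exp_pos τ
  calc (1 + 6 / R) ^ k * Poly R (n - d) ≤ Real.exp 3 * Real.exp τ * Poly R (n - d) :=
        mul_le_mul_of_nonneg_right h3 hP.le
    _ ≤ 2009 / 100 * Real.exp τ * Poly R (n - d) := by
        have := exp_three_lt
        gcongr
    _ = Real.exp τ * (2009 / 100 * Poly R (n - d)) := by ring
    _ < Real.exp τ * ((1 - τ) * QQ R) := mul_lt_mul_of_pos_left h1 hτp
    _ = ((1 - τ) * Real.exp τ) * QQ R := by ring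
    _ ≤ 1 * QQ R := mul_le_mul_of_nonneg_right h4 hQ.le
    _ = QQ R := one_mul _

theorem key_ineq (n k : ℕ) (hn : 7 ≤ n) (hk : k ≤ n) (h : 140 * (n - k) ≤ n) :
    (1 + 6 / (2 * (n : ℝ) - 7)) ^ k * Poly (2 * (n : ℝ) - 7) k < QQ (2 * (n : ℝ) - 7) := by
  have hn' : (7 : ℝ) ≤ n := by exact_mod_cast hn
  rcases hk.lt_or_eq with h1 | h1
  · obtain ⟨x, rfl⟩ : ∃ x, n = k + 1 + x := ⟨n - (k + 1), by omega⟩
    have h2 : 140 * (1 + x) ≤ k + 1 + x := by omega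
    have h3 : (140 : ℝ) * (1 + x) ≤ ((k + 1 + x : ℕ) : ℝ) := by exact_mod_cast h2
    refine analytic k (1 + x) _ _ (by push_cast; ring) rfl (by linarith) ?_
    exact poly_big x (((k + 1 + x : ℕ) : ℝ) - 140 * (1 + x)) (by positivity) (by linarith) _ _ _ rfl
      (by ring) rfl
  · subst h1
    rcases le_or_gt 50 k with h2 | h2
    · have h3 : (50 : ℝ) ≤ k := by exact_mod_cast h2
      refine analytic k 0 _ _ (by ring) rfl (by linarith) ?_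
      exact poly_big0 ((k : ℝ) - 50) (by linarith) _ _ _ rfl (by ring) rfl
    · have hP : ∀ K : ℝ, Poly (2 * K - 7) K = (2 * K - 7) ^ 2 * (2 * K) * (2 * K - 2) *
          (2 * K - 4) * (2 * K - 6) * (127 / 2916 * (2 * K - 7) + 5 / 972 * (2 * K - 8)) :=
        fun K => by unfold Poly; ring
      have hq : ∀ k : Fin 50, 7 ≤ k.1 → (1 + 6 / (2 * (k.1 : ℚ) - 7)) ^ k.1 *
          ((2 * (k.1 : ℚ) - 7) ^ 2 * (2 * k.1) * (2 * k.1 - 2) * (2 * k.1 - 4) * (2 * k.1 - 6) *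
            (127 / 2916 * (2 * k.1 - 7) + 5 / 972 * (2 * k.1 - 8))) <
          (2 * (k.1 : ℚ) - 7 + 1) * (2 * k.1 - 7 + 2) * (2 * k.1 - 7 + 3) * (2 * k.1 - 7 + 4) *
            (2 * k.1 - 7 + 5) * (2 * k.1 - 7 + 6) * (2 * k.1 - 7 + 7) := by decide +kernel
      have h3 := (Rat.cast_lt (K := ℝ)).2 (hq ⟨k, h2⟩ hn)
      rw [hP, QQ]
      push_cast at h3
      exact h3

theorem big_case (n k : ℕ) (hn : 7 ≤ n) (hk : k ≤ n) (h : 140 * (n - k) ≤ n) :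
    ∃ B ∈ Psi n, haf k B < haf k (J n) := by
  obtain ⟨r, hr⟩ : ∃ r, 2 * n = 7 + (r + 4) := ⟨2 * n - 11, by omega⟩
  obtain ⟨k, rfl⟩ : ∃ k', k = k' + 7 := ⟨k - 7, by omega⟩
  obtain ⟨B, hB, hh⟩ := gadget7 n (r + 4) hr
  refine ⟨B, hB, ?_⟩
  have hr' : (2 * (n : ℝ)) = 7 + (r + 4) := by exact_mod_cast hr
  have e1 : 2 * (n : ℝ) - 7 = r + 4 := by linarith
  have e2 : 2 * (n : ℝ) - 1 = r + 10 := by linarith
  have e3 : 2 * n = r + 11 := by omega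
  have hR : (0 : ℝ) < r + 4 := by positivity
  have h1 := GG7_eq (WW 36 (r + 4) Wn7) r k (by simp [WW, Wn7]; norm_num)
    (by simp [WW, Wn7]; norm_num) (by simp [WW, Wn7]; norm_num) (by simp [WW, Wn7])
    (by simp [WW, Wn7]; norm_num) (by simp [WW, Wn7]; norm_num)
    (by simp [WW, Wn7]; field_simp; norm_num) (by simp [WW, Wn7]; norm_num)
    (by simp [WW, Wn7]; field_simp; norm_num) (by simp [WW])
  have h2 := key_ineq n (k + 7) hn hk h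
  rw [e1] at h2
  push_cast at h2
  have hQ : 0 < QQ ((r : ℝ) + 4) := by unfold QQ; positivity
  have hM : (0 : ℝ) < mm (r + 11) (k + 7) := mm_pos (by omega)
  rw [hh, haf_J, e2, e3]
  refine lt_of_mul_lt_mul_right ?_ hQ.le
  rw [h1]
  have h3 : (1 / ((r : ℝ) + 4)) ^ (k + 7) =
      (1 / ((r : ℝ) + 10)) ^ (k + 7) * (1 + 6 / ((r : ℝ) + 4)) ^ (k + 7) := by
    rw [← mul_pow]; congr 1; field_simp; ring
  rw [h3]
  have h4 : (0 : ℝ) < (1 / ((r : ℝ) + 10)) ^ (k + 7) * mm (r + 11) (k + 7) := by positivity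
  have := mul_lt_mul_of_pos_left h2 h4
  linarith

private theorem h14_W7 (r : ℕ) : ∃ W : Fin 4 → Fin 4 → ℝ, WW 36 r Wn7 = W ∧ W 0 0 = 1 / 3 ∧
    W 0 1 = 1 / 9 ∧ W 0 2 = 1 / 18 ∧ W 0 3 = 0 ∧ W 1 1 = 1 / 3 ∧ W 1 2 = 1 / 12 ∧
    W 1 3 = 1 / (r : ℝ) / 6 ∧ W 2 2 = 1 / 3 ∧ W 2 3 = 1 / (r : ℝ) / 3 ∧ W 3 3 = 1 / (r : ℝ) := by
  refine ⟨_, rfl, ?_, ?_, ?_, ?_, ?_, ?_, ?_, ?_, ?_, ?_⟩ <;> simp [WW, Wn7] <;> ring

theorem main (n k : ℕ) (hn : 3 ≤ n) (hk : k ≤ n) (h : 140 * (n - k) ≤ n) :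
    ∃ B ∈ Psi n, haf k B < haf k (J n) := by
  rcases le_or_gt 7 n with h1 | h1
  · exact big_case n k h1 hk h
  have hkn : k = n := by omega
  subst hkn
  interval_cases k
  · obtain ⟨B, hB, hh⟩ := gadget3
    refine ⟨B, hB, ?_⟩
    rw [hh, haf_J]
    simp [GG, WW, mm, Nat.choose, Nat.doubleFactorial]
    norm_num
  · obtain ⟨B, hB, hh⟩ := gadget7 4 1 rfl
    refine ⟨B, hB, ?_⟩
    obtain ⟨W, hW, h00, h01, h02, h03, h11, h12, h13, h22, h23, h33⟩ := h14_W7 1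
    rw [hh, haf_J, hW]
    simp only [GG, h00, h01, h02, h03, h11, h12, h13, h22, h23, h33, Nat.add_succ_sub_one,
      Nat.reduceSub, zero_mul, mul_zero, add_zero, Nat.cast_zero, zero_add]
    norm_num [mm, Nat.choose, Nat.doubleFactorial]
  · obtain ⟨B, hB, hh⟩ := gadget7 5 3 rfl
    refine ⟨B, hB, ?_⟩
    obtain ⟨W, hW, h00, h01, h02, h03, h11, h12, h13, h22, h23, h33⟩ := h14_W7 3
    rw [hh, haf_J, hW]
    simp only [GG, h00, h01, h02, h03, h11, h12, h13, h22, h23, h33, Nat.add_succ_sub_one,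
      Nat.reduceSub, zero_mul, mul_zero, add_zero, Nat.cast_zero, zero_add]
    norm_num [mm, Nat.choose, Nat.doubleFactorial]
  · obtain ⟨B, hB, hh⟩ := gadget7 6 5 rfl
    refine ⟨B, hB, ?_⟩
    obtain ⟨W, hW, h00, h01, h02, h03, h11, h12, h13, h22, h23, h33⟩ := h14_W7 5
    rw [hh, haf_J, hW]
    simp only [GG, h00, h01, h02, h03, h11, h12, h13, h22, h23, h33, Nat.add_succ_sub_one,
      Nat.reduceSub, zero_mul, mul_zero, add_zero, Nat.cast_zero, zero_add]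
    norm_num [mm, Nat.choose, Nat.doubleFactorial]

end Pool.Agent.Work.MP_33747a_co
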