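import Mathlib
import Pool.Agent.Work.MP_33747a_co.Gadget

-- merged part: Pool.Agent.Work.MP_33747a_co.Alg
section
/-! The algebraic inequality behind the lower bound. -/

set_option autoImplicit false

namespace Pool.Agent.Work.MP_33747a_co

open Finset

variable {ι : Type*} [Fintype ι] [DecidableEq ι]

/-- symmetric nonnegative matrices with zero diagonal and unit row sums -/
structure Stoch (b : ι → ι → ℝ) : Prop where
  symm : ∀ u v, b u v = b v u
  diag : ∀ u, b u u = 0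
  nonneg : ∀ u v, 0 ≤ b u v
  row : ∀ u, ∑ v, b u v = 1

/-- the deviation from the uniform matrix -/
def dev (b : ι → ι → ℝ) (j : ℝ) (u v : ι) : ℝ := if u = v then 0 else b u v - j

variable {b : ι → ι → ℝ} {j : ℝ}

omit [Fintype ι] in
theorem dev_self (u : ι) : dev b j u u = 0 := by simp [dev]

theorem dev_symm (hb : Stoch b) (u v : ι) : dev b j u v = dev b j v u := by
  unfold dev
  by_cases h : u = v
  · simp [h]
  · rw [if_neg h, if_neg (Ne.symm h), hb.symm]

theorem b_eq (hb : Stoch b) (u v : ι) : b u v = dev b j u v + j - if u = v then j else 0 := by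
  unfold dev
  by_cases h : u = v
  · simp [h, hb.diag]
  · simp [h]

theorem sum_b_eq (hb : Stoch b) {F : Finset ι} {u : ι} (hu : u ∈ F) (x : ι → ℝ) :
    ∑ v ∈ F, b u v * x v = ∑ v ∈ F, dev b j u v * x v + j * ∑ v ∈ F, x v - j * x u := by
  simp only [b_eq (j := j) hb u, sub_mul, add_mul, sum_sub_distrib, sum_add_distrib, ← mul_sum,
    ite_mul, zero_mul, sum_ite_eq, hu, if_true]

theorem dev_row (hb : Stoch b) (hj : j * (Fintype.card ι - 1) = 1) (u : ι) :
    ∑ v, dev b j u v = 0 := by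
  have := sum_b_eq (j := j) hb (mem_univ u) (fun _ => 1)
  simp only [mul_one, hb.row, sum_const, card_univ, nsmul_eq_mul] at this
  linarith only [hj, this]

omit [DecidableEq ι] in
theorem row_le (hb : Stoch b) (F : Finset ι) (u : ι) : ∑ v ∈ F, b u v ≤ 1 := by
  rw [← hb.row u]
  exact sum_le_sum_of_subset_of_nonneg (subset_univ _) fun v _ _ => hb.nonneg u v

theorem quad_lower [Nonempty ι] (hb : Stoch b) (hj : j * (Fintype.card ι - 1) = 1) (hj1 : j ≤ 1)
    (x : ι → ℝ) : -(1 - j) * ∑ u, x u ^ 2 ≤ ∑ u, ∑ v, dev b j u v * (x u * x v) := by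
  have hN : (0 : ℝ) < Fintype.card ι := Nat.cast_pos.2 Fintype.card_pos
  set m : ℝ := (∑ u, x u) / Fintype.card ι with hm
  set y : ι → ℝ := fun u => x u - m with hy
  have hy0 : ∑ u, y u = 0 := by
    simp only [hy, sum_sub_distrib, sum_const, card_univ, nsmul_eq_mul, hm]
    field_simp
    ring
  have hx : ∀ u, x u = y u + m := fun u => by simp [hy]
  have h1 : ∑ u, ∑ v, dev b j u v * (x u * x v) = ∑ u, ∑ v, dev b j u v * (y u * y v) := by
    have e1 : ∑ u, ∑ v, dev b j u v * y u = 0 := by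
      simp only [← sum_mul, dev_row hb hj, zero_mul, sum_const_zero]
    have e2 : ∑ u, ∑ v, dev b j u v * y v = 0 := by
      rw [sum_comm]
      simp only [← sum_mul, fun u v => dev_symm (j := j) hb u v]
      simp only [dev_row hb hj, zero_mul, sum_const_zero]
    have e3 : ∑ u, ∑ v, dev b j u v = 0 := by simp only [dev_row hb hj, sum_const_zero]
    have : ∀ u v, dev b j u v * (x u * x v) = dev b j u v * (y u * y v) +
        m * (dev b j u v * y u) + m * (dev b j u v * y v) + m ^ 2 * dev b j u v := by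
      intro u v; rw [hx u, hx v]; ring
    simp only [this, sum_add_distrib, ← mul_sum, e1, e2, e3]
    ring
  have h2 : ∑ u, ∑ v, b u v * (y u * y v) =
      ∑ u, ∑ v, dev b j u v * (y u * y v) - j * ∑ u, y u ^ 2 := by
    rw [mul_sum, ← sum_sub_distrib]
    refine sum_congr rfl fun u _ => ?_
    rw [sum_b_eq (j := j) hb (mem_univ u) (fun v => y u * y v), ← mul_sum, hy0]
    ring
  have h3 : -∑ u, y u ^ 2 ≤ ∑ u, ∑ v, b u v * (y u * y v) := by
    have e0 : 0 ≤ ∑ u, ∑ v, b u v * (y u + y v) ^ 2 :=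
      sum_nonneg fun u _ => sum_nonneg fun v _ => mul_nonneg (hb.nonneg u v) (sq_nonneg _)
    have e1 : ∑ u, ∑ v, b u v * y u ^ 2 = ∑ u, y u ^ 2 := by
      simp only [← sum_mul, hb.row, one_mul]
    have e2 : ∑ u, ∑ v, b u v * y v ^ 2 = ∑ u, y u ^ 2 := by
      rw [sum_comm]
      refine sum_congr rfl fun u _ => ?_
      rw [← sum_mul, sum_congr rfl fun v _ => hb.symm v u, hb.row, one_mul]
    have : ∀ u v, b u v * (y u + y v) ^ 2 =
        b u v * y u ^ 2 + b u v * y v ^ 2 + 2 * (b u v * (y u * y v)) := fun u v => by ring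
    simp only [this, sum_add_distrib, ← mul_sum, e1, e2] at e0
    linarith only [e0]
  have h4 : ∑ u, y u ^ 2 ≤ ∑ u, x u ^ 2 := by
    have : ∀ u, x u ^ 2 = y u ^ 2 + 2 * m * y u + m ^ 2 := fun u => by rw [hx u]; ring
    simp only [this, sum_add_distrib, ← mul_sum, hy0, sum_const, card_univ, nsmul_eq_mul]
    linarith only [sq_nonneg m, mul_nonneg_of_nonpos_of_nonpos (Mathlib.Tactic.Linarith.sub_nonpos_of_le (sq_nonneg m)) (Mathlib.Tactic.Linarith.sub_nonpos_of_le (Mathlib.Tactic.Linarith.natCast_nonneg ℝ (Fintype.card ι)))]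
  rw [h1]
  linarith only [h2, h3, hj1, h4, mul_nonneg_of_nonpos_of_nonpos (Mathlib.Tactic.Linarith.sub_nonpos_of_le hj1) (Mathlib.Tactic.Linarith.sub_nonpos_of_le h4)]

theorem quad_lower_on [Nonempty ι] (hb : Stoch b) (hj : j * (Fintype.card ι - 1) = 1) (hj1 : j ≤ 1)
    (F : Finset ι) (z : ι → ℝ) :
    -(1 - j) * ∑ u ∈ F, z u ^ 2 ≤ ∑ u ∈ F, ∑ v ∈ F, dev b j u v * (z u * z v) := by
  have := quad_lower hb hj hj1 (fun u => if u ∈ F then z u else 0)
  simp only [ite_pow, ne_eq, OfNat.ofNat_ne_zero, not_false_eq_true, zero_pow, ite_mul, mul_ite,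
    zero_mul, mul_zero, sum_ite_mem, univ_inter] at this
  refine this.trans (le_of_eq ?_)
  rw [← sum_subset (subset_univ F) (fun u _ hu => by simp [hu])]
  exact sum_congr rfl fun u hu => by simp [hu]

theorem tri_upper (hb : Stoch b) (hj0 : 0 ≤ j) {F : Finset ι} {a : ι} (ha : a ∈ F) :
    ∑ u ∈ F, ∑ v ∈ F, dev b j u v * (dev b j a u * dev b j a v) ≤
      ∑ u ∈ F, dev b j a u ^ 2 - ∑ u ∈ F, dev b j a u ^ 3 := by
  set x : ι → ℝ := dev b j a with hx
  have hxa : x a = 0 := dev_self a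
  have h1 : ∑ u ∈ F, ∑ v ∈ F, b u v * (x u * x v) =
      ∑ u ∈ F, ∑ v ∈ F, dev b j u v * (x u * x v) + j * (∑ u ∈ F, x u) ^ 2 -
        j * ∑ u ∈ F, x u ^ 2 := by
    rw [sq (∑ u ∈ F, x u), sum_mul, mul_sum, mul_sum, ← sum_add_distrib, ← sum_sub_distrib]
    refine sum_congr rfl fun u hu => ?_
    rw [sum_b_eq (j := j) hb hu (fun v => x u * x v), ← mul_sum]
    ring
  have hrow : ∀ u, ∑ v ∈ F.erase a, b u v ≤ 1 - b a u := by
    intro u
    have := row_le hb F u
    rw [← add_sum_erase F _ ha, hb.symm u a] at this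
    linarith
  have h2 : ∑ u ∈ F, ∑ v ∈ F, b u v * (x u * x v) ≤ ∑ u ∈ F.erase a, x u ^ 2 * (1 - b a u) := by
    have e0 : ∑ u ∈ F, ∑ v ∈ F, b u v * (x u * x v) =
        ∑ u ∈ F.erase a, ∑ v ∈ F.erase a, b u v * (x u * x v) := by
      rw [← add_sum_erase F _ ha]
      simp only [hxa, zero_mul, mul_zero, sum_const_zero, zero_add]
      refine sum_congr rfl fun u _ => ?_
      rw [← add_sum_erase F _ ha]
      simp [hxa]
    have e1 : ∑ u ∈ F.erase a, ∑ v ∈ F.erase a, b u v * x u ^ 2 ≤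
        ∑ u ∈ F.erase a, x u ^ 2 * (1 - b a u) := by
      refine sum_le_sum fun u _ => ?_
      rw [← sum_mul, mul_comm]
      exact mul_le_mul_of_nonneg_left (hrow u) (sq_nonneg _)
    have e2 : ∑ u ∈ F.erase a, ∑ v ∈ F.erase a, b u v * x v ^ 2 =
        ∑ u ∈ F.erase a, ∑ v ∈ F.erase a, b u v * x u ^ 2 := by
      rw [sum_comm]
      exact sum_congr rfl fun u _ => sum_congr rfl fun v _ => by rw [hb.symm]
    have e3 : 0 ≤ ∑ u ∈ F.erase a, ∑ v ∈ F.erase a, b u v * (x u - x v) ^ 2 :=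
      sum_nonneg fun u _ => sum_nonneg fun v _ => mul_nonneg (hb.nonneg u v) (sq_nonneg _)
    have : ∀ u v, b u v * (x u - x v) ^ 2 =
        b u v * x u ^ 2 + b u v * x v ^ 2 - 2 * (b u v * (x u * x v)) := fun u v => by ring
    simp only [this, sum_add_distrib, sum_sub_distrib, ← mul_sum, e2] at e3
    rw [e0]
    linarith
  have h3 : ∑ u ∈ F.erase a, x u ^ 2 * (1 - b a u) =
      ∑ u ∈ F, x u ^ 2 - ∑ u ∈ F, x u ^ 3 - j * ∑ u ∈ F, x u ^ 2 := by
    rw [mul_sum, ← sum_sub_distrib, ← sum_sub_distrib, ← add_sum_erase F _ ha]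
    simp only [hxa]
    rw [sum_congr rfl (g := fun u => x u ^ 2 - x u ^ 3 - j * x u ^ 2)]
    · ring
    · intro u hu
      have : b a u = x u + j := by
        rw [b_eq (j := j) hb a u, if_neg (ne_of_mem_erase hu).symm]; simp [hx]
      rw [this]; ring
  have h4 : 0 ≤ j * (∑ u ∈ F, x u) ^ 2 := mul_nonneg hj0 (sq_nonneg _)
  linarith

theorem cube_lower (hb : Stoch b) (hj : j * (Fintype.card ι - 1) = 1) (hj0 : 0 ≤ j)
    {F : Finset ι} {a : ι} (ha : a ∈ F) :
    (∑ u ∈ F, dev b j a u ^ 2) ^ 2 - 3 * j * ∑ u ∈ F, dev b j a u ^ 2 ≤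
      ∑ u ∈ F, dev b j a u ^ 3 := by
  set x : ι → ℝ := dev b j a with hx
  have hxa : x a = 0 := dev_self a
  set r := ∑ u ∈ F, x u ^ 2 with hr
  have hr0 : 0 ≤ r := sum_nonneg fun _ _ => sq_nonneg _
  have e0 : 0 ≤ ∑ u ∈ F, b a u * (x u - r) ^ 2 :=
    sum_nonneg fun u _ => mul_nonneg (hb.nonneg a u) (sq_nonneg _)
  have e1 : ∑ u ∈ F, b a u * x u ^ 2 = ∑ u ∈ F, x u ^ 3 + j * r := by
    rw [sum_b_eq (j := j) hb ha, hxa]
    have : ∑ v ∈ F, dev b j a v * x v ^ 2 = ∑ u ∈ F, x u ^ 3 :=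
      sum_congr rfl fun u _ => by rw [hx]; ring
    rw [this]; ring
  have e2 : ∑ u ∈ F, b a u * x u = r + j * ∑ u ∈ F, x u := by
    rw [sum_b_eq (j := j) hb ha, hxa]
    have : ∑ v ∈ F, dev b j a v * x v = r := sum_congr rfl fun u _ => by rw [hx]; ring
    rw [this]; ring
  have e3 := row_le hb F a
  have e4 : -1 ≤ ∑ u ∈ F, x u := by
    have h1 := sum_b_eq (j := j) hb ha (fun _ => 1)
    simp only [mul_one, sum_const, nsmul_eq_mul] at h1
    have h2 : 0 ≤ ∑ v ∈ F, b a v := sum_nonneg fun v _ => hb.nonneg a v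
    have h3 : (F.card : ℝ) ≤ Fintype.card ι := by exact_mod_cast card_le_univ F
    have h4 := mul_le_mul_of_nonneg_left h3 hj0
    have : ∑ u ∈ F, x u = ∑ v ∈ F, dev b j a v := rfl
    linarith only [hj, h1, h2, h4]
  have : ∀ u, b a u * (x u - r) ^ 2 =
      b a u * x u ^ 2 - 2 * r * (b a u * x u) + r ^ 2 * b a u := fun u => by ring
  simp only [this, sum_add_distrib, sum_sub_distrib, ← mul_sum, e1, e2] at e0
  have h5 := mul_le_mul_of_nonneg_left e3 (sq_nonneg r)
  have h6 := mul_le_mul_of_nonneg_left e4 (mul_nonneg hj0 hr0)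
  linarith only [e0, h5, h6]

theorem T_bound [Nonempty ι] (hb : Stoch b) (hj : j * (Fintype.card ι - 1) = 1) (hj0 : 0 ≤ j)
    (hj1 : j ≤ 1) (F : Finset ι) (f : ℝ) (hf : f = F.card)
    (hl : 1 / 2 ≤ 2 * j * (f - 3) - (1 - j)) :
    j ^ 2 * (f - 2) * (f - 3) * ∑ u ∈ F, ∑ v ∈ F, dev b j u v -
      (2 * j * (f - 3) + 1 + 6 * j) * ∑ u ∈ F, ∑ v ∈ F, dev b j u v ^ 2 ≤
    ∑ u ∈ F, ∑ v ∈ F, dev b j u v * ((∑ c ∈ F, b v c - b u v) * (∑ a ∈ F, b u a - b u v) -
      ∑ c ∈ F, b v c * b u c) := by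
  set z : ι → ℝ := fun u => ∑ v ∈ F, dev b j u v with hz
  set r : ι → ℝ := fun u => ∑ v ∈ F, dev b j u v ^ 2 with hr
  have hβ : ∀ u ∈ F, ∑ a ∈ F, b u a = z u + j * (f - 1) := by
    intro u hu
    have h1 := sum_b_eq (j := j) hb hu (fun _ => 1)
    simp only [mul_one, sum_const, nsmul_eq_mul] at h1
    rw [h1, hf]; ring
  have hid : ∀ u ∈ F, ∀ v ∈ F, dev b j u v * ((∑ c ∈ F, b v c - b u v) * (∑ a ∈ F, b u a - b u v) -
      ∑ c ∈ F, b v c * b u c) =
      dev b j u v * (z u * z v) - dev b j u v ^ 2 * z u - dev b j u v ^ 2 * z v + dev b j u v ^ 3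
        + j * (f - 3) * (dev b j u v * z u) + j * (f - 3) * (dev b j u v * z v)
        - 2 * j * (f - 3) * dev b j u v ^ 2 + j ^ 2 * (f - 2) * (f - 3) * dev b j u v
        - ∑ c ∈ F, dev b j u v * (dev b j c u * dev b j c v) := by
    intro u hu v hv
    by_cases huv : u = v
    · subst huv; simp [dev_self]
    · have e1 : b u v = dev b j u v + j := by rw [b_eq (j := j) hb u v, if_neg huv, sub_zero]
      have e2 : ∑ c ∈ F, dev b j v c * b u c =
          ∑ c ∈ F, dev b j c u * dev b j c v + j * z v - j * dev b j u v := by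
        rw [sum_congr rfl fun c _ => mul_comm (dev b j v c) (b u c), sum_b_eq (j := j) hb hu,
          dev_symm hb v u]
        congr 2
        exact sum_congr rfl fun c _ => by rw [dev_symm hb u c, dev_symm hb v c]
      rw [sum_b_eq (j := j) hb hv (fun c => b u c), e2, hβ u hu, hβ v hv, ← mul_sum, e1]
      ring
  rw [sum_congr rfl fun u hu => sum_congr rfl fun v hv => hid u hu v hv]
  simp only [sum_add_distrib, sum_sub_distrib, ← mul_sum]
  have s1 : ∑ u ∈ F, ∑ v ∈ F, dev b j u v ^ 2 * z u = ∑ u ∈ F, r u * z u :=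
    sum_congr rfl fun u _ => by rw [← sum_mul]
  have s2 : ∑ u ∈ F, ∑ v ∈ F, dev b j u v ^ 2 * z v = ∑ u ∈ F, r u * z u := by
    rw [sum_comm, ← s1]
    exact sum_congr rfl fun u _ => sum_congr rfl fun v _ => by rw [dev_symm hb]
  have s3 : ∑ u ∈ F, ∑ v ∈ F, dev b j u v * z u = ∑ u ∈ F, z u ^ 2 :=
    sum_congr rfl fun u _ => by rw [← sum_mul, sq]
  have s4 : ∑ u ∈ F, ∑ v ∈ F, dev b j u v * z v = ∑ u ∈ F, z u ^ 2 := by
    rw [sum_comm, ← s3]
    exact sum_congr rfl fun u _ => sum_congr rfl fun v _ => by rw [dev_symm hb]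
  have s5 : ∑ u ∈ F, ∑ v ∈ F, dev b j u v * ∑ c ∈ F, dev b j c u * dev b j c v ≤
      ∑ u ∈ F, r u - ∑ u ∈ F, ∑ v ∈ F, dev b j u v ^ 3 := by
    simp only [mul_sum]
    rw [sum_congr rfl fun u _ => sum_comm, sum_comm, ← sum_sub_distrib]
    exact sum_le_sum fun a ha => tri_upper hb hj0 ha
  have s6 : ∑ u ∈ F, r u ^ 2 - 3 * j * ∑ u ∈ F, r u ≤ ∑ u ∈ F, ∑ v ∈ F, dev b j u v ^ 3 := by
    rw [mul_sum, ← sum_sub_distrib]
    exact sum_le_sum fun a ha => cube_lower hb hj hj0 ha
  have s7 := quad_lower_on hb hj hj1 F z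
  have s8 : 0 ≤ 1 / 2 * ∑ u ∈ F, z u ^ 2 - 2 * ∑ u ∈ F, r u * z u + 2 * ∑ u ∈ F, r u ^ 2 := by
    rw [mul_sum, mul_sum, mul_sum, ← sum_sub_distrib, ← sum_add_distrib]
    exact sum_nonneg fun u _ => by linarith only [sq_nonneg (z u - 2 * r u), sq_nonneg (z u - (2 : ℝ) * r u)]
  have s9 : 0 ≤ ∑ u ∈ F, z u ^ 2 := sum_nonneg fun _ _ => sq_nonneg _
  have s10 := mul_le_mul_of_nonneg_right hl s9
  rw [s1, s2, s3, s4]
  have s11 : ∑ u ∈ F, ∑ v ∈ F, dev b j u v ^ 2 = ∑ u ∈ F, r u := rfl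
  rw [s11]
  linarith only [s5, s6, s7, s8, s10]

end Pool.Agent.Work.MP_33747a_co
end

-- merged part: Pool.Agent.Work.MP_33747a_co.Lower
section
set_option autoImplicit false

namespace Pool.Agent.Work.MP_33747a_co

open Finset

variable {N : ℕ}

/-- the vertices of `S` not covered by `M` -/
def fr (S : Finset (Fin N)) (M : Finset (Fin N × Fin N)) : Finset (Fin N) :=
  S.filter fun x => ∀ e ∈ M, e.1 ≠ x ∧ e.2 ≠ x

theorem fr_card {S : Finset (Fin N)} {k : ℕ} {M : Finset (Fin N × Fin N)} (hM : M ∈ fam S k) :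
    (fr S M).card + 2 * k = S.card := by
  obtain ⟨⟨⟨h1, h2⟩, h3⟩, h4⟩ := mem_fam.1 hM
  have e1 : (S.filter fun x => ¬ ∀ e ∈ M, e.1 ≠ x ∧ e.2 ≠ x) = M.biUnion fun e => {e.1, e.2} := by
    ext x
    simp only [mem_filter, mem_biUnion, mem_insert, mem_singleton]
    constructor
    · rintro ⟨_, h⟩
      push Not at h
      obtain ⟨e, he, h⟩ := h
      exact ⟨e, he, by tauto⟩
    · rintro ⟨e, he, h⟩
      refine ⟨?_, fun h' => by have := h' e he; tauto⟩
      rcases h with rfl | rfl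
      · exact (h4 e he).1
      · exact (h4 e he).2
  have e2 : (M.biUnion fun e => ({e.1, e.2} : Finset (Fin N))).card = 2 * k := by
    rw [card_biUnion, sum_congr rfl (g := fun _ => 2) (fun e he => card_pair (h1 e he).ne),
      sum_const, h3, smul_eq_mul, mul_comm]
    intro e he f hf hef
    have := h2 e he f hf hef
    simp only [Function.onFun, disjoint_insert_left, mem_insert, mem_singleton,
      disjoint_singleton_left]
    tauto
  rw [← e2, ← e1]
  exact card_filter_add_card_filter_not _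

noncomputable def EE (B : Matrix (Fin N) (Fin N) ℝ) (S : Finset (Fin N)) (k : ℕ)
    (g : Finset (Fin N) → ℝ) : ℝ :=
  ∑ M ∈ fam S k, (∏ e ∈ M, B e.1 e.2) * g (fr S M)

variable {B : Matrix (Fin N) (Fin N) ℝ}

theorem EE_const (S : Finset (Fin N)) (k : ℕ) (c : ℝ) : EE B S k (fun _ => c) = c * HS B S k := by
  unfold EE HS; rw [← sum_mul, mul_comm]

theorem EE_add (S : Finset (Fin N)) (k : ℕ) (g h : Finset (Fin N) → ℝ) :
    EE B S k (fun F => g F + h F) = EE B S k g + EE B S k h := by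
  unfold EE; simp only [mul_add, sum_add_distrib]

theorem EE_mul (S : Finset (Fin N)) (k : ℕ) (c : ℝ) (g : Finset (Fin N) → ℝ) :
    EE B S k (fun F => c * g F) = c * EE B S k g := by
  unfold EE; rw [mul_sum]; exact sum_congr rfl fun _ _ => by ring

theorem EE_congr (S : Finset (Fin N)) (k : ℕ) {g h : Finset (Fin N) → ℝ}
    (H : ∀ F : Finset (Fin N), (F.card : ℝ) = S.card - 2 * k → g F = h F) :
    EE B S k g = EE B S k h := by
  refine sum_congr rfl fun M hM => ?_
  have : (((fr S M).card + 2 * k : ℕ) : ℝ) = S.card := by rw [fr_card hM]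
  push_cast at this
  rw [H _ (by linarith)]

theorem EE_mono (hB : ∀ u v, 0 ≤ B u v) (S : Finset (Fin N)) (k : ℕ) {g h : Finset (Fin N) → ℝ}
    (H : ∀ F : Finset (Fin N), (F.card : ℝ) = S.card - 2 * k → g F ≤ h F) :
    EE B S k g ≤ EE B S k h := by
  refine sum_le_sum fun M hM => ?_
  have : (((fr S M).card + 2 * k : ℕ) : ℝ) = S.card := by rw [fr_card hM]
  push_cast at this
  exact mul_le_mul_of_nonneg_left (H _ (by linarith)) (prod_nonneg fun _ _ => hB _ _)

theorem EE_erase {S : Finset (Fin N)} {u : Fin N} (hu : u ∈ S) (k : ℕ) (g : Finset (Fin N) → ℝ) :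
    EE B (S.erase u) k g = ∑ M ∈ fam S k,
      if u ∈ fr S M then (∏ e ∈ M, B e.1 e.2) * g ((fr S M).erase u) else 0 := by
  rw [← sum_filter]
  refine sum_congr ?_ fun M _ => ?_
  · ext M
    simp only [mem_filter, mem_fam, mem_erase, fr, hu, true_and]
    constructor
    · rintro ⟨h1, h2⟩
      exact ⟨⟨h1, fun e he => ⟨(h2 e he).1.2, (h2 e he).2.2⟩⟩,
        fun e he => ⟨(h2 e he).1.1, (h2 e he).2.1⟩⟩
    · rintro ⟨⟨h1, h2⟩, h3⟩
      exact ⟨h1, fun e he => ⟨⟨(h3 e he).1, (h2 e he).1⟩, (h3 e he).2, (h2 e he).2⟩⟩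
  · unfold fr; rw [filter_erase]

theorem EE_sum (S : Finset (Fin N)) (k : ℕ) (g : Fin N → Finset (Fin N) → ℝ) :
    ∑ u ∈ S, EE B (S.erase u) k (g u) = EE B S k fun F => ∑ u ∈ F, g u (F.erase u) := by
  rw [sum_congr rfl fun u hu => EE_erase hu k (g u), sum_comm]
  refine sum_congr rfl fun M _ => ?_
  rw [← sum_filter, mul_sum]
  refine sum_congr ?_ fun _ _ => rfl
  ext x
  simp only [mem_filter, and_iff_right_iff_imp]
  exact fun h => (mem_filter.1 h).1

theorem EE_sum1 (S : Finset (Fin N)) (k : ℕ) (t : Fin N → ℝ) :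
    ∑ u ∈ S, t u * HS B (S.erase u) k = EE B S k fun F => ∑ u ∈ F, t u := by
  rw [← EE_sum S k fun u _ => t u]
  exact sum_congr rfl fun u _ => (EE_const _ _ _).symm

theorem EE_sum2 (S : Finset (Fin N)) (k : ℕ) (t : Fin N → Fin N → ℝ) :
    ∑ u ∈ S, ∑ v ∈ S.erase u, t u v * HS B ((S.erase u).erase v) k =
      EE B S k fun F => ∑ u ∈ F, ∑ v ∈ F.erase u, t u v := by
  rw [← EE_sum S k fun u F => ∑ v ∈ F, t u v]
  exact sum_congr rfl fun u _ => EE_sum1 _ _ _

theorem EE_sum4 (S : Finset (Fin N)) (k : ℕ) (t : Fin N → Fin N → Fin N → Fin N → ℝ) :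
    ∑ u ∈ S, ∑ v ∈ S.erase u, ∑ c ∈ (S.erase u).erase v, ∑ a ∈ ((S.erase u).erase v).erase c,
      t u v c a * HS B ((((S.erase u).erase v).erase c).erase a) k =
      EE B S k fun F => ∑ u ∈ F, ∑ v ∈ F.erase u, ∑ c ∈ (F.erase u).erase v,
        ∑ a ∈ ((F.erase u).erase v).erase c, t u v c a := by
  rw [← EE_sum S k fun u F => ∑ v ∈ F, ∑ c ∈ F.erase v, ∑ a ∈ (F.erase v).erase c, t u v c a]
  refine sum_congr rfl fun u _ => ?_
  rw [← EE_sum (S.erase u) k fun v F => ∑ c ∈ F, ∑ a ∈ F.erase c, t u v c a]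
  exact sum_congr rfl fun v _ => EE_sum2 _ _ _

theorem sum_erase_diag (F : Finset (Fin N)) (t : Fin N → Fin N → ℝ) (h : ∀ u, t u u = 0) :
    ∑ u ∈ F, ∑ v ∈ F.erase u, t u v = ∑ u ∈ F, ∑ v ∈ F, t u v :=
  sum_congr rfl fun u _ => sum_erase _ (h u)

theorem stepA (hb : Stoch B) (S : Finset (Fin N)) (k : ℕ) :
    2 * ((k : ℝ) + 1) * HS B S (k + 1) = EE B S k fun F => ∑ u ∈ F, ∑ v ∈ F, B u v := by
  have h1 : ∑ v ∈ S, HS B S (k + 1) = ∑ v ∈ S, (HS B (S.erase v) (k + 1) +
      ∑ u ∈ S.erase v, B v u * HS B ((S.erase v).erase u) k) :=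
    sum_congr rfl fun v hv => HS_rec B hb.symm S hv k
  rw [sum_add_distrib, EE_sum2, sum_const, nsmul_eq_mul] at h1
  have h2 := EE_sum1 (B := B) S (k + 1) fun _ => 1
  simp only [one_mul] at h2
  rw [EE_congr S (k + 1) (h := fun _ => (S.card : ℝ) - 2 * ((k : ℝ) + 1))
    (fun F hF => by simp [hF]), EE_const] at h2
  rw [← EE_congr S k (fun F _ => sum_erase_diag F B hb.diag)]
  linarith only [h1, h2]

theorem inner_ge (hb : Stoch B) (F : Finset (Fin N)) :
    2 * (F.card : ℝ) - N ≤ ∑ u ∈ F, ∑ v ∈ F, B u v := by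
  have h1 : ∑ u ∈ F, ∑ v ∈ F, B u v + ∑ u ∈ F, ∑ v ∈ Fᶜ, B u v = F.card := by
    rw [← sum_add_distrib, sum_congr rfl (g := fun _ => (1 : ℝ))
      (fun u _ => by rw [sum_add_sum_compl, hb.row])]
    simp
  have h2 : ∑ u ∈ F, ∑ v ∈ Fᶜ, B u v ≤ ∑ v ∈ Fᶜ, (1 : ℝ) := by
    rw [sum_comm]
    refine sum_le_sum fun v _ => ?_
    rw [sum_congr rfl fun u _ => hb.symm u v]
    exact row_le hb F v
  have h3 : ((F.card + Fᶜ.card : ℕ) : ℝ) = N := by rw [card_add_card_compl]; simp
  push_cast at h3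
  simp only [sum_const, nsmul_eq_mul, mul_one] at h2
  linarith

noncomputable def Phi (B : Matrix (Fin N) (Fin N) ℝ) (j : ℝ) (k : ℕ) : ℝ :=
  EE B univ k fun F => ∑ u ∈ F, ∑ v ∈ F, dev B j u v

noncomputable def RR (B : Matrix (Fin N) (Fin N) ℝ) (j : ℝ) (k : ℕ) : ℝ :=
  EE B univ k fun F => ∑ u ∈ F, ∑ v ∈ F, dev B j u v ^ 2

variable {j : ℝ}

theorem Phi_eq (k : ℕ) : Phi B j k =
    ∑ u, ∑ v ∈ univ.erase u, dev B j u v * HS B ((univ.erase u).erase v) k := by
  rw [EE_sum2]; exact EE_congr _ _ fun F _ => (sum_erase_diag F _ dev_self).symm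

theorem RR_eq (k : ℕ) : RR B j k =
    ∑ u, ∑ v ∈ univ.erase u, dev B j u v ^ 2 * HS B ((univ.erase u).erase v) k := by
  rw [EE_sum2]
  exact EE_congr _ _ fun F _ => (sum_erase_diag F _ fun u => by simp [dev_self]).symm

theorem HS_nonneg (hb : Stoch B) (S : Finset (Fin N)) (k : ℕ) : 0 ≤ HS B S k :=
  sum_nonneg fun _ _ => prod_nonneg fun _ _ => hb.nonneg _ _

theorem RR_nonneg (hb : Stoch B) (k : ℕ) : 0 ≤ RR B j k := by
  rw [RR_eq]
  exact sum_nonneg fun _ _ => sum_nonneg fun _ _ => mul_nonneg (sq_nonneg _) (HS_nonneg hb _ _)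

theorem stepC (hb : Stoch B) (k : ℕ) :
    ((N : ℝ) - 4 - 4 * k) * RR B j k ≤ 2 * ((k : ℝ) + 1) * RR B j (k + 1) := by
  rw [RR_eq, RR_eq, mul_sum, mul_sum]
  refine sum_le_sum fun u _ => ?_
  rw [mul_sum, mul_sum]
  refine sum_le_sum fun v hv => ?_
  have hc : (((univ.erase u).erase v).card : ℝ) = N - 2 := by
    have h1 := card_erase_add_one hv
    have h2 := card_erase_add_one (mem_univ u)
    have h3 : ((((univ.erase u).erase v).card + 2 : ℕ) : ℝ) = N := by
      rw [card_univ, Fintype.card_fin] at h2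
      exact_mod_cast (by omega)
    push_cast at h3
    linarith only [h3]
  have h1 := stepA hb ((univ.erase u).erase v) k
  have h2 := EE_mono hb.nonneg ((univ.erase u).erase v) k (g := fun _ => (N : ℝ) - 4 - 4 * k)
    (h := fun F => ∑ u ∈ F, ∑ v ∈ F, B u v) (fun F hF => by
      have := inner_ge hb F
      rw [hc] at hF
      linarith)
  rw [EE_const, ← h1] at h2
  have := mul_le_mul_of_nonneg_left h2 (sq_nonneg (dev B j u v))
  linarith

theorem kill_left (hb : Stoch B) (hj : j * (Fintype.card (Fin N) - 1) = 1) (g : Fin N → ℝ) :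
    ∑ u, ∑ v ∈ univ.erase u, dev B j u v * g u = 0 := by
  rw [sum_erase_diag univ _ fun u => by simp [dev_self]]
  simp only [← sum_mul, dev_row hb hj, zero_mul, sum_const_zero]

theorem kill_right (hb : Stoch B) (hj : j * (Fintype.card (Fin N) - 1) = 1) (g : Fin N → ℝ) :
    ∑ u, ∑ v ∈ univ.erase u, dev B j u v * g v = 0 := by
  rw [sum_erase_diag univ _ fun u => by simp [dev_self], sum_comm]
  refine sum_eq_zero fun v _ => ?_
  rw [← sum_mul, sum_congr rfl fun u _ => dev_symm hb u v, dev_row hb hj, zero_mul]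

theorem db_sum (hb : Stoch B) (k : ℕ) :
    ∑ u, ∑ v ∈ univ.erase u, dev B j u v * (B u v * HS B ((univ.erase u).erase v) k) =
      j * Phi B j k + RR B j k := by
  rw [Phi_eq, RR_eq, mul_sum, ← sum_add_distrib]
  refine sum_congr rfl fun u _ => ?_
  rw [mul_sum, ← sum_add_distrib]
  refine sum_congr rfl fun v hv => ?_
  rw [b_eq (j := j) hb u v, if_neg (ne_of_mem_erase hv).symm]
  ring

theorem Phi_zero (hb : Stoch B) (hj : j * (Fintype.card (Fin N) - 1) = 1) : Phi B j 0 = 0 := by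
  rw [Phi_eq]
  simp only [HS_zero]
  exact kill_left hb hj fun _ => 1

theorem Phi_one (hb : Stoch B) (hj : j * (Fintype.card (Fin N) - 1) = 1) :
    Phi B j 1 = RR B j 0 := by
  have h0 := db_sum (j := j) hb 0
  rw [Phi_zero hb hj, mul_zero, zero_add] at h0
  rw [Phi_eq, ← h0]
  have h1 := kill_left hb hj fun u => HS B (univ.erase u) 1 - 1
  rw [← add_zero (∑ u, ∑ v ∈ univ.erase u, dev B j u v * (B u v * _)), ← h1, ← sum_add_distrib]
  refine sum_congr rfl fun u _ => ?_
  rw [← sum_add_distrib]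
  refine sum_congr rfl fun v hv => ?_
  have h2 := HS_rec B hb.symm (univ.erase u) hv 0
  simp only [HS_zero, mul_one, zero_add] at h2 ⊢
  rw [sum_erase _ (hb.diag v), sum_erase_eq_sub (mem_univ u), hb.row, hb.symm v u] at h2
  rw [h2]
  ring

theorem stepB_eq (hb : Stoch B) (hj : j * (Fintype.card (Fin N) - 1) = 1) (k : ℕ) :
    Phi B j (k + 2) = j * Phi B j (k + 1) + RR B j (k + 1) +
      EE B univ k fun F => ∑ u ∈ F, ∑ v ∈ F, dev B j u v *
        ((∑ c ∈ F, B v c - B u v) * (∑ a ∈ F, B u a - B u v) - ∑ c ∈ F, B v c * B u c) := by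
  have h1 := kill_left hb hj fun u => HS B (univ.erase u) (k + 2)
  have h2 := kill_right hb hj fun v =>
    ∑ c ∈ univ.erase v, B v c * HS B ((univ.erase v).erase c) (k + 1)
  have h3 := EE_sum4 (B := B) univ k fun u v c a => dev B j u v * (B v c * B u a)
  rw [EE_congr univ k (h := fun F => ∑ u ∈ F, ∑ v ∈ F, dev B j u v *
    ((∑ c ∈ F, B v c - B u v) * (∑ a ∈ F, B u a - B u v) - ∑ c ∈ F, B v c * B u c))] at h3
  · rw [← h3, ← db_sum hb, Phi_eq]
    refine Eq.trans ?_ ((show ∀ x y z w : ℝ, x = 0 → y = 0 → x - y + z + w = z + w from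
      (fun x y z w hx hy => by rw [hx, hy]; ring) ) _ _ _ _ h1 h2)
    simp only [← sum_add_distrib, ← sum_sub_distrib]
    refine sum_congr rfl fun u _ => sum_congr rfl fun v hv => ?_
    have huv : u ∈ univ.erase v := mem_erase.2 ⟨(ne_of_mem_erase hv).symm, mem_univ u⟩
    have e1 := HS_rec B hb.symm (univ.erase u) hv (k + 1)
    have e2 : (univ.erase v).erase u = (univ.erase u).erase v := erase_right_comm
    have e3 : ∑ c ∈ (univ.erase u).erase v, B v c * HS B ((univ.erase v).erase c) (k + 1) =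
        ∑ c ∈ (univ.erase u).erase v, (B v c * HS B (((univ.erase u).erase v).erase c) (k + 1) +
          ∑ a ∈ ((univ.erase u).erase v).erase c, B v c * B u a *
            HS B ((((univ.erase u).erase v).erase c).erase a) k) := by
      refine sum_congr rfl fun c hc => ?_
      have hu : u ∈ (univ.erase v).erase c :=
        mem_erase.2 ⟨(ne_of_mem_erase (mem_of_mem_erase hc)).symm, huv⟩
      have e4 : ((univ.erase v).erase c).erase u = ((univ.erase u).erase v).erase c := by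
        rw [erase_right_comm, e2]
      rw [HS_rec B hb.symm _ hu k, e4, mul_add, mul_sum]
      simp only [mul_assoc]
    rw [← add_sum_erase _ _ huv, e2, e3, sum_add_distrib, e1, hb.symm v u]
    simp only [mul_assoc, ← mul_sum]
    ring
  · intro F _
    rw [← sum_erase_diag F _ fun u => by simp [dev_self]]
    refine sum_congr rfl fun u hu => sum_congr rfl fun v hv => ?_
    simp only [← mul_sum]
    congr 1
    have e1 : ∀ c ∈ (F.erase u).erase v, B v c * ∑ a ∈ ((F.erase u).erase v).erase c, B u a =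
        B v c * (∑ a ∈ F, B u a - B u v - B u c) := by
      intro c hc
      rw [sum_erase_eq_sub hc, sum_erase_eq_sub hv, sum_erase _ (hb.diag u)]
    rw [sum_congr rfl e1, sum_erase _ (by simp [hb.diag]), sum_erase_eq_sub hu, hb.diag u,
      hb.symm v u]
    simp only [mul_sub, sum_sub_distrib, ← sum_mul]
    ring

theorem stepB [NeZero N] (hb : Stoch B) (hj : j * (Fintype.card (Fin N) - 1) = 1) (hj0 : 0 ≤ j)
    (hj1 : j ≤ 1) (k : ℕ) (hl : 1 / 2 ≤ 2 * j * ((N : ℝ) - 2 * k - 3) - (1 - j)) :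
    j * Phi B j (k + 1) + RR B j (k + 1) +
      j ^ 2 * ((N : ℝ) - 2 * k - 2) * ((N : ℝ) - 2 * k - 3) * Phi B j k -
      (2 * j * ((N : ℝ) - 2 * k - 3) + 1 + 6 * j) * RR B j k ≤ Phi B j (k + 2) := by
  rw [stepB_eq hb hj]
  have h := EE_mono hb.nonneg univ k fun F hF =>
    T_bound hb hj hj0 hj1 F ((N : ℝ) - 2 * k) (by rw [hF]; simp) hl
  simp only [sub_eq_add_neg (_ * ∑ u ∈ _, ∑ v ∈ _, dev B j u v), ← neg_mul] at h
  rw [EE_add, EE_mul, EE_mul] at h
  unfold Phi RR
  linarith only [h]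

theorem stepM (hb : Stoch B) (k : ℕ) : 2 * ((k : ℝ) + 1) * HS B univ (k + 1) =
    j * (((N : ℝ) - 2 * k) * ((N : ℝ) - 2 * k - 1)) * HS B univ k + Phi B j k := by
  rw [stepA hb, ← EE_const, Phi, ← EE_add]
  refine EE_congr _ _ fun F hF => ?_
  have : ∀ u ∈ F, ∑ v ∈ F, B u v = ∑ v ∈ F, dev B j u v + j * ((F.card : ℝ) - 1) := by
    intro u hu
    have h1 := sum_b_eq (j := j) hb hu (fun _ => 1)
    simp only [mul_one, sum_const, nsmul_eq_mul] at h1
    rw [h1]; ring
  rw [sum_congr rfl this, sum_add_distrib, sum_const, nsmul_eq_mul, hF]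
  simp only [card_univ, Fintype.card_fin]
  ring

end Pool.Agent.Work.MP_33747a_co
end

-- merged part: Pool.Agent.Work.MP_33747a_co.Min
section
set_option autoImplicit false

namespace Pool.Agent.Work.MP_33747a_co

open Finset

theorem stoch_of_mem {n : ℕ} {B : Matrix (Fin (2 * n)) (Fin (2 * n)) ℝ} (hB : B ∈ Psi n) :
    Stoch B := by
  refine convexHull_min (t := {B : Matrix (Fin (2 * n)) (Fin (2 * n)) ℝ | Stoch B}) ?_ ?_ hB
  · rintro A ⟨f, h1, h2, rfl⟩
    refine ⟨fun u v => ?_, fun u => by simp [h2], fun u v => ?_, fun u => by simp⟩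
    · simp only [Matrix.of_apply]
      refine if_congr ?_ rfl rfl
      constructor <;> rintro rfl <;> exact h1 _
    · simp only [Matrix.of_apply]; split_ifs <;> norm_num
  · intro A hA C hC a c ha hc hac
    refine ⟨fun u v => ?_, fun u => ?_, fun u v => ?_, fun u => ?_⟩
    · simp [hA.symm u v, hC.symm u v]
    · simp [hA.diag, hC.diag]
    · simp only [Matrix.add_apply, Matrix.smul_apply, smul_eq_mul]
      exact add_nonneg (mul_nonneg ha (hA.nonneg u v)) (mul_nonneg hc (hC.nonneg u v))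
    · simp only [Matrix.add_apply, Matrix.smul_apply, smul_eq_mul, sum_add_distrib, ← mul_sum,
        hA.row, hC.row]
      linarith

theorem J_mem (n : ℕ) (hn : 1 ≤ n) : J n ∈ Psi n := by
  obtain ⟨r, hr⟩ : ∃ r, 2 * n = 1 + r := ⟨2 * n - 1, by omega⟩
  have : NeZero r := ⟨by omega⟩
  have hodd : Odd r := ⟨n - 1, by omega⟩
  have hr0 : (0 : ℝ) < r := Nat.cast_pos.2 (Nat.pos_of_ne_zero (NeZero.ne r))
  have hr' : 2 * (n : ℝ) - 1 = r := by
    have : ((2 * n : ℕ) : ℝ) = ((1 + r : ℕ) : ℝ) := by rw [hr]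
    push_cast at this; linarith only [this]
  obtain ⟨e⟩ : Nonempty (Fin (2 * n) ≃ Fin 1 ⊕ ZMod r) :=
    Fintype.card_eq.1 (by simp [hr, ZMod.card])
  have h1 : ∀ i : Fin 1, id (id i) = i := fun _ => rfl
  have h2 : ∀ i : Fin 1, id i = i ↔ i = 0 := fun i => by simp [Subsingleton.elim i 0]
  have hu : IsUnit (2 : ZMod r) := by
    have := (ZMod.isUnit_iff_coprime 2 r).2 (Nat.coprime_two_left.2 hodd)
    simpa using this
  obtain ⟨w, hw⟩ := hu.exists_left_inv
  have key : ∀ x y : Fin 1 ⊕ ZMod r, x ≠ y →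
      ∑ c : ZMod r, (if ff id 0 c x = y then (1 : ℝ) else 0) = 1 := by
    intro x y hxy
    cases x with
    | inl i =>
      cases y with
      | inl j => exact absurd (by rw [Subsingleton.elim i j]) hxy
      | inr o => simp [ff, Subsingleton.elim i 0]
    | inr o =>
      cases y with
      | inl j =>
        rw [sum_eq_single o]
        · simp [ff, Subsingleton.elim j 0]
        · intro c _ hc; simp [ff, Ne.symm hc]
        · simp
      | inr o' =>
        have hoo : o ≠ o' := fun h => hxy (by rw [h])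
        rw [sum_eq_single (w * (o + o'))]
        · have h3 : o ≠ w * (o + o') := by
            intro h3
            apply hoo
            linear_combination 2 * h3 + (o + o') * hw
          have h4 : 2 * (w * (o + o')) - o = o' := by linear_combination (o + o') * hw
          simp [ff, h3, h4]
        · intro c _ hc
          rw [if_neg]
          by_cases h : o = c
          · simp [ff, h]
          · simp only [ff, h, if_false, Sum.inr.injEq]
            intro h3
            apply hc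
            linear_combination w * h3 - c * hw
        · simp
  have : J n = ∑ c : ZMod r, (1 / (r : ℝ)) •
      (Matrix.of fun i j => if e.symm (ff id 0 c (e i)) = j then (1 : ℝ) else 0) := by
    ext i j
    simp only [J, Matrix.of_apply, Matrix.sum_apply, Matrix.smul_apply, smul_eq_mul,
      Equiv.symm_apply_eq, ← mul_sum, hr']
    by_cases hij : i = j
    · subst hij
      simp [ff_ne hodd h2]
    · rw [if_neg hij, key _ _ (e.injective.ne hij), mul_one]
  rw [this]
  refine (convex_convexHull ℝ _).sum_mem (fun _ _ => by positivity) ?_ fun c _ =>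
    subset_convexHull ℝ _ ⟨fun i => e.symm (ff id 0 c (e i)), ?_, ?_, rfl⟩
  · simp only [sum_const, card_univ, ZMod.card, nsmul_eq_mul]
    field_simp
  · intro i
    simp [ff_invol h1 h2]
  · intro i h
    rw [Equiv.symm_apply_eq] at h
    exact ff_ne hodd h2 _ _ h

section
variable {n : ℕ} {B : Matrix (Fin (2 * n)) (Fin (2 * n)) ℝ} {j : ℝ}

theorem Phi_nonneg (hb : Stoch B) (hn : 6 ≤ n) (hj : j * (2 * (n : ℝ) - 1) = 1) :
    ∀ k : ℕ, 5 * k ≤ n + 5 → 0 ≤ Phi B j k := by
  have hn' : (6 : ℝ) ≤ n := by exact_mod_cast hn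
  have hj' : j * ((Fintype.card (Fin (2 * n)) : ℝ) - 1) = 1 := by simpa using hj
  have hj0 : 0 ≤ j := by
    by_contra h
    push Not at h
    linarith only [hj, h, hn', mul_nonneg_of_nonpos_of_nonpos (Mathlib.Tactic.Linarith.sub_nonpos_of_le hn') (le_of_lt (Mathlib.Tactic.Linarith.sub_neg_of_lt h))]
  have hj1 : j * 11 ≤ 1 := by linarith only [hj, hn', hj0, mul_nonneg_of_nonpos_of_nonpos (Mathlib.Tactic.Linarith.sub_nonpos_of_le hn') (Mathlib.Tactic.Linarith.sub_nonpos_of_le hj0)]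
  have : NeZero (2 * n) := ⟨by omega⟩
  intro k
  induction k using Nat.strong_induction_on with
  | _ k ih =>
    intro hk
    match k, ih, hk with
    | 0, _, _ => rw [Phi_zero hb hj']
    | 1, _, _ => rw [Phi_one hb hj']; exact RR_nonneg hb 0
    | k + 2, ih, hk =>
      have hk' : 5 * (k : ℝ) + 5 ≤ n := by exact_mod_cast (by omega : 5 * k + 5 ≤ n)
      have hk0 : (0 : ℝ) ≤ k := Nat.cast_nonneg k
      have e1 : 2 * j * (2 * (n : ℝ) - 2 * k - 3) = 2 - j * (4 * k + 4) := by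
        linear_combination 2 * hj
      have e2 : j * (8 * k + 6) ≤ 1 := by
        rw [← hj]; exact mul_le_mul_of_nonneg_left (by linarith only [hn', hk']) hj0
      have hB := stepB hb hj' hj0 (by linarith only [hj1]) k (by push_cast; rw [e1]; linarith only [e2])
      have hC := stepC (j := j) hb k
      push_cast at hB hC
      rw [e1] at hB
      have p1 := ih (k + 1) (by omega) (by omega)
      have p0 := ih k (by omega) (by omega)
      have r0 := RR_nonneg (j := j) hb k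
      have q1 := mul_nonneg hj0 p1
      have q0 : 0 ≤ j ^ 2 * (2 * (n : ℝ) - 2 * k - 2) * (2 * (n : ℝ) - 2 * k - 3) * Phi B j k :=
        mul_nonneg (mul_nonneg (mul_nonneg (sq_nonneg _) (by linarith only [hn', hk'])) (by linarith only [hn', hk'])) p0
      have e3 : 2 * ((k : ℝ) + 1) * (2 - j * (4 * k + 4) + 1 + 6 * j) ≤ 2 * n - 4 - 4 * k := by
        rcases Nat.eq_zero_or_pos k with h | h
        · subst h; push_cast; linarith only [hn', hj1]
        · have h1 : (1 : ℝ) ≤ k := by exact_mod_cast h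
          have : 0 ≤ ((k : ℝ) + 1) * (j * (4 * k - 2)) :=
            mul_nonneg (by linarith only [h1]) (mul_nonneg hj0 (by linarith only [h1]))
          linarith only [hk', this]
      have e4 := mul_le_mul_of_nonneg_right e3 r0
      have e5 : (2 - j * (4 * k + 4) + 1 + 6 * j) * RR B j k ≤ RR B j (k + 1) := by
        refine le_of_mul_le_mul_left ?_ (show (0 : ℝ) < 2 * ((k : ℝ) + 1) by linarith only [])
        linarith only [hC, e4]
      linarith only [hB, q1, q0, e5]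

theorem stoch_J (hn : 1 ≤ n) : Stoch (J n) := stoch_of_mem (J_mem n hn)

theorem Phi_J (k : ℕ) : Phi (J n) (1 / (2 * (n : ℝ) - 1)) k = 0 := by
  rw [Phi_eq]
  refine sum_eq_zero fun u _ => sum_eq_zero fun v hv => ?_
  simp [dev, J, (ne_of_mem_erase hv).symm]

theorem HS_ge (hb : Stoch B) (hn : 6 ≤ n) : ∀ k : ℕ, 5 * k ≤ n + 10 →
    HS (J n) univ k ≤ HS B univ k ∧ (2 ≤ k → B ≠ J n → HS (J n) univ k < HS B univ k) := by
  have hn' : (6 : ℝ) ≤ n := by exact_mod_cast hn
  have h0 : (0 : ℝ) < 2 * (n : ℝ) - 1 := by linarith only [hn']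
  have hj : 1 / (2 * (n : ℝ) - 1) * (2 * (n : ℝ) - 1) = 1 := by field_simp
  intro k
  induction k with
  | zero => intro _; simp [HS_zero]
  | succ k ih =>
    intro hk
    obtain ⟨ih1, ih2⟩ := ih (by omega)
    have hk' : 5 * (k : ℝ) ≤ n + 5 := by exact_mod_cast (by omega : 5 * k ≤ n + 5)
    have e1 := stepM (j := 1 / (2 * (n : ℝ) - 1)) hb k
    have e2 := stepM (j := 1 / (2 * (n : ℝ) - 1)) (stoch_J (n := n) (by omega)) k
    rw [Phi_J, add_zero] at e2
    have p := Phi_nonneg hb hn hj k (by omega)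
    push_cast at e1 e2
    have hc : 0 < 1 / (2 * (n : ℝ) - 1) * ((2 * (n : ℝ) - 2 * k) * (2 * (n : ℝ) - 2 * k - 1)) :=
      mul_pos (by positivity) (mul_pos (by linarith only [hn', hk']) (by linarith only [hn', hk']))
    have hk1 : (0 : ℝ) < 2 * ((k : ℝ) + 1) := by positivity
    have m1 := mul_le_mul_of_nonneg_left ih1 hc.le
    refine ⟨le_of_mul_le_mul_left (by linarith only [p, e1, e2, m1]) hk1, fun h2 hne => lt_of_mul_lt_mul_left ?_ hk1.le⟩
    rcases (show k = 1 ∨ 2 ≤ k by omega) with h3 | h3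
    · subst h3
      have hj' : 1 / (2 * (n : ℝ) - 1) * ((Fintype.card (Fin (2 * n)) : ℝ) - 1) = 1 := by
        simpa using hj
      have : 0 < Phi B (1 / (2 * (n : ℝ) - 1)) 1 := by
        rw [Phi_one hb hj', RR_eq]
        simp only [HS_zero, mul_one]
        obtain ⟨u, v, huv⟩ : ∃ u v, B u v ≠ J n u v := by
          by_contra h
          push Not at h
          exact hne (Matrix.ext h)
        have hne' : u ≠ v := by
          rintro rfl
          exact huv (by simp [hb.diag, J])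
        refine sum_pos' (fun _ _ => sum_nonneg fun _ _ => sq_nonneg _) ⟨u, mem_univ _, ?_⟩
        refine sum_pos' (fun _ _ => sq_nonneg _) ⟨v, mem_erase.2 ⟨hne'.symm, mem_univ _⟩, ?_⟩
        refine sq_pos_of_ne_zero ?_
        simp only [dev, hne', if_false]
        intro h
        apply huv
        simp only [J, Matrix.of_apply, hne', if_false]
        linarith only [h]
      rw [e1, e2]
      exact lt_of_le_of_lt m1 (lt_add_of_pos_right _ this)
    · have := mul_lt_mul_of_pos_left (ih2 h3 hne) hc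
      linarith only [p, e1, e2, this]

end

theorem min_at_J (n k : ℕ) (hn : 6 ≤ n) (hk : 2 ≤ k) (h : 5 * k ≤ n + 10) :
    J n ∈ Psi n ∧ ∀ B ∈ Psi n, B ≠ J n → haf k (J n) < haf k B := by
  refine ⟨J_mem n (by omega), fun B hB hne => ?_⟩
  rw [haf_eq, haf_eq]
  exact (HS_ge (stoch_of_mem hB) hn k h).2 hk hne

end Pool.Agent.Work.MP_33747a_co
end
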