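import Mathlib
import Pool.Agent.Work.MP_33747a_co.Gadget

-- merged part: Pool.Agent.Work.MP_33747a_co.EQ3
section
-- merged part: Pool.Agent.Work.MP_33747a_co.EK1
section
set_option autoImplicit false
set_option linter.unusedSectionVars false

namespace Pool.Agent.Work.MP_33747a_co.EK

open Finset Real

variable {ι E : Type*} [Fintype ι] [Fintype E]

/-- marginal vector of a (signed) measure -/
def marg (φ : ι → E → ℝ) (P : ι → ℝ) (e : E) : ℝ := ∑ i, P i * φ i e

/-- Shannon entropy -/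
noncomputable def ent (P : ι → ℝ) : ℝ := ∑ i, negMulLog (P i)

def dot (θ x : E → ℝ) : ℝ := ∑ e, θ e * x e

def Ker (φ : ι → E → ℝ) (ν : ι → ℝ) : Prop := ∑ i, ν i = 0 ∧ ∀ e, marg φ ν e = 0

def Smp (P : ι → ℝ) : Prop := (∀ i, 0 ≤ P i) ∧ ∑ i, P i = 1

/-- the closed exponential family, in toric form -/
def K (φ : ι → E → ℝ) : Set (ι → ℝ) :=
  {P | Smp P ∧ ∀ ν, Ker φ ν → ∏ i, P i ^ (max (ν i) 0) = ∏ i, P i ^ (max (-ν i) 0)}

/-- `u` is an affine function of `φ` on the support of `P` (dual form) -/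
def Aff (φ : ι → E → ℝ) (P u : ι → ℝ) : Prop :=
  ∀ ν, Ker φ ν → (∀ i, P i = 0 → ν i = 0) → ∑ i, ν i * u i = 0

noncomputable def Zt (P u : ι → ℝ) (t : ℝ) : ℝ := ∑ i, P i * exp (t * u i)

noncomputable def tilt (P u : ι → ℝ) (t : ℝ) (i : ι) : ℝ := P i * exp (t * u i) / Zt P u t

/-- a point that no linear functional separates from the points `φ i` -/
def Good (φ : ι → E → ℝ) (x : E → ℝ) : Prop := ∀ θ : E → ℝ, ∃ i, dot θ x ≤ dot θ (φ i)

theorem Smp.exists_pos {P : ι → ℝ} (h : Smp P) : ∃ i, 0 < P i := by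
  by_contra hc
  push Not at hc
  have : ∑ i, P i ≤ 0 := Finset.sum_nonpos fun i _ => hc i
  linarith [h.2]

theorem Smp.le_one {P : ι → ℝ} (h : Smp P) (i : ι) : P i ≤ 1 := by
  rw [← h.2]
  exact Finset.single_le_sum (fun j _ => h.1 j) (mem_univ i)

theorem Zt_pos {P : ι → ℝ} (h : Smp P) (u : ι → ℝ) (t : ℝ) : 0 < Zt P u t := by
  obtain ⟨i, hi⟩ := h.exists_pos
  exact Finset.sum_pos' (fun j _ => mul_nonneg (h.1 j) (exp_pos _).le)
    ⟨i, mem_univ i, mul_pos hi (exp_pos _)⟩

theorem tilt_smp {P : ι → ℝ} (h : Smp P) (u : ι → ℝ) (t : ℝ) : Smp (tilt P u t) := by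
  have hZ := Zt_pos h u t
  refine ⟨fun i => div_nonneg (mul_nonneg (h.1 i) (exp_pos _).le) hZ.le, ?_⟩
  unfold tilt
  rw [← Finset.sum_div]
  exact div_self hZ.ne'

theorem tilt_zero {P : ι → ℝ} (h : Smp P) (u : ι → ℝ) : tilt P u 0 = P := by
  funext i
  simp [tilt, Zt, h.2]

theorem tilt_eq {P : ι → ℝ} (h : Smp P) (u : ι → ℝ) (t : ℝ) (i : ι) :
    tilt P u t i = P i * exp (t * u i - log (Zt P u t)) := by
  rw [exp_sub, exp_log (Zt_pos h u t), tilt, mul_div_assoc]

theorem isCompact_K (φ : ι → E → ℝ) : IsCompact (K φ) := by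
  refine (isCompact_stdSimplex ℝ ι).of_isClosed_subset ?_ (fun P hP => hP.1)
  have h1 : IsClosed {P : ι → ℝ | Smp P} := isClosed_stdSimplex ℝ ι
  have h2 : IsClosed {P : ι → ℝ | ∀ ν, Ker φ ν →
      ∏ i, P i ^ (max (ν i) 0) = ∏ i, P i ^ (max (-ν i) 0)} := by
    simp only [Set.ofPred_forall]
    refine isClosed_iInter fun ν => isClosed_iInter fun _ => isClosed_eq ?_ ?_
    · exact continuous_finsetProd _ fun i _ =>
        (Real.continuous_rpow_const (le_max_right _ _)).comp (continuous_apply i)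
    · exact continuous_finsetProd _ fun i _ =>
        (Real.continuous_rpow_const (le_max_right _ _)).comp (continuous_apply i)
  exact h1.inter h2

theorem prod_exp_rpow (c a : ι → ℝ) : ∏ i, exp (c i) ^ (a i) = exp (∑ i, a i * c i) := by
  rw [exp_sum]
  refine Finset.prod_congr rfl fun i _ => ?_
  rw [← exp_mul, mul_comm]

theorem max_sub_max (a : ℝ) : max a 0 - max (-a) 0 = a := by
  rcases le_total a 0 with h | h
  · rw [max_eq_right h, max_eq_left (by linarith)]; ring
  · rw [max_eq_left h, max_eq_right (by linarith)]; ring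

theorem supp_of_prod_ne {P ν : ι → ℝ} (h1 : ∏ i, P i ^ (max (ν i) 0) ≠ 0)
    (h2 : ∏ i, P i ^ (max (-ν i) 0) ≠ 0) (i : ι) (hi : P i = 0) : ν i = 0 := by
  have a1 := Finset.prod_ne_zero_iff.1 h1 i (mem_univ i)
  have a2 := Finset.prod_ne_zero_iff.1 h2 i (mem_univ i)
  rw [hi] at a1 a2
  have b1 : max (ν i) 0 = 0 := by
    by_contra hc
    exact a1 (Real.zero_rpow hc)
  have b2 : max (-ν i) 0 = 0 := by
    by_contra hc
    exact a2 (Real.zero_rpow hc)
  have := max_sub_max (ν i)
  rw [b1, b2] at this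
  linarith

theorem tilt_mem {φ : ι → E → ℝ} {P : ι → ℝ} (hP : P ∈ K φ) {u : ι → ℝ} (hu : Aff φ P u) (t : ℝ) :
    tilt P u t ∈ K φ := by
  refine ⟨tilt_smp hP.1 u t, fun ν hν => ?_⟩
  have key : ∀ a : ι → ℝ, ∏ i, tilt P u t i ^ (a i) =
      (∏ i, P i ^ (a i)) * exp (∑ i, a i * (t * u i - log (Zt P u t))) := by
    intro a
    rw [← prod_exp_rpow, ← Finset.prod_mul_distrib]
    refine Finset.prod_congr rfl fun i _ => ?_
    rw [tilt_eq hP.1, Real.mul_rpow (hP.1.1 i) (exp_pos _).le]
  rw [key, key, ← hP.2 ν hν]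
  by_cases h0 : ∏ i, P i ^ (max (ν i) 0) = 0
  · rw [h0]; simp
  · congr 2
    have hs := supp_of_prod_ne h0 (by rw [← hP.2 ν hν]; exact h0)
    have h1 := hu ν hν hs
    rw [← sub_eq_zero, ← Finset.sum_sub_distrib]
    have : ∀ i, max (ν i) 0 * (t * u i - log (Zt P u t)) - max (-ν i) 0 * (t * u i - log (Zt P u t))
        = t * (ν i * u i) - ν i * log (Zt P u t) := by
      intro i
      rw [← sub_mul, max_sub_max]; ring
    simp only [this]
    rw [Finset.sum_sub_distrib, ← Finset.mul_sum, ← Finset.sum_mul, h1, hν.1]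
    ring

theorem aff_dot (φ : ι → E → ℝ) (P : ι → ℝ) (θ : E → ℝ) : Aff φ P (fun i => dot θ (φ i)) := by
  intro ν hν _
  simp only [dot, Finset.mul_sum]
  rw [Finset.sum_comm]
  refine Finset.sum_eq_zero fun e _ => ?_
  have := hν.2 e
  unfold marg at this
  calc ∑ i, ν i * (θ e * φ i e) = θ e * ∑ i, ν i * φ i e := by
        rw [Finset.mul_sum]; exact Finset.sum_congr rfl fun i _ => by ring
    _ = 0 := by rw [this, mul_zero]

theorem aff_log {φ : ι → E → ℝ} {P : ι → ℝ} (hP : P ∈ K φ) : Aff φ P (fun i => log (P i)) := by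
  intro ν hν hs
  have key : ∀ a : ι → ℝ, (∀ i, P i = 0 → a i = 0) →
      ∏ i, P i ^ (a i) = exp (∑ i, a i * log (P i)) := by
    intro a ha
    rw [exp_sum]
    refine Finset.prod_congr rfl fun i _ => ?_
    rcases (hP.1.1 i).eq_or_lt with h | h
    · rw [ha i h.symm]; simp
    · rw [Real.rpow_def_of_pos h, mul_comm]
  have h := hP.2 ν hν
  rw [key _ (fun i hi => by rw [hs i hi]; simp), key _ (fun i hi => by rw [hs i hi]; simp),
    exp_eq_exp, ← sub_eq_zero, ← Finset.sum_sub_distrib] at h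
  rw [← h]
  refine Finset.sum_congr rfl fun i _ => ?_
  rw [← sub_mul, max_sub_max]

theorem Aff.add {φ : ι → E → ℝ} {P u v : ι → ℝ} (hu : Aff φ P u) (hv : Aff φ P v) :
    Aff φ P (fun i => u i + v i) := by
  intro ν hν hs
  simp only [mul_add, Finset.sum_add_distrib]
  rw [hu ν hν hs, hv ν hν hs, add_zero]

theorem supp_max {φ : ι → E → ℝ} {P Q : ι → ℝ} (hP : P ∈ K φ) (hQ : Smp Q)
    (h : ∀ e, marg φ Q e = marg φ P e) (i : ι) (hi : P i = 0) : Q i = 0 := by
  have hν : Ker φ (fun j => Q j - P j) := by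
    refine ⟨by rw [Finset.sum_sub_distrib, hQ.2, hP.1.2, sub_self], fun e => ?_⟩
    have := h e
    unfold marg at this ⊢
    simp only [sub_mul, Finset.sum_sub_distrib]
    rw [this, sub_self]
  have h2 : ∏ j, P j ^ (max (-(Q j - P j)) 0) ≠ 0 := by
    refine Finset.prod_ne_zero_iff.2 fun j _ => ?_
    rcases (hP.1.1 j).eq_or_lt with h0 | h0
    · rw [← h0, max_eq_right (by linarith [hQ.1 j])]; simp
    · exact (Real.rpow_pos_of_pos h0 _).ne'
  have := supp_of_prod_ne (ν := fun j => Q j - P j) (by rw [hP.2 _ hν]; exact h2) h2 i hi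
  simp only [hi, sub_zero] at this
  exact this

theorem unif_mem [Nonempty ι] (φ : ι → E → ℝ) : (fun _ => (Fintype.card ι : ℝ)⁻¹) ∈ K φ := by
  have hc : (0 : ℝ) < Fintype.card ι := by exact_mod_cast Fintype.card_pos
  refine ⟨⟨fun _ => (inv_pos.2 hc).le, by simp [hc.ne']⟩, fun ν hν => ?_⟩
  rw [← Real.rpow_sum_of_pos (inv_pos.2 hc), ← Real.rpow_sum_of_pos (inv_pos.2 hc)]
  congr 1
  rw [← sub_eq_zero, ← Finset.sum_sub_distrib]
  simp only [max_sub_max]
  exact hν.1

/-- Gibbs inequality -/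
theorem gibbs {P g s : ι → ℝ} (hP : Smp P) (hg : ∀ i, 0 ≤ g i) (hs : ∀ i, 0 < P i → g i = exp (s i)) :
    exp (ent P + ∑ i, P i * s i) ≤ ∑ i, g i := by
  obtain ⟨i0, hi0⟩ := hP.exists_pos
  have hZ : 0 < ∑ i, g i :=
    Finset.sum_pos' (fun j _ => hg j) ⟨i0, mem_univ _, by rw [hs i0 hi0]; exact exp_pos _⟩
  rw [← exp_log hZ, exp_le_exp]
  have key : ∀ i, negMulLog (P i) + P i * s i - P i * log (∑ j, g j) ≤ g i / (∑ j, g j) - P i := by
    intro i
    rcases (hP.1 i).eq_or_lt with h | h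
    · rw [← h]; simp; exact div_nonneg (hg i) hZ.le
    · have h1 : 0 < g i := by rw [hs i h]; exact exp_pos _
      have h2 := Real.log_le_sub_one_of_pos (div_pos (div_pos h1 hZ) h)
      rw [Real.log_div (div_pos h1 hZ).ne' h.ne', Real.log_div h1.ne' hZ.ne'] at h2
      have h3 : log (g i) = s i := by rw [hs i h, log_exp]
      rw [h3] at h2
      have h4 := mul_le_mul_of_nonneg_left h2 h.le
      have h5 : P i * (g i / (∑ j, g j) / P i - 1) = g i / (∑ j, g j) - P i := by field_simp
      rw [h5] at h4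
      unfold negMulLog
      linarith only [h4]
  have := Finset.sum_le_sum fun i (_ : i ∈ univ) => key i
  rw [Finset.sum_sub_distrib, Finset.sum_sub_distrib, Finset.sum_add_distrib, ← Finset.sum_mul,
    ← Finset.sum_div, div_self hZ.ne', hP.2] at this
  unfold ent
  linarith

end Pool.Agent.Work.MP_33747a_co.EK
end

-- merged part: Pool.Agent.Work.MP_33747a_co.EK2
section
set_option autoImplicit false
set_option linter.unusedSectionVars false

namespace Pool.Agent.Work.MP_33747a_co.EK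

open Finset Real

variable {ι E : Type*} [Fintype ι] [Fintype E]

noncomputable def Et (P u : ι → ℝ) (t : ℝ) (g : ι → ℝ) : ℝ := ∑ i, tilt P u t i * g i

noncomputable def Cv (P u : ι → ℝ) (t : ℝ) (g h : ι → ℝ) : ℝ :=
  Et P u t (fun i => g i * h i) - Et P u t g * Et P u t h

theorem Et_eq (P u : ι → ℝ) (t : ℝ) (g : ι → ℝ) :
    Et P u t g = (∑ i, P i * exp (t * u i) * g i) / Zt P u t := by
  unfold Et tilt
  rw [Finset.sum_div]
  exact Finset.sum_congr rfl fun i _ => by ring

theorem hasDerivAt_num (P u g : ι → ℝ) (t : ℝ) :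
    HasDerivAt (fun t => ∑ i, P i * exp (t * u i) * g i) (∑ i, P i * exp (t * u i) * (g i * u i)) t := by
  have := HasDerivAt.fun_sum (u := univ) (x := t)
    (A := fun i t => P i * exp (t * u i) * g i)
    (A' := fun i => P i * exp (t * u i) * (g i * u i)) (fun i _ => by
      have h1 : HasDerivAt (fun t => t * u i) (u i) t := by
        simpa using (hasDerivAt_id t).mul_const (u i)
      have h2 := (h1.exp.const_mul (P i)).mul_const (g i)
      exact h2.congr_deriv (by ring))
  exact this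

theorem hasDerivAt_Zt (P u : ι → ℝ) (t : ℝ) :
    HasDerivAt (Zt P u) (∑ i, P i * exp (t * u i) * u i) t := by
  have := hasDerivAt_num P u (fun _ => 1) t
  simp only [mul_one, one_mul] at this
  exact this

theorem hasDerivAt_Et {P : ι → ℝ} (hP : Smp P) (u g : ι → ℝ) (t : ℝ) :
    HasDerivAt (fun t => Et P u t g) (Cv P u t g u) t := by
  have hZ := Zt_pos hP u t
  have h := (hasDerivAt_num P u g t).div (hasDerivAt_Zt P u t) hZ.ne'
  have e1 : (fun t => Et P u t g) = fun t => (∑ i, P i * exp (t * u i) * g i) / Zt P u t :=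
    funext fun t => Et_eq P u t g
  rw [e1]
  refine HasDerivAt.congr_deriv h ?_
  unfold Cv
  rw [Et_eq, Et_eq, Et_eq]
  field_simp

theorem hasDerivAt_logZ {P : ι → ℝ} (hP : Smp P) (u : ι → ℝ) (t : ℝ) :
    HasDerivAt (fun t => log (Zt P u t)) (Et P u t u) t := by
  have h := (hasDerivAt_Zt P u t).log (Zt_pos hP u t).ne'
  rw [Et_eq]
  exact h

theorem differentiableAt_Cv {P : ι → ℝ} (hP : Smp P) (u g h : ι → ℝ) (t : ℝ) :
    ∃ c, HasDerivAt (fun t => Cv P u t g h) c t :=
  ⟨_, (hasDerivAt_Et hP u _ t).sub ((hasDerivAt_Et hP u g t).mul (hasDerivAt_Et hP u h t))⟩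

theorem ent_tilt {P : ι → ℝ} (hP : Smp P) (u : ι → ℝ) (t : ℝ) :
    ent (tilt P u t) = -Et P u t (fun i => log (P i)) - t * Et P u t u + log (Zt P u t) := by
  have h1 := (tilt_smp hP u t).2
  have key : ∀ i, negMulLog (tilt P u t i) = -(tilt P u t i * log (P i)) - t * (tilt P u t i * u i)
      + tilt P u t i * log (Zt P u t) := by
    intro i
    rcases (hP.1 i).eq_or_lt with h | h
    · simp [tilt, ← h]
    · have : log (tilt P u t i) = log (P i) + (t * u i - log (Zt P u t)) := by
        rw [tilt_eq hP, Real.log_mul h.ne' (exp_pos _).ne', log_exp]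
      unfold negMulLog
      rw [this]; ring
  unfold ent Et
  simp only [key]
  rw [Finset.sum_add_distrib, Finset.sum_sub_distrib, Finset.sum_neg_distrib, ← Finset.mul_sum,
    ← Finset.sum_mul, h1, one_mul]

theorem Et_zero {P : ι → ℝ} (hP : Smp P) (u g : ι → ℝ) : Et P u 0 g = ∑ i, P i * g i := by
  unfold Et
  rw [tilt_zero hP]

theorem marg_tilt (φ : ι → E → ℝ) (P u : ι → ℝ) (t : ℝ) (e : E) :
    marg φ (tilt P u t) e = Et P u t (fun i => φ i e) := rfl

theorem Et_congr {P : ι → ℝ} (u : ι → ℝ) (t : ℝ) {g h : ι → ℝ} (hgh : ∀ i, P i ≠ 0 → g i = h i) :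
    Et P u t g = Et P u t h := by
  unfold Et
  refine Finset.sum_congr rfl fun i _ => ?_
  by_cases h0 : P i = 0
  · simp [tilt, h0]
  · rw [hgh i h0]

theorem Et_const {P : ι → ℝ} (hP : Smp P) (u : ι → ℝ) (t c : ℝ) : Et P u t (fun _ => c) = c := by
  unfold Et
  rw [← Finset.sum_mul, (tilt_smp hP u t).2, one_mul]

theorem second_order {f f' : ℝ → ℝ} {c : ℝ} (h1 : ∀ t, HasDerivAt f (f' t) t)
    (h2 : HasDerivAt f' c 0) (h0 : f' 0 = 0) (hmin : ∀ t, f 0 ≤ f t) : 0 ≤ c := by
  by_contra hc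
  push Not at hc
  have h3 := h2.tendsto_slope_zero_right
  have h4 : ∀ᶠ t in nhdsWithin (0 : ℝ) (Set.Ioi 0), t⁻¹ • (f' (0 + t) - f' 0) < 0 :=
    h3.eventually (gt_mem_nhds hc)
  obtain ⟨δ, hδ, h5⟩ := (nhdsGT_basis (0 : ℝ)).eventually_iff.1 h4
  obtain ⟨ξ, hξ, h6⟩ := exists_hasDerivAt_eq_slope f f' (show (0 : ℝ) < δ from hδ)
    (fun t _ => (h1 t).continuousAt.continuousWithinAt) (fun t _ => h1 t)
  have h7 := h5 hξ
  rw [zero_add, h0, sub_zero, smul_eq_mul] at h7
  have h8 : f' ξ < 0 := by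
    by_contra h9
    push Not at h9
    have := mul_nonneg (inv_pos.2 hξ.1).le h9
    linarith only [h7, this]
  rw [h6] at h8
  have := div_nonneg (sub_nonneg.2 (hmin δ)) (sub_nonneg.2 (le_of_lt hδ))
  linarith only [h8, this]

theorem continuous_marg (φ : ι → E → ℝ) : Continuous (marg φ) :=
  continuous_pi fun _ => continuous_finsetSum _ fun i _ => (continuous_apply i).mul continuous_const

noncomputable def hreg (φ : ι → E → ℝ) (P0 : ι → ℝ) (x : E → ℝ) (ε : ℝ) (θ : E → ℝ) : ℝ :=
  log (Zt P0 (fun i => dot θ (φ i)) 1) - dot θ x + ε / 2 * ∑ e, θ e ^ 2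

theorem continuous_dot (y : E → ℝ) : Continuous fun θ : E → ℝ => dot θ y :=
  continuous_finsetSum _ fun e _ => (continuous_apply e).mul continuous_const

theorem continuous_hreg (φ : ι → E → ℝ) {P0 : ι → ℝ} (hP0 : Smp P0) (x : E → ℝ) (ε : ℝ) :
    Continuous (hreg φ P0 x ε) := by
  refine ((Continuous.log ?_ (fun θ => (Zt_pos hP0 _ _).ne')).sub (continuous_dot x)).add
    (continuous_const.mul (continuous_finsetSum _ fun e _ => (continuous_apply e).pow 2))
  exact continuous_finsetSum _ fun i _ =>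
    continuous_const.mul (continuous_const.mul (continuous_dot (φ i))).rexp

theorem dot_single [DecidableEq E] (θ : E → ℝ) (e : E) (t : ℝ) (y : E → ℝ) :
    dot (θ + Pi.single e t) y = dot θ y + t * y e := by
  simp only [dot, Pi.add_apply, add_mul, Finset.sum_add_distrib]
  congr 1
  rw [Finset.sum_eq_single e (fun b _ hb => by simp [Pi.single_eq_of_ne hb]) (by simp)]
  simp

theorem sq_single [DecidableEq E] (θ : E → ℝ) (e : E) (t : ℝ) :
    ∑ e', ((θ + Pi.single e t : E → ℝ) e') ^ 2 = ∑ e', θ e' ^ 2 + (2 * θ e * t + t ^ 2) := by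
  have : ∀ e', ((θ + Pi.single e t : E → ℝ) e') ^ 2 =
      θ e' ^ 2 + if e' = e then (2 * θ e * t + t ^ 2) else 0 := by
    intro e'
    by_cases he : e' = e
    · subst he; simp; ring
    · simp [he]
  simp only [this, Finset.sum_add_distrib, Finset.sum_ite_eq', mem_univ, if_true]

theorem hreg_deriv [DecidableEq E] (φ : ι → E → ℝ) {P0 : ι → ℝ} (hP0 : Smp P0) (x : E → ℝ) (ε : ℝ)
    (θ : E → ℝ) (e : E) : HasDerivAt (fun t : ℝ => hreg φ P0 x ε (θ + Pi.single e t))
      (marg φ (tilt P0 (fun i => dot θ (φ i)) 1) e - x e + ε * θ e) 0 := by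
  have hPK := tilt_smp hP0 (fun i => dot θ (φ i)) 1
  have hZ0 := Zt_pos hP0 (fun i => dot θ (φ i)) 1
  have hZ : ∀ t : ℝ, Zt P0 (fun i => dot (θ + Pi.single e t) (φ i)) 1 =
      Zt P0 (fun i => dot θ (φ i)) 1 * Zt (tilt P0 (fun i => dot θ (φ i)) 1) (fun i => φ i e) t := by
    intro t
    rw [Zt.eq_1 (tilt P0 (fun i => dot θ (φ i)) 1), Finset.mul_sum]
    refine Finset.sum_congr rfl fun i _ => ?_
    simp only []
    rw [dot_single, tilt, mul_add, exp_add]
    field_simp
  have hfun : (fun t : ℝ => hreg φ P0 x ε (θ + Pi.single e t)) =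
      fun t => log (Zt P0 (fun i => dot θ (φ i)) 1)
      + log (Zt (tilt P0 (fun i => dot θ (φ i)) 1) (fun i => φ i e) t) - (dot θ x + t * x e)
      + ε / 2 * (∑ e', θ e' ^ 2 + (2 * θ e * t + t ^ 2)) := by
    funext t
    unfold hreg
    rw [hZ, Real.log_mul hZ0.ne' (Zt_pos hPK _ _).ne', dot_single, sq_single]
  rw [hfun]
  have a1 := hasDerivAt_logZ hPK (fun i => φ i e) 0
  rw [Et_zero hPK] at a1
  have a2 : HasDerivAt (fun t : ℝ => dot θ x + t * x e) (x e) 0 := by
    simpa using ((hasDerivAt_id (0 : ℝ)).mul_const (x e)).const_add (dot θ x)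
  have a3 : HasDerivAt (fun t : ℝ => ∑ e', θ e' ^ 2 + (2 * θ e * t + t ^ 2)) (2 * θ e) 0 := by
    have b1 := (((hasDerivAt_id (0 : ℝ)).const_mul (2 * θ e)).add
      (hasDerivAt_pow 2 (0 : ℝ))).const_add (∑ e', θ e' ^ 2)
    simpa using b1
  have a4 := ((a1.const_add (log (Zt P0 (fun i => dot θ (φ i)) 1))).sub a2).add
    (a3.const_mul (ε / 2))
  refine HasDerivAt.congr_deriv a4 ?_
  unfold marg
  ring

theorem exists_reg [Nonempty ι] {φ : ι → E → ℝ} {x : E → ℝ} (hx : Good φ x) {ε : ℝ} (hε0 : 0 < ε) :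
    ∃ P ∈ K φ, ∀ e, (x e - marg φ P e) ^ 2 ≤ 2 * ε * log (Fintype.card ι) := by
  classical
  obtain ⟨P0, hP0⟩ : ∃ P0 : ι → ℝ, P0 = fun _ => (Fintype.card ι : ℝ)⁻¹ := ⟨_, rfl⟩
  have hc : (0 : ℝ) < Fintype.card ι := by exact_mod_cast Fintype.card_pos
  have hP0K : P0 ∈ K φ := hP0 ▸ unif_mem φ
  have h0 : hreg φ P0 x ε 0 = 0 := by
    simp [hreg, Zt, dot, hP0, hc.ne']
  have hlow : ∀ θ, -log (Fintype.card ι) + ε / 2 * ∑ e, θ e ^ 2 ≤ hreg φ P0 x ε θ := by
    intro θ
    obtain ⟨i, hi⟩ := hx θ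
    have h1 : P0 i * exp (1 * dot θ (φ i)) ≤ Zt P0 (fun i => dot θ (φ i)) 1 :=
      Finset.single_le_sum (f := fun j => P0 j * exp (1 * dot θ (φ j)))
        (fun j _ => mul_nonneg (hP0K.1.1 j) (exp_pos _).le) (mem_univ i)
    have h3 : P0 i = (Fintype.card ι : ℝ)⁻¹ := by rw [hP0]
    rw [h3] at h1
    have h2 := Real.log_le_log (mul_pos (inv_pos.2 hc) (exp_pos _)) h1
    rw [Real.log_mul (inv_pos.2 hc).ne' (exp_pos _).ne', log_exp, Real.log_inv, one_mul] at h2
    unfold hreg
    linarith only [hi, h2]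
  have hsq : ∀ θ, hreg φ P0 x ε θ ≤ hreg φ P0 x ε 0 → ∀ e, ε / 2 * θ e ^ 2 ≤ log (Fintype.card ι) := by
    intro θ hθ e
    have h1 := hlow θ
    have h2 : θ e ^ 2 ≤ ∑ e, θ e ^ 2 :=
      Finset.single_le_sum (f := fun e => θ e ^ 2) (fun e _ => sq_nonneg _) (mem_univ e)
    have h3 := mul_le_mul_of_nonneg_left h2 (half_pos hε0).le
    linarith only [h0, hθ, h1, h3]
  have hbd : Bornology.IsBounded {θ | hreg φ P0 x ε θ ≤ hreg φ P0 x ε 0} := by
    rw [isBounded_iff_forall_norm_le]
    refine ⟨√(2 * log (Fintype.card ι) / ε), fun θ hθ => ?_⟩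
    refine (pi_norm_le_iff_of_nonneg (sqrt_nonneg _)).2 fun e => ?_
    rw [Real.norm_eq_abs]
    refine Real.abs_le_sqrt ?_
    rw [le_div_iff₀ hε0]
    have := hsq θ hθ e
    linarith only [this]
  obtain ⟨θ, hθ⟩ := (continuous_hreg φ hP0K.1 x ε).exists_forall_le_of_isBounded 0 hbd
  refine ⟨_, tilt_mem hP0K (aff_dot φ P0 θ) 1, fun e => ?_⟩
  have h1 : marg φ (tilt P0 (fun i => dot θ (φ i)) 1) e - x e + ε * θ e = 0 := by
    refine IsLocalMin.hasDerivAt_eq_zero ?_ (hreg_deriv φ hP0K.1 x ε θ e)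
    refine Filter.Eventually.of_forall fun t => ?_
    have := hθ (θ + Pi.single e t)
    simpa using this
  have h2 := hsq θ (hθ 0) e
  have h3 : x e - marg φ (tilt P0 (fun i => dot θ (φ i)) 1) e = ε * θ e := by linarith only [h1]
  rw [h3]
  linarith only [hε0, h2, mul_nonneg_of_nonpos_of_nonpos (le_of_lt (Mathlib.Tactic.Linarith.sub_neg_of_lt hε0)) (Mathlib.Tactic.Linarith.sub_nonpos_of_le h2)]

/-- every point of the marginal polytope is the marginal of a member of the closed family -/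
theorem exists_marg [Nonempty ι] {φ : ι → E → ℝ} {x : E → ℝ} (hx : Good φ x) :
    ∃ P ∈ K φ, marg φ P = x := by
  have hcl : IsClosed (marg φ '' K φ) := ((isCompact_K φ).image (continuous_marg φ)).isClosed
  suffices h : x ∈ closure (marg φ '' K φ) by
    rw [hcl.closure_eq] at h
    exact h
  rw [Metric.mem_closure_iff]
  intro r hr
  have hL0 : 0 ≤ log (Fintype.card ι) := Real.log_nonneg (by exact_mod_cast Fintype.card_pos)
  obtain ⟨P, hP, h⟩ := exists_reg hx (ε := r ^ 2 / (2 * (log (Fintype.card ι) + 1))) (by positivity)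
  refine ⟨marg φ P, ⟨P, hP, rfl⟩, (dist_pi_lt_iff hr).2 fun e => ?_⟩
  rw [Real.dist_eq]
  refine abs_lt_of_sq_lt_sq ((h e).trans_lt ?_) hr.le
  have h4 : 2 * (r ^ 2 / (2 * (log (Fintype.card ι) + 1))) * log (Fintype.card ι) =
    r ^ 2 * (log (Fintype.card ι) / (log (Fintype.card ι) + 1)) := by field_simp
  rw [h4]
  exact mul_lt_of_lt_one_right (by positivity) ((div_lt_one (by positivity)).2 (by linarith only []))

end Pool.Agent.Work.MP_33747a_co.EK
end

-- merged part: Pool.Agent.Work.MP_33747a_co.EK3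
section
set_option autoImplicit false
set_option linter.unusedSectionVars false

namespace Pool.Agent.Work.MP_33747a_co.EK

open Finset Real

variable {ι E : Type*} [Fintype ι] [Fintype E]

noncomputable def psi (κ b : ℝ) : ℝ := negMulLog b - κ * negMulLog (1 - b)

noncomputable def psi1 (κ b : ℝ) : ℝ := -log b - 1 - κ * (log (1 - b) + 1)

theorem hasDerivAt_psi (κ : ℝ) {b : ℝ} (h0 : 0 < b) (h1 : b < 1) :
    HasDerivAt (psi κ) (psi1 κ b) b := by
  have a1 := Real.hasDerivAt_negMulLog h0.ne'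
  have a0 : HasDerivAt (fun b : ℝ => 1 - b) (-1) b := by
    simpa using (hasDerivAt_id b).const_sub 1
  have a2 := (Real.hasDerivAt_negMulLog (sub_pos.2 h1).ne').comp b a0
  refine HasDerivAt.congr_deriv (a1.sub (a2.const_mul κ)) ?_
  unfold psi1
  ring

theorem hasDerivAt_psi1 (κ : ℝ) {b : ℝ} (h0 : 0 < b) (h1 : b < 1) :
    HasDerivAt (psi1 κ) (-(1 / b - κ / (1 - b))) b := by
  have a1 := Real.hasDerivAt_log h0.ne'
  have a0 : HasDerivAt (fun b : ℝ => 1 - b) (-1) b := by
    simpa using (hasDerivAt_id b).const_sub 1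
  have a2 := a0.log (sub_pos.2 h1).ne'
  refine HasDerivAt.congr_deriv ((a1.neg.sub_const 1).sub ((a2.add_const 1).const_mul κ)) ?_
  have := (sub_pos.2 h1).ne'
  field_simp
  ring

noncomputable def G (φ : ι → E → ℝ) (κ : E → ℝ) (P : ι → ℝ) : ℝ :=
  ent P - ∑ e, psi (κ e) (marg φ P e)

open Classical in
/-- the fractional coordinates -/
noncomputable def act (b : E → ℝ) : Finset E := univ.filter fun e => 0 < b e ∧ b e < 1

theorem mem_act {b : E → ℝ} {e : E} : e ∈ act b ↔ 0 < b e ∧ b e < 1 := by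
  simp [act]

def ZO (φ : ι → E → ℝ) : Prop := ∀ i e, φ i e = 0 ∨ φ i e = 1

variable {φ : ι → E → ℝ} {P : ι → ℝ}

theorem ZO.nonneg (hφ : ZO φ) (i : ι) (e : E) : 0 ≤ φ i e := by
  rcases hφ i e with h | h <;> rw [h] <;> norm_num

theorem ZO.le_one (hφ : ZO φ) (i : ι) (e : E) : φ i e ≤ 1 := by
  rcases hφ i e with h | h <;> rw [h] <;> norm_num

theorem one_sub_marg (hP : Smp P) (e : E) : 1 - marg φ P e = ∑ i, P i * (1 - φ i e) := by
  simp only [mul_sub, mul_one, Finset.sum_sub_distrib, hP.2, marg]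

theorem marg_nonneg (hφ : ZO φ) (hP : Smp P) (e : E) : 0 ≤ marg φ P e :=
  Finset.sum_nonneg fun i _ => mul_nonneg (hP.1 i) (hφ.nonneg i e)

theorem marg_le_one (hφ : ZO φ) (hP : Smp P) (e : E) : marg φ P e ≤ 1 := by
  rw [← sub_nonneg, one_sub_marg hP]
  exact Finset.sum_nonneg fun i _ => mul_nonneg (hP.1 i) (sub_nonneg.2 (hφ.le_one i e))

theorem inactive (hφ : ZO φ) (hP : Smp P) {e : E} (he : e ∉ act (marg φ P)) (i : ι) (hi : P i ≠ 0) :
    φ i e = marg φ P e := by
  rw [mem_act, not_and_or, not_lt, not_lt] at he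
  rcases he with he | he
  · have h0 : marg φ P e = 0 := le_antisymm he (marg_nonneg hφ hP e)
    have := (Finset.sum_eq_zero_iff_of_nonneg
      (fun i _ => mul_nonneg (hP.1 i) (hφ.nonneg i e))).1 h0 i (mem_univ i)
    rw [h0]
    exact (mul_eq_zero.1 this).resolve_left hi
  · have h0 : marg φ P e = 1 := le_antisymm (marg_le_one hφ hP e) he
    have h1 := one_sub_marg (φ := φ) hP e
    rw [h0, sub_self] at h1
    have := (Finset.sum_eq_zero_iff_of_nonneg
      (fun i _ => mul_nonneg (hP.1 i) (sub_nonneg.2 (hφ.le_one i e)))).1 h1.symm i (mem_univ i)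
    have := (mul_eq_zero.1 this).resolve_left hi
    linarith

theorem tilt_sum_pos (hP : Smp P) (u : ι → ℝ) (t : ℝ) {g : ι → ℝ} (hg : ∀ i, 0 ≤ g i)
    (h : 0 < ∑ i, P i * g i) : 0 < ∑ i, tilt P u t i * g i := by
  obtain ⟨i, _, hi⟩ := Finset.exists_lt_of_sum_lt (f := fun _ => (0 : ℝ)) (by simpa using h)
  refine Finset.sum_pos' (fun j _ => mul_nonneg ((tilt_smp hP u t).1 j) (hg j)) ⟨i, mem_univ i, ?_⟩
  rw [tilt_eq hP, mul_right_comm]
  exact mul_pos hi (exp_pos _)

theorem active_tilt (hφ : ZO φ) (hP : Smp P) {e : E} (he : e ∈ act (marg φ P)) (u : ι → ℝ) (t : ℝ) :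
    0 < Et P u t (fun i => φ i e) ∧ Et P u t (fun i => φ i e) < 1 := by
  rw [mem_act] at he
  refine ⟨tilt_sum_pos hP u t (fun i => hφ.nonneg i e) he.1, ?_⟩
  rw [← marg_tilt, ← sub_pos, one_sub_marg (tilt_smp hP u t)]
  refine tilt_sum_pos hP u t (fun i => sub_nonneg.2 (hφ.le_one i e)) ?_
  rw [← one_sub_marg hP]
  exact sub_pos.2 he.2

theorem G_deriv (hφ : ZO φ) (hP : Smp P) (κ : E → ℝ) (u : ι → ℝ) (t : ℝ) :
    HasDerivAt (fun t => G φ κ (tilt P u t))
      (-Cv P u t (fun i => log (P i)) u - t * Cv P u t u u -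
        ∑ e ∈ act (marg φ P), psi1 (κ e) (Et P u t fun i => φ i e) * Cv P u t (fun i => φ i e) u) t := by
  classical
  have hfun : (fun t => G φ κ (tilt P u t)) = fun t =>
      -Et P u t (fun i => log (P i)) - t * Et P u t u + log (Zt P u t) -
        (∑ e ∈ act (marg φ P), psi (κ e) (Et P u t fun i => φ i e) +
          ∑ e ∈ (act (marg φ P))ᶜ, psi (κ e) (marg φ P e)) := by
    funext t
    unfold G
    rw [ent_tilt hP, ← Finset.sum_add_sum_compl (act (marg φ P))]
    congr 2
    refine Finset.sum_congr rfl fun e he => ?_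
    rw [marg_tilt, Et_congr u t (fun i hi => inactive hφ hP (Finset.mem_compl.1 he) i hi),
      Et_const hP]
  rw [hfun]
  have a1 := hasDerivAt_Et hP u (fun i => log (P i)) t
  have a2 := (hasDerivAt_id t).mul (hasDerivAt_Et hP u u t)
  have a3 := hasDerivAt_logZ hP u t
  have a4 := HasDerivAt.fun_sum (u := act (marg φ P)) (x := t)
    (A := fun e t => psi (κ e) (Et P u t fun i => φ i e))
    (A' := fun e => psi1 (κ e) (Et P u t fun i => φ i e) * Cv P u t (fun i => φ i e) u)
    (fun e he => by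
      have b1 := (hasDerivAt_psi (κ e) (active_tilt hφ hP he u t).1
        (active_tilt hφ hP he u t).2).comp t (hasDerivAt_Et hP u (fun i => φ i e) t)
      exact b1)
  refine HasDerivAt.congr_deriv (((a1.neg.sub a2).add a3).sub (a4.add_const _)) ?_
  simp only [id]
  ring

theorem Cv_lin (P u : ι → ℝ) (t : ℝ) (l h : ι → ℝ) (s : Finset E) (c : E → ℝ) :
    Cv P u t (fun i => l i + ∑ e ∈ s, c e * φ i e) h =
      Cv P u t l h + ∑ e ∈ s, c e * Cv P u t (fun i => φ i e) h := by
  have key : ∀ h : ι → ℝ, Et P u t (fun i => (l i + ∑ e ∈ s, c e * φ i e) * h i) =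
      Et P u t (fun i => l i * h i) + ∑ e ∈ s, c e * Et P u t (fun i => φ i e * h i) := by
    intro h
    unfold Et
    simp only [add_mul, mul_add, Finset.sum_add_distrib, Finset.sum_mul, Finset.mul_sum]
    congr 1
    rw [Finset.sum_comm]
    exact Finset.sum_congr rfl fun e _ => Finset.sum_congr rfl fun i _ => by ring
  have k1 := key (fun _ => 1)
  simp only [mul_one] at k1
  unfold Cv
  rw [key h, k1]
  simp only [mul_sub, Finset.sum_sub_distrib, add_mul, Finset.sum_mul, mul_assoc]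
  ring

theorem Cv_zero (hP : Smp P) (u g h : ι → ℝ) : Cv P u 0 g h =
    ∑ i, P i * ((g i - ∑ j, P j * g j) * (h i - ∑ j, P j * h j)) := by
  unfold Cv
  rw [Et_zero hP, Et_zero hP, Et_zero hP]
  have : ∀ i, P i * ((g i - ∑ j, P j * g j) * (h i - ∑ j, P j * h j)) =
      P i * (g i * h i) - P i * g i * (∑ j, P j * h j) - P i * h i * (∑ j, P j * g j) +
        P i * ((∑ j, P j * g j) * (∑ j, P j * h j)) := fun i => by ring
  simp only [this, Finset.sum_add_distrib, Finset.sum_sub_distrib, ← Finset.sum_mul, hP.2]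
  ring

theorem var_ineq (hφ : ZO φ) (hP : P ∈ K φ) (κ : E → ℝ) (hmin : ∀ P' ∈ K φ, G φ κ P ≤ G φ κ P')
    (θ : E → ℝ) : Cv P (fun i => dot θ (φ i)) 0 (fun i => dot θ (φ i)) (fun i => dot θ (φ i)) ≤
      ∑ e ∈ act (marg φ P), (1 / marg φ P e - κ e / (1 - marg φ P e)) *
        Cv P (fun i => dot θ (φ i)) 0 (fun i => φ i e) (fun i => dot θ (φ i)) ^ 2 := by
  classical
  have hE0 : ∀ u : ι → ℝ, ∀ e, Et P u 0 (fun i => φ i e) = marg φ P e := fun u e => Et_zero hP.1 u _
  obtain ⟨u0, hu0⟩ : ∃ u0 : ι → ℝ, u0 = fun i => log (P i) +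
      ∑ e ∈ act (marg φ P), psi1 (κ e) (marg φ P e) * φ i e := ⟨_, rfl⟩
  have haff : Aff φ P u0 := by
    have h1 := (aff_log hP).add (aff_dot φ P
      (fun e => if e ∈ act (marg φ P) then psi1 (κ e) (marg φ P e) else 0))
    have h2 : u0 = fun i => log (P i) + dot
        (fun e => if e ∈ act (marg φ P) then psi1 (κ e) (marg φ P e) else 0) (φ i) := by
      rw [hu0]
      funext i
      simp [dot, Finset.sum_ite_mem]
    rw [h2]
    exact h1
  have hloc : ∀ u, Aff φ P u → ∀ t, G φ κ (tilt P u 0) ≤ G φ κ (tilt P u t) := by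
    intro u hu t
    rw [tilt_zero hP.1]
    exact hmin _ (tilt_mem hP hu t)
  have h1 : Cv P u0 0 u0 u0 = 0 := by
    have a1 := IsLocalMin.hasDerivAt_eq_zero (Filter.Eventually.of_forall (hloc u0 haff))
      (G_deriv hφ hP.1 κ u0 0)
    simp only [hE0] at a1
    have a2 := Cv_lin (φ := φ) P u0 0 (fun i => log (P i)) u0 (act (marg φ P))
      (fun e => psi1 (κ e) (marg φ P e))
    rw [← hu0] at a2
    linarith only [a1, a2]
  have h2 : ∀ i, P i ≠ 0 → u0 i = ∑ j, P j * u0 j := by
    intro i hi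
    rw [Cv_zero hP.1] at h1
    have := (Finset.sum_eq_zero_iff_of_nonneg
      (fun i _ => mul_nonneg (hP.1.1 i) (mul_self_nonneg _))).1 h1 i (mem_univ i)
    have := (mul_eq_zero.1 this).resolve_left hi
    have := mul_self_eq_zero.1 this
    linarith
  obtain ⟨u, hu⟩ : ∃ u : ι → ℝ, u = fun i => dot θ (φ i) := ⟨_, rfl⟩
  have haffu : Aff φ P u := hu ▸ aff_dot φ P θ
  rw [← hu]
  have h3 : ∀ t, Cv P u t u0 u = 0 := by
    intro t
    unfold Cv
    rw [Et_congr u t h2, Et_const hP.1,
      Et_congr u t (h := fun i => (∑ j, P j * u0 j) * u i) (fun i hi => by rw [h2 i hi])]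
    unfold Et
    rw [Finset.mul_sum, sub_eq_zero]
    exact Finset.sum_congr rfl fun i _ => by ring
  have h4 : ∀ t, HasDerivAt (fun t => G φ κ (tilt P u t))
      (-(t * Cv P u t u u) - ∑ e ∈ act (marg φ P),
        (psi1 (κ e) (Et P u t fun i => φ i e) - psi1 (κ e) (marg φ P e)) *
          Cv P u t (fun i => φ i e) u) t := by
    intro t
    refine HasDerivAt.congr_deriv (G_deriv hφ hP.1 κ u t) ?_
    have a2 := Cv_lin (φ := φ) P u t (fun i => log (P i)) u (act (marg φ P))
      (fun e => psi1 (κ e) (marg φ P e))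
    rw [← hu0, h3] at a2
    simp only [sub_mul, Finset.sum_sub_distrib]
    linarith
  obtain ⟨c0, hc0⟩ := differentiableAt_Cv hP.1 u u u 0
  have h5 := ((hasDerivAt_id (0 : ℝ)).mul hc0).neg
  have h6 := HasDerivAt.fun_sum (u := act (marg φ P)) (x := (0 : ℝ))
    (A := fun e t => (psi1 (κ e) (Et P u t fun i => φ i e) - psi1 (κ e) (marg φ P e)) *
          Cv P u t (fun i => φ i e) u)
    (A' := fun e => -((1 / marg φ P e - κ e / (1 - marg φ P e)) * Cv P u 0 (fun i => φ i e) u ^ 2))
    (fun e he => by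
      obtain ⟨c1, hc1⟩ := differentiableAt_Cv hP.1 u (fun i => φ i e) u 0
      have b1 := (hasDerivAt_psi1 (κ e) (active_tilt hφ hP.1 he u 0).1
        (active_tilt hφ hP.1 he u 0).2).comp 0 (hasDerivAt_Et hP.1 u (fun i => φ i e) 0)
      refine HasDerivAt.congr_deriv ((b1.sub_const (psi1 (κ e) (marg φ P e))).mul hc1) ?_
      simp only [Function.comp, hE0]
      ring)
  have h7 := second_order h4 (h5.sub h6) (by simp [hE0]) (hloc u haffu)
  simp only [id, Finset.sum_neg_distrib] at h7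
  linarith only [h7]

end Pool.Agent.Work.MP_33747a_co.EK
end

-- merged part: Pool.Agent.Work.MP_33747a_co.EK4
section
set_option autoImplicit false
set_option linter.unusedSectionVars false

namespace Pool.Agent.Work.MP_33747a_co.EK

open Finset Real
open scoped RealInnerProductSpace

variable {ι E : Type*} [Fintype ι] [Fintype E]

theorem trace_abs {V : Type*} [NormedAddCommGroup V] [InnerProductSpace ℝ V] [FiniteDimensional ℝ V]
    (ξ : E → V) (s : Finset E) (D : E → ℝ)
    (h : ∀ η ∈ Submodule.span ℝ (Set.range ξ), ‖η‖ ^ 2 ≤ ∑ e ∈ s, D e * ⟪ξ e, η⟫ ^ 2)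
    (T : Submodule ℝ (E → ℝ)) (hT : ∀ y ∈ T, ∃ ζ : V, ∀ e, y e = ⟪ξ e, ζ⟫) :
    (Module.finrank ℝ T : ℝ) ≤ ∑ e ∈ s, D e * ‖ξ e‖ ^ 2 := by
  obtain ⟨W, hW⟩ : ∃ W, W = Submodule.span ℝ (Set.range ξ) := ⟨_, rfl⟩
  rw [← hW] at h
  have hξ : ∀ e, ξ e ∈ W := fun e => hW ▸ Submodule.subset_span ⟨e, rfl⟩
  have h1 : Module.finrank ℝ T ≤ Module.finrank ℝ W := by
    let L : V →ₗ[ℝ] (E → ℝ) := LinearMap.pi fun e => (innerₗ V (ξ e))
    refine le_trans (Submodule.finrank_mono (t := W.map L) ?_) (Submodule.finrank_map_le L W)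
    intro y hy
    obtain ⟨ζ, hζ⟩ := hT y hy
    obtain ⟨w, hw, z, hz, hwz⟩ := W.exists_add_mem_mem_orthogonal ζ
    refine ⟨w, hw, ?_⟩
    funext e
    rw [hζ e, hwz, inner_add_right, Submodule.inner_right_of_mem_orthogonal (hξ e) hz, add_zero]
    rfl
  refine le_trans (Nat.cast_le.2 h1) ?_
  let b := stdOrthonormalBasis ℝ W
  have h2 : ∀ j, (1 : ℝ) ≤ ∑ e ∈ s, D e * ⟪ξ e, (b j : V)⟫ ^ 2 := by
    intro j
    have := h (b j) (b j).2
    rwa [Submodule.coe_norm (b j) |>.symm, b.orthonormal.1 j, one_pow] at this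
  have h3 := Finset.sum_le_sum fun j (_ : j ∈ univ) => h2 j
  rw [Finset.sum_comm] at h3
  simp only [Finset.sum_const, card_univ, Fintype.card_fin, nsmul_eq_mul, mul_one] at h3
  refine h3.trans (le_of_eq (Finset.sum_congr rfl fun e _ => ?_))
  rw [← Finset.mul_sum]
  congr 1
  exact b.sum_sq_inner_left (⟨ξ e, hξ e⟩ : W)

theorem trace_bound [Nonempty ι] {φ : ι → E → ℝ} {P : ι → ℝ} (hφ : ZO φ) (hP : P ∈ K φ) (κ : E → ℝ)
    (hmin : ∀ P' ∈ K φ, G φ κ P ≤ G φ κ P') (T : Submodule ℝ (E → ℝ))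
    (hT : ∀ y ∈ T, ∃ δ : ℝ, 0 < δ ∧ Good φ (marg φ P + δ • y) ∧ Good φ (marg φ P - δ • y)) :
    (Module.finrank ℝ T : ℝ) ≤ ∑ e ∈ act (marg φ P), (1 - marg φ P e - κ e * marg φ P e) := by
  classical
  let ξ : E → EuclideanSpace ℝ ι := fun e => WithLp.toLp 2 fun i => √(P i) * (φ i e - marg φ P e)
  have hsq : ∀ i, √(P i) * √(P i) = P i := fun i => Real.mul_self_sqrt (hP.1.1 i)
  have hin : ∀ e (ζ : EuclideanSpace ℝ ι), ⟪ξ e, ζ⟫ = ∑ i, √(P i) * (φ i e - marg φ P e) * ζ i := by
    intro e ζ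
    rw [PiLp.inner_apply]
    refine Finset.sum_congr rfl fun i _ => ?_
    simp [ξ, mul_comm]
  have key := trace_abs ξ (act (marg φ P))
    (fun e => 1 / marg φ P e - κ e / (1 - marg φ P e)) ?_ T ?_
  · refine key.trans (le_of_eq (Finset.sum_congr rfl fun e he => ?_))
    have h1 : ‖ξ e‖ ^ 2 = marg φ P e * (1 - marg φ P e) := by
      rw [← real_inner_self_eq_norm_sq, hin]
      have : ∀ i, √(P i) * (φ i e - marg φ P e) * ξ e i =
          P i * φ i e * (1 - 2 * marg φ P e) + P i * marg φ P e ^ 2 := by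
        intro i
        have h2 : ξ e i = √(P i) * (φ i e - marg φ P e) := rfl
        rw [h2]
        have h3 : φ i e * φ i e = φ i e := by rcases hφ i e with h | h <;> simp [h]
        calc _ = (√(P i) * √(P i)) * (φ i e * φ i e - 2 * marg φ P e * φ i e + marg φ P e ^ 2) := by ring
          _ = _ := by rw [hsq, h3]; ring
      simp only [this]
      rw [Finset.sum_add_distrib, ← Finset.sum_mul, ← Finset.sum_mul, hP.1.2]
      change marg φ P e * _ + _ = _
      ring
    rw [h1]
    have h2 := (mem_act.1 he).1.ne'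
    have h3 := (sub_pos.2 (mem_act.1 he).2).ne'
    field_simp
  · intro η hη
    obtain ⟨θ, hθ⟩ := (Submodule.mem_span_range_iff_exists_fun ℝ).1 hη
    have hm : ∑ j, P j * dot θ (φ j) = dot θ (marg φ P) := by
      simp only [dot, marg, Finset.mul_sum]
      rw [Finset.sum_comm]
      exact Finset.sum_congr rfl fun e _ => Finset.sum_congr rfl fun i _ => by ring
    have hη' : ∀ i, η i = √(P i) * (dot θ (φ i) - ∑ j, P j * dot θ (φ j)) := by
      intro i
      rw [hm, ← hθ]
      simp only [dot, WithLp.ofLp_sum, Finset.sum_apply, WithLp.ofLp_smul, Pi.smul_apply, smul_eq_mul, ξ]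
      rw [← Finset.sum_sub_distrib, Finset.mul_sum]
      exact Finset.sum_congr rfl fun e _ => by ring
    have hv := var_ineq hφ hP κ hmin θ
    have e1 : ‖η‖ ^ 2 = Cv P (fun i => dot θ (φ i)) 0 (fun i => dot θ (φ i)) (fun i => dot θ (φ i)) := by
      rw [Cv_zero hP.1, EuclideanSpace.real_norm_sq_eq]
      refine Finset.sum_congr rfl fun i _ => ?_
      rw [hη' i, mul_pow, sq, hsq, sq]
    have e2 : ∀ e, ⟪ξ e, η⟫ = Cv P (fun i => dot θ (φ i)) 0 (fun i => φ i e) (fun i => dot θ (φ i)) := by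
      intro e
      rw [Cv_zero hP.1, hin]
      refine Finset.sum_congr rfl fun i _ => ?_
      rw [hη' i]
      change _ = P i * ((φ i e - marg φ P e) * _)
      conv_rhs => rw [← hsq i]
      ring
    simp only [e1, e2]
    exact hv
  · intro y hy
    obtain ⟨δ, hδ, g1, g2⟩ := hT y hy
    obtain ⟨Q1, hQ1, m1⟩ := exists_marg g1
    obtain ⟨Q2, hQ2, m2⟩ := exists_marg g2
    have hs : ∀ i, P i = 0 → (Q1 i + Q2 i) / 2 = 0 := by
      refine supp_max hP (Q := fun i => (Q1 i + Q2 i) / 2)
        ⟨fun i => by linarith only [hQ1, hQ2, hQ1.1.1 i, hQ2.1.1 i], ?_⟩ ?_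
      · rw [← Finset.sum_div, Finset.sum_add_distrib, hQ1.1.2, hQ2.1.2]; norm_num
      · intro e
        have a1 := congrFun m1 e
        have a2 := congrFun m2 e
        simp only [Pi.add_apply, Pi.sub_apply, Pi.smul_apply, smul_eq_mul] at a1 a2
        have : marg φ (fun i => (Q1 i + Q2 i) / 2) e = (marg φ Q1 e + marg φ Q2 e) / 2 := by
          unfold marg
          rw [← Finset.sum_add_distrib, Finset.sum_div]
          exact Finset.sum_congr rfl fun i _ => by ring
        rw [this]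
        linarith only [a1, a2]
    refine ⟨WithLp.toLp 2 fun i => (Q1 i - Q2 i) / (2 * δ) / √(P i), fun e => ?_⟩
    rw [hin]
    have : ∀ i, √(P i) * (φ i e - marg φ P e) * ((Q1 i - Q2 i) / (2 * δ) / √(P i)) =
        (Q1 i * φ i e - Q2 i * φ i e - (Q1 i - Q2 i) * marg φ P e) / (2 * δ) := by
      intro i
      rcases (hP.1.1 i).eq_or_lt with h | h
      · have := hs i h.symm
        have b1 : Q1 i = 0 := by linarith only [hQ1, this, hQ2, hQ1.1.1 i, hQ2.1.1 i]
        have b2 : Q2 i = 0 := by linarith only [this, b1, hQ1.1.1 i, hQ2.1.1 i]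
        simp [b1, b2]
      · have := (Real.sqrt_pos.2 h).ne'
        field_simp
    simp only [this]
    rw [← Finset.sum_div, Finset.sum_sub_distrib, Finset.sum_sub_distrib, ← Finset.sum_mul,
      Finset.sum_sub_distrib, hQ1.1.2, hQ2.1.2]
    have a1 := congrFun m1 e
    have a2 := congrFun m2 e
    simp only [Pi.add_apply, Pi.sub_apply, Pi.smul_apply, smul_eq_mul] at a1 a2
    change y e = (marg φ Q1 e - marg φ Q2 e - _) / _
    rw [a1, a2]
    field_simp
    ring

end Pool.Agent.Work.MP_33747a_co.EK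
end

-- merged part: Pool.Agent.Work.MP_33747a_co.EQ1
section
set_option autoImplicit false
set_option linter.unusedSectionVars false

namespace Pool.Agent.Work.MP_33747a_co.EK

open Finset Real

variable {V E : Type*} [Fintype E] [DecidableEq V]

/-- indicator of the edges leaving `S` -/
def cut (a b : E → V) (S : Finset V) (e : E) : ℝ := if (a e ∈ S ↔ b e ∈ S) then 0 else 1

/-- indicator of the edges inside `S` -/
def ins (a b : E → V) (S : Finset V) (e : E) : ℝ := if a e ∈ S ∧ b e ∈ S then 1 else 0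

structure Q1 (a b : E → V) (U : Finset V) (d : ℝ) (x : E → ℝ) : Prop where
  nonneg : ∀ e, 0 ≤ x e
  deg : ∀ v ∈ U, dot x (cut a b {v}) = 1
  tot : dot x (cut a b U) = d
  odd : ∀ S ⊆ U, Odd S.card → 1 ≤ dot x (cut a b S)

structure Q (a b : E → V) (U : Finset V) (d : ℝ) (x : E → ℝ) : Prop extends Q1 a b U d x where
  valid : ∀ e, x e ≠ 0 → a e ≠ b e ∧ (a e ∈ U ∨ b e ∈ U)

def ZO1 (z : E → ℝ) : Prop := ∀ e, z e = 0 ∨ z e = 1

variable {a b : E → V} {U : Finset V} {d : ℝ} {x : E → ℝ}

theorem cut_zo (a b : E → V) (S : Finset V) : ZO1 (cut a b S) := by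
  intro e; unfold cut; split_ifs <;> simp

theorem ins_zo (a b : E → V) (S : Finset V) : ZO1 (ins a b S) := by
  intro e; unfold ins; split_ifs <;> simp

theorem ZO1.nonneg {z : E → ℝ} (h : ZO1 z) (e : E) : 0 ≤ z e := by
  rcases h e with h | h <;> simp [h]

theorem dot_congr {x c c' : E → ℝ} (h : ∀ e, x e ≠ 0 → c e = c' e) : dot x c = dot x c' := by
  refine Finset.sum_congr rfl fun e _ => ?_
  by_cases he : x e = 0
  · simp [he]
  · rw [h e he]

theorem dot_congr' {x x' c : E → ℝ} (h : ∀ e, c e ≠ 0 → x e = x' e) : dot x c = dot x' c := by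
  refine Finset.sum_congr rfl fun e _ => ?_
  by_cases he : c e = 0
  · simp [he]
  · rw [h e he]

theorem dot_comm (x c : E → ℝ) : dot x c = dot c x :=
  Finset.sum_congr rfl fun _ _ => mul_comm _ _

theorem dot_add_left (x y c : E → ℝ) : dot (x + y) c = dot x c + dot y c := by
  simp [dot, add_mul, Finset.sum_add_distrib]

theorem dot_sub_left (x y c : E → ℝ) : dot (x - y) c = dot x c - dot y c := by
  simp [dot, sub_mul, Finset.sum_sub_distrib]

theorem dot_smul_left (t : ℝ) (y c : E → ℝ) : dot (t • y) c = t * dot y c := by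
  simp [dot, Finset.mul_sum, mul_assoc]

theorem dot_add_right (x y c : E → ℝ) : dot c (x + y) = dot c x + dot c y := by
  simp [dot, mul_add, Finset.sum_add_distrib]

theorem dot_smul_right (t : ℝ) (y c : E → ℝ) : dot c (t • y) = t * dot c y := by
  rw [dot_comm, dot_smul_left, dot_comm]

theorem dot_nonneg {x c : E → ℝ} (hx : ∀ e, 0 ≤ x e) (hc : ∀ e, 0 ≤ c e) : 0 ≤ dot x c :=
  Finset.sum_nonneg fun e _ => mul_nonneg (hx e) (hc e)

theorem dot_mono {x c c' : E → ℝ} (hx : ∀ e, 0 ≤ x e) (hc : ∀ e, c e ≤ c' e) : dot x c ≤ dot x c' :=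
  Finset.sum_le_sum fun e _ => mul_le_mul_of_nonneg_left (hc e) (hx e)

theorem dot_mono' {x x' c : E → ℝ} (hc : ∀ e, 0 ≤ c e) (hx : ∀ e, x e ≤ x' e) : dot x c ≤ dot x' c :=
  Finset.sum_le_sum fun e _ => mul_le_mul_of_nonneg_right (hx e) (hc e)

theorem single_le_dot {x c : E → ℝ} (hx : ∀ e, 0 ≤ x e) (hc : ∀ e, 0 ≤ c e) (e : E) :
    x e * c e ≤ dot x c :=
  Finset.single_le_sum (f := fun e => x e * c e) (fun e _ => mul_nonneg (hx e) (hc e)) (mem_univ e)

theorem eq_zero_of_dot {x c : E → ℝ} (hx : ∀ e, 0 ≤ x e) (hc : ∀ e, 0 ≤ c e) (h : dot x c ≤ 0)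
    (e : E) (he : x e ≠ 0) : c e = 0 := by
  have h1 := single_le_dot hx hc e
  have h2 : x e * c e = 0 := le_antisymm (h1.trans h) (mul_nonneg (hx e) (hc e))
  exact (mul_eq_zero.1 h2).resolve_left he

theorem dot_eq_zero {y c : E → ℝ} (h : ∀ e, y e ≠ 0 → c e = 0) : dot y c = 0 := by
  refine Finset.sum_eq_zero fun e _ => ?_
  by_cases he : y e = 0
  · simp [he]
  · simp [h e he]

theorem dot_nat {z c : E → ℝ} (hz : ZO1 z) (hc : ZO1 c) : ∃ n : ℕ, dot z c = n := by
  classical
  refine ⟨(univ.filter fun e => z e = 1 ∧ c e = 1).card, ?_⟩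
  rw [Finset.card_filter]
  push_cast
  refine Finset.sum_congr rfl fun e _ => ?_
  rcases hz e with h | h <;> rcases hc e with h' | h' <;> simp [h, h']

theorem dot_one {z c : E → ℝ} (hz : ZO1 z) (hc : ZO1 c) (h : dot z c = 1) :
    ∃ e0, z e0 = 1 ∧ c e0 = 1 ∧ ∀ e, e ≠ e0 → z e * c e = 0 := by
  classical
  obtain ⟨e0, _, he0⟩ := Finset.exists_ne_zero_of_sum_ne_zero (s := univ)
    (f := fun e => z e * c e) (by unfold dot at h; rw [h]; norm_num)
  have h1 : z e0 = 1 := (hz e0).resolve_left (left_ne_zero_of_mul he0)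
  have h2 : c e0 = 1 := (hc e0).resolve_left (right_ne_zero_of_mul he0)
  refine ⟨e0, h1, h2, fun e he => ?_⟩
  unfold dot at h
  rw [← Finset.add_sum_erase _ _ (mem_univ e0), h1, h2] at h
  have h3 : ∑ e ∈ univ.erase e0, z e * c e = 0 := by linarith
  exact (Finset.sum_eq_zero_iff_of_nonneg fun e _ => mul_nonneg (hz.nonneg e) (hc.nonneg e)).1 h3 e
    (Finset.mem_erase.2 ⟨he, mem_univ e⟩)

theorem sum_cut_single (a b : E → V) (S : Finset V) {e : E} (h : a e ≠ b e) :
    ∑ v ∈ S, cut a b {v} e = cut a b S e + 2 * ins a b S e := by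
  have : ∀ v, cut a b {v} e = (if a e = v then 1 else 0) + if b e = v then 1 else 0 := by
    intro v
    unfold cut
    simp only [mem_singleton]
    by_cases h1 : a e = v <;> by_cases h2 : b e = v <;> simp [h1, h2]
    exact absurd (h1.trans h2.symm) h
  simp only [this, Finset.sum_add_distrib, Finset.sum_ite_eq]
  unfold cut ins
  by_cases h1 : a e ∈ S <;> by_cases h2 : b e ∈ S <;> simp [h1, h2]
  norm_num

theorem cut_le_sum (a b : E → V) (S : Finset V) (e : E) : cut a b S e ≤ ∑ v ∈ S, cut a b {v} e := by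
  by_cases h : a e = b e
  · have : cut a b S e = 0 := by simp [cut, h]
    rw [this]
    exact Finset.sum_nonneg fun v _ => (cut_zo a b {v}).nonneg e
  · rw [sum_cut_single a b S h]
    linarith [(ins_zo a b S).nonneg e]

theorem dot_sum_cut (x : E → ℝ) (S : Finset V) :
    dot x (fun e => ∑ v ∈ S, cut a b {v} e) = ∑ v ∈ S, dot x (cut a b {v}) := by
  simp only [dot, Finset.mul_sum]
  rw [Finset.sum_comm]

theorem card_eq_cut {x : E → ℝ} {S : Finset V} (hv : ∀ e, x e ≠ 0 → a e ≠ b e)
    (hd : ∀ v ∈ S, dot x (cut a b {v}) = 1) :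
    (S.card : ℝ) = dot x (cut a b S) + 2 * dot x (ins a b S) := by
  have h1 : dot x (fun e => ∑ v ∈ S, cut a b {v} e) = S.card := by
    rw [dot_sum_cut, Finset.sum_congr rfl hd]; simp
  rw [← h1, ← dot_smul_right, ← dot_add_right]
  exact dot_congr fun e he => by simpa using sum_cut_single a b S (hv e he)

theorem Q1.d_le (h : Q1 a b U d x) : d ≤ U.card := by
  have h1 : dot x (fun e => ∑ v ∈ U, cut a b {v} e) = U.card := by
    rw [dot_sum_cut, Finset.sum_congr rfl h.deg]; simp
  rw [← h1, ← h.tot]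
  exact dot_mono h.nonneg (cut_le_sum a b U)

theorem parity {z : E → ℝ} {S : Finset V} (hz : ZO1 z) (hv : ∀ e, z e ≠ 0 → a e ≠ b e)
    (hd : ∀ v ∈ S, dot z (cut a b {v}) = 1) :
    ∃ n : ℕ, dot z (cut a b S) = n ∧ Even (S.card + n) := by
  obtain ⟨n, hn⟩ := dot_nat hz (cut_zo a b S)
  obtain ⟨m, hm⟩ := dot_nat hz (ins_zo a b S)
  have := card_eq_cut hv hd
  rw [hn, hm] at this
  have h2 : S.card = n + 2 * m := by exact_mod_cast this
  exact ⟨n, hn, ⟨n + m, by omega⟩⟩

theorem parity_odd {z : E → ℝ} {S : Finset V} (hz : ZO1 z) (hv : ∀ e, z e ≠ 0 → a e ≠ b e)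
    (hd : ∀ v ∈ S, dot z (cut a b {v}) = 1) (hS : Odd S.card) : 1 ≤ dot z (cut a b S) := by
  obtain ⟨n, hn, he⟩ := parity hz hv hd
  rw [hn]
  obtain ⟨p, hp⟩ := hS
  obtain ⟨q, hq⟩ := he
  have : 1 ≤ n := by omega
  exact_mod_cast this

theorem Q_of_zo {z : E → ℝ} (hz : ZO1 z) (hv : ∀ e, z e ≠ 0 → a e ≠ b e ∧ (a e ∈ U ∨ b e ∈ U))
    (hd : ∀ v ∈ U, dot z (cut a b {v}) = 1) (ht : dot z (cut a b U) = d) : Q a b U d z :=
  ⟨⟨hz.nonneg, hd, ht, fun _ hS ho =>
    parity_odd hz (fun e he => (hv e he).1) (fun v hv => hd v (hS hv)) ho⟩, hv⟩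

theorem cut_single_left {e : E} (h : a e ≠ b e) : cut a b {a e} e = 1 := by
  simp [cut, h.symm]

theorem cut_single_right {e : E} (h : a e ≠ b e) : cut a b {b e} e = 1 := by
  simp [cut, h]

theorem Q.le_one (h : Q a b U d x) (e : E) : x e ≤ 1 := by
  by_cases he : x e = 0
  · simp [he]
  obtain ⟨h1, h2 | h2⟩ := h.valid e he
  · have := single_le_dot h.nonneg (cut_zo a b {a e}).nonneg e
    rwa [cut_single_left h1, h.deg _ h2, mul_one] at this
  · have := single_le_dot h.nonneg (cut_zo a b {b e}).nonneg e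
    rwa [cut_single_right h1, h.deg _ h2, mul_one] at this

/-- vectors supported on `s` and orthogonal to the family `L` -/
def TT (s : Finset E) (L : Finset (E → ℝ)) : Submodule ℝ (E → ℝ) where
  carrier := {y | (∀ e, e ∉ s → y e = 0) ∧ ∀ c ∈ L, dot y c = 0}
  add_mem' := fun {y z} hy hz => ⟨fun e he => by simp [hy.1 e he, hz.1 e he],
    fun c hc => by rw [dot_add_left, hy.2 c hc, hz.2 c hc, add_zero]⟩
  zero_mem' := ⟨fun _ _ => rfl, fun c _ => by simp [dot]⟩
  smul_mem' := fun t y hy => ⟨fun e he => by simp [hy.1 e he],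
    fun c hc => by rw [dot_smul_left, hy.2 c hc, mul_zero]⟩

theorem finrank_TT (s : Finset E) (L : Finset (E → ℝ)) :
    s.card ≤ Module.finrank ℝ (TT s L) + L.card := by
  classical
  let f : (E → ℝ) →ₗ[ℝ] ((↥(sᶜ) → ℝ) × (↥L → ℝ)) :=
    { toFun := fun y => (fun e => y e, fun c => dot y c)
      map_add' := fun y z => Prod.ext rfl (funext fun c => dot_add_left y z c)
      map_smul' := fun t y => Prod.ext rfl (funext fun c => dot_smul_left t y c) }
  have h1 := f.finrank_range_add_finrank_ker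
  have h2 := (LinearMap.range f).finrank_le
  have h3 : Module.finrank ℝ (LinearMap.ker f) ≤ Module.finrank ℝ (TT s L) := by
    refine Submodule.finrank_mono fun y hy => ?_
    have h4 : f y = 0 := hy
    exact ⟨fun e he => congrFun (congrArg Prod.fst h4) ⟨e, Finset.mem_compl.2 he⟩,
      fun c hc => congrFun (congrArg Prod.snd h4) ⟨c, hc⟩⟩
  simp only [Module.finrank_prod, Module.finrank_fintype_fun_eq_card, Fintype.card_coe,
    Finset.card_compl] at h1 h2
  have := Finset.card_le_univ s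
  omega

theorem perturb (h : Q a b U d x) {y : E → ℝ} (hs : ∀ e, x e = 0 → y e = 0)
    (hd : ∀ v ∈ U, dot y (cut a b {v}) = 0) (ht : dot y (cut a b U) = 0)
    (ho : ∀ S ⊆ U, Odd S.card → dot x (cut a b S) = 1 → dot y (cut a b S) = 0) :
    ∃ δ : ℝ, 0 < δ ∧ ∀ t : ℝ, |t| ≤ δ → Q a b U d (x + t • y) := by
  have hc : ∀ p q : ℝ, 0 < p → ∀ᶠ t : ℝ in nhds 0, 0 ≤ p + t * q := by
    intro p q hp
    have : Continuous fun t : ℝ => p + t * q := by fun_prop
    exact ((this.tendsto' 0 p (by simp)).eventually (lt_mem_nhds hp)).mono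
      fun _ ht => le_of_lt ht
  have h1 : ∀ᶠ t : ℝ in nhds 0, ∀ e, 0 ≤ x e + t * y e := by
    rw [Filter.eventually_all]
    intro e
    rcases (h.nonneg e).eq_or_lt with he | he
    · simp [← he, hs e he.symm]
    · exact hc _ _ he
  have h2 : ∀ᶠ t : ℝ in nhds 0, ∀ S ∈ U.powerset, Odd S.card →
      0 ≤ dot x (cut a b S) - 1 + t * dot y (cut a b S) := by
    rw [Filter.eventually_all_finset]
    intro S hS
    by_cases hodd : Odd S.card
    · rcases (h.odd S (mem_powerset.1 hS) hodd).eq_or_lt with he | he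
      · simp [← he, ho S (mem_powerset.1 hS) hodd he.symm]
      · exact (hc _ _ (sub_pos.2 he)).mono fun _ ht _ => ht
    · simp [hodd]
  obtain ⟨ε, hε, h3⟩ := Metric.eventually_nhds_iff.1 (h1.and h2)
  refine ⟨ε / 2, half_pos hε, fun t ht' => ?_⟩
  obtain ⟨h4, h5⟩ := @h3 t (by rw [Real.dist_eq, sub_zero]; linarith only [hε, ht'])
  refine ⟨⟨h4, fun v hv => ?_, ?_, fun S hS hodd => ?_⟩, fun e he => h.valid e fun h0 => he ?_⟩
  · rw [dot_add_left, dot_smul_left, h.deg v hv, hd v hv]; ring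
  · rw [dot_add_left, dot_smul_left, h.tot, ht]; ring
  · rw [dot_add_left, dot_smul_left]
    linarith [h5 S (mem_powerset.2 hS) hodd]
  · simp [h0, hs e h0]

end Pool.Agent.Work.MP_33747a_co.EK
end

-- merged part: Pool.Agent.Work.MP_33747a_co.EQ2
section
set_option autoImplicit false
set_option linter.unusedSectionVars false

namespace Pool.Agent.Work.MP_33747a_co.EK

open Finset Real

theorem perm_alt {X : Type*} [Fintype X] [DecidableEq X] {σ : X → X} (hσ : Function.Injective σ)
    (w0 : X) : (∃ c : X → ℝ, c w0 = 1 ∧ ∀ w, c (σ w) + c w = 0) ∨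
      ∃ O : Finset X, w0 ∈ O ∧ Odd O.card ∧ (∀ w, w ∈ O ↔ σ w ∈ O) ∧ ∀ w ∈ O, ∃ i, w = σ^[i] w0 := by
  have hp : 0 < Function.minimalPeriod σ w0 :=
    Function.minimalPeriod_pos_of_mem_periodicPts (hσ.mem_periodicPts w0)
  have hper : σ^[Function.minimalPeriod σ w0] w0 = w0 := Function.iterate_minimalPeriod
  have hinj : ∀ i j, i < Function.minimalPeriod σ w0 → j < Function.minimalPeriod σ w0 →
      σ^[i] w0 = σ^[j] w0 → i = j := fun i j hi hj h =>
    (Function.iterate_eq_iterate_iff_of_lt_minimalPeriod hi hj).1 h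
  generalize Function.minimalPeriod σ w0 = p at hp hper hinj
  rcases Nat.even_or_odd p with he | ho
  · left
    refine ⟨fun w => ∑ i ∈ range p, if σ^[i] w0 = w then (-1 : ℝ) ^ i else 0, ?_, fun w => ?_⟩
    · simp only []
      rw [Finset.sum_eq_single 0]
      · simp
      · intro i hi hi0
        rw [if_neg]
        intro h
        exact hi0 (hinj i 0 (mem_range.1 hi) hp h)
      · intro h
        exact absurd (mem_range.2 hp) h
    · have h1 := Finset.sum_range_succ (fun i => if σ^[i] w0 = σ w then (-1 : ℝ) ^ i else 0) p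
      have h2 := Finset.sum_range_succ' (fun i => if σ^[i] w0 = σ w then (-1 : ℝ) ^ i else 0) p
      simp only [hper, he.neg_one_pow, Function.iterate_zero, id, pow_zero] at h1 h2
      have h3 : ∀ i, (if σ^[i + 1] w0 = σ w then (-1 : ℝ) ^ (i + 1) else 0) =
          -(if σ^[i] w0 = w then (-1 : ℝ) ^ i else 0) := by
        intro i
        rw [Function.iterate_succ_apply']
        by_cases h : σ^[i] w0 = w
        · simp [h, pow_succ]
        · rw [if_neg (fun h' => h (hσ h')), if_neg h, neg_zero]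
      simp only [h3, Finset.sum_neg_distrib] at h2
      simp only []
      linarith only [h1, h2]
  · right
    have hcard : ((range p).image fun i => σ^[i] w0).card = p := by
      rw [Finset.card_image_of_injOn, card_range]
      intro i hi j hj h
      exact hinj i j (mem_range.1 (mem_coe.1 hi)) (mem_range.1 (mem_coe.1 hj)) h
    refine ⟨(range p).image fun i => σ^[i] w0, mem_image.2 ⟨0, mem_range.2 hp, rfl⟩,
      by rw [hcard]; exact ho, fun w => ⟨fun h => ?_, fun h => ?_⟩, fun w hw => ?_⟩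
    · obtain ⟨i, hi, rfl⟩ := mem_image.1 h
      rw [← Function.iterate_succ_apply' σ]
      rcases (Nat.succ_le_of_lt (mem_range.1 hi)).eq_or_lt with h1 | h1
      · exact mem_image.2 ⟨0, mem_range.2 hp, by rw [h1, hper]; rfl⟩
      · exact mem_image.2 ⟨i + 1, mem_range.2 h1, rfl⟩
    · obtain ⟨i, hi, h1⟩ := mem_image.1 h
      rcases i with _ | i
      · obtain ⟨q, rfl⟩ : ∃ q, p = q + 1 := ⟨p - 1, by omega⟩
        rw [Function.iterate_succ_apply'] at hper
        refine mem_image.2 ⟨q, mem_range.2 (Nat.lt_succ_self q), hσ ?_⟩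
        rw [hper]
        exact h1
      · rw [Function.iterate_succ_apply'] at h1
        exact mem_image.2 ⟨i, mem_range.2 (Nat.lt_of_succ_lt (mem_range.1 hi)), hσ h1⟩
    · obtain ⟨i, _, rfl⟩ := mem_image.1 hw
      exact ⟨i, rfl⟩

variable {X E : Type*} [Fintype E] [DecidableEq X] [DecidableEq E]

def inc (α β : E → X) (w : X) (e : E) : ℝ := if α e = w ∨ β e = w then 1 else 0

theorem cycle_abs (α β : E → X) (W : Finset X) (s : Finset E)
    (hv : ∀ e ∈ s, α e ≠ β e ∧ α e ∈ W ∧ β e ∈ W)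
    (hd : ∀ w ∈ W, 2 ≤ (s.filter fun e => α e = w ∨ β e = w).card)
    (hker : ∀ y : E → ℝ, (∀ e, e ∉ s → y e = 0) → (∀ w ∈ W, dot y (inc α β w) = 0) → y = 0) :
    (∀ w ∈ W, (s.filter fun e => α e = w ∨ β e = w).card = 2) ∧
      ∀ C ⊆ W, C.Nonempty → (∀ e ∈ s, α e ∈ C ↔ β e ∈ C) →
        ∃ O ⊆ C, Odd O.card ∧ ∀ e ∈ s, α e ∈ O ↔ β e ∈ O := by
  classical
  have h1 : s.card ≤ W.card := by
    have a1 := finrank_TT s (W.image (inc α β))
    have a2 : TT s (W.image (inc α β)) = ⊥ := by
      rw [Submodule.eq_bot_iff]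
      intro y hy
      exact hker y hy.1 fun w hw => hy.2 _ (mem_image_of_mem _ hw)
    rw [a2, finrank_bot, zero_add] at a1
    exact a1.trans card_image_le
  have hbelow : ∀ (A : Finset X) (e : E), (A.filter fun w => α e = w ∨ β e = w).card ≤ 2 := by
    intro A e
    refine le_trans (card_le_card (t := {α e, β e}) fun w hw => ?_) card_le_two
    rcases (mem_filter.1 hw).2 with h | h <;> simp [h]
  have hsum : ∑ w ∈ W, (s.filter fun e => α e = w ∨ β e = w).card ≤ ∑ _w ∈ W, 2 := by
    have := Finset.sum_card_bipartiteAbove_eq_sum_card_bipartiteBelow (s := W) (t := s)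
      (fun w e => α e = w ∨ β e = w)
    simp only [bipartiteAbove, bipartiteBelow] at this
    rw [this]
    refine (Finset.sum_le_sum fun e _ => hbelow W e).trans ?_
    simp only [Finset.sum_const, smul_eq_mul]
    omega
  have h2 : ∀ w ∈ W, (s.filter fun e => α e = w ∨ β e = w).card = 2 := fun w hw =>
    ((Finset.sum_eq_sum_iff_of_le hd).1 (le_antisymm (Finset.sum_le_sum hd) hsum) w hw).symm
  refine ⟨h2, fun C hC hne hcl => ?_⟩
  obtain ⟨f, hf, hft⟩ := (Finset.all_card_le_biUnion_card_iff_exists_injective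
    (fun w : W => s.filter fun e => α e = w ∨ β e = w)).1 (by
      intro A
      have := Finset.card_mul_le_card_mul (s := A)
        (t := A.biUnion fun w : W => s.filter fun e => α e = w ∨ β e = w)
        (fun (w : W) e => α e = w ∨ β e = w) (m := 2) (n := 2) (fun w hw => by
          refine (hd w w.2).trans (card_le_card fun e he => ?_)
          exact (mem_bipartiteAbove _).2 ⟨mem_biUnion.2 ⟨w, hw, he⟩, (mem_filter.1 he).2⟩)
        (fun e _ => by
          refine le_trans ?_ (hbelow W e)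
          refine card_le_card_of_injOn (fun w => w.1) (fun w hw => ?_) (fun _ _ _ _ h => Subtype.ext h)
          exact mem_coe.2 (mem_filter.2 ⟨w.2, ((mem_bipartiteBelow _).1 (mem_coe.1 hw)).2⟩))
      omega)
  have hfs : ∀ w, f w ∈ s := fun w => (mem_filter.1 (hft w)).1
  have hfi : ∀ w : W, α (f w) = w ∨ β (f w) = w := fun w => (mem_filter.1 (hft w)).2
  obtain ⟨σ, hσ⟩ : ∃ σ : W → W, ∀ w, (α (f w) = w ∧ β (f w) = σ w) ∨ (α (f w) = σ w ∧ β (f w) = w) := by
    refine ⟨fun w => if α (f w) = w then ⟨β (f w), (hv _ (hfs w)).2.2⟩ else ⟨α (f w), (hv _ (hfs w)).2.1⟩,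
      fun w => ?_⟩
    by_cases h : α (f w) = w
    · left; simp [h]
    · right; simp [h, (hfi w).resolve_left h]
  have hne' : ∀ w, σ w ≠ w := by
    intro w h
    have := (hv _ (hfs w)).1
    rcases hσ w with ⟨a1, a2⟩ | ⟨a1, a2⟩
    · exact this (by rw [a1, a2, h])
    · exact this (by rw [a1, a2, h])
  have hσi : Function.Injective σ := by
    intro w1 w2 h
    by_contra hne12
    have hsub : ({f w1, f w2, f (σ w1)} : Finset E) ⊆ s.filter fun e => α e = σ w1 ∨ β e = σ w1 := by
      intro e he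
      simp only [mem_insert, mem_singleton] at he
      rcases he with rfl | rfl | rfl
      · exact mem_filter.2 ⟨hfs _, by rcases hσ w1 with a | a <;> simp [a.1, a.2]⟩
      · exact mem_filter.2 ⟨hfs _, by rw [h]; rcases hσ w2 with a | a <;> simp [a.1, a.2]⟩
      · exact hft _
    have hc := card_le_card hsub
    rw [h2 _ (σ w1).2, Finset.card_eq_three.2 ⟨_, _, _, hf.ne hne12, hf.ne (hne' w1).symm,
      hf.ne (by rw [h]; exact (hne' w2).symm), rfl⟩] at hc
    omega
  have hsurj : ∀ e ∈ s, ∃ w, f w = e := by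
    intro e he
    have a1 : univ.image f = s := by
      refine Finset.eq_of_subset_of_card_le (fun e he => ?_) ?_
      · obtain ⟨w, _, rfl⟩ := mem_image.1 he
        exact hfs w
      · rw [card_image_of_injective _ hf]
        simpa using h1
    rw [← a1] at he
    obtain ⟨w, _, hw⟩ := mem_image.1 he
    exact ⟨w, hw⟩
  obtain ⟨w0, hw0⟩ := hne
  rcases perm_alt hσi ⟨w0, hC hw0⟩ with ⟨c, hc1, hc⟩ | ⟨O, _, hO1, hO2, hO3⟩
  · exfalso
    have hy := hker (fun e => ∑ w, if f w = e then c w else 0) (fun e he =>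
      Finset.sum_eq_zero fun w _ => if_neg fun (h : f w = e) => he (h ▸ hfs w)) (fun w hw => by
        unfold dot
        simp only [Finset.sum_mul]
        rw [Finset.sum_comm]
        simp only [ite_mul, zero_mul, Finset.sum_ite_eq, mem_univ, if_true]
        obtain ⟨w', hw'⟩ := Finite.surjective_of_injective hσi ⟨w, hw⟩
        have a1 : ∀ v : W, c v * inc α β w (f v) =
            (if v = ⟨w, hw⟩ then c v else 0) + if v = w' then c v else 0 := by
          intro v
          have b1 : v = w' ↔ (σ v : X) = w := by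
            constructor
            · rintro rfl; rw [hw']
            · intro h; exact hσi (by rw [hw']; exact Subtype.ext h)
          have b2 : v = ⟨w, hw⟩ ↔ (v : X) = w := Subtype.ext_iff
          have b3 : ¬ ((v : X) = w ∧ (σ v : X) = w) := fun h =>
            hne' v (Subtype.ext (h.2.trans h.1.symm))
          have b4 : (α (f v) = w ∨ β (f v) = w) ↔ ((v : X) = w ∨ (σ v : X) = w) := by
            rcases hσ v with a | a
            · rw [a.1, a.2]
            · rw [a.1, a.2, or_comm]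
          unfold inc
          simp only [b1, b2, b4]
          by_cases c1 : (v : X) = w <;> by_cases c2 : (σ v : X) = w <;> simp [c1, c2]
          exact absurd ⟨c1, c2⟩ b3
        simp only [a1, Finset.sum_add_distrib, Finset.sum_ite_eq', mem_univ, if_true]
        rw [← hw']
        exact hc w')
    have := congrFun hy (f ⟨w0, hC hw0⟩)
    simp only [hf.eq_iff, Finset.sum_ite_eq', mem_univ, if_true, Pi.zero_apply] at this
    rw [hc1] at this
    exact one_ne_zero this
  · have hCσ : ∀ w : W, (w : X) ∈ C → (σ w : X) ∈ C := by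
      intro w hw
      have := hcl _ (hfs w)
      rcases hσ w with a | a
      · rw [a.1, a.2] at this; exact this.1 hw
      · rw [a.1, a.2] at this; exact this.2 hw
    have hCi : ∀ i, ((σ^[i] ⟨w0, hC hw0⟩ : W) : X) ∈ C := by
      intro i
      induction i with
      | zero => exact hw0
      | succ i ih => rw [Function.iterate_succ_apply']; exact hCσ _ ih
    have hm : ∀ v : W, (v : X) ∈ O.map (Function.Embedding.subtype _) ↔ v ∈ O := fun v =>
      Finset.mem_map' (Function.Embedding.subtype _)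
    refine ⟨O.map (Function.Embedding.subtype _), fun v hv' => ?_, by rwa [card_map], fun e he => ?_⟩
    · obtain ⟨w, hw, rfl⟩ := mem_map.1 hv'
      obtain ⟨i, rfl⟩ := hO3 w hw
      exact hCi i
    · obtain ⟨w, rfl⟩ := hsurj e he
      rcases hσ w with a | a
      · rw [a.1, a.2, hm, hm]; exact hO2 w
      · rw [a.1, a.2, hm, hm]; exact (hO2 w).symm

end Pool.Agent.Work.MP_33747a_co.EK
end

-- merged part: Pool.Agent.Work.MP_33747a_co.EQ3
section
set_option autoImplicit false
set_option linter.unusedSectionVars false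

namespace Pool.Agent.Work.MP_33747a_co.EK

open Finset Real

variable {V E : Type*} [Fintype E] [DecidableEq V]

variable {a b : E → V} {U : Finset V} {x : E → ℝ}

theorem dot_lt_card {x c : E → ℝ} (h1 : ∀ e, x e < 1) (hc : ZO1 c) (t : Finset E)
    (ht : ∀ e, e ∈ t ↔ x e ≠ 0 ∧ c e = 1) (hp : 0 < dot x c) : dot x c < t.card := by
  have h2 : dot x c = ∑ e ∈ t, x e := by
    unfold dot
    rw [← Finset.sum_subset (subset_univ t)]
    · exact Finset.sum_congr rfl fun e he => by rw [((ht e).1 he).2, mul_one]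
    · intro e _ he
      rw [ht, not_and_or, not_not] at he
      rcases he with he | he
      · simp [he]
      · simp [(hc e).resolve_right he]
  have h3 : t.Nonempty := by
    rw [Finset.nonempty_iff_ne_empty]
    rintro rfl
    simp [h2] at hp
  rw [h2]
  simpa using Finset.sum_lt_sum_of_nonempty h3 fun e _ => h1 e

theorem cycle_Q {d : ℕ} (h : Q a b U d x) (hpar : Even (U.card + d)) (h1 : ∀ e, x e < 1)
    (hx : x ≠ 0) : ∃ y : E → ℝ, y ≠ 0 ∧ (∀ e, x e = 0 → y e = 0) ∧
      (∀ v ∈ U, dot y (cut a b {v}) = 0) ∧ dot y (cut a b U) = 0 := by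
  classical
  by_contra hcon
  let α : E → Option V := fun e => if a e ∈ U then some (a e) else none
  let β : E → Option V := fun e => if b e ∈ U then some (b e) else none
  let W : Finset (Option V) := U.image some ∪ if d = 0 then ∅ else {none}
  let s : Finset E := univ.filter fun e => x e ≠ 0
  have hs : ∀ e, e ∈ s ↔ x e ≠ 0 := fun e => by simp [s]
  have hWs : ∀ v, some v ∈ W ↔ v ∈ U := by
    intro v
    by_cases hd : d = 0 <;> simp [W, hd]
  have hWn : none ∈ W ↔ d ≠ 0 := by
    by_cases hd : d = 0 <;> simp [W, hd]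
  have hi1 : ∀ e, x e ≠ 0 → ∀ v ∈ U, (α e = some v ∨ β e = some v) ↔ cut a b {v} e = 1 := by
    intro e he v hv
    have := (h.valid e he).1
    simp only [α, β, cut, mem_singleton]
    by_cases c1 : a e = v <;> by_cases c2 : b e = v
    · exact absurd (c1.trans c2.symm) this
    · simp [c1, c2, hv]
    · simp [c1, c2, hv]
    · simp [c1, c2]
  have hi2 : ∀ e, x e ≠ 0 → ((α e = none ∨ β e = none) ↔ cut a b U e = 1) := by
    intro e he
    have := (h.valid e he).2
    simp only [α, β, cut]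
    by_cases c1 : a e ∈ U <;> by_cases c2 : b e ∈ U <;> simp [c1, c2] at this ⊢
  have hd0 : ∀ e, x e ≠ 0 → cut a b U e = 1 → d ≠ 0 := by
    intro e he hc hd
    have := eq_zero_of_dot h.nonneg (cut_zo a b U).nonneg (by rw [h.tot, hd]; simp) e he
    rw [hc] at this
    exact one_ne_zero this
  have hinc : ∀ (w : Option V) (c : E → ℝ) (e : E), ZO1 c → ((α e = w ∨ β e = w) ↔ c e = 1) →
      c e = inc α β w e := by
    intro w c e hc hw
    unfold inc
    rcases hc e with h0 | h0
    · rw [if_neg, h0]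
      rw [hw, h0]; norm_num
    · rw [if_pos (hw.2 h0), h0]
  have hcard : ∀ (w : Option V) (c : E → ℝ), ZO1 c → (∀ e, x e ≠ 0 → ((α e = w ∨ β e = w) ↔ c e = 1)) →
      1 ≤ dot x c → dot x c < (s.filter fun e => α e = w ∨ β e = w).card := by
    intro w c hc hw hp
    refine dot_lt_card h1 hc _ (fun e => ?_) (by linarith)
    rw [mem_filter, hs]
    exact and_congr_right fun he => hw e he
  obtain ⟨h2, h3⟩ := cycle_abs α β W s (fun e he => by
      have he' := (hs e).1 he
      obtain ⟨v1, v2⟩ := h.valid e he'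
      refine ⟨?_, ?_, ?_⟩
      · simp only [α, β]
        by_cases c1 : a e ∈ U <;> by_cases c2 : b e ∈ U <;> simp [c1, c2, v1] at v2 ⊢
      · by_cases c1 : a e ∈ U
        · simp only [α, if_pos c1]; exact (hWs _).2 c1
        · have : α e = none := if_neg c1
          rw [this]
          exact hWn.2 (hd0 e he' ((hi2 e he').1 (Or.inl this)))
      · by_cases c1 : b e ∈ U
        · simp only [β, if_pos c1]; exact (hWs _).2 c1
        · have : β e = none := if_neg c1
          rw [this]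
          exact hWn.2 (hd0 e he' ((hi2 e he').1 (Or.inr this))))
    (fun w hw => by
      rcases w with _ | v
      · have hd1 : (1 : ℝ) ≤ d := by exact_mod_cast Nat.one_le_iff_ne_zero.2 (hWn.1 hw)
        have := hcard none _ (cut_zo a b U) hi2 (by rw [h.tot]; exact hd1)
        rw [h.tot] at this
        have h5 : 1 < (s.filter fun e => α e = none ∨ β e = none).card := by
          exact_mod_cast hd1.trans_lt this
        exact h5
      · have hv := (hWs v).1 hw
        have := hcard (some v) _ (cut_zo a b {v}) (fun e he => hi1 e he v hv) (by rw [h.deg v hv])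
        rw [h.deg v hv] at this
        have h5 : 1 < (s.filter fun e => α e = some v ∨ β e = some v).card := by exact_mod_cast this
        exact h5)
    (fun y hy hyw => by
      by_contra hy0
      have hy' : ∀ e, y e ≠ 0 → x e ≠ 0 := fun e he => by
        by_contra h0
        exact he (hy e fun hes => (hs e).1 hes h0)
      refine hcon ⟨y, hy0, fun e he => hy e fun hes => (hs e).1 hes he, fun v hv => ?_, ?_⟩
      · rw [← hyw _ ((hWs v).2 hv)]
        exact dot_congr fun e he => hinc _ _ e (cut_zo a b _) (hi1 e (hy' e he) v hv)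
      · by_cases hd : d = 0
        · refine dot_eq_zero fun e he => ((cut_zo a b U) e).resolve_right fun hc => ?_
          exact hd0 e (hy' e he) hc hd
        · rw [← hyw _ (hWn.2 hd)]
          exact dot_congr fun e he => hinc _ _ e (cut_zo a b _) (hi2 e (hy' e he)))
  have viol : ∀ O ⊆ W, none ∉ O → Odd O.card → (∀ e ∈ s, α e ∈ O ↔ β e ∈ O) → False := by
    intro O hO hn ho hcl
    have e1 : O = (U.filter fun v => some v ∈ O).image some := by
      ext w
      rcases w with _ | v
      · simp [hn]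
      · simp only [mem_image, mem_filter, Option.some.injEq, exists_eq_right]
        exact ⟨fun hv => ⟨(hWs v).1 (hO hv), hv⟩, fun hv => hv.2⟩
    have e2 : (U.filter fun v => some v ∈ O).card = O.card := by
      conv_rhs => rw [e1, card_image_of_injective _ (Option.some_injective V)]
    have e3 := h.odd _ (filter_subset (fun v => some v ∈ O) U) (by rw [e2]; exact ho)
    rw [dot_eq_zero (y := x)] at e3
    · norm_num at e3
    intro e he
    have := hcl e ((hs e).2 he)
    unfold cut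
    rw [if_pos]
    simp only [α, β] at this
    simp only [mem_filter]
    by_cases c1 : a e ∈ U <;> by_cases c2 : b e ∈ U <;> simp [c1, c2, hn] at this ⊢ <;> exact this
  have hWne : W.Nonempty := by
    obtain ⟨e, he⟩ := Function.ne_iff.1 hx
    rcases (h.valid e he).2 with hv | hv
    · exact ⟨_, (hWs _).2 hv⟩
    · exact ⟨_, (hWs _).2 hv⟩
  have hWcl : ∀ e ∈ s, α e ∈ W ∧ β e ∈ W := by
    intro e he
    have he' := (hs e).1 he
    constructor
    · by_cases c1 : a e ∈ U
      · simp only [α, if_pos c1]; exact (hWs _).2 c1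
      · have : α e = none := if_neg c1
        rw [this]
        exact hWn.2 (hd0 e he' ((hi2 e he').1 (Or.inl this)))
    · by_cases c1 : b e ∈ U
      · simp only [β, if_pos c1]; exact (hWs _).2 c1
      · have : β e = none := if_neg c1
        rw [this]
        exact hWn.2 (hd0 e he' ((hi2 e he').1 (Or.inr this)))
  obtain ⟨O, hO, ho, hcl⟩ := h3 W Subset.rfl hWne fun e he => iff_of_true (hWcl e he).1 (hWcl e he).2
  by_cases hn : none ∈ O
  swap
  · exact viol O hO hn ho hcl
  by_cases hC : (W \ O).Nonempty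
  · obtain ⟨O', hO', ho', hcl'⟩ := h3 (W \ O) sdiff_subset hC fun e he => by
      simp only [mem_sdiff, (hWcl e he).1, (hWcl e he).2, hcl e he]
    exact viol O' (hO'.trans sdiff_subset) (fun hn' => (mem_sdiff.1 (hO' hn')).2 hn) ho' hcl'
  · rw [Finset.not_nonempty_iff_eq_empty, sdiff_eq_empty_iff_subset] at hC
    have e1 : O = W := Subset.antisymm hO hC
    have hd := hWn.1 (hO hn)
    have e2 : W.card = U.card + 1 := by
      simp only [W, if_neg hd]
      rw [card_union_of_disjoint (by simp), card_image_of_injective _ (Option.some_injective V),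
        card_singleton]
    have hd1 : (1 : ℝ) ≤ d := by exact_mod_cast Nat.one_le_iff_ne_zero.2 hd
    have := hcard none _ (cut_zo a b U) hi2 (by rw [h.tot]; exact hd1)
    rw [h.tot, h2 none (hO hn)] at this
    have h5 : d < 2 := by exact_mod_cast this
    rw [e1, e2] at ho
    obtain ⟨p, hp⟩ := ho
    obtain ⟨q, hq⟩ := hpar
    omega

open Classical in
noncomputable def frac (x : E → ℝ) (e : E) : ℝ := if e ∈ act x then x e else 0

open Classical in
noncomputable def sure (x : E → ℝ) (e : E) : ℝ := if x e = 1 then 1 else 0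

theorem frac_ne {e : E} (h : frac x e ≠ 0) : e ∈ act x := by
  by_contra hc
  exact h (if_neg hc)

theorem frac_of_act {e : E} (h : e ∈ act x) : frac x e = x e := if_pos h

theorem frac_lt_one (x : E → ℝ) (e : E) : frac x e < 1 := by
  unfold frac
  split_ifs with h
  · exact (mem_act.1 h).2
  · norm_num

theorem frac_nonneg (x : E → ℝ) (e : E) : 0 ≤ frac x e := by
  unfold frac
  split_ifs with h
  · exact (mem_act.1 h).1.le
  · norm_num

theorem sure_zo (x : E → ℝ) : ZO1 (sure x) := by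
  intro e; unfold sure; split_ifs <;> simp

theorem sure_ne {e : E} (h : sure x e ≠ 0) : x e = 1 := by
  by_contra hc
  exact h (if_neg hc)

theorem frac_add_sure (h0 : ∀ e, 0 ≤ x e) (h1 : ∀ e, x e ≤ 1) : frac x + sure x = x := by
  funext e
  simp only [Pi.add_apply, frac, sure, mem_act]
  rcases (h0 e).eq_or_lt with c0 | c0
  · simp [← c0]
  rcases (h1 e).eq_or_lt with c1 | c1
  · simp [c1]
  · simp [c0, c1, c1.ne]

theorem split {d : ℕ} (h : Q a b U d x) (hpar : Even (U.card + d)) :
    ∃ (U' : Finset V) (d' : ℕ), U' ⊆ U ∧ Q a b U' d' (frac x) ∧ Even (U'.card + d') ∧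
      (∀ e ∈ act x, (a e ∈ U ↔ a e ∈ U') ∧ (b e ∈ U ↔ b e ∈ U')) ∧
      ∀ T ⊆ U, Odd T.card → dot x (cut a b T) = 1 →
        (Odd (T ∩ U').card ∧ dot (frac x) (cut a b (T ∩ U')) = 1) ∨ ∀ e ∈ act x, cut a b T e = 0 := by
  classical
  have hx := frac_add_sure h.nonneg h.le_one
  have hdot : ∀ c, dot x c = dot (frac x) c + dot (sure x) c := fun c => by
    rw [← dot_add_left, hx]
  obtain ⟨U', hU'⟩ : ∃ U' : Finset V, U' = U.filter fun v => ∀ e, x e = 1 → cut a b {v} e = 0 := ⟨_, rfl⟩
  have hsub : U' ⊆ U := hU' ▸ filter_subset _ _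
  have f3 : ∀ v ∈ U', dot (frac x) (cut a b {v}) = 1 := by
    intro v hv
    rw [hU', mem_filter] at hv
    have := hdot (cut a b {v})
    rw [h.deg v hv.1, dot_eq_zero (y := sure x) fun e he => hv.2 e (sure_ne he)] at this
    linarith
  have f2 : ∀ v ∈ U \ U', dot (sure x) (cut a b {v}) = 1 ∧ dot (frac x) (cut a b {v}) ≤ 0 := by
    intro v hv
    obtain ⟨hv1, hv2⟩ := mem_sdiff.1 hv
    rw [hU', mem_filter, not_and] at hv2
    have hv3 := hv2 hv1
    push Not at hv3
    obtain ⟨e, he1, he2⟩ := hv3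
    have a1 := single_le_dot (sure_zo x).nonneg (cut_zo a b {v}).nonneg e
    rw [(cut_zo a b {v} e).resolve_left he2, show sure x e = 1 from if_pos he1] at a1
    have a2 := hdot (cut a b {v})
    have a3 := dot_nonneg (frac_nonneg x) (cut_zo a b {v}).nonneg
    rw [h.deg v hv1] at a2
    constructor <;> linarith only [a1, a2, a3]
  have hact : ∀ e ∈ act x, frac x e ≠ 0 ∧ x e ≠ 0 := fun e he =>
    ⟨by rw [frac_of_act he]; exact (mem_act.1 he).1.ne', (mem_act.1 he).1.ne'⟩
  have f4 : ∀ e ∈ act x, (a e ∈ U ↔ a e ∈ U') ∧ (b e ∈ U ↔ b e ∈ U') := by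
    intro e he
    have hv := (h.valid e (hact e he).2).1
    refine ⟨⟨fun h1 => ?_, fun h1 => hsub h1⟩, ⟨fun h1 => ?_, fun h1 => hsub h1⟩⟩
    · by_contra h2
      have := eq_zero_of_dot (frac_nonneg x) (cut_zo a b _).nonneg (f2 _ (mem_sdiff.2 ⟨h1, h2⟩)).2 e
        (hact e he).1
      rw [cut_single_left hv] at this
      exact one_ne_zero this
    · by_contra h2
      have := eq_zero_of_dot (frac_nonneg x) (cut_zo a b _).nonneg (f2 _ (mem_sdiff.2 ⟨h1, h2⟩)).2 e
        (hact e he).1
      rw [cut_single_right hv] at this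
      exact one_ne_zero this
  have hsv : ∀ e, sure x e ≠ 0 → a e ≠ b e := fun e he =>
    (h.valid e (by rw [sure_ne he]; norm_num)).1
  have f5 : ∀ e, sure x e ≠ 0 → a e ∉ U' ∧ b e ∉ U' := by
    intro e he
    constructor
    · intro h1
      rw [hU', mem_filter] at h1
      have := h1.2 e (sure_ne he)
      rw [cut_single_left (hsv e he)] at this
      exact one_ne_zero this
    · intro h1
      rw [hU', mem_filter] at h1
      have := h1.2 e (sure_ne he)
      rw [cut_single_right (hsv e he)] at this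
      exact one_ne_zero this
  have g1 : ∀ T ⊆ U, dot (frac x) (cut a b T) = dot (frac x) (cut a b (T ∩ U')) := by
    intro T hT
    refine dot_congr fun e he => ?_
    obtain ⟨c1, c2⟩ := f4 e (frac_ne he)
    have c3 : a e ∈ T ∩ U' ↔ a e ∈ T := by
      rw [mem_inter]; exact ⟨fun h => h.1, fun h => ⟨h, c1.1 (hT h)⟩⟩
    have c4 : b e ∈ T ∩ U' ↔ b e ∈ T := by
      rw [mem_inter]; exact ⟨fun h => h.1, fun h => ⟨h, c2.1 (hT h)⟩⟩
    simp only [cut, c3, c4]
  have g2 : ∀ T, dot (sure x) (cut a b T) = dot (sure x) (cut a b (T \ U')) := by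
    intro T
    refine dot_congr fun e he => ?_
    obtain ⟨c1, c2⟩ := f5 e he
    simp [cut, c1, c2]
  have g3 : ∀ S ⊆ U', Odd S.card → 1 ≤ dot (frac x) (cut a b S) := by
    intro S hS ho
    have a1 := h.odd S (hS.trans hsub) ho
    rw [hdot, g2, sdiff_eq_empty_iff_subset.2 hS, dot_eq_zero (y := sure x)] at a1
    · linarith
    · intro e _; simp [cut]
  obtain ⟨n, hn, hn2⟩ := parity (sure_zo x) hsv fun v hv => (f2 v hv).1
  have g4 : dot (frac x) (cut a b U') = d - n := by
    have a1 := hdot (cut a b U)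
    rw [h.tot, g1 U Subset.rfl, g2, hn, inter_eq_right.2 hsub] at a1
    linarith only [a1]
  have g5 : n ≤ d := by
    have := dot_nonneg (frac_nonneg x) (cut_zo a b U').nonneg
    rw [g4, sub_nonneg] at this
    exact_mod_cast this
  refine ⟨U', d - n, hsub, ⟨⟨frac_nonneg x, f3, by rw [g4, Nat.cast_sub g5], g3⟩, fun e he => ?_⟩,
    ?_, f4, fun T hT ho ht => ?_⟩
  · have he' := frac_ne he
    obtain ⟨v1, v2⟩ := h.valid e (hact e he').2
    exact ⟨v1, v2.imp (f4 e he').1.1 (f4 e he').2.1⟩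
  · have := card_sdiff_add_card_eq_card hsub
    obtain ⟨p, hp⟩ := hpar
    obtain ⟨q, hq⟩ := hn2
    exact ⟨p - q, by omega⟩
  · have a1 := hdot (cut a b T)
    have a2 := dot_nonneg (sure_zo x).nonneg (cut_zo a b T).nonneg
    rcases Nat.even_or_odd (T ∩ U').card with he | ho'
    · right
      have a3 : Odd (T \ U').card := by
        have := card_sdiff_add_card_inter T U'
        obtain ⟨p, hp⟩ := he
        obtain ⟨q, hq⟩ := ho
        exact ⟨q - p, by omega⟩
      have a4 := parity_odd (sure_zo x) hsv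
        (fun v hv => (f2 v (sdiff_subset_sdiff hT Subset.rfl hv)).1) a3
      rw [← g2] at a4
      intro e he'
      exact eq_zero_of_dot (frac_nonneg x) (cut_zo a b T).nonneg (by linarith only [ht, a1, a4]) e (hact e he').1
    · left
      refine ⟨ho', le_antisymm ?_ (g3 _ inter_subset_right ho')⟩
      rw [← g1 T hT]
      linarith

end Pool.Agent.Work.MP_33747a_co.EK
end
end

-- merged part: Pool.Agent.Work.MP_33747a_co.S6
section
-- merged part: Pool.Agent.Work.MP_33747a_co.EQ4
section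
set_option autoImplicit false
set_option linter.unusedSectionVars false

namespace Pool.Agent.Work.MP_33747a_co.EK

open Finset Real

variable {V E : Type*} [Fintype E] [DecidableEq V]

/-- contraction of `S` to the point `s` -/
def ctr (S : Finset V) (s : V) (v : V) : V := if v ∈ S then s else v

def pre (S : Finset V) (s : V) (T : Finset V) : Finset V := if s ∈ T then S ∪ T else T

section
variable {a b : E → V} {U S T : Finset V} {s : V} {d : ℝ} {x : E → ℝ}

theorem mem_pre (hs : s ∈ S) (hT : T ⊆ insert s (U \ S)) (v : V) : ctr S s v ∈ T ↔ v ∈ pre S s T := by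
  unfold ctr pre
  by_cases h1 : v ∈ S <;> by_cases h2 : s ∈ T <;> simp [h1, h2]
  intro h3
  rcases mem_insert.1 (hT h3) with h4 | h4
  · exact h2 (h4 ▸ h3)
  · exact (mem_sdiff.1 h4).2 h1

theorem cut_pre (hs : s ∈ S) (hT : T ⊆ insert s (U \ S)) :
    cut (ctr S s ∘ a) (ctr S s ∘ b) T = cut a b (pre S s T) := by
  funext e
  simp only [cut, Function.comp, mem_pre hs hT]

theorem pre_subset (hs : s ∈ S) (hS : S ⊆ U) (hT : T ⊆ insert s (U \ S)) : pre S s T ⊆ U := by
  have : T ⊆ U := hT.trans (insert_subset (hS hs) sdiff_subset)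
  unfold pre
  split_ifs
  · exact union_subset hS this
  · exact this

theorem pre_odd (hs : s ∈ S) (ho : Odd S.card) (hT : T ⊆ insert s (U \ S)) :
    Odd (pre S s T).card ↔ Odd T.card := by
  unfold pre
  split_ifs with h
  · have h1 : S ∩ T = {s} := by
      ext v
      simp only [mem_inter, mem_singleton]
      constructor
      · rintro ⟨h1, h2⟩
        rcases mem_insert.1 (hT h2) with h4 | h4
        · exact h4
        · exact absurd h1 (mem_sdiff.1 h4).2
      · rintro rfl
        exact ⟨hs, h⟩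
    have h2 := card_union_add_card_inter S T
    rw [h1, card_singleton] at h2
    rw [Nat.odd_iff] at ho ⊢
    rw [Nat.odd_iff]
    omega
  · rfl

theorem pre_self (hs : s ∈ S) : pre S s {s} = S := by
  simp [pre, hs]

theorem pre_single (hs : s ∈ S) {v : V} (hv : v ∉ S) : pre S s {v} = {v} := by
  have : s ≠ v := fun h => hv (h ▸ hs)
  simp [pre, this]

theorem pre_all (hs : s ∈ S) (hS : S ⊆ T) : pre S s (insert s (T \ S)) = T := by
  unfold pre
  rw [if_pos (mem_insert_self _ _)]
  ext v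
  simp only [mem_union, mem_insert, mem_sdiff]
  constructor
  · rintro (h | rfl | h)
    · exact hS h
    · exact hS hs
    · exact h.1
  · intro h
    by_cases h1 : v ∈ S
    · exact Or.inl h1
    · exact Or.inr (Or.inr ⟨h, h1⟩)

theorem card_U2 (hs : s ∈ S) (hS : S ⊆ U) : (insert s (U \ S)).card + S.card = U.card + 1 := by
  rw [card_insert_of_notMem (fun h => (mem_sdiff.1 h).2 hs)]
  have := card_sdiff_add_card_eq_card hS
  omega

theorem Q1.piece1 (h : Q1 a b U d x) (hS : S ⊆ U) (ht : dot x (cut a b S) = 1) : Q1 a b S 1 x :=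
  ⟨h.nonneg, fun v hv => h.deg v (hS hv), ht, fun T hT ho => h.odd T (hT.trans hS) ho⟩

theorem Q1.piece2 (h : Q1 a b U d x) (hS : S ⊆ U) (hs : s ∈ S) (ho : Odd S.card)
    (ht : dot x (cut a b S) = 1) : Q1 (ctr S s ∘ a) (ctr S s ∘ b) (insert s (U \ S)) d x := by
  refine ⟨h.nonneg, fun v hv => ?_, ?_, fun T hT hoT => ?_⟩
  · rw [cut_pre hs (singleton_subset_iff.2 hv)]
    rcases mem_insert.1 hv with rfl | hv
    · rw [pre_self hs, ht]
    · rw [pre_single hs (mem_sdiff.1 hv).2, h.deg v (mem_sdiff.1 hv).1]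
  · rw [cut_pre hs Subset.rfl, pre_all hs hS, h.tot]
  · rw [cut_pre hs hT]
    exact h.odd _ (pre_subset hs hS hT) ((pre_odd hs ho hT).2 hoT)

theorem uncross (h : Q1 a b U d x) {A B : Finset V} (hA : A ⊆ U) (hB : B ⊆ U) (hoA : Odd A.card)
    (hoB : Odd B.card) (hS : dot x (cut a b S) = 1) (hT : dot x (cut a b T) = 1)
    (hle : ∀ e, cut a b A e + cut a b B e ≤ cut a b S e + cut a b T e) :
    dot x (cut a b A) = 1 ∧ dot x (cut a b B) = 1 ∧ ∀ y : E → ℝ, (∀ e, x e = 0 → y e = 0) →
      dot y (cut a b A) + dot y (cut a b B) = dot y (cut a b S) + dot y (cut a b T) := by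
  have h1 := h.odd A hA hoA
  have h2 := h.odd B hB hoB
  have h3 : dot x (cut a b A + cut a b B) ≤ dot x (cut a b S + cut a b T) := dot_mono h.nonneg hle
  rw [dot_add_right, dot_add_right] at h3
  refine ⟨by linarith only [h1, hS, hT, h2, h3], by linarith, fun y hy => ?_⟩
  rw [← dot_add_right, ← dot_add_right]
  refine dot_congr fun e he => ?_
  have h4 := eq_zero_of_dot (c := fun e => (cut a b S e + cut a b T e) - (cut a b A e + cut a b B e))
    h.nonneg (fun e => sub_nonneg.2 (hle e)) (by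
      simp only [dot, mul_sub, mul_add, Finset.sum_sub_distrib, Finset.sum_add_distrib] at h1 h2 hS hT ⊢
      linarith) e fun h0 => he (hy e h0)
  simp only [Pi.add_apply]
  linarith

theorem cut_le1 (a b : E → V) (S T : Finset V) (e : E) :
    cut a b (S ∩ T) e + cut a b (S ∪ T) e ≤ cut a b S e + cut a b T e := by
  unfold cut
  by_cases h1 : a e ∈ S <;> by_cases h2 : b e ∈ S <;> by_cases h3 : a e ∈ T <;> by_cases h4 : b e ∈ T <;>
    simp [h1, h2, h3, h4]

theorem cut_le2 (a b : E → V) (S T : Finset V) (e : E) :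
    cut a b (S \ T) e + cut a b (T \ S) e ≤ cut a b S e + cut a b T e := by
  unfold cut
  by_cases h1 : a e ∈ S <;> by_cases h2 : b e ∈ S <;> by_cases h3 : a e ∈ T <;> by_cases h4 : b e ∈ T <;>
    simp [h1, h2, h3, h4]

end

theorem laminar (n : ℕ) : ∀ (a b : E → V) (U : Finset V) (d : ℝ) (x : E → ℝ) (D : ℝ), U.card = n →
    Q1 a b U d x → (D ≤ d ∨ (D ≤ 2 ∧ d = 0 ∧ U.Nonempty)) →
    ∃ L : Finset (E → ℝ), 2 * (L.card : ℝ) ≤ 3 * n - D ∧ (∀ v ∈ U, cut a b {v} ∈ L) ∧
      (Odd n → d = 1 → cut a b U ∈ L) ∧ ∀ y : E → ℝ, (∀ e, x e = 0 → y e = 0) →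
        (∀ c ∈ L, dot y c = 0) → ∀ T ⊆ U, Odd T.card → dot x (cut a b T) = 1 →
          dot y (cut a b T) = 0 := by
  classical
  induction n using Nat.strong_induction_on with
  | _ n ih =>
  intro a b U d x D hn h hD
  by_cases hex : ∃ S ⊆ U, Odd S.card ∧ dot x (cut a b S) = 1 ∧ 3 ≤ S.card ∧ S.card < n
  · obtain ⟨S, hS, ho, ht, h3, hlt⟩ := hex
    obtain ⟨s, hs⟩ : S.Nonempty := card_pos.1 (by omega)
    have hc := card_U2 hs hS
    obtain ⟨L1, c1, v1, t1, k1⟩ := ih S.card hlt a b S 1 x 1 rfl (h.piece1 hS ht) (Or.inl le_rfl)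
    obtain ⟨L2, c2, v2, t2, k2⟩ := ih (insert s (U \ S)).card (by omega) (ctr S s ∘ a) (ctr S s ∘ b)
      (insert s (U \ S)) d x D rfl (h.piece2 hS hs ho ht)
      (hD.imp id fun h => ⟨h.1, h.2.1, insert_nonempty _ _⟩)
    have m1 : cut a b S ∈ L1 := t1 ho rfl
    have m2 : cut a b S ∈ L2 := by
      have := v2 s (mem_insert_self _ _)
      rwa [cut_pre hs (singleton_subset_iff.2 (mem_insert_self s (U \ S))), pre_self hs] at this
    refine ⟨L1 ∪ L2, ?_, fun v hv => ?_, fun hon hd => ?_, fun y hy hL T hT hoT htT => ?_⟩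
    · have a1 := card_union_add_card_inter L1 L2
      have a2 : 0 < (L1 ∩ L2).card := card_pos.2 ⟨_, mem_inter.2 ⟨m1, m2⟩⟩
      have a3 : (L1 ∪ L2).card + 1 ≤ L1.card + L2.card := by omega
      have a4 : ((L1 ∪ L2).card : ℝ) + 1 ≤ L1.card + L2.card := by exact_mod_cast a3
      rw [hn] at hc
      have a5 : ((insert s (U \ S)).card : ℝ) + S.card = n + 1 := by exact_mod_cast hc
      linarith only [c1, c2, a4, a5]
    · by_cases hvS : v ∈ S
      · exact mem_union_left _ (v1 v hvS)
      · have hv2 : v ∈ insert s (U \ S) := mem_insert_of_mem (mem_sdiff.2 ⟨hv, hvS⟩)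
        have := v2 v hv2
        rw [cut_pre hs (singleton_subset_iff.2 hv2), pre_single hs hvS] at this
        exact mem_union_right _ this
    · have := t2 (by
        rw [Nat.odd_iff] at ho hon ⊢
        omega) hd
      rw [cut_pre hs Subset.rfl, pre_all hs hS] at this
      exact mem_union_right _ this
    · have k1' := k1 y hy fun c hc => hL c (mem_union_left _ hc)
      have k2' : ∀ T' ⊆ insert s (U \ S), Odd (pre S s T').card → dot x (cut a b (pre S s T')) = 1 →
          dot y (cut a b (pre S s T')) = 0 := by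
        intro T' hT' o1 o2
        rw [← cut_pre hs hT'] at o2 ⊢
        exact k2 y hy (fun c hc => hL c (mem_union_right _ hc)) T' hT' ((pre_odd hs ho hT').1 o1) o2
      have hyS := hL _ (mem_union_left _ m1)
      rcases Nat.even_or_odd (S ∩ T).card with he | hoi
      · have o1 : Odd (S \ T).card := by
          have := card_sdiff_add_card_inter S T
          rw [Nat.odd_iff] at ho ⊢
          rw [Nat.even_iff] at he
          omega
        have o2 : Odd (T \ S).card := by
          have := card_sdiff_add_card_inter T S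
          rw [inter_comm] at this
          rw [Nat.odd_iff] at hoT ⊢
          rw [Nat.even_iff] at he
          omega
        obtain ⟨u1, u2, u3⟩ := uncross h (sdiff_subset.trans hS) (sdiff_subset.trans hT) o1 o2 ht htT
          (cut_le2 a b S T)
        have w1 := k1' _ sdiff_subset o1 u1
        have e1 : pre S s (T \ S) = T \ S := if_neg fun h => (mem_sdiff.1 h).2 hs
        have w2 := k2' (T \ S) ((sdiff_subset_sdiff hT Subset.rfl).trans (subset_insert _ _))
          (by rw [e1]; exact o2) (by rw [e1]; exact u2)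
        rw [e1] at w2
        linarith only [hyS, w1, w2, u3, hy, u3 y hy]
      · have o2 : Odd (S ∪ T).card := by
          have := card_union_add_card_inter S T
          rw [Nat.odd_iff] at ho hoT hoi ⊢
          omega
        obtain ⟨u1, u2, u3⟩ := uncross h (inter_subset_left.trans hS) (union_subset hS hT) hoi o2 ht htT
          (cut_le1 a b S T)
        have w1 := k1' _ inter_subset_left hoi u1
        have e1 : pre S s (insert s ((S ∪ T) \ S)) = S ∪ T := pre_all hs subset_union_left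
        have w2 := k2' (insert s ((S ∪ T) \ S))
          (insert_subset_insert _ (sdiff_subset_sdiff (union_subset hS hT) Subset.rfl))
          (by rw [e1]; exact o2) (by rw [e1]; exact u2)
        rw [e1] at w2
        linarith only [hyS, w1, w2, u3, hy, u3 y hy]
  · have htriv : ∀ T ⊆ U, Odd T.card → dot x (cut a b T) = 1 → (∃ v ∈ U, T = {v}) ∨ T = U := by
      intro T hT ho ht
      by_cases h1 : T.card = 1
      · obtain ⟨v, rfl⟩ := card_eq_one.1 h1
        exact Or.inl ⟨v, singleton_subset_iff.1 hT, rfl⟩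
      · right
        refine eq_of_subset_of_card_le hT ?_
        by_contra h2
        refine hex ⟨T, hT, ho, ht, ?_, by omega⟩
        rw [Nat.odd_iff] at ho
        omega
    have hdle := h.d_le
    rw [hn] at hdle
    have himg : ((U.image fun v => cut a b {v}).card : ℝ) ≤ n := by
      rw [← hn]; exact_mod_cast card_image_le
    by_cases hc : Odd n ∧ d = 1
    · refine ⟨insert (cut a b U) (U.image fun v => cut a b {v}), ?_,
        fun v hv => mem_insert_of_mem (mem_image_of_mem _ hv), fun _ _ => mem_insert_self _ _,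
        fun y _ hL T hT ho ht => ?_⟩
      · have hD1 : D ≤ 1 := by
          rcases hD with h1 | h1
          · linarith only [hc, h1, hc.2]
          · linarith [hc.2, h1.2.1]
        by_cases h1 : n = 1
        · obtain ⟨v, rfl⟩ := card_eq_one.1 (hn.trans h1)
          simp [h1]
          linarith only [hD1]
        · have h3 : 3 ≤ n := by
            have := Nat.odd_iff.1 hc.1
            omega
          have h4 : (3 : ℝ) ≤ n := by exact_mod_cast h3
          have h5 : ((insert (cut a b U) (U.image fun v => cut a b {v})).card : ℝ) ≤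
              (U.image fun v => cut a b {v}).card + 1 := by exact_mod_cast card_insert_le _ _
          linarith only [himg, hD1, h4, h5]
      · rcases htriv T hT ho ht with ⟨v, hv, rfl⟩ | rfl
        · exact hL _ (mem_insert_of_mem (mem_image_of_mem _ hv))
        · exact hL _ (mem_insert_self _ _)
    · refine ⟨U.image fun v => cut a b {v}, ?_, fun v hv => mem_image_of_mem _ hv,
        fun h1 h2 => absurd ⟨h1, h2⟩ hc, fun y _ hL T hT ho ht => ?_⟩
      · rcases hD with h1 | ⟨h1, h2, h3⟩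
        · linarith
        · have h4 : n ≠ 1 := by
            intro h4
            obtain ⟨v, rfl⟩ := card_eq_one.1 (hn.trans h4)
            have := h.deg v (mem_singleton_self v)
            rw [h.tot, h2] at this
            exact zero_ne_one this
          have h5 : 2 ≤ n := by
            have := card_pos.2 h3
            omega
          have h6 : (2 : ℝ) ≤ n := by exact_mod_cast h5
          linarith only [himg, h1, h6]
      · rcases htriv T hT ho ht with ⟨v, hv, rfl⟩ | rfl
        · exact hL _ (mem_image_of_mem _ hv)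
        · exact absurd ⟨hn ▸ ho, h.tot ▸ ht⟩ hc

end Pool.Agent.Work.MP_33747a_co.EK
end

-- merged part: Pool.Agent.Work.MP_33747a_co.EQ5
section
set_option autoImplicit false
set_option linter.unusedSectionVars false

namespace Pool.Agent.Work.MP_33747a_co.EK

open Finset Real

variable {V E : Type*} [Fintype E] [DecidableEq V]

def GoodQ (a b : E → V) (U : Finset V) (d : ℝ) (x : E → ℝ) : Prop :=
  ∀ w : E → ℝ, ∃ z, Q a b U d z ∧ ZO1 z ∧ (∀ e, x e = 0 → z e = 0) ∧ dot w x ≤ dot w z

def rs1 (a b : E → V) (S : Finset V) (x : E → ℝ) (e : E) : ℝ := if a e ∈ S ∨ b e ∈ S then x e else 0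

def rs2 (a b : E → V) (S : Finset V) (x : E → ℝ) (e : E) : ℝ := if a e ∈ S ∧ b e ∈ S then 0 else x e

section
variable {a b : E → V} {U S T : Finset V} {s : V} {d : ℝ} {x : E → ℝ}

theorem Q.piece1 (h : Q a b U d x) (hS : S ⊆ U) (ht : dot x (cut a b S) = 1) :
    Q a b S 1 (rs1 a b S x) := by
  have h1 := h.toQ1.piece1 hS ht
  have key : ∀ T ⊆ S, dot (rs1 a b S x) (cut a b T) = dot x (cut a b T) := by
    intro T hT
    refine dot_congr' fun e he => if_pos ?_
    by_contra hc
    rw [not_or] at hc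
    exact he (if_pos (iff_of_false (fun h => hc.1 (hT h)) (fun h => hc.2 (hT h))))
  refine ⟨⟨fun e => ?_, fun v hv => ?_, ?_, fun T hT ho => ?_⟩, fun e he => ?_⟩
  · unfold rs1; split_ifs
    · exact h.nonneg e
    · exact le_rfl
  · rw [key _ (singleton_subset_iff.2 hv), h1.deg v hv]
  · rw [key _ Subset.rfl, ht]
  · rw [key _ hT]; exact h1.odd T hT ho
  · unfold rs1 at he
    split_ifs at he with hc
    · exact ⟨(h.valid e he).1, hc⟩
    · exact absurd rfl he

theorem Q.piece2 (h : Q a b U d x) (hS : S ⊆ U) (hs : s ∈ S) (ho : Odd S.card)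
    (ht : dot x (cut a b S) = 1) :
    Q (ctr S s ∘ a) (ctr S s ∘ b) (insert s (U \ S)) d (rs2 a b S x) := by
  have h1 := h.toQ1.piece2 hS hs ho ht
  have key : ∀ T, dot (rs2 a b S x) (cut (ctr S s ∘ a) (ctr S s ∘ b) T) =
      dot x (cut (ctr S s ∘ a) (ctr S s ∘ b) T) := by
    intro T
    refine dot_congr' fun e he => if_neg fun hc => he ?_
    simp [cut, ctr, hc.1, hc.2]
  have hm : ∀ v ∈ U, ctr S s v ∈ insert s (U \ S) := by
    intro v hv
    unfold ctr
    split_ifs with hc
    · exact mem_insert_self _ _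
    · exact mem_insert_of_mem (mem_sdiff.2 ⟨hv, hc⟩)
  refine ⟨⟨fun e => ?_, fun v hv => ?_, ?_, fun T hT ho => ?_⟩, fun e he => ?_⟩
  · unfold rs2; split_ifs
    · exact le_rfl
    · exact h.nonneg e
  · rw [key, h1.deg v hv]
  · rw [key, h1.tot]
  · rw [key]; exact h1.odd T hT ho
  · unfold rs2 at he
    split_ifs at he with hc
    · exact absurd rfl he
    · obtain ⟨v1, v2⟩ := h.valid e he
      refine ⟨?_, v2.imp (hm _) (hm _)⟩
      simp only [Function.comp, ctr]
      by_cases c1 : a e ∈ S <;> by_cases c2 : b e ∈ S <;> simp only [c1, c2, if_true, if_false]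
      · exact absurd ⟨c1, c2⟩ hc
      · exact fun h => c2 (h ▸ hs)
      · exact fun h => c1 (h ▸ hs)
      · exact v1

theorem dot_cut_one {z c : E → ℝ} {e0 : E} (h1 : z e0 = 1) (h2 : c e0 = 1)
    (h3 : ∀ e, e ≠ e0 → z e * c e = 0) (m : E → ℝ) : dot (fun e => m e * c e) z = m e0 := by
  unfold dot
  rw [Finset.sum_eq_single e0 (fun e _ he => by rw [mul_assoc, mul_comm (c e), h3 e he, mul_zero])
    (fun h => absurd (mem_univ _) h), h1]
  simp [h2]

theorem glue (h : Q a b U d x) (hS : S ⊆ U) (hs : s ∈ S)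
    (g1 : GoodQ a b S 1 (rs1 a b S x))
    (g2 : GoodQ (ctr S s ∘ a) (ctr S s ∘ b) (insert s (U \ S)) d (rs2 a b S x)) :
    GoodQ a b U d x := by
  classical
  intro w
  have hfin : {z : E → ℝ | ∀ e, z e ∈ ({0, 1} : Set ℝ)}.Finite :=
    Set.Finite.pi' fun _ => Set.toFinite _
  have hcut : ∀ e, cut a b S e = 1 → rs1 a b S x e = x e ∧ rs2 a b S x e = x e ∧ ins a b S e = 0 := by
    intro e he
    unfold cut at he
    unfold rs1 rs2 ins
    by_cases c1 : a e ∈ S <;> by_cases c2 : b e ∈ S <;> simp [c1, c2] at he ⊢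
  have hex : ∀ c : E, ∃ zc : E → ℝ, cut a b S c = 1 → x c ≠ 0 →
      (Q a b S 1 zc ∧ ZO1 zc ∧ (∀ e, rs1 a b S x e = 0 → zc e = 0) ∧ zc c = 1) ∧
      ∀ z, Q a b S 1 z → ZO1 z → (∀ e, rs1 a b S x e = 0 → z e = 0) → z c = 1 →
        dot (fun e => w e * ins a b S e) z ≤ dot (fun e => w e * ins a b S e) zc := by
    intro c
    by_cases hc : cut a b S c = 1 ∧ x c ≠ 0
    swap
    · exact ⟨0, fun h1 h2 => absurd ⟨h1, h2⟩ hc⟩
    obtain ⟨zc, h1, h2⟩ := Set.exists_max_image
      {z | Q a b S 1 z ∧ ZO1 z ∧ (∀ e, rs1 a b S x e = 0 → z e = 0) ∧ z c = 1}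
      (fun z => dot (fun e => w e * ins a b S e) z) (hfin.subset fun z hz e => hz.2.1 e) (by
        obtain ⟨z, z1, z2, z3, z4⟩ := g1 (0 + Pi.single c 1)
        refine ⟨z, z1, z2, z3, (z2 c).resolve_left fun h0 => ?_⟩
        rw [dot_single, dot_single, h0, (hcut c hc.1).1] at z4
        simp only [dot, Pi.zero_apply, zero_mul, Finset.sum_const_zero, one_mul, zero_add, mul_zero] at z4
        exact hc.2 (le_antisymm z4 (h.nonneg c)))
    exact ⟨zc, fun _ _ => ⟨h1, fun z a1 a2 a3 a4 => h2 z ⟨a1, a2, a3, a4⟩⟩⟩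
  choose zc hzc using hex
  obtain ⟨m, hm⟩ : ∃ m : E → ℝ, m = fun c => dot (fun e => w e * ins a b S e) (zc c) := ⟨_, rfl⟩
  obtain ⟨z1, q1, o1, s1, d1⟩ := g1 ((fun e => w e * ins a b S e) - fun e => m e * cut a b S e)
  obtain ⟨z2, q2, o2, s2, d2⟩ := g2 (w + fun e => m e * cut a b S e)
  obtain ⟨c1, a1, a2, a3⟩ := dot_one o1 (cut_zo a b S) q1.tot
  have hq2 : dot z2 (cut a b S) = 1 := by
    have := q2.deg s (mem_insert_self _ _)
    rwa [cut_pre hs (singleton_subset_iff.2 (mem_insert_self s (U \ S))), pre_self hs] at this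
  obtain ⟨c2, b1, b2, b3⟩ := dot_one o2 (cut_zo a b S) hq2
  have x1 : x c1 ≠ 0 := fun h0 => by
    have := s1 c1 (by rw [(hcut c1 a2).1, h0])
    rw [a1] at this
    exact one_ne_zero this
  have x2 : x c2 ≠ 0 := fun h0 => by
    have := s2 c2 (by rw [(hcut c2 b2).2.1, h0])
    rw [b1] at this
    exact one_ne_zero this
  rw [dot_sub_left, dot_sub_left, dot_cut_one a1 a2 a3] at d1
  rw [dot_add_left, dot_add_left, dot_cut_one b1 b2 b3] at d2
  have d3 := (hzc c1 a2 x1).2 z1 q1 o1 s1 a1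
  obtain ⟨⟨q3, o3, s3, a4⟩, -⟩ := hzc c2 b2 x2
  have hz2in : ∀ e, a e ∈ S → b e ∈ S → z2 e = 0 := fun e e1 e2 => s2 e (if_pos ⟨e1, e2⟩)
  have hsupp : ∀ e, x e = 0 → z2 e + zc c2 e * ins a b S e = 0 := by
    intro e he
    rw [s2 e (by simp [rs2, he]), s3 e (by simp [rs1, he])]
    simp
  have hzo : ZO1 fun e => z2 e + zc c2 e * ins a b S e := by
    intro e
    by_cases hc : a e ∈ S ∧ b e ∈ S
    · simp only [hz2in e hc.1 hc.2, ins, if_pos hc, zero_add, mul_one]
      exact o3 e
    · simp only [ins, if_neg hc, mul_zero, add_zero]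
      exact o2 e
  have hout : ∀ T, (∀ v ∈ S, v ∈ T ↔ s ∈ T) →
      dot (fun e => z2 e + zc c2 e * ins a b S e) (cut a b T) = dot z2 (cut a b T) := by
    intro T hT
    refine dot_congr' fun e he => ?_
    have : ins a b S e = 0 := if_neg fun hc => he (if_pos ((hT _ hc.1).trans (hT _ hc.2).symm))
    simp [this]
  refine ⟨fun e => z2 e + zc c2 e * ins a b S e, Q_of_zo hzo (fun e he => h.valid e fun h0 =>
    he (hsupp e h0)) (fun v hv => ?_) ?_, hzo, hsupp, ?_⟩
  · by_cases hvS : v ∈ S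
    · rw [← q3.deg v hvS]
      refine dot_congr' fun e he => ?_
      by_cases hc : a e ∈ S ∧ b e ∈ S
      · simp [hz2in e hc.1 hc.2, ins, hc]
      · have hce : cut a b S e = 1 := by
          unfold cut at he ⊢
          simp only [mem_singleton] at he
          rw [if_neg]
          intro h1
          refine he (if_pos (iff_of_false ?_ ?_))
          · rintro rfl; exact hc ⟨hvS, h1.1 hvS⟩
          · rintro rfl; exact hc ⟨h1.2 hvS, hvS⟩
        simp only [ins, if_neg hc, mul_zero, add_zero]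
        obtain ⟨c3, e1, e2, e3⟩ := dot_one o3 (cut_zo a b S) q3.tot
        have e4 : c2 = c3 := by
          by_contra hne
          have := e3 c2 hne
          rw [a4, b2] at this
          norm_num at this
        by_cases hec : e = c2
        · rw [hec, b1, a4]
        · have f1 := b3 e hec
          have f2 := e3 e (e4 ▸ hec)
          rw [hce, mul_one] at f1 f2
          rw [f1, f2]
    · have hv2 : v ∈ insert s (U \ S) := mem_insert_of_mem (mem_sdiff.2 ⟨hv, hvS⟩)
      have := q2.deg v hv2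
      rw [cut_pre hs (singleton_subset_iff.2 hv2), pre_single hs hvS] at this
      rw [hout, this]
      intro u hu
      simp only [mem_singleton]
      exact iff_of_false (fun h => hvS (h ▸ hu)) (fun h => hvS (h ▸ hs))
  · have := q2.tot
    rw [cut_pre hs Subset.rfl, pre_all hs hS] at this
    rw [hout, this]
    exact fun u hu => iff_of_true (hS hu) (hS hs)
  · have e1 : dot w (fun e => z2 e + zc c2 e * ins a b S e) = dot w z2 + m c2 := by
      rw [hm]
      simp only [dot, mul_add, Finset.sum_add_distrib]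
      congr 1
      exact Finset.sum_congr rfl fun e _ => by ring
    have e2 : dot w x = dot w (rs2 a b S x) + dot (fun e => w e * ins a b S e) (rs1 a b S x) := by
      simp only [dot, ← Finset.sum_add_distrib]
      refine Finset.sum_congr rfl fun e _ => ?_
      unfold rs1 rs2 ins
      by_cases c1 : a e ∈ S <;> by_cases c2 : b e ∈ S <;> simp [c1, c2]
    have e3 : dot (fun e => m e * cut a b S e) (rs1 a b S x) =
        dot (fun e => m e * cut a b S e) (rs2 a b S x) := by
      refine dot_congr fun e he => ?_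
      have := hcut e ((cut_zo a b S e).resolve_left (right_ne_zero_of_mul he))
      rw [this.1, this.2.1]
    have e4 : m c1 = dot (fun e => w e * ins a b S e) (zc c1) := by rw [hm]
    linarith only [d1, d2, d3, e1, e2, e3, e4]

theorem trivial_tight {d : ℕ} (h : Q a b U d x)
    (hn : ¬ ∃ S ⊆ U, Odd S.card ∧ dot x (cut a b S) = 1 ∧ 3 ≤ S.card ∧ S.card + 1 < U.card + d)
    {y : E → ℝ} (hs : ∀ e, x e = 0 → y e = 0) (hd : ∀ v ∈ U, dot y (cut a b {v}) = 0)
    (ht : dot y (cut a b U) = 0) :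
    ∀ S ⊆ U, Odd S.card → dot x (cut a b S) = 1 → dot y (cut a b S) = 0 := by
  intro S hS ho htS
  by_cases h1 : S.card = 1
  · obtain ⟨v, rfl⟩ := card_eq_one.1 h1
    exact hd v (singleton_subset_iff.1 hS)
  have h2 : U.card + d ≤ S.card + 1 := by
    by_contra h2
    refine hn ⟨S, hS, ho, htS, ?_, by omega⟩
    rw [Nat.odd_iff] at ho
    omega
  by_cases h3 : U.card ≤ S.card
  · rw [eq_of_subset_of_card_le hS h3]; exact ht
  have h4 : (U \ S).card = 1 := by
    have := card_sdiff_add_card_eq_card hS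
    omega
  have h5 : d = 0 := by omega
  obtain ⟨v, hv⟩ := card_eq_one.1 h4
  have hv1 : ∀ u, u ∈ S ↔ u ∈ U ∧ u ≠ v := by
    intro u
    rw [← notMem_singleton, ← hv, mem_sdiff]
    constructor
    · exact fun hu => ⟨hS hu, fun h => h.2 hu⟩
    · rintro ⟨h1, h2⟩
      by_contra h3
      exact h2 ⟨h1, h3⟩
  have hvU : v ∈ U := (mem_sdiff.1 (hv ▸ mem_singleton_self v : v ∈ U \ S)).1
  rw [← hd v hvU]
  refine dot_congr fun e he => ?_
  have h6 := eq_zero_of_dot h.nonneg (cut_zo a b U).nonneg (by rw [h.tot, h5]; simp) e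
    fun h0 => he (hs e h0)
  unfold cut at h6 ⊢
  simp only [hv1, mem_singleton]
  by_cases c1 : a e ∈ U <;> by_cases c2 : b e ∈ U <;> simp [c1, c2] at h6 ⊢
  · simp only [not_iff_not]
  · have c3 : a e ≠ v := fun h => c1 (h ▸ hvU)
    have c4 : b e ≠ v := fun h => c2 (h ▸ hvU)
    simp [c3, c4]

theorem exists_dir {d : ℕ} (h : Q a b U d x) (hpar : Even (U.card + d)) (hx : ¬ ZO1 x) :
    ∃ y : E → ℝ, y ≠ 0 ∧ (∀ e, x e = 0 → y e = 0) ∧
      (∀ v ∈ U, dot y (cut a b {v}) = 0) ∧ dot y (cut a b U) = 0 := by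
  obtain ⟨U', d', hsub, hQ, hp, f4, -⟩ := split h hpar
  obtain ⟨y, y0, y1, y2, y3⟩ := cycle_Q hQ hp (frac_lt_one x) (by
    intro h0
    refine hx fun e => ?_
    have h1 := congrFun (frac_add_sure h.nonneg h.le_one) e
    rw [h0] at h1
    simp only [Pi.add_apply, Pi.zero_apply, zero_add] at h1
    rw [← h1]
    exact sure_zo x e)
  have hy : ∀ e, y e ≠ 0 → e ∈ act x := fun e he => frac_ne fun h0 => he (y1 e h0)
  refine ⟨y, y0, fun e he => ?_, fun v hv => ?_, ?_⟩
  · by_contra h0
    exact (mem_act.1 (hy e h0)).1.ne' he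
  · by_cases hv' : v ∈ U'
    · exact y2 v hv'
    · refine dot_eq_zero fun e he => if_pos (iff_of_false ?_ ?_)
      · intro h1
        rw [mem_singleton] at h1
        exact hv' (h1 ▸ (f4 e (hy e he)).1.1 (h1 ▸ hv))
      · intro h1
        rw [mem_singleton] at h1
        exact hv' (h1 ▸ (f4 e (hy e he)).2.1 (h1 ▸ hv))
  · rw [← y3]
    refine dot_congr fun e he => ?_
    simp only [cut, (f4 e (hy e he)).1, (f4 e (hy e he)).2]

end

theorem edmonds (N : ℕ) : ∀ (a b : E → V) (U : Finset V) (d : ℕ), U.card + d = N → Even N →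
    ∀ x : E → ℝ, Q a b U d x → GoodQ a b U d x := by
  classical
  induction N using Nat.strong_induction_on with
  | _ N ih =>
  intro a b U d hN hpar
  have tight : ∀ x : E → ℝ, Q a b U d x →
      (∃ S ⊆ U, Odd S.card ∧ dot x (cut a b S) = 1 ∧ 3 ≤ S.card ∧ S.card + 1 < U.card + d) →
      GoodQ a b U d x := by
    rintro x h ⟨S, hS, ho, ht, h3, hlt⟩
    obtain ⟨s, hs⟩ : S.Nonempty := card_pos.1 (by omega)
    have hc := card_U2 hs hS
    have g1 := ih (S.card + 1) (by omega) a b S 1 rfl ho.add_one _ (by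
      rw [Nat.cast_one]; exact h.piece1 hS ht)
    rw [Nat.cast_one] at g1
    refine glue h hS hs g1 (ih _ (by omega) _ _ _ d rfl ?_ _ (h.piece2 hS hs ho ht))
    rw [Nat.odd_iff] at ho
    rw [Nat.even_iff] at hpar ⊢
    omega
  suffices H : ∀ (m : ℕ) (x : E → ℝ), (univ.filter fun e => x e ≠ 0).card = m → Q a b U d x →
      GoodQ a b U d x from fun x h => H _ x rfl h
  intro m
  induction m using Nat.strong_induction_on with
  | _ m ihm =>
  intro x hm h
  by_cases hz : ZO1 x
  · exact fun w => ⟨x, h, hz, fun _ he => he, le_rfl⟩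
  intro w
  obtain ⟨y, y0, y1, y2, y3, y4⟩ : ∃ y : E → ℝ, y ≠ 0 ∧ (∀ e, x e = 0 → y e = 0) ∧
      (∀ v ∈ U, dot y (cut a b {v}) = 0) ∧ dot y (cut a b U) = 0 ∧ 0 ≤ dot w y := by
    obtain ⟨y, y0, y1, y2, y3⟩ := exists_dir h (hN ▸ hpar) hz
    rcases le_total 0 (dot w y) with h0 | h0
    · exact ⟨y, y0, y1, y2, y3, h0⟩
    · refine ⟨(-1 : ℝ) • y, by simpa using y0, fun e he => by simp [y1 e he], fun v hv => ?_, ?_, ?_⟩
      · rw [dot_smul_left, y2 v hv, mul_zero]
      · rw [dot_smul_left, y3, mul_zero]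
      · rw [dot_smul_right]; linarith only [h0]
  have hQ : ∀ t : ℝ, Q a b U d (x + t • y) ↔ (∀ e, 0 ≤ x e + t * y e) ∧
      ∀ S ⊆ U, Odd S.card → 1 ≤ dot x (cut a b S) + t * dot y (cut a b S) := by
    intro t
    constructor
    · intro hq
      refine ⟨hq.nonneg, fun S hS ho => ?_⟩
      have := hq.odd S hS ho
      rwa [dot_add_left, dot_smul_left] at this
    · rintro ⟨h1, h2⟩
      refine ⟨⟨h1, fun v hv => ?_, ?_, fun S hS ho => ?_⟩, fun e he => h.valid e fun h0 => he ?_⟩
      · rw [dot_add_left, dot_smul_left, h.deg v hv, y2 v hv]; ring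
      · rw [dot_add_left, dot_smul_left, h.tot, y3]; ring
      · rw [dot_add_left, dot_smul_left]; exact h2 S hS ho
      · simp [h0, y1 e h0]
  obtain ⟨e0, he0⟩ := Function.ne_iff.1 y0
  have he0' : 0 < |y e0| := abs_pos.2 he0
  have hcomp : IsCompact {t : ℝ | 0 ≤ t ∧ Q a b U d (x + t • y)} := by
    refine (isCompact_Icc (a := 0) (b := 1 / |y e0|)).of_isClosed_subset ?_ ?_
    · simp only [hQ, Set.ofPred_and, Set.ofPred_forall]
      refine (isClosed_le continuous_const continuous_id).inter (IsClosed.inter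
        (isClosed_iInter fun e => isClosed_le continuous_const (by fun_prop))
        (isClosed_iInter fun S => isClosed_iInter fun _ => isClosed_iInter fun _ =>
          isClosed_le continuous_const (by fun_prop)))
    · rintro t ⟨h0, hq⟩
      refine ⟨h0, ?_⟩
      rw [le_div_iff₀ he0', ← abs_of_nonneg h0, ← abs_mul, abs_le]
      have a1 := hq.nonneg e0
      have a2 := hq.le_one e0
      have a3 := h.nonneg e0
      have a4 := h.le_one e0
      simp only [Pi.add_apply, Pi.smul_apply, smul_eq_mul] at a1 a2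
      constructor <;> linarith only [a1, a4, a2, a3]
  obtain ⟨t, ⟨t0, tq⟩, tmax⟩ := hcomp.exists_isGreatest ⟨0, le_rfl, by simpa using h⟩
  have hsupp : ∀ e, x e = 0 → (x + t • y) e = 0 := fun e he => by simp [he, y1 e he]
  have fin : GoodQ a b U d (x + t • y) → ∃ z, Q a b U d z ∧ ZO1 z ∧ (∀ e, x e = 0 → z e = 0) ∧
      dot w x ≤ dot w z := by
    intro g
    obtain ⟨z, z1, z2, z3, z4⟩ := g w
    refine ⟨z, z1, z2, fun e he => z3 e (hsupp e he), ?_⟩
    rw [dot_add_right, dot_smul_right] at z4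
    linarith only [z4, t0, y4, mul_nonneg t0 y4]
  by_cases hex : ∃ S ⊆ U, Odd S.card ∧ dot (x + t • y) (cut a b S) = 1 ∧ 3 ≤ S.card ∧
      S.card + 1 < U.card + d
  · exact fin (tight _ tq hex)
  by_cases hs : ∀ e, (x + t • y) e = 0 → x e = 0
  · exfalso
    have hs' : ∀ e, (x + t • y) e = 0 → y e = 0 := fun e he => y1 e (hs e he)
    obtain ⟨δ, hδ, hp⟩ := perturb tq hs' y2 y3 (trivial_tight tq hex hs' y2 y3)
    have := hp δ (by rw [abs_of_pos hδ])
    rw [add_assoc, ← add_smul] at this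
    have := tmax ⟨by linarith only [t0, hδ], this⟩
    linarith only [hδ, this]
  · refine fin (ihm _ ?_ _ rfl tq)
    push Not at hs
    obtain ⟨e, e1, e2⟩ := hs
    rw [← hm]
    refine card_lt_card ⟨fun e he => ?_, fun hc => ?_⟩
    · exact mem_filter.2 ⟨mem_univ _, fun h0 => (mem_filter.1 he).2 (hsupp e h0)⟩
    · exact (mem_filter.1 (hc (mem_filter.2 ⟨mem_univ e, e2⟩))).2 e1

end Pool.Agent.Work.MP_33747a_co.EK
end

-- merged part: Pool.Agent.Work.MP_33747a_co.EM
section
set_option autoImplicit false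
set_option linter.unusedSectionVars false

namespace Pool.Agent.Work.MP_33747a_co.EK

open Finset Real

variable {V E : Type*} [Fintype E] [DecidableEq V] [DecidableEq E]

def chi (M : Finset E) (e : E) : ℝ := if e ∈ M then 1 else 0

open Classical in
noncomputable def MS (a b : E → V) (U : Finset V) (d : ℝ) : Finset (Finset E) :=
  univ.filter fun M => Q a b U d (chi M)

theorem mem_MS {a b : E → V} {U : Finset V} {d : ℝ} {M : Finset E} :
    M ∈ MS a b U d ↔ Q a b U d (chi M) := by
  simp [MS]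

def phi (a b : E → V) (U : Finset V) (d : ℝ) (i : MS a b U d) : E → ℝ := chi i.1

noncomputable def FF (s : ℝ) : ℝ := min (2 * s) 1 + log (max (2 * s) 1)

theorem continuous_FF : Continuous FF :=
  ((continuous_const.mul continuous_id).min continuous_const).add
    (((continuous_const.mul continuous_id).max continuous_const).log
      fun _ => (lt_of_lt_of_le one_pos (le_max_right _ _)).ne')

theorem FF_tangent {s t : ℝ} (hs : 0 ≤ s) : FF s ≤ FF t + 2 / max (2 * t) 1 * (s - t) := by
  unfold FF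
  rcases le_total (2 * t) 1 with h1 | h1
  · rw [min_eq_left h1, max_eq_right h1, Real.log_one]
    rcases le_total (2 * s) 1 with h2 | h2
    · rw [min_eq_left h2, max_eq_right h2, Real.log_one]; linarith only []
    · rw [min_eq_right h2, max_eq_left h2]
      have := Real.log_le_sub_one_of_pos (show 0 < 2 * s by linarith)
      linarith
  · rw [min_eq_right h1, max_eq_left h1]
    have ht : 0 < 2 * t := by linarith
    have e1 : 2 / (2 * t) * (s - t) = 2 * s / (2 * t) - 1 := by
      have : t ≠ 0 := by linarith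
      field_simp
    rw [e1]
    rcases le_total (2 * s) 1 with h2 | h2
    · rw [min_eq_left h2, max_eq_right h2, Real.log_one]
      have a1 := Real.one_sub_inv_le_log_of_pos ht
      have a2 : (2 * t)⁻¹ ≤ 1 := inv_le_one_of_one_le₀ h1
      rw [div_eq_mul_inv]
      linarith only [a1, h2, a2, mul_nonneg_of_nonpos_of_nonpos (Mathlib.Tactic.Linarith.sub_nonpos_of_le h2) (Mathlib.Tactic.Linarith.sub_nonpos_of_le a2)]
    · rw [min_eq_right h2, max_eq_left h2]
      have := Real.log_le_sub_one_of_pos (div_pos (show 0 < 2 * s by linarith) ht)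
      rw [Real.log_div (by linarith only [h2]) ht.ne'] at this
      linarith only [this]

theorem FF_zero : FF 0 = 0 := by simp [FF]

theorem FF_le {s D : ℝ} (h : s ≤ D) : FF s ≤ 1 + log (max (2 * D) 1) :=
  add_le_add (min_le_right _ _) (Real.log_le_log (lt_of_lt_of_le one_pos (le_max_right _ _))
    (max_le_max (by linarith) le_rfl))

noncomputable def nm (x : E → ℝ) (e : E) : ℝ := negMulLog (1 - x e)

/-- the free energy functional -/
noncomputable def Psf (a b : E → V) (U : Finset V) (x : E → ℝ) : ℝ :=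
  ∑ e, negMulLog (x e) - 2 * dot (nm x) (ins a b U) - FF (dot (nm x) (cut a b U))

variable {a b : E → V} {U : Finset V}

theorem phi_zo (a b : E → V) (U : Finset V) (d : ℝ) : ZO (phi a b U d) := by
  intro i e; unfold phi chi; split_ifs <;> simp

theorem good_of_Q {d : ℕ} (hpar : Even (U.card + d)) {x : E → ℝ} (h : Q a b U d x) :
    Good (phi a b U d) x := by
  classical
  intro θ
  obtain ⟨z, z1, z2, -, z4⟩ := edmonds _ a b U d rfl hpar x h θ
  have : chi (univ.filter fun e => z e = 1) = z := by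
    funext e
    rcases z2 e with h | h <;> simp [chi, h]
  exact ⟨⟨univ.filter fun e => z e = 1, mem_MS.2 (this.symm ▸ z1)⟩, by
    unfold phi; rw [this]; exact z4⟩

theorem dot_marg {ι : Type*} [Fintype ι] (φ : ι → E → ℝ) (P : ι → ℝ) (c : E → ℝ) :
    dot (marg φ P) c = ∑ i, P i * dot (φ i) c := by
  simp only [dot, marg, Finset.mul_sum, Finset.sum_mul]
  rw [Finset.sum_comm]
  exact Finset.sum_congr rfl fun e _ => Finset.sum_congr rfl fun i _ => by ring

theorem Q_marg {d : ℝ} {P : MS a b U d → ℝ} (hP : Smp P) : Q a b U d (marg (phi a b U d) P) := by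
  have hq : ∀ i : MS a b U d, Q a b U d (phi a b U d i) := fun i => mem_MS.1 i.2
  refine ⟨⟨marg_nonneg (phi_zo a b U d) hP, fun v hv => ?_, ?_, fun S hS ho => ?_⟩, fun e he => ?_⟩
  · rw [dot_marg]
    simp only [fun i => (hq i).deg v hv, mul_one, hP.2]
  · rw [dot_marg]
    simp only [fun i => (hq i).tot, ← Finset.sum_mul, hP.2, one_mul]
  · rw [dot_marg, ← hP.2]
    exact Finset.sum_le_sum fun i _ => le_mul_of_one_le_right (hP.1 i) ((hq i).odd S hS ho)
  · obtain ⟨i, _, hi⟩ := Finset.exists_ne_zero_of_sum_ne_zero he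
    exact (hq i).valid e (right_ne_zero_of_mul hi)

theorem nm_nonneg {x : E → ℝ} (h0 : ∀ e, 0 ≤ x e) (h1 : ∀ e, x e ≤ 1) (e : E) : 0 ≤ nm x e :=
  Real.negMulLog_nonneg (sub_nonneg.2 (h1 e)) (by linarith [h0 e])

theorem nm_le {x : E → ℝ} (h1 : ∀ e, x e ≤ 1) (e : E) : nm x e ≤ x e := by
  have := Real.negMulLog_le_one_sub_self (sub_nonneg.2 (h1 e))
  unfold nm
  linarith

theorem nm_inactive {x : E → ℝ} (h0 : ∀ e, 0 ≤ x e) (h1 : ∀ e, x e ≤ 1) {e : E} (he : e ∉ act x) :
    nm x e = 0 ∧ negMulLog (x e) = 0 := by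
  rw [mem_act, not_and_or, not_lt, not_lt] at he
  unfold nm
  rcases he with he | he
  · rw [le_antisymm he (h0 e)]; simp
  · rw [le_antisymm (h1 e) he]; simp

/-- the dimension of the face exceeds the trace unless the point is integral -/
theorem dim_gt {d : ℕ} (hpar : Even (U.card + d)) {x : E → ℝ} (h : Q a b U d x)
    (hne : (act x).Nonempty) : ∃ T : Submodule ℝ (E → ℝ),
      (∀ y ∈ T, ∃ δ : ℝ, 0 < δ ∧ Q a b U d (x + δ • y) ∧ Q a b U d (x - δ • y)) ∧
      ∑ e ∈ act x, (1 - x e - (2 * ins a b U e +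
        2 / max (2 * dot (nm x) (cut a b U)) 1 * cut a b U e) * x e) < Module.finrank ℝ T := by
  classical
  obtain ⟨U', d', hsub, hQ, -, f4, f5⟩ := split h hpar
  have hU' : U'.Nonempty := by
    obtain ⟨e, he⟩ := hne
    rcases (hQ.valid e (by rw [frac_of_act he]; exact (mem_act.1 he).1.ne')).2 with h1 | h1
    · exact ⟨_, h1⟩
    · exact ⟨_, h1⟩
  have hcU : ∀ e ∈ act x, cut a b U e = cut a b U' e := fun e he => by
    simp only [cut, (f4 e he).1, (f4 e he).2]
  have hiU : ∀ e ∈ act x, ins a b U e = ins a b U' e := fun e he => by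
    simp only [ins, (f4 e he).1, (f4 e he).2]
  obtain ⟨ρ, hρ⟩ : ∃ ρ, ρ = 2 / max (2 * dot (nm x) (cut a b U)) 1 := ⟨_, rfl⟩
  rw [← hρ]
  have hsum : ∑ e ∈ act x, (1 - x e - (2 * ins a b U e + ρ * cut a b U e) * x e) =
      (act x).card - 3 * dot (frac x) (ins a b U') - (1 + ρ) * d' := by
    have e1 : ∀ c : E → ℝ, dot (frac x) c = ∑ e ∈ act x, x e * c e := by
      intro c
      unfold dot frac
      simp only [ite_mul, zero_mul, Finset.sum_ite_mem, univ_inter]
    rw [← hQ.tot, e1, e1, Finset.mul_sum, Finset.mul_sum, card_eq_sum_ones, Nat.cast_sum,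
      ← Finset.sum_sub_distrib, ← Finset.sum_sub_distrib]
    refine Finset.sum_congr rfl fun e he => ?_
    have h1 := (hQ.valid e (by rw [frac_of_act he]; exact (mem_act.1 he).1.ne')).2
    have h2 : ins a b U' e + cut a b U' e = 1 := by
      unfold ins cut
      by_cases c1 : a e ∈ U' <;> by_cases c2 : b e ∈ U' <;> simp [c1, c2] at h1 ⊢
    rw [hcU e he, hiU e he, Nat.cast_one]
    linear_combination (x e) * h2
  have hcard := card_eq_cut (fun e he => (hQ.valid e he).1) hQ.deg
  rw [hQ.tot] at hcard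
  have main : ∀ L : Finset (E → ℝ), (∀ v ∈ U', cut a b {v} ∈ L) →
      (∀ y ∈ TT (act x) L, dot y (cut a b U') = 0) →
      (∀ y : E → ℝ, (∀ e, frac x e = 0 → y e = 0) → (∀ c ∈ L, dot y c = 0) → ∀ T ⊆ U', Odd T.card →
        dot (frac x) (cut a b T) = 1 → dot y (cut a b T) = 0) →
      ∀ y ∈ TT (act x) L, ∃ δ : ℝ, 0 < δ ∧ Q a b U d (x + δ • y) ∧ Q a b U d (x - δ • y) := by
    intro L l1 l2 l3 y hy
    have hy1 : ∀ e, y e ≠ 0 → e ∈ act x := fun e he => by
      by_contra hc
      exact he (hy.1 e hc)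
    have hy2 : ∀ T ⊆ U, dot y (cut a b T) = dot y (cut a b (T ∩ U')) := by
      intro T hT
      refine dot_congr fun e he => ?_
      obtain ⟨c1, c2⟩ := f4 e (hy1 e he)
      have c3 : a e ∈ T ∩ U' ↔ a e ∈ T := by
        rw [mem_inter]; exact ⟨fun h => h.1, fun h => ⟨h, c1.1 (hT h)⟩⟩
      have c4 : b e ∈ T ∩ U' ↔ b e ∈ T := by
        rw [mem_inter]; exact ⟨fun h => h.1, fun h => ⟨h, c2.1 (hT h)⟩⟩
      simp only [cut, c3, c4]
    obtain ⟨δ, hδ, hp⟩ := perturb h (y := y)
      (fun e he => hy.1 e fun hc => (mem_act.1 hc).1.ne' he) (fun v hv => by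
        rw [hy2 _ (singleton_subset_iff.2 hv)]
        by_cases hv' : v ∈ U'
        · rw [singleton_inter_of_mem hv']; exact hy.2 _ (l1 v hv')
        · rw [singleton_inter_of_notMem hv']
          exact dot_eq_zero fun e _ => by simp [cut])
      (by rw [hy2 _ Subset.rfl, inter_eq_right.2 hsub]; exact l2 y hy)
      (fun T hT ho ht => by
        rcases f5 T hT ho ht with ⟨g1, g2⟩ | g
        · rw [hy2 T hT]
          refine l3 y (fun e he => hy.1 e fun hc => ?_) hy.2 _ inter_subset_right g1 g2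
          rw [frac_of_act hc] at he
          exact (mem_act.1 hc).1.ne' he
        · exact dot_eq_zero fun e he => g e (hy1 e he))
    refine ⟨δ, hδ, hp δ (by rw [abs_of_pos hδ]), ?_⟩
    have := hp (-δ) (by rw [abs_neg, abs_of_pos hδ])
    rwa [neg_smul, ← sub_eq_add_neg] at this
  rw [hsum]
  rcases Nat.eq_zero_or_pos d' with hd | hd
  · subst hd
    obtain ⟨L, c1, v1, -, k1⟩ := laminar _ a b U' _ (frac x) 2 rfl hQ.toQ1
      (Or.inr ⟨le_rfl, by simp, hU'⟩)
    refine ⟨TT (act x) L, main L v1 (fun y hy => dot_eq_zero fun e he => ?_) k1, ?_⟩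
    · have he' : e ∈ act x := by
        by_contra hc
        exact he (hy.1 e hc)
      exact eq_zero_of_dot hQ.nonneg (cut_zo a b U').nonneg (by rw [hQ.tot]; simp) e
        (by rw [frac_of_act he']; exact (mem_act.1 he').1.ne')
    · have h1 : ((act x).card : ℝ) ≤ Module.finrank ℝ (TT (act x) L) + L.card := by
        exact_mod_cast finrank_TT (act x) L
      simp only [Nat.cast_zero] at hcard ⊢
      linarith only [c1, h1, hcard]
  · obtain ⟨L, c1, v1, -, k1⟩ := laminar _ a b U' _ (frac x) d' rfl hQ.toQ1 (Or.inl le_rfl)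
    refine ⟨TT (act x) (insert (cut a b U') L), main _ (fun v hv => mem_insert_of_mem (v1 v hv))
      (fun y hy => hy.2 _ (mem_insert_self _ _))
      (fun y h1 h2 => k1 y h1 fun c hc => h2 c (mem_insert_of_mem hc)), ?_⟩
    have h1 : ((act x).card : ℝ) ≤ Module.finrank ℝ (TT (act x) (insert (cut a b U') L)) +
        (insert (cut a b U') L).card := by exact_mod_cast finrank_TT (act x) _
    have h2 : ((insert (cut a b U') L).card : ℝ) ≤ L.card + 1 := by exact_mod_cast card_insert_le _ _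
    have hd1 : (1 : ℝ) ≤ d' := by exact_mod_cast hd
    have h3 : dot (nm x) (cut a b U) < d' := by
      rw [← hQ.tot]
      obtain ⟨e0, _, he0⟩ := Finset.exists_ne_zero_of_sum_ne_zero (s := univ)
        (f := fun e => frac x e * cut a b U' e) (by
          change dot (frac x) (cut a b U') ≠ 0
          rw [hQ.tot]; linarith only [hd1])
      have a1 := frac_ne (left_ne_zero_of_mul he0)
      have a2 := (cut_zo a b U' e0).resolve_left (right_ne_zero_of_mul he0)
      refine Finset.sum_lt_sum (fun e _ => ?_) ⟨e0, mem_univ _, ?_⟩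
      · by_cases he : e ∈ act x
        · rw [hcU e he, frac_of_act he]
          exact mul_le_mul_of_nonneg_right (nm_le h.le_one e) ((cut_zo a b U').nonneg e)
        · rw [(nm_inactive h.nonneg h.le_one he).1, zero_mul]
          exact mul_nonneg (frac_nonneg x e) ((cut_zo a b U').nonneg e)
      · rw [hcU e0 a1, frac_of_act a1, a2, mul_one, mul_one]
        have := Real.negMulLog_lt_one_sub_self (sub_nonneg.2 (h.le_one e0))
          (by linarith only [a1, (mem_act.1 a1).1])
        unfold nm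
        linarith only [this]
    have h4 : 1 < ρ * d' := by
      rw [hρ, div_mul_eq_mul_div, lt_div_iff₀ (lt_of_lt_of_le one_pos (le_max_right _ _)), one_mul]
      exact max_lt (by linarith only [h3]) (by linarith only [hd1])
    linarith only [hcard, c1, h1, h2, h4]

theorem ent_ge {d : ℕ} (hpar : Even (U.card + d)) [Nonempty (MS a b U d)] {P : MS a b U d → ℝ}
    (hP : P ∈ K (phi a b U d)) : Psf a b U (marg (phi a b U d) P) ≤ ent P := by
  have hcn : ∀ c : E → ℝ, Continuous fun x : E → ℝ => dot (nm x) c := fun c =>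
    continuous_finsetSum _ fun e _ => (Real.continuous_negMulLog.comp
      (continuous_const.sub (continuous_apply e))).mul continuous_const
  have hc1 : Continuous (Psf a b U) :=
    ((continuous_finsetSum _ fun e _ => Real.continuous_negMulLog.comp (continuous_apply e)).sub
      (continuous_const.mul (hcn _))).sub (continuous_FF.comp (hcn _))
  have hc2 : Continuous fun P : MS a b U d → ℝ => ent P - Psf a b U (marg (phi a b U d) P) :=
    (continuous_finsetSum _ fun i _ => Real.continuous_negMulLog.comp (continuous_apply i)).sub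
      (hc1.comp (continuous_marg _))
  obtain ⟨P0, hP0, hmin⟩ := (isCompact_K (phi a b U d)).exists_isMinOn ⟨P, hP⟩ hc2.continuousOn
  have hQ := Q_marg hP0.1
  have hact : ¬ (act (marg (phi a b U d) P0)).Nonempty := by
    intro hne
    obtain ⟨T, hT, hlt⟩ := dim_gt hpar hQ hne
    refine absurd (trace_bound (phi_zo a b U d) hP0 _ (fun P' hP' => ?_) T fun y hy => ?_) (not_le.2 hlt)
    · have h1 : ent P0 - Psf a b U (marg (phi a b U d) P0) ≤
        ent P' - Psf a b U (marg (phi a b U d) P') := hmin hP'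
      have hQ' := Q_marg hP'.1
      have h2 := FF_tangent (t := dot (nm (marg (phi a b U d) P0)) (cut a b U))
        (dot_nonneg (nm_nonneg hQ'.nonneg hQ'.le_one) (cut_zo a b U).nonneg)
      have h3 : ∀ (ρ : ℝ) (x : E → ℝ), ∑ e, psi (2 * ins a b U e + ρ * cut a b U e) (x e) =
          ∑ e, negMulLog (x e) - 2 * dot (nm x) (ins a b U) - ρ * dot (nm x) (cut a b U) := by
        intro ρ x
        simp only [dot, Finset.mul_sum, ← Finset.sum_sub_distrib]
        refine Finset.sum_congr rfl fun e _ => ?_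
        unfold psi nm
        ring
      unfold G
      rw [h3, h3]
      unfold Psf at h1
      linarith only [h1, h2]
    · obtain ⟨δ, hδ, q1, q2⟩ := hT y hy
      exact ⟨δ, hδ, good_of_Q hpar q1, good_of_Q hpar q2⟩
  rw [Finset.not_nonempty_iff_eq_empty] at hact
  have hin := fun e => nm_inactive hQ.nonneg hQ.le_one (e := e) (by rw [hact]; exact notMem_empty e)
  have h0 : Psf a b U (marg (phi a b U d) P0) = 0 := by
    unfold Psf dot
    simp only [(hin _).1, (hin _).2, zero_mul, Finset.sum_const_zero, FF_zero]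
    ring
  have h1 : 0 ≤ ent P0 := Finset.sum_nonneg fun i _ => Real.negMulLog_nonneg (hP0.1.1 i) (hP0.1.le_one i)
  have h2 : ent P0 - Psf a b U (marg (phi a b U d) P0) ≤
    ent P - Psf a b U (marg (phi a b U d) P) := hmin hP
  linarith

theorem bethe {d : ℕ} (hpar : Even (U.card + d)) {x : E → ℝ} (h : Q a b U d x) {w : E → ℝ}
    (hw : ∀ e, 0 ≤ w e) (hw' : ∀ e, x e ≠ 0 → 0 < w e) :
    exp (Psf a b U x + dot (fun e => log (w e)) x) ≤ ∑ M ∈ MS a b U d, ∏ e ∈ M, w e := by
  have hg := good_of_Q hpar h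
  haveI : Nonempty (MS a b U d) := ⟨(hg 0).choose⟩
  obtain ⟨P, hP, rfl⟩ := exists_marg hg
  have h1 := gibbs (g := fun i : MS a b U d => ∏ e ∈ i.1, w e)
    (s := fun i => dot (phi a b U d i) fun e => log (w e)) hP.1
    (fun i => Finset.prod_nonneg fun e _ => hw e) (fun i hi => by
      have e1 : dot (phi a b U d i) (fun e => log (w e)) = ∑ e ∈ i.1, log (w e) := by
        simp [dot, phi, chi]
      rw [e1, exp_sum]
      refine Finset.prod_congr rfl fun e he => (exp_log (hw' e (ne_of_gt ?_))).symm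
      have a1 : P i * phi a b U d i e ≤ marg (phi a b U d) P e :=
        Finset.single_le_sum (f := fun j => P j * phi a b U d j e)
          (fun j _ => mul_nonneg (hP.1.1 j) ((phi_zo a b U d).nonneg j e)) (mem_univ i)
      have a2 : phi a b U d i e = 1 := if_pos he
      rw [a2, mul_one] at a1
      linarith)
  rw [← dot_marg, Finset.sum_coe_sort (MS a b U d) (fun M => ∏ e ∈ M, w e)] at h1
  refine le_trans (exp_le_exp.2 ?_) h1
  rw [dot_comm]
  linarith [ent_ge hpar hP]

end Pool.Agent.Work.MP_33747a_co.EK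
end

-- merged part: Pool.Agent.Work.MP_33747a_co.EF1
section
set_option autoImplicit false
set_option linter.unusedSectionVars false

namespace Pool.Agent.Work.MP_33747a_co.EK

open Finset Real

abbrev EE (N : ℕ) := {p : Fin N × Fin N // p.1 < p.2} ⊕ Fin N

def ea (N : ℕ) : EE N → Option (Fin N) := Sum.elim (fun p => some p.1.1) some

def eb (N : ℕ) : EE N → Option (Fin N) := Sum.elim (fun p => some p.1.2) fun _ => none

def UU (N : ℕ) : Finset (Option (Fin N)) := univ.image some

variable {N : ℕ}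

theorem mem_UU {v : Option (Fin N)} : v ∈ UU N ↔ ∃ u, some u = v := by simp [UU]

theorem some_mem_UU (u : Fin N) : some u ∈ UU N := mem_UU.2 ⟨u, rfl⟩

theorem none_notMem_UU : none ∉ UU N := by simp [UU]

theorem card_UU : (UU N).card = N := by
  rw [UU, card_image_of_injective _ (Option.some_injective _)]; simp

theorem valid_EE (e : EE N) : ea N e ≠ eb N e ∧ (ea N e ∈ UU N ∨ eb N e ∈ UU N) := by
  rcases e with p | v
  · exact ⟨fun h => p.2.ne (Option.some_injective _ h), Or.inl (some_mem_UU _)⟩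
  · exact ⟨by simp [ea, eb], Or.inl (some_mem_UU _)⟩

theorem cutU_inl (p : {p : Fin N × Fin N // p.1 < p.2}) : cut (ea N) (eb N) (UU N) (Sum.inl p) = 0 := by
  simp [cut, ea, eb, some_mem_UU]

theorem cutU_inr (v : Fin N) : cut (ea N) (eb N) (UU N) (Sum.inr v) = 1 := by
  simp [cut, ea, eb, some_mem_UU, none_notMem_UU]

theorem insU_inl (p : {p : Fin N × Fin N // p.1 < p.2}) : ins (ea N) (eb N) (UU N) (Sum.inl p) = 1 := by
  simp [ins, ea, eb, some_mem_UU]

theorem insU_inr (v : Fin N) : ins (ea N) (eb N) (UU N) (Sum.inr v) = 0 := by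
  simp [ins, ea, eb, none_notMem_UU]

theorem cut_inr (u v : Fin N) : cut (ea N) (eb N) {some u} (Sum.inr v) = if v = u then 1 else 0 := by
  by_cases h : v = u <;> simp [cut, ea, eb, h]

theorem cut_inl (u : Fin N) (p : {p : Fin N × Fin N // p.1 < p.2}) :
    cut (ea N) (eb N) {some u} (Sum.inl p) = if p.1.1 = u ∨ p.1.2 = u then 1 else 0 := by
  have := p.2.ne
  by_cases h1 : p.1.1 = u <;> by_cases h2 : p.1.2 = u
  · exact absurd (h1.trans h2.symm) this
  · simp [cut, ea, eb, h1, h2]
  · simp [cut, ea, eb, h1, h2]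
  · simp [cut, ea, eb, h1, h2]

def xB (B : Matrix (Fin N) (Fin N) ℝ) : EE N → ℝ := Sum.elim (fun p => B p.1.1 p.1.2) 0

def xm (N : ℕ) : EE N → ℝ := Sum.elim 0 1

theorem Q.combo {V E : Type*} [Fintype E] [DecidableEq V] {a b : E → V} {U : Finset V}
    {d1 d2 s t : ℝ} {x1 x2 : E → ℝ} (h1 : Q a b U d1 x1) (h2 : Q a b U d2 x2) (hs : 0 ≤ s)
    (ht : 0 ≤ t) (hst : s + t = 1) : Q a b U (s * d1 + t * d2) (s • x1 + t • x2) := by
  refine ⟨⟨fun e => add_nonneg (mul_nonneg hs (h1.nonneg e)) (mul_nonneg ht (h2.nonneg e)),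
    fun v hv => ?_, ?_, fun S hS ho => ?_⟩, fun e he => ?_⟩
  · rw [dot_add_left, dot_smul_left, dot_smul_left, h1.deg v hv, h2.deg v hv]; linarith
  · rw [dot_add_left, dot_smul_left, dot_smul_left, h1.tot, h2.tot]
  · rw [dot_add_left, dot_smul_left, dot_smul_left]
    linarith only [hst, h1, hS, ho, hs, h2, ht, mul_le_mul_of_nonneg_left (h1.odd S hS ho) hs,
      mul_le_mul_of_nonneg_left (h2.odd S hS ho) ht]
  · by_cases h : x1 e = 0
    · exact h2.valid e fun h' => he (by simp [h, h'])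
    · exact h1.valid e h

theorem Q_xm : Q (ea N) (eb N) (UU N) N (xm N) := by
  refine Q_of_zo (fun e => by rcases e with p | v <;> simp [xm]) (fun e _ => valid_EE e)
    (fun v hv => ?_) ?_
  · obtain ⟨u, rfl⟩ := mem_UU.1 hv
    simp [dot, xm, cut_inr]
  · simp [dot, xm, cutU_inr]

theorem Q_xB {n : ℕ} {B : Matrix (Fin (2 * n)) (Fin (2 * n)) ℝ} (hB : B ∈ Psi n) :
    Q (ea _) (eb _) (UU _) 0 (xB B) := by
  refine convexHull_min (t := {B | Q (ea _) (eb _) (UU _) 0 (xB B)}) ?_ ?_ hB
  · rintro A ⟨f, hf1, hf2, rfl⟩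
    refine Q_of_zo (fun e => ?_) (fun e _ => valid_EE e) (fun v hv => ?_) ?_
    · rcases e with p | v
      · simp only [xB, Sum.elim_inl, Matrix.of_apply]
        split_ifs <;> simp
      · simp [xB]
    · obtain ⟨u, rfl⟩ := mem_UU.1 hv
      simp only [dot, Fintype.sum_sum_type, xB, Sum.elim_inl, Sum.elim_inr, Pi.zero_apply, zero_mul,
        Finset.sum_const_zero, add_zero, Matrix.of_apply, cut_inl]
      rcases lt_or_gt_of_ne (hf2 u) with h | h
      · rw [Finset.sum_eq_single ⟨(f u, u), h⟩]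
        · simp [hf1]
        · rintro ⟨⟨i, j⟩, hij⟩ _ hne
          by_cases c1 : f i = j
          · rw [if_neg (c := i = u ∨ j = u), mul_zero]
            rintro (rfl | rfl)
            · exact absurd (c1 ▸ h) (not_lt.2 (le_of_lt hij))
            · have : i = f j := by rw [← c1, hf1]
              exact hne (Subtype.ext (Prod.ext this rfl))
          · simp [c1]
        · simp
      · rw [Finset.sum_eq_single ⟨(u, f u), h⟩]
        · simp
        · rintro ⟨⟨i, j⟩, hij⟩ _ hne
          by_cases c1 : f i = j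
          · rw [if_neg (c := i = u ∨ j = u), mul_zero]
            rintro (rfl | rfl)
            · exact hne (Subtype.ext (Prod.ext rfl c1.symm))
            · have : f j = i := by rw [← c1, hf1]
              exact absurd (this ▸ h) (not_lt.2 (le_of_lt hij))
          · simp [c1]
        · simp
    · simp [dot, xB, cutU_inl]
  · intro B1 h1 B2 h2 s t hs ht hst
    have := Q.combo h1 h2 hs ht hst
    rw [mul_zero, mul_zero, add_zero] at this
    have e : xB (s • B1 + t • B2) = s • xB B1 + t • xB B2 := by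
      funext e
      rcases e with p | v <;> simp [xB]
    change Q _ _ _ 0 (xB (s • B1 + t • B2))
    rw [e]
    exact this

theorem MS_unique {V E : Type*} [Fintype E] [DecidableEq V] [DecidableEq E] {a b : E → V}
    {U : Finset V} {d : ℝ} {M : Finset E} (hM : M ∈ MS a b U d) {v : V} (hv : v ∈ U) {e f : E}
    (he : e ∈ M) (hf : f ∈ M) (h1 : cut a b {v} e = 1) (h2 : cut a b {v} f = 1) : e = f := by
  have hz : ZO1 (chi M) := fun e => by unfold chi; split_ifs <;> simp
  obtain ⟨c, -, -, h3⟩ := dot_one hz (cut_zo a b {v}) ((mem_MS.1 hM).deg v hv)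
  have a1 : e = c := by
    by_contra h
    have := h3 e h
    simp [chi, he, h1] at this
  have a2 : f = c := by
    by_contra h
    have := h3 f h
    simp [chi, hf, h2] at this
  rw [a1, a2]

theorem Z_le_haf {k d : ℕ} (hk : N = 2 * k + d) (B : Matrix (Fin N) (Fin N) ℝ)
    (hB : ∀ i j, i < j → 0 ≤ B i j) :
    ∑ M ∈ MS (ea N) (eb N) (UU N) d, ∏ e ∈ M, (xB B + xm N) e ≤ haf k B := by
  classical
  let h : Finset (EE N) → Finset (Fin N × Fin N) := fun M => M.toLeft.map (Function.Embedding.subtype _)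
  have hinj : Set.InjOn h (MS (ea N) (eb N) (UU N) d) := by
    intro M hM M' hM' hh
    have h1 : M.toLeft = M'.toLeft := Finset.map_injective _ hh
    have h2 : ∀ p, Sum.inl p ∈ M ↔ Sum.inl p ∈ M' := fun p => by
      rw [← mem_toLeft, h1, mem_toLeft]
    ext e
    rcases e with p | v
    · exact h2 p
    · have a1 := (mem_MS.1 (mem_coe.1 hM)).deg _ (some_mem_UU v)
      have a2 := (mem_MS.1 (mem_coe.1 hM')).deg _ (some_mem_UU v)
      simp only [dot, Fintype.sum_sum_type, cut_inr, mul_ite, mul_one, mul_zero, Finset.sum_ite_eq',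
        mem_univ, if_true, chi, h2] at a1 a2
      by_cases c1 : Sum.inr v ∈ M <;> by_cases c2 : Sum.inr v ∈ M' <;> simp [c1, c2] at a1 a2 ⊢ <;>
        linarith only [a1, a2]
  have hprod : ∀ M, ∏ e ∈ M, (xB B + xm N) e = ∏ e ∈ h M, B e.1 e.2 := by
    intro M
    rw [Finset.prod_sum_eq_prod_toLeft_mul_prod_toRight]
    simp [h, xB, xm]
  simp only [hprod]
  rw [← Finset.sum_image (f := fun M : Finset (Fin N × Fin N) => ∏ e ∈ M, B e.1 e.2) hinj]
  unfold haf
  refine Finset.sum_le_sum_of_subset_of_nonneg (fun M' hM' => ?_) fun M hM _ =>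
    Finset.prod_nonneg fun e he => hB _ _ ((mem_filter.1 hM).2.1.1 e he)
  obtain ⟨M, hM, rfl⟩ := mem_image.1 hM'
  have hmem : ∀ e ∈ h M, ∃ he : e.1 < e.2, Sum.inl ⟨e, he⟩ ∈ M := by
    intro e he
    obtain ⟨p, hp, rfl⟩ := mem_map.1 he
    exact ⟨p.2, mem_toLeft.1 hp⟩
  refine mem_filter.2 ⟨mem_univ _, ⟨fun e he => (hmem e he).1, fun e he f hf hne => ?_⟩, ?_⟩
  · obtain ⟨e1, e2⟩ := hmem e he
    obtain ⟨f1, f2⟩ := hmem f hf
    have key : ∀ u : Fin N, (e.1 = u ∨ e.2 = u) → (f.1 = u ∨ f.2 = u) → False := by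
      intro u u1 u2
      have := MS_unique hM (some_mem_UU u) e2 f2 (by rw [cut_inl, if_pos u1]) (by rw [cut_inl, if_pos u2])
      exact hne (congrArg Subtype.val (Sum.inl_injective this))
    exact ⟨fun h => key _ (Or.inl h) (Or.inl rfl), fun h => key _ (Or.inl h) (Or.inr rfl),
      fun h => key _ (Or.inr h) (Or.inl rfl), fun h => key _ (Or.inr h) (Or.inr rfl)⟩
  · have hq := mem_MS.1 hM
    have h1 := card_eq_cut (fun e he => (hq.valid e he).1) hq.deg
    have h2 : dot (chi M) (ins (ea N) (eb N) (UU N)) = M.toLeft.card := by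
      simp only [dot, Fintype.sum_sum_type, insU_inl, insU_inr, mul_one, mul_zero,
        Finset.sum_const_zero, add_zero, chi, ← mem_toLeft]
      rw [Finset.sum_ite_mem]
      simp
    rw [hq.tot, h2, card_UU] at h1
    have h3 : N = d + 2 * M.toLeft.card := by exact_mod_cast h1
    simp only [h, card_map]
    omega

/-- the explicit lower bound -/
theorem haf_lower {n k : ℕ} (hk : 1 ≤ k) (hkn : k ≤ n) {B : Matrix (Fin (2 * n)) (Fin (2 * n)) ℝ}
    (hB : B ∈ Psi n) : exp (n * negMulLog (k / n) + 2 * n * negMulLog (1 - k / n) - 2 * k -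
      (1 + log (max (4 * ((n : ℝ) - k)) 1))) ≤ haf k B := by
  have hn : (0 : ℝ) < n := by exact_mod_cast (lt_of_lt_of_le hk hkn)
  have hkn' : (k : ℝ) ≤ n := by exact_mod_cast hkn
  have hq := Q_xB hB
  obtain ⟨α, hα⟩ : ∃ α : ℝ, α = k / n := ⟨_, rfl⟩
  rw [← hα]
  have hα0 : 0 ≤ α := by rw [hα]; positivity
  have hα1 : 0 ≤ 1 - α := by rw [hα, sub_nonneg, div_le_one hn]; exact hkn'
  have hαn : α * n = k := by rw [hα]; field_simp
  have hd : α * 0 + (1 - α) * ((2 * n : ℕ) : ℝ) = ((2 * (n - k) : ℕ) : ℝ) := by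
    push_cast [Nat.cast_sub hkn]
    linarith only [hαn]
  have hx := Q.combo hq Q_xm hα0 hα1 (by ring)
  rw [hd] at hx
  have hB0 : ∀ i j, i < j → 0 ≤ B i j := fun i j hij => hq.nonneg (Sum.inl ⟨(i, j), hij⟩)
  have h1 := bethe (by rw [card_UU]; exact ⟨n + (n - k), by omega⟩) hx (w := xB B + xm (2 * n))
    (fun e => add_nonneg (hq.nonneg e) (Q_xm.nonneg e)) (fun e he => by
      rcases e with p | v
      · have a1 := hB0 _ _ p.2
        simp only [xB, xm, Pi.add_apply, Pi.smul_apply, Sum.elim_inl, Pi.zero_apply, smul_eq_mul,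
          mul_zero, add_zero] at he ⊢
        exact lt_of_le_of_ne a1 (right_ne_zero_of_mul he).symm
      · simp [xB, xm])
  refine le_trans (exp_le_exp.2 ?_) (h1.trans (Z_le_haf (by omega) B hB0))
  have c1 := card_eq_cut (fun e he => (hq.valid e he).1) hq.deg
  have c2 := card_eq_cut (fun e he => (hx.valid e he).1) hx.deg
  rw [hq.tot, card_UU] at c1
  rw [hx.tot, card_UU] at c2
  have c3 := dot_mono' (ins_zo (ea (2 * n)) (eb (2 * n)) (UU (2 * n))).nonneg (nm_le hx.le_one)
  have c4 := dot_mono' (cut_zo (ea (2 * n)) (eb (2 * n)) (UU (2 * n))).nonneg (nm_le hx.le_one)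
  rw [hx.tot] at c4
  have c5 := FF_le c4
  have c6 : ∑ e, negMulLog ((α • xB B + (1 - α) • xm (2 * n)) e) +
      dot (fun e => log ((xB B + xm (2 * n)) e)) (α • xB B + (1 - α) • xm (2 * n)) =
      negMulLog α * dot (xB B) (ins (ea (2 * n)) (eb (2 * n)) (UU (2 * n))) +
        2 * n * negMulLog (1 - α) := by
    simp only [dot, Fintype.sum_sum_type, xB, xm, Pi.add_apply, Pi.smul_apply, Sum.elim_inl,
      Sum.elim_inr, Pi.zero_apply, Pi.one_apply, smul_eq_mul, mul_zero, add_zero, zero_add, mul_one,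
      Real.log_one, zero_mul, Finset.sum_const_zero, insU_inl, Finset.sum_const, card_univ,
      Fintype.card_fin, nsmul_eq_mul, Real.negMulLog_mul, Finset.mul_sum]
    rw [add_right_comm, ← Finset.sum_add_distrib]
    push_cast
    congr 1
    refine Finset.sum_congr rfl fun p _ => ?_
    unfold negMulLog
    ring
  push_cast [Nat.cast_sub hkn] at c1 c2 c5
  have c7 : dot (xB B) (ins (ea (2 * n)) (eb (2 * n)) (UU (2 * n))) = n := by linarith only [c1]
  rw [c7] at c6
  have c8 : 2 * (2 * ((n : ℝ) - k)) = 4 * (n - k) := by ring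
  rw [c8] at c5
  unfold Psf
  linarith only [c3, c6, c2, c5]

end Pool.Agent.Work.MP_33747a_co.EK
end

-- merged part: Pool.Agent.Work.MP_33747a_co.EF2
section
set_option autoImplicit false

namespace Pool.Agent.Work.MP_33747a_co.EK

open Finset Real

theorem exp_nml {x : ℝ} {n m : ℕ} (hx : 0 ≤ x) (h : n * x = m) : exp (n * negMulLog x) * x ^ m = 1 := by
  rcases hx.eq_or_lt with h0 | h0
  · have : m = 0 := by
      rw [← h0, mul_zero] at h
      exact_mod_cast h.symm
    simp [← h0, this]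
  · have : (n : ℝ) * negMulLog x = -(m * log x) := by
      unfold negMulLog
      rw [← h]; ring
    rw [this, exp_neg, exp_nat_mul, exp_log h0]
    exact inv_mul_cancel₀ (pow_pos h0 m).ne'

theorem choose_le_exp {N K : ℕ} (hK : K ≤ N) {α : ℝ} (h0 : 0 ≤ α) (h1 : α ≤ 1) (h : N * α = K) :
    (N.choose K : ℝ) ≤ exp (N * negMulLog α) * exp (N * negMulLog (1 - α)) := by
  have e1 := exp_nml h0 h
  have e2 : exp (N * negMulLog (1 - α)) * (1 - α) ^ (N - K) = 1 :=
    exp_nml (sub_nonneg.2 h1) (by push_cast [Nat.cast_sub hK]; linarith only [h])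
  have e3 := add_pow α (1 - α) N
  rw [add_sub_cancel, one_pow] at e3
  have e4 : α ^ K * (1 - α) ^ (N - K) * (N.choose K : ℝ) ≤ 1 := by
    refine le_of_le_of_eq ?_ e3.symm
    exact Finset.single_le_sum (f := fun m => α ^ m * (1 - α) ^ (N - m) * (N.choose m : ℝ))
      (fun m _ => mul_nonneg (mul_nonneg (pow_nonneg h0 _) (pow_nonneg (sub_nonneg.2 h1) _))
        (Nat.cast_nonneg _)) (mem_range.2 (Nat.lt_succ_of_le hK))
  calc (N.choose K : ℝ) = (exp (N * negMulLog α) * α ^ K) *
        (exp (N * negMulLog (1 - α)) * (1 - α) ^ (N - K)) * N.choose K := by rw [e1, e2]; ring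
    _ = exp (N * negMulLog α) * exp (N * negMulLog (1 - α)) *
        (α ^ K * (1 - α) ^ (N - K) * (N.choose K : ℝ)) := by ring
    _ ≤ _ := mul_le_of_le_one_right (by positivity) e4

theorem dfac_le {k : ℕ} (hk : 1 ≤ k) :
    ((2 * k - 1).doubleFactorial : ℝ) ≤ √2 * (2 * k / exp 1) ^ k := by
  obtain ⟨j, rfl⟩ : ∃ j, k = j + 1 := ⟨k - 1, by omega⟩
  have h1 : Stirling.stirlingSeq (2 * j + 1 + 1) ≤ Stirling.stirlingSeq (j + 1) :=
    Stirling.stirlingSeq'_antitone (show j ≤ 2 * j + 1 by omega)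
  have h2 : (2 * j + 1 + 1).factorial = 2 ^ (j + 1) * (j + 1).factorial *
      (2 * (j + 1) - 1).doubleFactorial := by
    rw [Nat.factorial_eq_mul_doubleFactorial, show 2 * j + 1 + 1 = 2 * (j + 1) by ring,
      Nat.doubleFactorial_two_mul, show 2 * (j + 1) - 1 = 2 * j + 1 by omega]
  unfold Stirling.stirlingSeq at h1
  rw [h2, show 2 * j + 1 + 1 = 2 * (j + 1) by ring] at h1
  generalize j + 1 = k at *
  have hk0 : (0 : ℝ) < k := by exact_mod_cast hk
  have hf : (0 : ℝ) < k.factorial := by exact_mod_cast k.factorial_pos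
  push_cast at h1
  rw [div_le_div_iff₀ (by positivity) (by positivity), Real.sqrt_mul (by norm_num : (0 : ℝ) ≤ 2) (2 * k),
    two_mul k, pow_add] at h1
  have h3 : (2 * (k : ℝ) / exp 1) ^ k = 2 ^ k * (k / exp 1) ^ k := by
    rw [← mul_pow, mul_div_assoc]
  have h4 : 0 < (k.factorial : ℝ) * (√(2 * k) * (2 * (k : ℝ) / exp 1) ^ k) := by positivity
  refine le_of_mul_le_mul_left ?_ h4
  calc _ = 2 ^ k * (k.factorial : ℝ) * ((k + k - 1).doubleFactorial : ℝ) *
        (√(2 * k) * (k / exp 1) ^ k) := by rw [h3, two_mul k]; ring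
    _ ≤ _ := h1
    _ = _ := by ring

theorem haf_J_le {n k : ℕ} (hk : 1 ≤ k) (hkn : k ≤ n) : haf k (J n) ≤
    √2 * exp 1 * exp (n * negMulLog (k / n) + 2 * n * negMulLog (1 - k / n) - k) := by
  have hn1 : (1 : ℝ) ≤ n := by exact_mod_cast hk.trans hkn
  have hn : (0 : ℝ) < n := by linarith only [hn1]
  have hkn' : (k : ℝ) ≤ n := by exact_mod_cast hkn
  have hα0 : (0 : ℝ) ≤ k / n := by positivity
  have h1 := choose_le_exp (N := 2 * n) (K := 2 * k) (by omega) hα0 ((div_le_one hn).2 hkn')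
    (by push_cast; field_simp)
  have h2 := dfac_le hk
  have h3 : exp (n * negMulLog (k / n)) * ((k : ℝ) / n) ^ k = 1 := exp_nml hα0 (by field_simp)
  have h4 : (1 / (2 * (n : ℝ) - 1)) ^ k ≤ exp 1 * (1 / (2 * n)) ^ k := by
    have a0 : (0 : ℝ) < 2 * n - 1 := by linarith only [hn1]
    have a1 : 1 / (2 * (n : ℝ) - 1) = (1 / (2 * (n : ℝ) - 1) + 1) * (1 / (2 * n)) := by
      field_simp; ring
    rw [a1, mul_pow]
    refine mul_le_mul_of_nonneg_right ?_ (by positivity)
    refine (pow_le_pow_left₀ (by positivity) (Real.add_one_le_exp _) k).trans ?_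
    rw [← exp_nat_mul, exp_le_exp, mul_one_div, div_le_one a0]
    linarith only [hn1, hkn']
  rw [haf_J, mm]
  push_cast at h1 ⊢
  have h5 : (1 / (2 * (n : ℝ))) ^ k * (2 * k / exp 1) ^ k = (k / n) ^ k * exp (-k) := by
    rw [← mul_pow, exp_neg, ← Real.exp_one_pow, ← inv_pow, ← mul_pow]
    congr 1
    field_simp
  calc _ ≤ (exp 1 * (1 / (2 * n)) ^ k) * ((exp (2 * n * negMulLog (k / n)) *
          exp (2 * n * negMulLog (1 - k / n))) * (√2 * (2 * k / exp 1) ^ k)) := by
        refine mul_le_mul h4 (mul_le_mul h1 h2 (Nat.cast_nonneg _) (by positivity)) (by positivity)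
          (by positivity)
    _ = √2 * exp 1 * ((exp (n * negMulLog (k / n)) * exp (n * negMulLog (k / n))) *
          exp (2 * n * negMulLog (1 - k / n)) * ((1 / (2 * (n : ℝ))) ^ k * (2 * k / exp 1) ^ k)) := by
        rw [mul_assoc 2 (n : ℝ) (negMulLog (k / n)), two_mul ((n : ℝ) * negMulLog (k / n)), exp_add]
        ring
    _ = √2 * exp 1 * (exp (n * negMulLog (k / n)) * exp (2 * n * negMulLog (1 - k / n)) * exp (-k) *
          (exp (n * negMulLog (k / n)) * ((k : ℝ) / n) ^ k)) := by rw [h5]; ring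
    _ = _ := by rw [h3, mul_one, ← exp_add, ← exp_add, sub_eq_add_neg _ (k : ℝ)]

theorem bethe_ratio {n k : ℕ} (hk : 1 ≤ k) (hkn : k ≤ n) {B : Matrix (Fin (2 * n)) (Fin (2 * n)) ℝ}
    (hB : B ∈ Psi n) : haf k (J n) ≤ 42 * ((n : ℝ) - k + 1) * exp k * haf k B := by
  have h1 := haf_lower hk hkn hB
  have h2 := haf_J_le hk hkn
  have hkn' : (k : ℝ) ≤ n := by exact_mod_cast hkn
  generalize (n : ℝ) * negMulLog (k / n) + 2 * n * negMulLog (1 - k / n) = A at h1 h2
  have hm : 0 < max (4 * ((n : ℝ) - k)) 1 := lt_of_lt_of_le one_pos (le_max_right _ _)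
  have h3 : exp (A - k) = exp 1 * max (4 * ((n : ℝ) - k)) 1 * exp k *
      exp (A - 2 * k - (1 + log (max (4 * ((n : ℝ) - k)) 1))) := by
    conv_rhs => rw [← exp_log hm, ← exp_add, ← exp_add, log_exp, ← exp_add]
    congr 1
    ring
  have h4 : max (4 * ((n : ℝ) - k)) 1 ≤ 4 * (n - k + 1) := max_le (by linarith only []) (by linarith only [hkn'])
  have h5 : √2 * exp 1 * exp 1 ≤ 21 / 2 := by
    have a1 : √2 ≤ 1.4143 := Real.sqrt_le_iff.2 ⟨by norm_num, by norm_num⟩
    have a2 := Real.exp_one_lt_d9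
    have a3 : exp 1 * exp 1 ≤ 7.39 := by linarith only [a2, exp_pos 1, mul_pos_of_neg_of_neg (Mathlib.Tactic.Linarith.sub_neg_of_lt a2) (Mathlib.Tactic.Linarith.sub_neg_of_lt (exp_pos (1 : ℝ)))]
    linarith only [a1, a3, exp_pos 1, Real.sqrt_nonneg 2, mul_nonneg_of_nonpos_of_nonpos (Mathlib.Tactic.Linarith.sub_nonpos_of_le a3) (Mathlib.Tactic.Linarith.sub_nonpos_of_le (sqrt_nonneg (2 : ℝ)))]
  refine h2.trans ?_
  rw [h3]
  calc _ = (√2 * exp 1 * exp 1) * max (4 * ((n : ℝ) - k)) 1 * exp k *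
        exp (A - 2 * k - (1 + log (max (4 * ((n : ℝ) - k)) 1))) := by ring
    _ ≤ (21 / 2) * (4 * (n - k + 1)) * exp k * haf k B := by gcongr
    _ = _ := by ring

end Pool.Agent.Work.MP_33747a_co.EK
end

-- merged part: Pool.Agent.Work.MP_33747a_co.S2
section
/-! The number of independent tight odd cuts, charged to the vertices of degree at least three. -/

set_option autoImplicit false
set_option linter.unusedSectionVars false

namespace Pool.Agent.Work.MP_33747a_co.EK

open Finset Real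

variable {V E : Type*} [Fintype E] [DecidableEq V]

open Classical in
/-- the edges of the support that are counted by `c` -/
noncomputable def sup1 (x c : E → ℝ) : Finset E := univ.filter fun e => x e ≠ 0 ∧ c e = 1

theorem mem_sup1 {x c : E → ℝ} {e : E} : e ∈ sup1 x c ↔ x e ≠ 0 ∧ c e = 1 := by
  simp [sup1]

/-- indicator of at least three support edges -/
noncomputable def big (x c : E → ℝ) : ℝ := if 3 ≤ (sup1 x c).card then 1 else 0

theorem big_nonneg (x c : E → ℝ) : 0 ≤ big x c := by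
  unfold big; split_ifs <;> norm_num

theorem big_le_one (x c : E → ℝ) : big x c ≤ 1 := by
  unfold big; split_ifs <;> norm_num

theorem big_congr {x c c' : E → ℝ} (h : ∀ e, x e ≠ 0 → c e = c' e) : big x c = big x c' := by
  have : sup1 x c = sup1 x c' := by
    ext e
    simp only [mem_sup1]
    exact and_congr_right fun he => by rw [h e he]
  unfold big
  rw [this]

theorem card_sup1 (x : E → ℝ) {c : E → ℝ} (hc : ZO1 c) :
    ((sup1 x c).card : ℝ) = dot (fun e => if x e = 0 then 0 else 1) c := by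
  classical
  unfold sup1 dot
  rw [Finset.card_filter]
  push_cast
  refine Finset.sum_congr rfl fun e _ => ?_
  by_cases h : x e = 0 <;> rcases hc e with h' | h' <;> simp [h, h']

/-- the mass leaving `U` at the vertex `v` -/
noncomputable def mo (a b : E → V) (U : Finset V) (x : E → ℝ) (v : V) : ℝ :=
  dot x fun e => cut a b {v} e * cut a b U e

/-- indicator of the proper edges inside `S` -/
def ins2 (a b : E → V) (S : Finset V) (e : E) : ℝ := if a e = b e then 0 else ins a b S e

variable {a b : E → V} {U : Finset V} {d : ℝ} {x : E → ℝ}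

theorem ins2_zo (a b : E → V) (S : Finset V) : ZO1 (ins2 a b S) := by
  intro e
  unfold ins2
  split_ifs
  · exact Or.inl rfl
  · exact ins_zo a b S e

theorem sum_cut_single2 (a b : E → V) (S : Finset V) (e : E) :
    ∑ v ∈ S, cut a b {v} e = cut a b S e + 2 * ins2 a b S e := by
  unfold ins2
  by_cases h : a e = b e
  · simp [cut, h]
  · rw [if_neg h, sum_cut_single a b S h]

theorem dot_sum_cut2 (a b : E → V) (x : E → ℝ) (S : Finset V) :
    ∑ v ∈ S, dot x (cut a b {v}) = dot x (cut a b S) + 2 * dot x (ins2 a b S) := by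
  rw [← dot_sum_cut, ← dot_smul_right, ← dot_add_right]
  exact congrArg _ (funext fun e => sum_cut_single2 a b S e)

theorem sum_cut_mul {S : Finset V} (hS : S ⊆ U) (e : E) :
    ∑ v ∈ S, cut a b {v} e * cut a b U e = cut a b S e * cut a b U e := by
  rw [← Finset.sum_mul, sum_cut_single2, add_mul]
  have : ins2 a b S e * cut a b U e = 0 := by
    unfold ins2 ins cut
    by_cases h1 : a e ∈ S <;> by_cases h2 : b e ∈ S <;> simp [h1, h2]
    simp [hS h1, hS h2]
  linear_combination 2 * this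

theorem sum_mo {S : Finset V} (hS : S ⊆ U) :
    ∑ v ∈ S, mo a b U x v = dot x fun e => cut a b S e * cut a b U e := by
  unfold mo dot
  rw [Finset.sum_comm]
  refine Finset.sum_congr rfl fun e _ => ?_
  rw [← Finset.mul_sum, sum_cut_mul hS]

theorem mo_nonneg (hx : ∀ e, 0 ≤ x e) (v : V) : 0 ≤ mo a b U x v :=
  dot_nonneg hx fun e => mul_nonneg ((cut_zo a b _).nonneg e) ((cut_zo a b _).nonneg e)

theorem mo_le (hx : ∀ e, 0 ≤ x e) (v : V) : mo a b U x v ≤ dot x (cut a b {v}) :=
  dot_mono hx fun e => by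
    rcases cut_zo a b U e with h | h <;> rw [h] <;> simp [(cut_zo a b {v}).nonneg e]

theorem mo_mono (hx : ∀ e, 0 ≤ x e) {S : Finset V} (hS : S ⊆ U) {v : V} (hv : v ∈ S) :
    mo a b U x v ≤ mo a b S x v := by
  refine dot_mono hx fun e => ?_
  unfold cut
  simp only [mem_singleton]
  by_cases h1 : a e = v <;> by_cases h2 : b e = v
  · simp [h1, h2]
  · by_cases h3 : b e ∈ S
    · simp [h1, hv, h3, hS hv, hS h3]
    · by_cases h4 : b e ∈ U <;> simp [h1, h2, hv, h3, hS hv, h4]
  · by_cases h3 : a e ∈ S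
    · simp [h2, hv, h3, hS hv, hS h3]
    · by_cases h4 : a e ∈ U <;> simp [h1, h2, hv, h3, hS hv, h4]
  · simp [h1, h2]

/-- the other end of an edge at `v` -/
theorem other_end {v : V} {e : E} (h : cut a b {v} e = 1) :
    ∃ p, p ≠ v ∧ ∀ T : Finset V, cut a b T e = if (v ∈ T ↔ p ∈ T) then 0 else 1 := by
  unfold cut at h
  simp only [mem_singleton] at h
  by_cases h1 : a e = v <;> by_cases h2 : b e = v
  · simp [h1, h2] at h
  · exact ⟨b e, h2, fun T => by unfold cut; rw [h1]⟩
  · exact ⟨a e, h1, fun T => by unfold cut; rw [h2]; simp only [iff_comm]⟩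
  · simp [h1, h2] at h

theorem tight_of_le (h : Q1 a b U d x) {T : Finset V} (hT : T ⊆ U) (ho : Odd T.card) {c : E → ℝ}
    (hc : dot x c = 1) (hle : ∀ e, x e ≠ 0 → cut a b T e ≤ c e) :
    dot x (cut a b T) = 1 ∧ ∀ e, x e ≠ 0 → cut a b T e = c e := by
  have h1 := h.odd T hT ho
  have h2 : ∀ e, 0 ≤ x e * (c e - cut a b T e) := by
    intro e
    by_cases he : x e = 0
    · simp [he]
    · exact mul_nonneg (h.nonneg e) (sub_nonneg.2 (hle e he))
  have h3 : ∑ e, x e * (c e - cut a b T e) = 1 - dot x (cut a b T) := by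
    rw [← hc]
    simp only [dot, mul_sub, Finset.sum_sub_distrib]
  have h4 : 0 ≤ ∑ e, x e * (c e - cut a b T e) := Finset.sum_nonneg fun e _ => h2 e
  refine ⟨by linarith only [h1, h3, h4], fun e he => ?_⟩
  have h5 := (Finset.sum_eq_zero_iff_of_nonneg fun e _ => h2 e).1 (by linarith) e (mem_univ e)
  have := (mul_eq_zero.1 h5).resolve_left he
  linarith

theorem cut_symmDiff (a b : E → V) {T S R W : Finset V} (e : E)
    (h : ∀ z, z ∈ T ↔ ¬ (¬ (z ∈ S ↔ z ∈ R) ↔ z ∈ W)) :
    cut a b T e ≤ cut a b S e + cut a b R e + cut a b W e := by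
  unfold cut
  simp only [h]
  by_cases h1 : a e ∈ S <;> by_cases h2 : b e ∈ S <;> by_cases h3 : a e ∈ R <;>
    by_cases h4 : b e ∈ R <;> by_cases h5 : a e ∈ W <;> by_cases h6 : b e ∈ W <;>
    simp only [h1, h2, h3, h4, h5, h6] <;> norm_num

theorem cut_erase_le {v p : V} {e : E} (hv : v ∈ U) (hp : p ∈ U) (hne : p ≠ v)
    (h0 : cut a b {v} e = 0) :
    cut a b ((U.erase v).erase p) e ≤ cut a b U e + cut a b {p} e := by
  have := cut_symmDiff a b (T := (U.erase v).erase p) (S := U) (R := {p}) (W := {v}) e (fun z => by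
    simp only [mem_erase, mem_singleton]
    by_cases h1 : z = v
    · simp [h1, hv, hne.symm]
    · by_cases h2 : z = p
      · simp [h2, hp, hne]
      · simp [h1, h2])
  linarith

theorem cut_three_le {v p q : V} {e : E} (hp : p ≠ v) (hq : q ≠ v) (hpq : q ≠ p)
    (h0 : cut a b {v} e = 0) :
    cut a b {v, p, q} e ≤ cut a b {p} e + cut a b {q} e := by
  have := cut_symmDiff a b (T := {v, p, q}) (S := {p}) (R := {q}) (W := {v}) e (fun z => by
    simp only [mem_insert, mem_singleton]
    by_cases h1 : z = v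
    · simp [h1, hp.symm, hq.symm]
    · by_cases h2 : z = p
      · simp [h2, hp, hpq.symm]
      · simp [h1, h2])
  linarith

/-- a tight set with a vertex of degree two and no proper tight subset -/
theorem deg_two (h : Q1 a b U 1 x) (h1 : ∀ e, x e < 1) (ho : Odd U.card)
    (htriv : ∀ T ⊆ U, Odd T.card → dot x (cut a b T) = 1 → (∃ v ∈ U, T = {v}) ∨ T = U)
    {v : V} (hv : v ∈ U) (hd : (sup1 x (cut a b {v})).card ≤ 2) :
    (∃ r ∈ U, ∀ e, x e ≠ 0 → cut a b U e = cut a b {r} e) ∨
      (U.card = 3 ∧ ∃ p ∈ U, ∃ q ∈ U, ∃ r ∈ U, ∀ e, x e ≠ 0 →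
        cut a b U e = cut a b {p} e + cut a b {q} e - cut a b {r} e) := by
  classical
  have hlt := dot_lt_card h1 (cut_zo a b {v}) (sup1 x (cut a b {v})) (fun e => mem_sup1)
    (by rw [h.deg v hv]; norm_num)
  rw [h.deg v hv] at hlt
  have hc2 : (sup1 x (cut a b {v})).card = 2 := by
    have : 1 < (sup1 x (cut a b {v})).card := by exact_mod_cast hlt
    omega
  obtain ⟨e1, e2, hne, he⟩ := card_eq_two.1 hc2
  have hm : ∀ e, x e ≠ 0 → cut a b {v} e = 1 → e = e1 ∨ e = e2 := by
    intro e h4 h5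
    have := mem_sup1.2 ⟨h4, h5⟩
    rw [he] at this
    simpa using this
  obtain ⟨p, hp, cp⟩ := other_end (mem_sup1.1 (he ▸ mem_insert_self e1 {e2})).2
  obtain ⟨q, hq, cq⟩ := other_end
    (mem_sup1.1 (he ▸ mem_insert_of_mem (mem_singleton_self e2) : e2 ∈ sup1 x (cut a b {v}))).2
  have hD : ∀ (p q : V) (e1 e2 : E), p ≠ v → p ∈ U → (q ∉ U ∨ q = p) →
      (∀ T : Finset V, cut a b T e1 = if (v ∈ T ↔ p ∈ T) then 0 else 1) →
      (∀ T : Finset V, cut a b T e2 = if (v ∈ T ↔ q ∈ T) then 0 else 1) →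
      (∀ e, x e ≠ 0 → cut a b {v} e = 1 → e = e1 ∨ e = e2) →
      (U.card = 3 ∧ ∃ p ∈ U, ∃ q ∈ U, ∃ r ∈ U, ∀ e, x e ≠ 0 →
        cut a b U e = cut a b {p} e + cut a b {q} e - cut a b {r} e) := by
    intro p q e1 e2 hp hpU hq cp cq hm
    have hcard : ((U.erase v).erase p).card + 2 = U.card := by
      have a1 := card_erase_add_one hv
      have a2 := card_erase_add_one (mem_erase.2 ⟨hp, hpU⟩)
      omega
    have hsub : (U.erase v).erase p ⊆ U := (erase_subset _ _).trans (erase_subset _ _)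
    have hodd : Odd ((U.erase v).erase p).card := by
      rw [Nat.odd_iff] at ho ⊢
      omega
    obtain ⟨t1, t2⟩ := tight_of_le h hsub hodd
      (c := fun e => cut a b U e + cut a b {p} e - cut a b {v} e)
      (by
        have := h.tot
        have := h.deg p hpU
        have := h.deg v hv
        simp only [dot, mul_sub, mul_add, Finset.sum_sub_distrib, Finset.sum_add_distrib] at *
        linarith)
      (fun e he => by
        rcases cut_zo a b {v} e with h0 | h0
        · rw [h0, sub_zero]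
          exact cut_erase_le hv hpU hp h0
        · rcases hm e he h0 with rfl | rfl
          · simp [cp, hp, hp.symm, hv, hpU]
          · rcases hq with hq | rfl
            · have : q ≠ p := fun h => hq (h ▸ hpU)
              have : q ≠ v := fun h => hq (h ▸ hv)
              rw [cq, cq, cq, cq]
              simp [hp.symm, *]
            · simp [cq, hp, hp.symm, hv, hpU])
    rcases htriv _ hsub hodd t1 with ⟨r, hr, hT⟩ | hT
    · rw [hT] at hcard t2
      refine ⟨by simpa using hcard.symm, r, hr, v, hv, p, hpU, fun e he => ?_⟩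
      linarith only [t2, he, t2 e he]
    · rw [hT] at hcard
      omega
  by_cases hpU : p ∈ U <;> by_cases hqU : q ∈ U
  · by_cases hpq : q = p
    · exact Or.inr (hD p q e1 e2 hp hpU (Or.inr hpq) cp cq hm)
    · have hsub : ({v, p, q} : Finset V) ⊆ U := by
        intro z hz
        simp only [mem_insert, mem_singleton] at hz
        rcases hz with rfl | rfl | rfl <;> assumption
      have hcard : ({v, p, q} : Finset V).card = 3 :=
        card_eq_three.2 ⟨v, p, q, hp.symm, hq.symm, Ne.symm hpq, rfl⟩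
      have hodd : Odd ({v, p, q} : Finset V).card := by rw [hcard]; decide
      obtain ⟨t1, t2⟩ := tight_of_le h hsub hodd
        (c := fun e => cut a b {p} e + cut a b {q} e - cut a b {v} e)
        (by
          have := h.deg q hqU
          have := h.deg p hpU
          have := h.deg v hv
          simp only [dot, mul_sub, mul_add, Finset.sum_sub_distrib, Finset.sum_add_distrib] at *
          linarith)
        (fun e he => by
          rcases cut_zo a b {v} e with h0 | h0
          · rw [h0, sub_zero]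
            exact cut_three_le hp hq hpq h0
          · rcases hm e he h0 with rfl | rfl
            · simp [cp, hp, hp.symm, hq.symm, Ne.symm hpq]
            · simp [cq, hq, hp.symm, hq.symm, hpq])
      rcases htriv _ hsub hodd t1 with ⟨r, _, hT⟩ | hT
      · rw [hT] at hcard
        simp at hcard
      · rw [hT] at hcard t2
        exact Or.inr ⟨hcard, p, hpU, q, hqU, v, hv, t2⟩
  · exact Or.inr (hD p q e1 e2 hp hpU (Or.inl hqU) cp cq hm)
  · exact Or.inr (hD q p e2 e1 hq hqU (Or.inl hpU) cq cp fun e h4 h5 => (hm e h4 h5).symm)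
  · refine Or.inl ⟨v, hv, fun e he => ?_⟩
    have hle : ∀ e, x e ≠ 0 → cut a b {v} e ≤ cut a b U e := by
      intro e he
      rcases cut_zo a b {v} e with h0 | h0
      · rw [h0]; exact (cut_zo a b U).nonneg e
      · rcases hm e he h0 with rfl | rfl
        · simp [cp, hp, hv, hpU]
        · simp [cq, hq, hv, hqU]
    exact ((tight_of_le h (singleton_subset_iff.2 hv) (by simp) h.tot hle).2 e he).symm

theorem big_le_three (h : Q1 a b U 1 x) (h1 : ∀ e, x e < 1) (h3 : U.card = 3) :
    big x (cut a b U) ≤ ∑ v ∈ U, big x (cut a b {v}) := by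
  by_cases hex : ∃ r ∈ U, 3 ≤ (sup1 x (cut a b {r})).card
  · obtain ⟨r, hr, hb⟩ := hex
    refine (big_le_one _ _).trans (le_trans ?_
      (Finset.single_le_sum (f := fun v => big x (cut a b {v})) (fun v _ => big_nonneg _ _) hr))
    simp [big, hb]
  · push Not at hex
    have a1 := dot_sum_cut2 a b x U
    rw [Finset.sum_congr rfl h.deg, h.tot] at a1
    simp only [sum_const, h3, nsmul_eq_mul] at a1
    have a2 := dot_lt_card h1 (ins2_zo a b U) (sup1 x (ins2 a b U)) (fun e => mem_sup1)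
      (by push_cast at a1; linarith only [a1])
    have a3 : 2 ≤ (sup1 x (ins2 a b U)).card := by
      have : (1 : ℝ) < (sup1 x (ins2 a b U)).card := by push_cast at a1; linarith
      exact_mod_cast this
    have a4 := dot_sum_cut2 a b (fun e => if x e = 0 then 0 else 1) U
    simp only [← card_sup1 x (cut_zo a b _), ← card_sup1 x (ins2_zo a b _)] at a4
    have a5 : ∑ v ∈ U, (sup1 x (cut a b {v})).card =
        (sup1 x (cut a b U)).card + 2 * (sup1 x (ins2 a b U)).card := by exact_mod_cast a4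
    have a6 : ∑ v ∈ U, (sup1 x (cut a b {v})).card ≤ ∑ v ∈ U, 2 :=
      Finset.sum_le_sum fun v hv => Nat.le_of_lt_succ (hex v hv)
    simp only [sum_const, h3, smul_eq_mul] at a6
    have a7 : ¬ 3 ≤ (sup1 x (cut a b U)).card := by omega
    rw [big, if_neg a7]
    exact Finset.sum_nonneg fun v _ => big_nonneg _ _

theorem laminar2 (n : ℕ) : ∀ (a b : E → V) (U : Finset V) (d : ℝ) (x : E → ℝ), U.card = n →
    Q1 a b U d x → (∀ e, x e < 1) →
    ∃ L : Finset (E → ℝ),
      2 * (L.card : ℝ) ≤ ∑ v ∈ U, big x (cut a b {v}) * (1 - mo a b U x v) ∧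
      (Odd n → d = 1 → 2 * (L.card : ℝ) + big x (cut a b U) ≤ ∑ v ∈ U, big x (cut a b {v})) ∧
      ∀ y : E → ℝ, (∀ e, x e = 0 → y e = 0) → (∀ v ∈ U, dot y (cut a b {v}) = 0) →
        (∀ c ∈ L, dot y c = 0) → ∀ T ⊆ U, Odd T.card → dot x (cut a b T) = 1 →
          dot y (cut a b T) = 0 := by
  classical
  induction n using Nat.strong_induction_on with
  | _ n ih =>
  intro a b U d x hn h h1
  by_cases hex : ∃ S ⊆ U, Odd S.card ∧ dot x (cut a b S) = 1 ∧ 3 ≤ S.card ∧ S.card < n
  · obtain ⟨S, hS, ho, ht, h3, hlt⟩ := hex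
    obtain ⟨s, hs⟩ : S.Nonempty := card_pos.1 (by omega)
    have hc := card_U2 hs hS
    obtain ⟨L1, c1, t1, k1⟩ := ih S.card hlt a b S 1 x rfl (h.piece1 hS ht) h1
    obtain ⟨L2, c2, t2, k2⟩ := ih (insert s (U \ S)).card (by omega) (ctr S s ∘ a) (ctr S s ∘ b)
      (insert s (U \ S)) d x rfl (h.piece2 hS hs ho ht) h1
    have hs' : s ∉ U \ S := fun h => (mem_sdiff.1 h).2 hs
    have e1 : cut (ctr S s ∘ a) (ctr S s ∘ b) {s} = cut a b S := by
      rw [cut_pre hs (singleton_subset_iff.2 (mem_insert_self s (U \ S))), pre_self hs]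
    have e2 : ∀ v ∈ U \ S, cut (ctr S s ∘ a) (ctr S s ∘ b) {v} = cut a b {v} := fun v hv => by
      rw [cut_pre hs (singleton_subset_iff.2 (mem_insert_of_mem hv)), pre_single hs (mem_sdiff.1 hv).2]
    have e3 : cut (ctr S s ∘ a) (ctr S s ∘ b) (insert s (U \ S)) = cut a b U := by
      rw [cut_pre hs Subset.rfl, pre_all hs hS]
    have a4 : ((L1 ∪ L2).card : ℝ) ≤ L1.card + L2.card := by exact_mod_cast card_union_le L1 L2
    have t1' := t1 ho rfl
    refine ⟨L1 ∪ L2, ?_, fun hon hd => ?_, fun y hy hv hL T hT hoT htT => ?_⟩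
    · rw [sum_insert hs'] at c2
      unfold mo at c2
      rw [e1, e3, Finset.sum_congr rfl fun v hv => by rw [e2 v hv]] at c2
      rw [← Finset.sum_sdiff hS]
      rw [← sum_mo hS] at c2
      have b1 : ∑ v ∈ S, big x (cut a b {v}) * (1 - mo a b S x v) ≤
          ∑ v ∈ S, big x (cut a b {v}) * (1 - mo a b U x v) :=
        Finset.sum_le_sum fun v hv => mul_le_mul_of_nonneg_left
          (by linarith only [h, hS, hv, mo_mono (a := a) (b := b) h.nonneg hS hv]) (big_nonneg _ _)
      have b2 : ∑ v ∈ S, big x (cut a b {v}) - ∑ v ∈ S, mo a b U x v ≤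
          ∑ v ∈ S, big x (cut a b {v}) * (1 - mo a b U x v) := by
        rw [← Finset.sum_sub_distrib]
        refine Finset.sum_le_sum fun v _ => ?_
        have := mul_le_mul_of_nonneg_right (big_le_one x (cut a b {v}))
          (mo_nonneg (a := a) (b := b) (U := U) h.nonneg v)
        linarith only [this]
      unfold mo at b1 b2 c1 c2 ⊢
      by_cases hb : 3 ≤ (sup1 x (cut a b S)).card
      · have : big x (cut a b S) = 1 := if_pos hb
        rw [this] at c2 t1'
        linarith only [c2, a4, t1', b2]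
      · have : big x (cut a b S) = 0 := if_neg hb
        rw [this] at c2
        linarith only [c1, c2, a4, b1]
    · have := t2 (by
        rw [Nat.odd_iff] at ho hon ⊢
        omega) hd
      rw [sum_insert hs', e1, e3, Finset.sum_congr rfl fun v hv => by rw [e2 v hv]] at this
      rw [← Finset.sum_sdiff hS]
      linarith only [a4, t1', this]
    · have k1' := k1 y hy (fun v h => hv v (hS h)) fun c hc => hL c (mem_union_left _ hc)
      have hyS := k1' S Subset.rfl ho ht
      have k2' : ∀ T' ⊆ insert s (U \ S), Odd (pre S s T').card → dot x (cut a b (pre S s T')) = 1 →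
          dot y (cut a b (pre S s T')) = 0 := by
        intro T' hT' o1 o2
        rw [← cut_pre hs hT'] at o2 ⊢
        refine k2 y hy (fun v h => ?_) (fun c hc => hL c (mem_union_right _ hc)) T' hT'
          ((pre_odd hs ho hT').1 o1) o2
        rcases mem_insert.1 h with rfl | h
        · rw [e1, hyS]
        · rw [e2 v h, hv v (mem_sdiff.1 h).1]
      rcases Nat.even_or_odd (S ∩ T).card with he | hoi
      · have o1 : Odd (S \ T).card := by
          have := card_sdiff_add_card_inter S T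
          rw [Nat.odd_iff] at ho ⊢
          rw [Nat.even_iff] at he
          omega
        have o2 : Odd (T \ S).card := by
          have := card_sdiff_add_card_inter T S
          rw [inter_comm] at this
          rw [Nat.odd_iff] at hoT ⊢
          rw [Nat.even_iff] at he
          omega
        obtain ⟨u1, u2, u3⟩ := uncross h (sdiff_subset.trans hS) (sdiff_subset.trans hT) o1 o2 ht htT
          (cut_le2 a b S T)
        have w1 := k1' _ sdiff_subset o1 u1
        have e1 : pre S s (T \ S) = T \ S := if_neg fun h => (mem_sdiff.1 h).2 hs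
        have w2 := k2' (T \ S) ((sdiff_subset_sdiff hT Subset.rfl).trans (subset_insert _ _))
          (by rw [e1]; exact o2) (by rw [e1]; exact u2)
        rw [e1] at w2
        linarith only [hyS, w1, w2, u3, hy, u3 y hy]
      · have o2 : Odd (S ∪ T).card := by
          have := card_union_add_card_inter S T
          rw [Nat.odd_iff] at ho hoT hoi ⊢
          omega
        obtain ⟨u1, u2, u3⟩ := uncross h (inter_subset_left.trans hS) (union_subset hS hT) hoi o2 ht htT
          (cut_le1 a b S T)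
        have w1 := k1' _ inter_subset_left hoi u1
        have e1 : pre S s (insert s ((S ∪ T) \ S)) = S ∪ T := pre_all hs subset_union_left
        have w2 := k2' (insert s ((S ∪ T) \ S))
          (insert_subset_insert _ (sdiff_subset_sdiff (union_subset hS hT) Subset.rfl))
          (by rw [e1]; exact o2) (by rw [e1]; exact u2)
        rw [e1] at w2
        linarith only [hyS, w1, w2, u3, hy, u3 y hy]
  · have htriv : ∀ T ⊆ U, Odd T.card → dot x (cut a b T) = 1 → (∃ v ∈ U, T = {v}) ∨ T = U := by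
      intro T hT ho ht
      by_cases h1 : T.card = 1
      · obtain ⟨v, rfl⟩ := card_eq_one.1 h1
        exact Or.inl ⟨v, singleton_subset_iff.1 hT, rfl⟩
      · right
        refine eq_of_subset_of_card_le hT ?_
        by_contra h2
        refine hex ⟨T, hT, ho, ht, ?_, by omega⟩
        rw [Nat.odd_iff] at ho
        omega
    have hpos : 0 ≤ ∑ v ∈ U, big x (cut a b {v}) * (1 - mo a b U x v) :=
      Finset.sum_nonneg fun v hv => mul_nonneg (big_nonneg _ _) (by
        have := mo_le (a := a) (b := b) (U := U) h.nonneg v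
        rw [h.deg v hv] at this
        linarith)
    by_cases hc : Odd n ∧ d = 1
    · obtain ⟨hon, rfl⟩ := hc
      by_cases hall : ∀ v ∈ U, 3 ≤ (sup1 x (cut a b {v})).card
      · by_cases hn1 : n = 1
        · obtain ⟨v, rfl⟩ := card_eq_one.1 (hn.trans hn1)
          refine ⟨∅, by simpa using hpos, fun _ _ => by simp, fun y _ hv _ T hT ho ht => ?_⟩
          rcases htriv T hT ho ht with ⟨v, h, rfl⟩ | rfl
          · exact hv v h
          · exact hv v (mem_singleton_self v)
        · have h3 : 3 ≤ n := by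
            have := Nat.odd_iff.1 hon
            omega
          have h4 : (3 : ℝ) ≤ n := by exact_mod_cast h3
          have hb : ∀ v ∈ U, big x (cut a b {v}) = 1 := fun v hv => if_pos (hall v hv)
          have hm : ∑ v ∈ U, mo a b U x v = 1 := by
            rw [sum_mo Subset.rfl, ← h.tot]
            exact dot_congr fun e _ => by rcases cut_zo a b U e with h | h <;> simp [h]
          refine ⟨{cut a b U}, ?_, fun _ _ => ?_, fun y _ hv hL T hT ho ht => ?_⟩
          · rw [Finset.sum_congr rfl fun v hv => by rw [hb v hv, one_mul], Finset.sum_sub_distrib, hm]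
            simp only [card_singleton, sum_const, hn, nsmul_eq_mul]
            push_cast
            linarith only [h4]
          · rw [Finset.sum_congr rfl hb]
            simp only [card_singleton, sum_const, hn, nsmul_eq_mul]
            push_cast
            linarith [big_le_one x (cut a b U)]
          · rcases htriv T hT ho ht with ⟨v, h, rfl⟩ | rfl
            · exact hv v h
            · exact hL _ (mem_singleton_self _)
      · push Not at hall
        obtain ⟨v, hv, hd⟩ := hall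
        have key := deg_two h h1 (hn ▸ hon) htriv hv (Nat.le_of_lt_succ hd)
        refine ⟨∅, by simpa using hpos, fun _ _ => ?_, fun y hy hv _ T hT ho ht => ?_⟩
        · simp only [card_empty, Nat.cast_zero, mul_zero, zero_add]
          rcases key with ⟨r, hr, key⟩ | ⟨h3, -⟩
          · rw [big_congr key]
            exact Finset.single_le_sum (f := fun v => big x (cut a b {v}))
              (fun v _ => big_nonneg _ _) hr
          · exact big_le_three h h1 h3
        · rcases htriv T hT ho ht with ⟨v, h, rfl⟩ | rfl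
          · exact hv v h
          · have hy' : ∀ e, y e ≠ 0 → x e ≠ 0 := fun e he h0 => he (hy e h0)
            rcases key with ⟨r, hr, key⟩ | ⟨-, p, hp, q, hq, r, hr, key⟩
            · rw [dot_congr fun e he => key e (hy' e he), hv r hr]
            · rw [dot_congr fun e he => key e (hy' e he)]
              have b1 := hv p hp
              have b2 := hv q hq
              have b3 := hv r hr
              simp only [dot, mul_sub, mul_add, Finset.sum_sub_distrib, Finset.sum_add_distrib] at *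
              linarith only [b1, b2, b3]
    · refine ⟨∅, by simpa using hpos, fun h1 h2 => absurd ⟨h1, h2⟩ hc,
        fun y _ hv _ T hT ho ht => ?_⟩
      rcases htriv T hT ho ht with ⟨v, h, rfl⟩ | rfl
      · exact hv v h
      · exact absurd ⟨hn ▸ ho, h.tot ▸ ht⟩ hc

end Pool.Agent.Work.MP_33747a_co.EK
end

-- merged part: Pool.Agent.Work.MP_33747a_co.S1
section
/-! The trace bound for potentials that are sums of terms `a * f s`. -/

set_option autoImplicit false
set_option linter.unusedSectionVars false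

namespace Pool.Agent.Work.MP_33747a_co.EK

open Finset Real
open scoped RealInnerProductSpace

variable {ι E J : Type*} [Fintype ι] [Fintype E] [Fintype J]

/-- the data of a potential -/
structure Pot (φ : ι → E → ℝ) (α σ : ι → J → ℝ) (f f1 f2 : J → ℝ → ℝ) : Prop where
  zo : ZO σ
  affα : ∀ j, ∃ (c : ℝ) (θ : E → ℝ), ∀ i, α i j = c + dot θ (φ i)
  affσ : ∀ j, ∃ θ : E → ℝ, ∀ i, σ i j = dot θ (φ i)
  at0 : ∀ j, f j 0 = 0
  at1 : ∀ j, f j 1 = 0
  d1 : ∀ j s, 0 < s → s < 1 → HasDerivAt (f j) (f1 j s) s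
  d2 : ∀ j s, 0 < s → s < 1 → HasDerivAt (f1 j) (f2 j s) s

noncomputable def GG (α σ : ι → J → ℝ) (f : J → ℝ → ℝ) (P : ι → ℝ) : ℝ :=
  ent P - ∑ j, marg α P j * f j (marg σ P j)

variable {φ : ι → E → ℝ} {α σ : ι → J → ℝ} {f f1 f2 : J → ℝ → ℝ} {P : ι → ℝ}

theorem aff_affine (φ : ι → E → ℝ) (P : ι → ℝ) {u : ι → ℝ} {c : ℝ} {θ : E → ℝ}
    (h : ∀ i, u i = c + dot θ (φ i)) : Aff φ P u := by
  intro ν hν hs
  have h1 := aff_dot φ P θ ν hν hs
  simp only [h, mul_add, Finset.sum_add_distrib, ← Finset.sum_mul, hν.1, h1]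
  ring

theorem aff_sum (φ : ι → E → ℝ) (P : ι → ℝ) (w : ι → J → ℝ) (s : Finset J) (c : J → ℝ)
    (h : ∀ j, Aff φ P fun i => w i j) : Aff φ P fun i => ∑ j ∈ s, c j * w i j := by
  intro ν hν hs
  simp only [Finset.mul_sum]
  rw [Finset.sum_comm]
  refine Finset.sum_eq_zero fun j _ => ?_
  have := h j ν hν hs
  calc ∑ i, ν i * (c j * w i j) = c j * ∑ i, ν i * w i j := by
        rw [Finset.mul_sum]; exact Finset.sum_congr rfl fun i _ => by ring
    _ = 0 := by rw [this, mul_zero]

theorem GG_deriv (H : Pot φ α σ f f1 f2) (hP : Smp P) (u : ι → ℝ) (t : ℝ) :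
    HasDerivAt (fun t => GG α σ f (tilt P u t))
      (-Cv P u t (fun i => log (P i)) u - t * Cv P u t u u -
        ∑ j ∈ act (marg σ P), (f j (Et P u t fun i => σ i j) * Cv P u t (fun i => α i j) u +
          Et P u t (fun i => α i j) * f1 j (Et P u t fun i => σ i j) *
            Cv P u t (fun i => σ i j) u)) t := by
  classical
  have hfun : (fun t => GG α σ f (tilt P u t)) = fun t =>
      -Et P u t (fun i => log (P i)) - t * Et P u t u + log (Zt P u t) -
        ∑ j ∈ act (marg σ P), Et P u t (fun i => α i j) * f j (Et P u t fun i => σ i j) := by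
    funext t
    unfold GG
    rw [ent_tilt hP, ← Finset.sum_add_sum_compl (act (marg σ P))]
    have : ∑ j ∈ (act (marg σ P))ᶜ, marg α (tilt P u t) j * f j (marg σ (tilt P u t) j) = 0 := by
      refine Finset.sum_eq_zero fun j hj => ?_
      have hj' := Finset.mem_compl.1 hj
      rw [marg_tilt σ, Et_congr u t (fun i hi => inactive H.zo hP hj' i hi), Et_const hP]
      rw [mem_act, not_and_or, not_lt, not_lt] at hj'
      rcases hj' with h | h
      · rw [le_antisymm h (marg_nonneg H.zo hP j), H.at0, mul_zero]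
      · rw [le_antisymm (marg_le_one H.zo hP j) h, H.at1, mul_zero]
    rw [this, add_zero]
    rfl
  rw [hfun]
  have a1 := hasDerivAt_Et hP u (fun i => log (P i)) t
  have a2 := (hasDerivAt_id t).mul (hasDerivAt_Et hP u u t)
  have a3 := hasDerivAt_logZ hP u t
  have a4 := HasDerivAt.fun_sum (u := act (marg σ P)) (x := t)
    (A := fun j t => Et P u t (fun i => α i j) * f j (Et P u t fun i => σ i j))
    (A' := fun j => f j (Et P u t fun i => σ i j) * Cv P u t (fun i => α i j) u +
          Et P u t (fun i => α i j) * f1 j (Et P u t fun i => σ i j) * Cv P u t (fun i => σ i j) u)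
    (fun j hj => by
      have b1 := (H.d1 j _ (active_tilt H.zo hP hj u t).1
        (active_tilt H.zo hP hj u t).2).comp t (hasDerivAt_Et hP u (fun i => σ i j) t)
      have b2 := (hasDerivAt_Et hP u (fun i => α i j) t).mul b1
      refine HasDerivAt.congr_deriv b2 ?_
      simp only [Function.comp]
      ring)
  refine HasDerivAt.congr_deriv (((a1.neg.sub a2).add a3).sub a4) ?_
  simp only [id]
  ring

theorem var_ineq2 (H : Pot φ α σ f f1 f2) (hP : P ∈ K φ)
    (hmin : ∀ P' ∈ K φ, GG α σ f P ≤ GG α σ f P') (u : ι → ℝ) (haffu : Aff φ P u) :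
    Cv P u 0 u u ≤ ∑ j ∈ act (marg σ P),
      ((-2 * f1 j (marg σ P j)) * (Cv P u 0 (fun i => α i j) u * Cv P u 0 (fun i => σ i j) u) +
        (-(marg α P j * f2 j (marg σ P j))) * Cv P u 0 (fun i => σ i j) u ^ 2) := by
  classical
  have hE0 : ∀ u : ι → ℝ, ∀ j, Et P u 0 (fun i => σ i j) = marg σ P j := fun u e => Et_zero hP.1 u _
  have hA0 : ∀ u : ι → ℝ, ∀ j, Et P u 0 (fun i => α i j) = marg α P j := fun u e => Et_zero hP.1 u _
  obtain ⟨u0, hu0⟩ : ∃ u0 : ι → ℝ, u0 = fun i => (log (P i) +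
      ∑ j ∈ act (marg σ P), f j (marg σ P j) * α i j) +
      ∑ j ∈ act (marg σ P), (marg α P j * f1 j (marg σ P j)) * σ i j := ⟨_, rfl⟩
  have haff : Aff φ P u0 := by
    rw [hu0]
    refine ((aff_log hP).add (aff_sum φ P α _ _ fun j => ?_)).add (aff_sum φ P σ _ _ fun j => ?_)
    · obtain ⟨c, θ, h⟩ := H.affα j
      exact aff_affine φ P h
    · obtain ⟨θ, h⟩ := H.affσ j
      exact aff_affine φ P (c := 0) (θ := θ) fun i => by rw [h, zero_add]
  have hlin : ∀ (w : ι → ℝ) (t : ℝ), Cv P w t u0 w = Cv P w t (fun i => log (P i)) w +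
      ∑ j ∈ act (marg σ P), (f j (marg σ P j) * Cv P w t (fun i => α i j) w +
        marg α P j * f1 j (marg σ P j) * Cv P w t (fun i => σ i j) w) := by
    intro w t
    have a2 := Cv_lin (φ := σ) P w t (fun i => log (P i) +
      ∑ j ∈ act (marg σ P), f j (marg σ P j) * α i j) w (act (marg σ P))
      (fun j => marg α P j * f1 j (marg σ P j))
    rw [← hu0, Cv_lin (φ := α)] at a2
    rw [a2, Finset.sum_add_distrib, add_assoc]
  have hloc : ∀ u, Aff φ P u → ∀ t, GG α σ f (tilt P u 0) ≤ GG α σ f (tilt P u t) := by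
    intro u hu t
    rw [tilt_zero hP.1]
    exact hmin _ (tilt_mem hP hu t)
  have h1 : Cv P u0 0 u0 u0 = 0 := by
    have a1 := IsLocalMin.hasDerivAt_eq_zero (Filter.Eventually.of_forall (hloc u0 haff))
      (GG_deriv H hP.1 u0 0)
    simp only [hE0, hA0] at a1
    linarith only [a1, hlin, hlin u0 0]
  have h2 : ∀ i, P i ≠ 0 → u0 i = ∑ j, P j * u0 j := by
    intro i hi
    rw [Cv_zero hP.1] at h1
    have := (Finset.sum_eq_zero_iff_of_nonneg
      (fun i _ => mul_nonneg (hP.1.1 i) (mul_self_nonneg _))).1 h1 i (mem_univ i)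
    have := (mul_eq_zero.1 this).resolve_left hi
    have := mul_self_eq_zero.1 this
    linarith
  have h3 : ∀ t, Cv P u t u0 u = 0 := by
    intro t
    unfold Cv
    rw [Et_congr u t h2, Et_const hP.1,
      Et_congr u t (h := fun i => (∑ j, P j * u0 j) * u i) (fun i hi => by rw [h2 i hi])]
    unfold Et
    rw [Finset.mul_sum, sub_eq_zero]
    exact Finset.sum_congr rfl fun i _ => by ring
  have h4 : ∀ t, HasDerivAt (fun t => GG α σ f (tilt P u t))
      (-(t * Cv P u t u u) - ∑ j ∈ act (marg σ P),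
        ((f j (Et P u t fun i => σ i j) - f j (marg σ P j)) * Cv P u t (fun i => α i j) u +
          (Et P u t (fun i => α i j) * f1 j (Et P u t fun i => σ i j) -
            marg α P j * f1 j (marg σ P j)) * Cv P u t (fun i => σ i j) u)) t := by
    intro t
    refine HasDerivAt.congr_deriv (GG_deriv H hP.1 u t) ?_
    have a2 := hlin u t
    rw [h3] at a2
    simp only [sub_mul, Finset.sum_sub_distrib, Finset.sum_add_distrib] at a2 ⊢
    linarith only [a2]
  obtain ⟨c0, hc0⟩ := differentiableAt_Cv hP.1 u u u 0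
  have h5 := ((hasDerivAt_id (0 : ℝ)).mul hc0).neg
  have h6 := HasDerivAt.fun_sum (u := act (marg σ P)) (x := (0 : ℝ))
    (A := fun j t => (f j (Et P u t fun i => σ i j) - f j (marg σ P j)) * Cv P u t (fun i => α i j) u +
          (Et P u t (fun i => α i j) * f1 j (Et P u t fun i => σ i j) -
            marg α P j * f1 j (marg σ P j)) * Cv P u t (fun i => σ i j) u)
    (A' := fun j => -((-2 * f1 j (marg σ P j)) *
        (Cv P u 0 (fun i => α i j) u * Cv P u 0 (fun i => σ i j) u) +
        (-(marg α P j * f2 j (marg σ P j))) * Cv P u 0 (fun i => σ i j) u ^ 2))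
    (fun j hj => by
      obtain ⟨c1, hc1⟩ := differentiableAt_Cv hP.1 u (fun i => α i j) u 0
      obtain ⟨c2, hc2⟩ := differentiableAt_Cv hP.1 u (fun i => σ i j) u 0
      have b1 := (H.d1 j _ (active_tilt H.zo hP.1 hj u 0).1
        (active_tilt H.zo hP.1 hj u 0).2).comp 0 (hasDerivAt_Et hP.1 u (fun i => σ i j) 0)
      have b2 := (H.d2 j _ (active_tilt H.zo hP.1 hj u 0).1
        (active_tilt H.zo hP.1 hj u 0).2).comp 0 (hasDerivAt_Et hP.1 u (fun i => σ i j) 0)
      have b3 := (hasDerivAt_Et hP.1 u (fun i => α i j) 0).mul b2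
      refine HasDerivAt.congr_deriv (((b1.sub_const (f j (marg σ P j))).mul hc1).add
        ((b3.sub_const (marg α P j * f1 j (marg σ P j))).mul hc2)) ?_
      simp only [Function.comp, hE0, hA0, Pi.mul_apply]
      ring)
  have h7 := second_order h4 (h5.sub h6) (by simp [hE0, hA0]) (hloc u haffu)
  simp only [id, Finset.sum_neg_distrib] at h7
  linarith

theorem trace_abs2 {V : Type*} [NormedAddCommGroup V] [InnerProductSpace ℝ V] [FiniteDimensional ℝ V]
    (ξ : E → V) (A B : J → V) (hA : ∀ j, A j ∈ Submodule.span ℝ (Set.range ξ))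
    (hB : ∀ j, B j ∈ Submodule.span ℝ (Set.range ξ)) (s : Finset J) (p q : J → ℝ)
    (h : ∀ η ∈ Submodule.span ℝ (Set.range ξ),
      ‖η‖ ^ 2 ≤ ∑ j ∈ s, (p j * (⟪A j, η⟫ * ⟪B j, η⟫) + q j * ⟪B j, η⟫ ^ 2))
    (T : Submodule ℝ (E → ℝ)) (hT : ∀ y ∈ T, ∃ ζ : V, ∀ e, y e = ⟪ξ e, ζ⟫) :
    (Module.finrank ℝ T : ℝ) ≤ ∑ j ∈ s, (p j * ⟪A j, B j⟫ + q j * ⟪B j, B j⟫) := by
  obtain ⟨W, hW⟩ : ∃ W, W = Submodule.span ℝ (Set.range ξ) := ⟨_, rfl⟩
  rw [← hW] at h hA hB
  have hξ : ∀ e, ξ e ∈ W := fun e => hW ▸ Submodule.subset_span ⟨e, rfl⟩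
  have h1 : Module.finrank ℝ T ≤ Module.finrank ℝ W := by
    let L : V →ₗ[ℝ] (E → ℝ) := LinearMap.pi fun e => (innerₗ V (ξ e))
    refine le_trans (Submodule.finrank_mono (t := W.map L) ?_) (Submodule.finrank_map_le L W)
    intro y hy
    obtain ⟨ζ, hζ⟩ := hT y hy
    obtain ⟨w, hw, z, hz, hwz⟩ := W.exists_add_mem_mem_orthogonal ζ
    refine ⟨w, hw, ?_⟩
    funext e
    rw [hζ e, hwz, inner_add_right, Submodule.inner_right_of_mem_orthogonal (hξ e) hz, add_zero]
    rfl
  refine le_trans (Nat.cast_le.2 h1) ?_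
  let b := stdOrthonormalBasis ℝ W
  have h2 : ∀ k, (1 : ℝ) ≤ ∑ j ∈ s, (p j * (⟪A j, (b k : V)⟫ * ⟪B j, (b k : V)⟫) +
      q j * ⟪B j, (b k : V)⟫ ^ 2) := by
    intro k
    have := h (b k) (b k).2
    rwa [Submodule.coe_norm (b k) |>.symm, b.orthonormal.1 k, one_pow] at this
  have h3 := Finset.sum_le_sum fun k (_ : k ∈ univ) => h2 k
  rw [Finset.sum_comm] at h3
  simp only [Finset.sum_const, card_univ, Fintype.card_fin, nsmul_eq_mul, mul_one] at h3
  refine h3.trans (le_of_eq (Finset.sum_congr rfl fun j _ => ?_))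
  have key : ∀ x y : V, x ∈ W → y ∈ W → ∑ k, ⟪x, (b k : V)⟫ * ⟪y, (b k : V)⟫ = ⟪x, y⟫ := by
    intro x y hx hy
    have := b.sum_inner_mul_inner (⟨x, hx⟩ : W) ⟨y, hy⟩
    simp only [Submodule.coe_inner] at this
    rw [← this]
    exact Finset.sum_congr rfl fun k _ => by rw [real_inner_comm y]
  rw [Finset.sum_add_distrib, ← Finset.mul_sum, ← Finset.mul_sum, key _ _ (hA j) (hB j)]
  simp only [sq]
  rw [key _ _ (hB j) (hB j)]

/-- the centred and weighted version of an observable -/
noncomputable def cen (P g : ι → ℝ) : EuclideanSpace ℝ ι :=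
  WithLp.toLp 2 fun i => √(P i) * (g i - ∑ k, P k * g k)

theorem inner_cen (hP : Smp P) (u g h : ι → ℝ) : ⟪cen P g, cen P h⟫ = Cv P u 0 g h := by
  rw [Cv_zero hP, PiLp.inner_apply]
  refine Finset.sum_congr rfl fun i _ => ?_
  have hsq : √(P i) * √(P i) = P i := Real.mul_self_sqrt (hP.1 i)
  simp only [cen, RCLike.inner_apply, conj_trivial]
  conv_rhs => rw [← hsq]
  ring

theorem cen_affine (hP : Smp P) {g : ι → ℝ} {c : ℝ} {θ : E → ℝ} (h : ∀ i, g i = c + dot θ (φ i)) :
    cen P g = ∑ e, θ e • cen P (fun i => φ i e) := by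
  ext i
  have hm : ∑ k, P k * g k = c + ∑ e, θ e * ∑ k, P k * φ k e := by
    simp only [h, mul_add, Finset.sum_add_distrib, ← Finset.sum_mul, hP.2, one_mul, dot,
      Finset.mul_sum]
    rw [Finset.sum_comm]
    congr 1
    exact Finset.sum_congr rfl fun e _ => Finset.sum_congr rfl fun i _ => by ring
  simp only [cen, WithLp.ofLp_sum, Finset.sum_apply, WithLp.ofLp_smul, Pi.smul_apply, smul_eq_mul]
  rw [hm, h, add_sub_add_left_eq_sub, dot, ← Finset.sum_sub_distrib, Finset.mul_sum]
  exact Finset.sum_congr rfl fun e _ => by ring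

theorem dir_repr [Nonempty ι] (hP : P ∈ K φ) {y : E → ℝ} {δ : ℝ} (hδ : 0 < δ)
    (g1 : Good φ (marg φ P + δ • y)) (g2 : Good φ (marg φ P - δ • y)) :
    ∃ ζ : EuclideanSpace ℝ ι, ∀ e, y e = ⟪cen P (fun i => φ i e), ζ⟫ := by
  obtain ⟨Q1, hQ1, m1⟩ := exists_marg g1
  obtain ⟨Q2, hQ2, m2⟩ := exists_marg g2
  have hs : ∀ i, P i = 0 → (Q1 i + Q2 i) / 2 = 0 := by
    refine supp_max hP (Q := fun i => (Q1 i + Q2 i) / 2)
      ⟨fun i => by linarith only [hQ1, hQ2, hQ1.1.1 i, hQ2.1.1 i], ?_⟩ ?_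
    · rw [← Finset.sum_div, Finset.sum_add_distrib, hQ1.1.2, hQ2.1.2]; norm_num
    · intro e
      have a1 := congrFun m1 e
      have a2 := congrFun m2 e
      simp only [Pi.add_apply, Pi.sub_apply, Pi.smul_apply, smul_eq_mul] at a1 a2
      have : marg φ (fun i => (Q1 i + Q2 i) / 2) e = (marg φ Q1 e + marg φ Q2 e) / 2 := by
        unfold marg
        rw [← Finset.sum_add_distrib, Finset.sum_div]
        exact Finset.sum_congr rfl fun i _ => by ring
      rw [this]
      linarith only [a1, a2]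
  refine ⟨WithLp.toLp 2 fun i => (Q1 i - Q2 i) / (2 * δ) / √(P i), fun e => ?_⟩
  rw [PiLp.inner_apply]
  have : ∀ i, ⟪cen P (fun i => φ i e) i,
      (WithLp.toLp 2 fun i => (Q1 i - Q2 i) / (2 * δ) / √(P i) : EuclideanSpace ℝ ι) i⟫ =
      (Q1 i * φ i e - Q2 i * φ i e - (Q1 i - Q2 i) * marg φ P e) / (2 * δ) := by
    intro i
    simp only [cen, RCLike.inner_apply, conj_trivial]
    change _ * (_ * (_ - marg φ P e)) = _
    rcases (hP.1.1 i).eq_or_lt with h | h
    · have := hs i h.symm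
      have b1 : Q1 i = 0 := by linarith only [hQ1, this, hQ2, hQ1.1.1 i, hQ2.1.1 i]
      have b2 : Q2 i = 0 := by linarith only [this, b1, hQ1.1.1 i, hQ2.1.1 i]
      simp [b1, b2]
    · have := (Real.sqrt_pos.2 h).ne'
      field_simp
  simp only [this]
  rw [← Finset.sum_div, Finset.sum_sub_distrib, Finset.sum_sub_distrib, ← Finset.sum_mul,
    Finset.sum_sub_distrib, hQ1.1.2, hQ2.1.2]
  have a1 := congrFun m1 e
  have a2 := congrFun m2 e
  simp only [Pi.add_apply, Pi.sub_apply, Pi.smul_apply, smul_eq_mul] at a1 a2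
  change y e = (marg φ Q1 e - marg φ Q2 e - _) / _
  rw [a1, a2]
  field_simp
  ring

theorem trace_bound2 [Nonempty ι] (H : Pot φ α σ f f1 f2) (hP : P ∈ K φ)
    (hmin : ∀ P' ∈ K φ, GG α σ f P ≤ GG α σ f P') (T : Submodule ℝ (E → ℝ))
    (hT : ∀ y ∈ T, ∃ δ : ℝ, 0 < δ ∧ Good φ (marg φ P + δ • y) ∧ Good φ (marg φ P - δ • y)) :
    (Module.finrank ℝ T : ℝ) ≤ ∑ j ∈ act (marg σ P),
      (-2 * f1 j (marg σ P j) * (∑ i, P i * (α i j * σ i j) - marg α P j * marg σ P j) -
        marg α P j * f2 j (marg σ P j) * (marg σ P j * (1 - marg σ P j))) := by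
  classical
  have hsp : ∀ (g : ι → ℝ) (c : ℝ) (θ : E → ℝ), (∀ i, g i = c + dot θ (φ i)) →
      cen P g ∈ Submodule.span ℝ (Set.range fun e => cen P fun i => φ i e) := by
    intro g c θ h
    rw [cen_affine hP.1 h]
    exact Submodule.sum_mem _ fun e _ => Submodule.smul_mem _ _ (Submodule.subset_span ⟨e, rfl⟩)
  have key := trace_abs2 (fun e => cen P fun i => φ i e) (fun j => cen P fun i => α i j)
    (fun j => cen P fun i => σ i j) (fun j => ?_) (fun j => ?_) (act (marg σ P))
    (fun j => -2 * f1 j (marg σ P j)) (fun j => -(marg α P j * f2 j (marg σ P j))) ?_ T ?_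
  · refine key.trans (le_of_eq (Finset.sum_congr rfl fun j _ => ?_))
    rw [inner_cen hP.1 0, inner_cen hP.1 0]
    unfold Cv
    simp only [Et_zero hP.1]
    have : ∑ i, P i * (σ i j * σ i j) = marg σ P j :=
      Finset.sum_congr rfl fun i _ => by rcases H.zo i j with h | h <;> simp [h]
    rw [this]
    unfold marg
    ring
  · obtain ⟨c, θ, h⟩ := H.affα j
    exact hsp _ c θ h
  · obtain ⟨θ, h⟩ := H.affσ j
    exact hsp _ 0 θ fun i => by rw [h, zero_add]
  · intro η hη
    obtain ⟨θ, hθ⟩ := (Submodule.mem_span_range_iff_exists_fun ℝ).1 hη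
    have hη' : η = cen P fun i => dot θ (φ i) := by
      rw [← hθ, cen_affine hP.1 (c := 0) (θ := θ) fun i => (zero_add _).symm]
    have hv := var_ineq2 H hP hmin _ (aff_dot φ P θ)
    rw [hη', ← real_inner_self_eq_norm_sq]
    simp only [inner_cen hP.1 (fun i => dot θ (φ i))]
    exact hv
  · intro y hy
    obtain ⟨δ, hδ, g1, g2⟩ := hT y hy
    exact dir_repr hP hδ g1 g2

end Pool.Agent.Work.MP_33747a_co.EK
end

-- merged part: Pool.Agent.Work.MP_33747a_co.S3
section
/-! Terms `x e * chi (x A)` in the potential, and the inequalities on a single star. -/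

set_option autoImplicit false
set_option linter.unusedSectionVars false

namespace Pool.Agent.Work.MP_33747a_co.EK

open Finset Real

/-- the function `(1 - s) log (1 - s) / s` -/
noncomputable def xi0 (s : ℝ) : ℝ := -negMulLog (1 - s) / s

noncomputable def xi1 (s : ℝ) : ℝ := -(s + log (1 - s)) / s ^ 2

noncomputable def xi2 (s : ℝ) : ℝ := 1 / (s * (1 - s)) + 2 * (s + log (1 - s)) / s ^ 3

theorem hasDerivAt_xi0 {s : ℝ} (h0 : 0 < s) (h1 : s < 1) : HasDerivAt xi0 (xi1 s) s := by
  have a0 : HasDerivAt (fun b : ℝ => 1 - b) (-1) s := by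
    simpa using (hasDerivAt_id s).const_sub 1
  have a2 := (Real.hasDerivAt_negMulLog (sub_pos.2 h1).ne').comp s a0
  refine HasDerivAt.congr_deriv (a2.neg.div (hasDerivAt_id s) h0.ne') ?_
  simp only [xi1, Function.comp, negMulLog, Pi.neg_apply]
  field_simp
  ring

theorem hasDerivAt_xi1 {s : ℝ} (h0 : 0 < s) (h1 : s < 1) : HasDerivAt xi1 (xi2 s) s := by
  have a0 : HasDerivAt (fun b : ℝ => 1 - b) (-1) s := by
    simpa using (hasDerivAt_id s).const_sub 1
  have a2 := a0.log (sub_pos.2 h1).ne'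
  refine HasDerivAt.congr_deriv (((hasDerivAt_id s).add a2).neg.div (hasDerivAt_pow 2 s)
    (pow_pos h0 2).ne') ?_
  have := (sub_pos.2 h1).ne'
  simp only [xi2, id, Pi.neg_apply, Pi.add_apply]
  field_simp
  ring

theorem xi_ode {s : ℝ} (h0 : 0 < s) (h1 : s < 1) :
    2 * xi1 s * (1 - s) + xi2 s * (s * (1 - s)) = 1 := by
  have := (sub_pos.2 h1).ne'
  unfold xi1 xi2
  field_simp
  ring

theorem continuous_xi : Continuous (dslope (fun s : ℝ => -negMulLog (1 - s)) 0) := by
  have hc : Continuous fun s : ℝ => -negMulLog (1 - s) :=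
    (Real.continuous_negMulLog.comp (continuous_const.sub continuous_id)).neg
  rw [continuous_iff_continuousAt]
  intro s
  by_cases h : s = 0
  · subst h
    rw [continuousAt_dslope_same]
    have a0 : HasDerivAt (fun b : ℝ => 1 - b) (-1) 0 := by
      simpa using (hasDerivAt_id (0 : ℝ)).const_sub 1
    have a2 := (Real.hasDerivAt_negMulLog (x := 1 - 0) (by norm_num)).comp 0 a0
    exact a2.neg.differentiableAt
  · exact (continuousAt_dslope_of_ne h).2 hc.continuousAt

theorem xi0_eq {s : ℝ} (h : s ≠ 0) : xi0 s = dslope (fun s : ℝ => -negMulLog (1 - s)) 0 s := by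
  rw [dslope_of_ne _ h, slope_def_field]
  simp [xi0]

open Classical in
/-- indicator of the open unit interval -/
noncomputable def ia (s : ℝ) : ℝ := if 0 < s ∧ s < 1 then 1 else 0

theorem ia_nonneg (s : ℝ) : 0 ≤ ia s := by
  unfold ia; split_ifs <;> norm_num

variable {ι E J : Type*} [Fintype ι] [Fintype E] [Fintype J] [DecidableEq E]

theorem trace_bound3 [Nonempty ι] {φ : ι → E → ℝ} {P : ι → ℝ} (hφ : ZO φ) (hP : P ∈ K φ)
    (κ : E → ℝ) (c : J → ℝ) (ed : J → E) (A : J → Finset E) (hA : ∀ j, ed j ∈ A j)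
    (hσ : ZO fun i j => ∑ e ∈ A j, φ i e)
    (hmin : ∀ P' ∈ K φ, G φ κ P - ∑ j, c j * marg φ P (ed j) * xi0 (∑ e ∈ A j, marg φ P e) ≤
      G φ κ P' - ∑ j, c j * marg φ P' (ed j) * xi0 (∑ e ∈ A j, marg φ P' e))
    (T : Submodule ℝ (E → ℝ))
    (hT : ∀ y ∈ T, ∃ δ : ℝ, 0 < δ ∧ Good φ (marg φ P + δ • y) ∧ Good φ (marg φ P - δ • y)) :
    (Module.finrank ℝ T : ℝ) ≤ ∑ e ∈ act (marg φ P), (1 - marg φ P e - κ e * marg φ P e) -
      ∑ j, c j * marg φ P (ed j) * ia (∑ e ∈ A j, marg φ P e) := by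
  classical
  let α : ι → E ⊕ J → ℝ := fun i => Sum.elim (fun _ => 1) fun j => c j * φ i (ed j)
  let σ : ι → E ⊕ J → ℝ := fun i => Sum.elim (φ i) fun j => ∑ e ∈ A j, φ i e
  have H : Pot φ α σ (Sum.elim (fun e => psi (κ e)) fun _ => xi0)
      (Sum.elim (fun e => psi1 (κ e)) fun _ => xi1)
      (Sum.elim (fun e b => -(1 / b - κ e / (1 - b))) fun _ => xi2) := by
    refine ⟨?_, ?_, ?_, ?_, ?_, ?_, ?_⟩
    · rintro i (e | j)
      · exact hφ i e
      · exact hσ i j
    · rintro (e | j)
      · exact ⟨1, 0, fun i => by simp [α, dot]⟩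
      · exact ⟨0, Pi.single (ed j) (c j), fun i => by simp [α, dot, Pi.single_apply]⟩
    · rintro (e | j)
      · exact ⟨Pi.single e 1, fun i => by simp [σ, dot, Pi.single_apply]⟩
      · exact ⟨fun e => if e ∈ A j then 1 else 0, fun i => by simp [σ, dot]⟩
    · rintro (e | j) <;> simp [psi, xi0]
    · rintro (e | j) <;> simp [psi, xi0]
    · rintro (e | j) s h0 h1
      · exact hasDerivAt_psi _ h0 h1
      · exact hasDerivAt_xi0 h0 h1
    · rintro (e | j) s h0 h1
      · exact hasDerivAt_psi1 _ h0 h1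
      · exact hasDerivAt_xi1 h0 h1
  have a1 : ∀ P' : ι → ℝ, Smp P' → ∀ e, marg α P' (Sum.inl e) = 1 := fun P' h e => by
    simp [marg, α, h.2]
  have a2 : ∀ (P' : ι → ℝ) j, marg α P' (Sum.inr j) = c j * marg φ P' (ed j) := fun P' j => by
    simp only [marg, α, Sum.elim_inr, Finset.mul_sum]
    exact Finset.sum_congr rfl fun i _ => by ring
  have a3 : ∀ (P' : ι → ℝ) e, marg σ P' (Sum.inl e) = marg φ P' e := fun P' e => rfl
  have a4 : ∀ (P' : ι → ℝ) j, marg σ P' (Sum.inr j) = ∑ e ∈ A j, marg φ P' e := fun P' j => by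
    simp only [marg, σ, Sum.elim_inr, Finset.mul_sum]
    exact Finset.sum_comm
  have a5 : ∀ P' : ι → ℝ, Smp P' → GG α σ (Sum.elim (fun e => psi (κ e)) fun _ => xi0) P' =
      G φ κ P' - ∑ j, c j * marg φ P' (ed j) * xi0 (∑ e ∈ A j, marg φ P' e) := fun P' h => by
    unfold GG G
    simp only [Fintype.sum_sum_type, a1 P' h, a2, a3, a4, Sum.elim_inl, Sum.elim_inr, one_mul]
    ring
  have key := trace_bound2 H hP (fun P' h => by rw [a5 P hP.1, a5 P' h.1]; exact hmin P' h) T hT
  refine key.trans (le_of_eq ?_)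
  unfold act
  rw [Finset.sum_filter, Finset.sum_filter, Fintype.sum_sum_type, sub_eq_add_neg _ (∑ j, _),
    ← Finset.sum_neg_distrib]
  congr 1
  · refine Finset.sum_congr rfl fun e _ => ?_
    rw [a3, a1 P hP.1]
    split_ifs with h
    · have b1 : ∑ i, P i * (α i (Sum.inl e) * σ i (Sum.inl e)) = marg φ P e := by
        simp [α, σ, marg]
      have h2 := h.1.ne'
      have h3 := (sub_pos.2 h.2).ne'
      rw [b1]
      simp only [Sum.elim_inl]
      field_simp
      ring
    · rfl
  · refine Finset.sum_congr rfl fun j _ => ?_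
    rw [a4, a2]
    unfold ia
    split_ifs with h
    · have b1 : ∑ i, P i * (α i (Sum.inr j) * σ i (Sum.inr j)) = c j * marg φ P (ed j) := by
        rw [← a2]
        refine Finset.sum_congr rfl fun i _ => ?_
        simp only [α, σ, Sum.elim_inr]
        rcases hφ i (ed j) with h0 | h0
        · simp [h0]
        · have b2 : φ i (ed j) ≤ ∑ e ∈ A j, φ i e :=
            Finset.single_le_sum (fun e _ => hφ.nonneg i e) (hA j)
          rcases hσ i j with h1 | h1
          · simp only at h1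
            linarith only [h, h0, b2, h1]
          · simp only at h1
            rw [h1, mul_one]
      rw [b1]
      simp only [Sum.elim_inr]
      linear_combination (-(c j * marg φ P (ed j))) * xi_ode h.1 h.2
    · simp

/-- the star term with inner edges `I` and outer mass `m` -/
noncomputable def st (g : ℝ → ℝ) (I : Finset E) (x : E → ℝ) (m : ℝ) : ℝ :=
  ∑ e ∈ I, x e / 2 * (g (x e + m) + ∑ f ∈ I.erase e, (g (x e + x f) - g (x e)))

theorem st_nonneg {I : Finset E} {x : E → ℝ} {m : ℝ} (hx : ∀ e, 0 ≤ x e) (hm : 0 ≤ m)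
    (h : ∑ e ∈ I, x e + m = 1) : 0 ≤ st ia I x m := by
  refine Finset.sum_nonneg fun e he => ?_
  rcases (hx e).eq_or_lt with h0 | h0
  · simp [← h0]
  refine mul_nonneg (by linarith only [h0]) ?_
  have h2 : x e + ∑ f ∈ I.erase e, x f = ∑ f ∈ I, x f := Finset.add_sum_erase I x he
  have h3 : 0 ≤ ∑ f ∈ I.erase e, x f := Finset.sum_nonneg fun f _ => hx f
  by_cases h1 : x e < 1
  · have h4 : 0 < 1 - x e := sub_pos.2 h1
    have h5 : -(∑ f ∈ I.erase e, x f) / (1 - x e) ≤
        ∑ f ∈ I.erase e, (ia (x e + x f) - ia (x e)) := by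
      rw [← Finset.sum_neg_distrib, Finset.sum_div]
      refine Finset.sum_le_sum fun f _ => ?_
      have b1 : ia (x e) = 1 := if_pos ⟨h0, h1⟩
      rw [b1, div_le_iff₀ h4]
      by_cases b2 : x e + x f < 1
      · have b3 : ia (x e + x f) = 1 := if_pos ⟨by linarith [hx f], b2⟩
        rw [b3]
        linarith [hx f]
      · have b3 : ia (x e + x f) = 0 := if_neg fun h => b2 h.2
        rw [b3]
        linarith
    refine le_trans ?_ (add_le_add_right h5 _)
    by_cases b2 : x e + m < 1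
    · have b3 : ia (x e + m) = 1 := if_pos ⟨by linarith only [hm, h0], b2⟩
      rw [b3, neg_div, ← sub_eq_add_neg, sub_nonneg, div_le_one h4]
      linarith
    · have b3 : ∑ f ∈ I.erase e, x f = 0 := by linarith only [h3, h, h2, b2]
      rw [b3]
      simpa using ia_nonneg _
  · have b1 : ia (x e) = 0 := if_neg fun h => h1 h.2
    rw [b1]
    exact add_nonneg (ia_nonneg _) (Finset.sum_nonneg fun f _ => by simpa using ia_nonneg _)

theorem st_big {I : Finset E} {x : E → ℝ} {m : ℝ} (hx : ∀ e, 0 ≤ x e) (hm : 0 ≤ m)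
    (h : ∑ e ∈ I, x e + m = 1) (h1 : ∀ e ∈ I, x e + m < 1)
    (h2 : ∀ e ∈ I, ∀ f ∈ I.erase e, x e + x f < 1) : st ia I x m = (1 - m) / 2 := by
  rw [← h, add_sub_cancel_right, Finset.sum_div]
  refine Finset.sum_congr rfl fun e he => ?_
  rcases (hx e).eq_or_lt with h0 | h0
  · simp [← h0]
  have b1 : ia (x e + m) = 1 := if_pos ⟨by linarith, h1 e he⟩
  have b2 : ia (x e) = 1 := if_pos ⟨h0, by linarith [h1 e he]⟩
  have b3 : ∀ f ∈ I.erase e, ia (x e + x f) - ia (x e) = 0 := fun f hf => by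
    have : ia (x e + x f) = 1 := if_pos ⟨by linarith [hx f], h2 e he f hf⟩
    rw [this, b2, sub_self]
  rw [b1, Finset.sum_eq_zero b3]
  ring

end Pool.Agent.Work.MP_33747a_co.EK
end

-- merged part: Pool.Agent.Work.MP_33747a_co.S4
section
/-! The entropy bound with star terms. -/

set_option autoImplicit false
set_option linter.unusedSectionVars false

namespace Pool.Agent.Work.MP_33747a_co.EK

open Finset Real

variable {V E : Type*} [Fintype E] [DecidableEq V] [DecidableEq E]

open Classical in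
/-- inner edges at `v` -/
noncomputable def Iv (a b : E → V) (U : Finset V) (v : V) : Finset E :=
  univ.filter fun e => cut a b {v} e = 1 ∧ cut a b U e = 0

open Classical in
/-- outer edges at `v` -/
noncomputable def Ov (a b : E → V) (U : Finset V) (v : V) : Finset E :=
  univ.filter fun e => cut a b {v} e = 1 ∧ cut a b U e = 1

noncomputable def St (a b : E → V) (U : Finset V) (g : ℝ → ℝ) (x : E → ℝ) : ℝ :=
  ∑ v ∈ U, st g (Iv a b U v) x (∑ e ∈ Ov a b U v, x e)

/-- the free energy functional with star terms -/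
noncomputable def Psf2 (a b : E → V) (U : Finset V) (ε : ℝ) (x : E → ℝ) : ℝ :=
  ∑ e, negMulLog (x e) - (1 + ε) * dot (nm x) (ins a b U) - FF (dot (nm x) (cut a b U)) +
    St a b U xi0 x

variable {a b : E → V} {U : Finset V} {x : E → ℝ} {v : V} {e : E}

theorem mem_Iv : e ∈ Iv a b U v ↔ cut a b {v} e = 1 ∧ cut a b U e = 0 := by simp [Iv]

theorem mem_Ov : e ∈ Ov a b U v ↔ cut a b {v} e = 1 ∧ cut a b U e = 1 := by simp [Ov]

theorem notMem_Ov (h : e ∈ Iv a b U v) : e ∉ Ov a b U v := fun h' =>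
  zero_ne_one ((mem_Iv.1 h).2.symm.trans (mem_Ov.1 h').2)

theorem sum_Ov (x : E → ℝ) : ∑ e ∈ Ov a b U v, x e = mo a b U x v := by
  unfold Ov mo dot
  rw [Finset.sum_filter]
  refine Finset.sum_congr rfl fun e _ => ?_
  rcases cut_zo a b {v} e with h | h <;> rcases cut_zo a b U e with h' | h' <;> simp [h, h']

theorem sum_Iv_Ov (x : E → ℝ) :
    ∑ e ∈ Iv a b U v, x e + ∑ e ∈ Ov a b U v, x e = dot x (cut a b {v}) := by
  unfold Iv Ov dot
  rw [Finset.sum_filter, Finset.sum_filter, ← Finset.sum_add_distrib]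
  refine Finset.sum_congr rfl fun e _ => ?_
  rcases cut_zo a b {v} e with h | h <;> rcases cut_zo a b U e with h' | h' <;> simp [h, h']

theorem star_sum_le (hx : ∀ e, 0 ≤ x e) {c : E → ℝ} (hc : ZO1 c) {A : Finset E}
    (hA : ∀ e ∈ A, c e = 1) : ∑ e ∈ A, x e ≤ dot x c := by
  rw [Finset.sum_congr rfl fun e he => (show x e = x e * c e by rw [hA e he, mul_one])]
  exact Finset.sum_le_sum_of_subset_of_nonneg (subset_univ A) fun e _ _ =>
    mul_nonneg (hx e) (hc.nonneg e)

theorem star_sum_lt (hx : ∀ e, 0 ≤ x e) {c : E → ℝ} (hc : ZO1 c) {A : Finset E}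
    (hA : ∀ e ∈ A, c e = 1) (h : A.card < (sup1 x c).card) : ∑ e ∈ A, x e < dot x c := by
  obtain ⟨g, hg, hg'⟩ := Finset.exists_mem_notMem_of_card_lt_card h
  have h1 := star_sum_le hx hc (A := insert g A) (fun e he => by
    rcases mem_insert.1 he with rfl | he
    · exact (mem_sup1.1 hg).2
    · exact hA e he)
  rw [sum_insert hg'] at h1
  have := lt_of_le_of_ne (hx g) (mem_sup1.1 hg).1.symm
  linarith only [h1, this]

theorem star_zo {z c : E → ℝ} (hz : ZO1 z) (hc : ZO1 c) (h : dot z c = 1) {A : Finset E}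
    (hA : ∀ e ∈ A, c e = 1) : ∑ e ∈ A, z e = 0 ∨ ∑ e ∈ A, z e = 1 := by
  have h1 := star_sum_le hz.nonneg hc hA
  obtain ⟨n, hn⟩ := dot_nat hz (c := fun e => if e ∈ A then 1 else 0)
    (fun e => by by_cases he : e ∈ A <;> simp [he])
  have h2 : ∑ e ∈ A, z e = n := by rw [← hn]; simp [dot]
  rw [h2, h] at h1
  rw [h2]
  have : n ≤ 1 := by exact_mod_cast h1
  interval_cases n <;> simp

/-- index set of the star terms -/
abbrev JJ (U : Finset V) (E : Type*) := U × E × Option (Bool × E)

noncomputable def jc (a b : E → V) (U : Finset V) : JJ U E → ℝ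
  | (v, e, none) => if e ∈ Iv a b U v then 1 / 2 else 0
  | (v, e, some (true, f)) => if e ∈ Iv a b U v ∧ f ∈ (Iv a b U v).erase e then 1 / 2 else 0
  | (v, e, some (false, f)) => if e ∈ Iv a b U v ∧ f ∈ (Iv a b U v).erase e then -(1 / 2) else 0

noncomputable def jA (a b : E → V) (U : Finset V) : JJ U E → Finset E
  | (v, e, none) => if e ∈ Iv a b U v then insert e (Ov a b U v) else {e}
  | (v, e, some (true, f)) => if e ∈ Iv a b U v ∧ f ∈ (Iv a b U v).erase e then {e, f} else {e}
  | (_, e, some (false, _)) => {e}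

theorem jA_mem (j : JJ U E) : j.2.1 ∈ jA a b U j := by
  rcases j with ⟨v, e, _ | ⟨_ | _, f⟩⟩ <;> simp only [jA]
  · split_ifs <;> simp
  · simp
  · split_ifs <;> simp

theorem jA_zo {z : E → ℝ} (hz : ZO1 z) (hd : ∀ v ∈ U, dot z (cut a b {v}) = 1) (j : JJ U E) :
    ∑ e ∈ jA a b U j, z e = 0 ∨ ∑ e ∈ jA a b U j, z e = 1 := by
  rcases j with ⟨v, e, _ | ⟨_ | _, f⟩⟩ <;> simp only [jA]
  · split_ifs with h
    · refine star_zo hz (cut_zo a b {v.1}) (hd v v.2) fun g hg => ?_
      rcases mem_insert.1 hg with rfl | hg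
      · exact (mem_Iv.1 h).1
      · exact (mem_Ov.1 hg).1
    · simpa using hz e
  · simpa using hz e
  · split_ifs with h
    · refine star_zo hz (cut_zo a b {v.1}) (hd v v.2) fun g hg => ?_
      rcases mem_insert.1 hg with rfl | hg
      · exact (mem_Iv.1 h.1).1
      · rw [mem_singleton.1 hg]
        exact (mem_Iv.1 (mem_of_mem_erase h.2)).1
    · simpa using hz e

theorem St_eq (g : ℝ → ℝ) (x : E → ℝ) :
    ∑ j : JJ U E, jc a b U j * x j.2.1 * g (∑ e ∈ jA a b U j, x e) = St a b U g x := by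
  unfold St st
  rw [Fintype.sum_prod_type, ← Finset.sum_coe_sort U]
  refine Finset.sum_congr rfl fun v _ => ?_
  rw [Fintype.sum_prod_type, ← Finset.sum_subset (subset_univ (Iv a b U v))]
  · refine Finset.sum_congr rfl fun e he => ?_
    rw [Fintype.sum_option, Fintype.sum_prod_type, Fintype.sum_bool]
    simp only [jc, jA, he, if_true, true_and, sum_insert (notMem_Ov he), sum_singleton]
    rw [mul_add, Finset.mul_sum, ← Finset.sum_add_distrib,
      ← Finset.sum_subset (subset_univ ((Iv a b U v).erase e))]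
    · congr 1
      · ring
      · refine Finset.sum_congr rfl fun f hf => ?_
        simp only [hf, if_true, sum_pair (ne_of_mem_erase hf).symm]
        ring
    · intro f _ hf
      simp [hf]
  · intro e _ he
    rw [Fintype.sum_option, Fintype.sum_prod_type, Fintype.sum_bool]
    simp [jc, he]

theorem St_ge {d d' : ℝ} {U' : Finset V} (h : Q a b U d x) (hO : ∀ v ∈ U, (Ov a b U v).card ≤ 1)
    (hsub : U' ⊆ U) (hQ : Q a b U' d' (frac x))
    (hcU : ∀ e ∈ act x, cut a b U e = cut a b U' e) :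
    ∑ v ∈ U', big (frac x) (cut a b {v}) * (1 - mo a b U' (frac x) v) ≤ 2 * St a b U ia x := by
  have hm : ∀ v, 0 ≤ ∑ e ∈ Ov a b U v, x e := fun v => Finset.sum_nonneg fun e _ => h.nonneg e
  have h0 : ∀ v ∈ U, 0 ≤ st ia (Iv a b U v) x (∑ e ∈ Ov a b U v, x e) := fun v hv =>
    st_nonneg h.nonneg (hm v) (by rw [sum_Iv_Ov, h.deg v hv])
  unfold St
  rw [Finset.mul_sum]
  refine le_trans (Finset.sum_le_sum fun v hv => ?_)
    (Finset.sum_le_sum_of_subset_of_nonneg hsub fun v hv _ => by linarith [h0 v hv])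
  by_cases hb : 3 ≤ (sup1 (frac x) (cut a b {v})).card
  · have hb' : 3 ≤ (sup1 x (cut a b {v})).card := by
      refine hb.trans (card_le_card fun e he => ?_)
      rw [mem_sup1] at he ⊢
      exact ⟨(mem_act.1 (frac_ne he.1)).1.ne', he.2⟩
    have hdeg := h.deg v (hsub hv)
    rw [st_big h.nonneg (hm v) (by rw [sum_Iv_Ov, hdeg]) (fun e he => ?_) (fun e he f hf => ?_),
      big, if_pos hb, sum_Ov]
    · have e1 := frac_add_sure h.nonneg h.le_one
      have e2 : dot (sure x) (cut a b {v}) = 0 := by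
        have := dot_add_left (frac x) (sure x) (cut a b {v})
        rw [e1, hdeg, hQ.deg v hv] at this
        linarith only [this]
      have e3 := mo_le (a := a) (b := b) (U := U) (sure_zo x).nonneg v
      have e4 : mo a b U x v = mo a b U (frac x) v + mo a b U (sure x) v := by
        unfold mo
        rw [← dot_add_left, e1]
      have e5 : mo a b U (frac x) v = mo a b U' (frac x) v :=
        dot_congr fun e he => by rw [hcU e (frac_ne he)]
      linarith only [e2, e3, e4, e5]
    · have := star_sum_lt h.nonneg (cut_zo a b {v}) (A := insert e (Ov a b U v)) (fun g hg => by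
        rcases mem_insert.1 hg with rfl | hg
        · exact (mem_Iv.1 he).1
        · exact (mem_Ov.1 hg).1) (by
          have := card_insert_le e (Ov a b U v)
          have := hO v (hsub hv)
          omega)
      rwa [sum_insert (notMem_Ov he), hdeg] at this
    · have := star_sum_lt h.nonneg (cut_zo a b {v}) (A := {e, f}) (fun g hg => by
        rcases mem_insert.1 hg with rfl | hg
        · exact (mem_Iv.1 he).1
        · rw [mem_singleton.1 hg]
          exact (mem_Iv.1 (mem_of_mem_erase hf)).1) (by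
          have := card_le_two (a := e) (b := f)
          omega)
      rwa [sum_pair (ne_of_mem_erase hf).symm, hdeg] at this
  · rw [big, if_neg hb, zero_mul]
    linarith only [h0, hsub, hv, h0 v (hsub hv)]

/-- the dimension of the face exceeds the trace unless the point is integral -/
theorem dim_gt2 {d : ℕ} (hpar : Even (U.card + d)) (h : Q a b U d x)
    (hO : ∀ v ∈ U, (Ov a b U v).card ≤ 1) {ε : ℝ} (hε : 0 < ε)
    (hne : (act x).Nonempty) : ∃ T : Submodule ℝ (E → ℝ),
      (∀ y ∈ T, ∃ δ : ℝ, 0 < δ ∧ Q a b U d (x + δ • y) ∧ Q a b U d (x - δ • y)) ∧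
      ∑ e ∈ act x, (1 - x e - ((1 + ε) * ins a b U e +
        2 / max (2 * dot (nm x) (cut a b U)) 1 * cut a b U e) * x e) - St a b U ia x <
        Module.finrank ℝ T := by
  classical
  obtain ⟨U', d', hsub, hQ, -, f4, f5⟩ := split h hpar
  have hU' : U'.Nonempty := by
    obtain ⟨e, he⟩ := hne
    rcases (hQ.valid e (by rw [frac_of_act he]; exact (mem_act.1 he).1.ne')).2 with h1 | h1
    · exact ⟨_, h1⟩
    · exact ⟨_, h1⟩
  have hcU : ∀ e ∈ act x, cut a b U e = cut a b U' e := fun e he => by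
    simp only [cut, (f4 e he).1, (f4 e he).2]
  have hiU : ∀ e ∈ act x, ins a b U e = ins a b U' e := fun e he => by
    simp only [ins, (f4 e he).1, (f4 e he).2]
  obtain ⟨ρ, hρ⟩ : ∃ ρ, ρ = 2 / max (2 * dot (nm x) (cut a b U)) 1 := ⟨_, rfl⟩
  rw [← hρ]
  have hsum : ∑ e ∈ act x, (1 - x e - ((1 + ε) * ins a b U e + ρ * cut a b U e) * x e) =
      (act x).card - (2 + ε) * dot (frac x) (ins a b U') - (1 + ρ) * d' := by
    have e1 : ∀ c : E → ℝ, dot (frac x) c = ∑ e ∈ act x, x e * c e := by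
      intro c
      unfold dot frac
      simp only [ite_mul, zero_mul, Finset.sum_ite_mem, univ_inter]
    rw [← hQ.tot, e1, e1, Finset.mul_sum, Finset.mul_sum, card_eq_sum_ones, Nat.cast_sum,
      ← Finset.sum_sub_distrib, ← Finset.sum_sub_distrib]
    refine Finset.sum_congr rfl fun e he => ?_
    have h1 := (hQ.valid e (by rw [frac_of_act he]; exact (mem_act.1 he).1.ne')).2
    have h2 : ins a b U' e + cut a b U' e = 1 := by
      unfold ins cut
      by_cases c1 : a e ∈ U' <;> by_cases c2 : b e ∈ U' <;> simp [c1, c2] at h1 ⊢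
    rw [hcU e he, hiU e he, Nat.cast_one]
    linear_combination (x e) * h2
  have hcard := card_eq_cut (fun e he => (hQ.valid e he).1) hQ.deg
  rw [hQ.tot] at hcard
  obtain ⟨L0, c1, -, k1⟩ := laminar2 _ a b U' _ (frac x) rfl hQ.toQ1 (frac_lt_one x)
  have c2 := St_ge h hO hsub hQ hcU
  obtain ⟨L1, hL1⟩ : ∃ L1, L1 = L0 ∪ U'.image fun v => cut a b {v} := ⟨_, rfl⟩
  have c3 : (L1.card : ℝ) ≤ L0.card + U'.card := by
    rw [hL1]
    exact_mod_cast (card_union_le _ _).trans (Nat.add_le_add_left card_image_le _)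
  have main : ∀ L : Finset (E → ℝ), L1 ⊆ L → (∀ y ∈ TT (act x) L, dot y (cut a b U') = 0) →
      ∀ y ∈ TT (act x) L, ∃ δ : ℝ, 0 < δ ∧ Q a b U d (x + δ • y) ∧ Q a b U d (x - δ • y) := by
    intro L l1 l2 y hy
    have hyv : ∀ v ∈ U', dot y (cut a b {v}) = 0 := fun v hv =>
      hy.2 _ (l1 (hL1 ▸ mem_union_right _ (mem_image_of_mem _ hv)))
    have hy1 : ∀ e, y e ≠ 0 → e ∈ act x := fun e he => by
      by_contra hc
      exact he (hy.1 e hc)
    have hy2 : ∀ T ⊆ U, dot y (cut a b T) = dot y (cut a b (T ∩ U')) := by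
      intro T hT
      refine dot_congr fun e he => ?_
      obtain ⟨c1, c2⟩ := f4 e (hy1 e he)
      have c3 : a e ∈ T ∩ U' ↔ a e ∈ T := by
        rw [mem_inter]; exact ⟨fun h => h.1, fun h => ⟨h, c1.1 (hT h)⟩⟩
      have c4 : b e ∈ T ∩ U' ↔ b e ∈ T := by
        rw [mem_inter]; exact ⟨fun h => h.1, fun h => ⟨h, c2.1 (hT h)⟩⟩
      simp only [cut, c3, c4]
    obtain ⟨δ, hδ, hp⟩ := perturb h (y := y)
      (fun e he => hy.1 e fun hc => (mem_act.1 hc).1.ne' he) (fun v hv => by
        rw [hy2 _ (singleton_subset_iff.2 hv)]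
        by_cases hv' : v ∈ U'
        · rw [singleton_inter_of_mem hv']; exact hyv v hv'
        · rw [singleton_inter_of_notMem hv']
          exact dot_eq_zero fun e _ => by simp [cut])
      (by rw [hy2 _ Subset.rfl, inter_eq_right.2 hsub]; exact l2 y hy)
      (fun T hT ho ht => by
        rcases f5 T hT ho ht with ⟨g1, g2⟩ | g
        · rw [hy2 T hT]
          refine k1 y (fun e he => hy.1 e fun hc => ?_) hyv
            (fun c hc => hy.2 c (l1 (hL1 ▸ mem_union_left _ hc))) _ inter_subset_right g1 g2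
          rw [frac_of_act hc] at he
          exact (mem_act.1 hc).1.ne' he
        · exact dot_eq_zero fun e he => g e (hy1 e he))
    refine ⟨δ, hδ, hp δ (by rw [abs_of_pos hδ]), ?_⟩
    have := hp (-δ) (by rw [abs_neg, abs_of_pos hδ])
    rwa [neg_smul, ← sub_eq_add_neg] at this
  rw [hsum]
  rcases Nat.eq_zero_or_pos d' with hd | hd
  · subst hd
    refine ⟨TT (act x) L1, main L1 Subset.rfl (fun y hy => dot_eq_zero fun e he => ?_), ?_⟩
    · have he' : e ∈ act x := by
        by_contra hc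
        exact he (hy.1 e hc)
      exact eq_zero_of_dot hQ.nonneg (cut_zo a b U').nonneg (by rw [hQ.tot]; simp) e
        (by rw [frac_of_act he']; exact (mem_act.1 he').1.ne')
    · have h1 : ((act x).card : ℝ) ≤ Module.finrank ℝ (TT (act x) L1) + L1.card := by
        exact_mod_cast finrank_TT (act x) L1
      have h2 : (0 : ℝ) < U'.card := by exact_mod_cast card_pos.2 hU'
      simp only [Nat.cast_zero] at hcard ⊢
      have h3 : 0 < ε * dot (frac x) (ins a b U') := mul_pos hε (by linarith only [h2, hcard])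
      linarith only [c1, c2, c3, h1, hcard, h3]
  · refine ⟨TT (act x) (insert (cut a b U') L1), main _ (subset_insert _ _)
      (fun y hy => hy.2 _ (mem_insert_self _ _)), ?_⟩
    have h1 : ((act x).card : ℝ) ≤ Module.finrank ℝ (TT (act x) (insert (cut a b U') L1)) +
        (insert (cut a b U') L1).card := by exact_mod_cast finrank_TT (act x) _
    have h2 : ((insert (cut a b U') L1).card : ℝ) ≤ L1.card + 1 := by
      exact_mod_cast card_insert_le _ _
    have hd1 : (1 : ℝ) ≤ d' := by exact_mod_cast hd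
    have h3 : dot (nm x) (cut a b U) < d' := by
      rw [← hQ.tot]
      obtain ⟨e0, _, he0⟩ := Finset.exists_ne_zero_of_sum_ne_zero (s := univ)
        (f := fun e => frac x e * cut a b U' e) (by
          change dot (frac x) (cut a b U') ≠ 0
          rw [hQ.tot]; linarith only [hd1])
      have a1 := frac_ne (left_ne_zero_of_mul he0)
      have a2 := (cut_zo a b U' e0).resolve_left (right_ne_zero_of_mul he0)
      refine Finset.sum_lt_sum (fun e _ => ?_) ⟨e0, mem_univ _, ?_⟩
      · by_cases he : e ∈ act x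
        · rw [hcU e he, frac_of_act he]
          exact mul_le_mul_of_nonneg_right (nm_le h.le_one e) ((cut_zo a b U').nonneg e)
        · rw [(nm_inactive h.nonneg h.le_one he).1, zero_mul]
          exact mul_nonneg (frac_nonneg x e) ((cut_zo a b U').nonneg e)
      · rw [hcU e0 a1, frac_of_act a1, a2, mul_one, mul_one]
        have := Real.negMulLog_lt_one_sub_self (sub_nonneg.2 (h.le_one e0))
          (by linarith only [a1, (mem_act.1 a1).1])
        unfold nm
        linarith only [this]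
    have h4 : 1 < ρ * d' := by
      rw [hρ, div_mul_eq_mul_div, lt_div_iff₀ (lt_of_lt_of_le one_pos (le_max_right _ _)), one_mul]
      exact max_lt (by linarith only [h3]) (by linarith only [hd1])
    have h5 : 0 ≤ ε * dot (frac x) (ins a b U') :=
      mul_nonneg hε.le (dot_nonneg hQ.nonneg (ins_zo a b U').nonneg)
    linarith only [hcard, c1, c2, c3, h1, h2, h4, h5]

end Pool.Agent.Work.MP_33747a_co.EK
end

-- merged part: Pool.Agent.Work.MP_33747a_co.S5
section
/-! The lower bound for the partition function, and the size of the star terms. -/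

set_option autoImplicit false
set_option linter.unusedSectionVars false

namespace Pool.Agent.Work.MP_33747a_co.EK

open Finset Real

variable {V E : Type*} [Fintype E] [DecidableEq V] [DecidableEq E]
variable {a b : E → V} {U : Finset V}

theorem ent_ge2 {d : ℕ} (hpar : Even (U.card + d)) (hO : ∀ v ∈ U, (Ov a b U v).card ≤ 1)
    [Nonempty (MS a b U d)] {P : MS a b U d → ℝ} (hP : P ∈ K (phi a b U d)) {ε : ℝ} (hε : 0 < ε) :
    Psf2 a b U ε (marg (phi a b U d) P) ≤ ent P := by
  have hcn : ∀ c : E → ℝ, Continuous fun x : E → ℝ => dot (nm x) c := fun c =>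
    continuous_finsetSum _ fun e _ => (Real.continuous_negMulLog.comp
      (continuous_const.sub (continuous_apply e))).mul continuous_const
  have hc0 : Continuous fun x : E → ℝ => ∑ j : JJ U E, jc a b U j * x j.2.1 *
      dslope (fun s : ℝ => -negMulLog (1 - s)) 0 (∑ e ∈ jA a b U j, x e) :=
    continuous_finsetSum _ fun j _ => (continuous_const.mul (continuous_apply _)).mul
      (continuous_xi.comp (continuous_finsetSum _ fun e _ => continuous_apply e))
  have hc1 := (((continuous_finsetSum univ fun e _ =>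
    Real.continuous_negMulLog.comp (continuous_apply e)).sub
      ((continuous_const (y := 1 + ε)).mul (hcn (ins a b U)))).sub
      (continuous_FF.comp (hcn (cut a b U)))).add hc0
  have hc2 : ContinuousOn (fun P : MS a b U d → ℝ => ent P - Psf2 a b U ε (marg (phi a b U d) P))
      (K (phi a b U d)) := by
    refine ((continuous_finsetSum univ fun i _ =>
      Real.continuous_negMulLog.comp (continuous_apply i)).sub
      (hc1.comp (continuous_marg (phi a b U d)))).continuousOn.congr fun P' hP' => ?_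
    have h1 : St a b U xi0 (marg (phi a b U d) P') = ∑ j : JJ U E,
        jc a b U j * marg (phi a b U d) P' j.2.1 * dslope (fun s : ℝ => -negMulLog (1 - s)) 0
          (∑ e ∈ jA a b U j, marg (phi a b U d) P' e) := by
      rw [← St_eq]
      refine Finset.sum_congr rfl fun j _ => ?_
      by_cases h0 : ∑ e ∈ jA a b U j, marg (phi a b U d) P' e = 0
      · have := (Finset.sum_eq_zero_iff_of_nonneg fun e _ =>
          marg_nonneg (phi_zo a b U d) hP'.1 e).1 h0 _ (jA_mem j)
        rw [this, mul_zero, zero_mul, zero_mul]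
      · rw [xi0_eq h0]
    simp only [Psf2, h1]
    rfl
  obtain ⟨P0, hP0, hmin⟩ := (isCompact_K (phi a b U d)).exists_isMinOn ⟨P, hP⟩ hc2
  have hQ := Q_marg hP0.1
  have hact : ¬ (act (marg (phi a b U d) P0)).Nonempty := by
    intro hne
    obtain ⟨T, hT, hlt⟩ := dim_gt2 hpar hQ hO hε hne
    rw [← St_eq] at hlt
    refine absurd (trace_bound3 (phi_zo a b U d) hP0 _ (jc a b U) (fun j => j.2.1) (jA a b U) jA_mem
      (fun i j => jA_zo (phi_zo a b U d i) (mem_MS.1 i.2).deg j) (fun P' hP' => ?_) T fun y hy => ?_)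
      (not_le.2 hlt)
    · have h1 : ent P0 - Psf2 a b U ε (marg (phi a b U d) P0) ≤
        ent P' - Psf2 a b U ε (marg (phi a b U d) P') := hmin hP'
      have hQ' := Q_marg hP'.1
      have h2 := FF_tangent (t := dot (nm (marg (phi a b U d) P0)) (cut a b U))
        (dot_nonneg (nm_nonneg hQ'.nonneg hQ'.le_one) (cut_zo a b U).nonneg)
      have h3 : ∀ (ρ : ℝ) (x : E → ℝ), ∑ e, psi ((1 + ε) * ins a b U e + ρ * cut a b U e) (x e) =
          ∑ e, negMulLog (x e) - (1 + ε) * dot (nm x) (ins a b U) - ρ * dot (nm x) (cut a b U) := by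
        intro ρ x
        simp only [dot, Finset.mul_sum, ← Finset.sum_sub_distrib]
        refine Finset.sum_congr rfl fun e _ => ?_
        unfold psi nm
        ring
      unfold G
      rw [h3, h3, St_eq, St_eq]
      unfold Psf2 at h1
      linarith only [h1, h2]
    · obtain ⟨δ, hδ, q1, q2⟩ := hT y hy
      exact ⟨δ, hδ, good_of_Q hpar q1, good_of_Q hpar q2⟩
  rw [Finset.not_nonempty_iff_eq_empty] at hact
  have hin := fun e => nm_inactive hQ.nonneg hQ.le_one (e := e) (by rw [hact]; exact notMem_empty e)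
  have hz : ZO1 (marg (phi a b U d) P0) := by
    intro e
    have : e ∉ act (marg (phi a b U d) P0) := by rw [hact]; exact notMem_empty e
    rw [mem_act, not_and_or, not_lt, not_lt] at this
    exact this.imp (fun h => le_antisymm h (hQ.nonneg e)) fun h => le_antisymm (hQ.le_one e) h
  have h0 : Psf2 a b U ε (marg (phi a b U d) P0) = 0 := by
    unfold Psf2 dot
    rw [← St_eq, Finset.sum_eq_zero (s := (univ : Finset (JJ U E))) fun j _ => by
      rcases jA_zo hz hQ.deg j with h | h <;> simp [h, xi0]]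
    simp only [(hin _).1, (hin _).2, zero_mul, Finset.sum_const_zero, FF_zero]
    ring
  have h1 : 0 ≤ ent P0 := Finset.sum_nonneg fun i _ => Real.negMulLog_nonneg (hP0.1.1 i) (hP0.1.le_one i)
  have h2 : ent P0 - Psf2 a b U ε (marg (phi a b U d) P0) ≤
    ent P - Psf2 a b U ε (marg (phi a b U d) P) := hmin hP
  linarith

theorem bethe2 {d : ℕ} (hpar : Even (U.card + d)) (hO : ∀ v ∈ U, (Ov a b U v).card ≤ 1)
    {x : E → ℝ} (h : Q a b U d x) {w : E → ℝ} (hw : ∀ e, 0 ≤ w e) (hw' : ∀ e, x e ≠ 0 → 0 < w e) :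
    exp (Psf2 a b U 0 x + dot (fun e => log (w e)) x) ≤ ∑ M ∈ MS a b U d, ∏ e ∈ M, w e := by
  have hg := good_of_Q hpar h
  have : Nonempty (MS a b U d) := ⟨(hg 0).choose⟩
  obtain ⟨P, hP, rfl⟩ := exists_marg hg
  have h1 := gibbs (g := fun i : MS a b U d => ∏ e ∈ i.1, w e)
    (s := fun i => dot (phi a b U d i) fun e => log (w e)) hP.1
    (fun i => Finset.prod_nonneg fun e _ => hw e) (fun i hi => by
      have e1 : dot (phi a b U d i) (fun e => log (w e)) = ∑ e ∈ i.1, log (w e) := by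
        simp [dot, phi, chi]
      rw [e1, exp_sum]
      refine Finset.prod_congr rfl fun e he => (exp_log (hw' e (ne_of_gt ?_))).symm
      have a1 : P i * phi a b U d i e ≤ marg (phi a b U d) P e :=
        Finset.single_le_sum (f := fun j => P j * phi a b U d j e)
          (fun j _ => mul_nonneg (hP.1.1 j) ((phi_zo a b U d).nonneg j e)) (mem_univ i)
      have a2 : phi a b U d i e = 1 := if_pos he
      rw [a2, mul_one] at a1
      linarith)
  rw [← dot_marg, Finset.sum_coe_sort (MS a b U d) (fun M => ∏ e ∈ M, w e)] at h1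
  refine le_trans (exp_le_exp.2 ?_) h1
  rw [dot_comm]
  have h2 : Psf2 a b U 0 (marg (phi a b U d) P) ≤ ent P := by
    refine le_of_forall_pos_le_add fun δ hδ => ?_
    have hD := dot_nonneg (nm_nonneg h.nonneg h.le_one) (ins_zo a b U).nonneg
    generalize hD' : dot (nm (marg (phi a b U d) P)) (ins a b U) = D at hD
    have h3 := ent_ge2 hpar hO hP (ε := δ / (D + 1)) (by positivity)
    have h4 : δ / (D + 1) * D ≤ δ := by
      rw [div_mul_eq_mul_div, div_le_iff₀ (by linarith)]
      linarith only [hδ]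
    unfold Psf2 at h3 ⊢
    rw [hD'] at h3 ⊢
    linarith only [h3, h4]
  linarith

theorem log_ge_half {q : ℝ} (h0 : 0 < q) (h1 : q ≤ 1) : (q - q⁻¹) / 2 ≤ log q := by
  rw [← Real.sinh_log h0]
  exact Real.sinh_le_self_iff.2 (Real.log_nonpos h0.le h1)

theorem nml_le {s : ℝ} (h0 : 0 ≤ s) (h1 : s ≤ 1) : negMulLog (1 - s) ≤ s - s ^ 2 / 2 := by
  rcases h1.eq_or_lt with rfl | h1
  · norm_num
  have h2 := log_ge_half (sub_pos.2 h1) (by linarith)
  have h3 := mul_le_mul_of_nonneg_left h2 (sub_pos.2 h1).le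
  have h4 : (1 - s) * ((1 - s - (1 - s)⁻¹) / 2) = -(s - s ^ 2 / 2) := by
    have := (sub_pos.2 h1).ne'
    field_simp
    ring
  unfold negMulLog
  linarith only [h3, h4]

theorem xi0_ge {s : ℝ} (h0 : 0 ≤ s) (h1 : s ≤ 1) : -√(1 - s) ≤ xi0 s := by
  rcases h1.eq_or_lt with rfl | h1
  · simp [xi0]
  rcases h0.eq_or_lt with rfl | h0
  · simp [xi0]
  obtain ⟨t, ht⟩ : ∃ t, t = √(1 - s) := ⟨_, rfl⟩
  have t0 : 0 < t := ht ▸ Real.sqrt_pos.2 (sub_pos.2 h1)
  have t2 : 1 - s = t ^ 2 := by rw [ht, Real.sq_sqrt (sub_pos.2 h1).le]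
  have t1 : t ≤ 1 := by (refine le_of_not_gt fun h_nl => ?_; linarith only [h_nl, t2, h1, h0, t0, mul_pos_of_neg_of_neg (Mathlib.Tactic.Linarith.sub_neg_of_lt h1) (Mathlib.Tactic.Linarith.sub_neg_of_lt h0), mul_pos_of_neg_of_neg (Mathlib.Tactic.Linarith.sub_neg_of_lt h1) (Mathlib.Tactic.Linarith.sub_neg_of_lt h_nl), mul_pos_of_neg_of_neg (Mathlib.Tactic.Linarith.sub_neg_of_lt h0) (Mathlib.Tactic.Linarith.sub_neg_of_lt h0), mul_pos_of_neg_of_neg (Mathlib.Tactic.Linarith.sub_neg_of_lt h0) (Mathlib.Tactic.Linarith.sub_neg_of_lt h_nl), mul_pos_of_neg_of_neg (Mathlib.Tactic.Linarith.sub_neg_of_lt t0) (Mathlib.Tactic.Linarith.sub_neg_of_lt h_nl)])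
  have h2 := mul_le_mul_of_nonneg_left (log_ge_half t0 t1) (sq_nonneg t)
  have h3 : t ^ 2 * ((t - t⁻¹) / 2) = (t ^ 3 - t) / 2 := by
    field_simp
  unfold xi0 negMulLog
  rw [← ht, le_div_iff₀ h0, t2, Real.log_pow, show s = 1 - t ^ 2 by linarith only [t2]]
  push_cast
  linarith only [h2, h3]

theorem xi1_ge {s : ℝ} (h0 : 0 < s) (h1 : s < 1) : 1 / 2 ≤ xi1 s := by
  have h2 := sum_le_hasSum (Finset.range 2) (fun i _ => by positivity)
    (Real.hasSum_pow_div_log_of_abs_lt_one (x := s) (by rw [abs_of_pos h0]; exact h1))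
  simp only [Finset.sum_range_succ, Finset.range_zero, Finset.sum_empty] at h2
  unfold xi1
  rw [le_div_iff₀ (pow_pos h0 2)]
  norm_num at h2
  linarith only [h2]

theorem xi0_incr {s t : ℝ} (h0 : 0 < s) (ht : 0 ≤ t) (h1 : s + t ≤ 1) :
    t / 2 ≤ xi0 (s + t) - xi0 s := by
  have hc : ContinuousOn xi0 (Set.Icc s (s + t)) :=
    continuous_xi.continuousOn.congr fun z hz => xi0_eq (by linarith [hz.1] : 0 < z).ne'
  have := (convex_Icc s (s + t)).mul_sub_le_image_sub_of_le_deriv hc (C := 1 / 2)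
    (fun z hz => by
      rw [interior_Icc] at hz
      exact (hasDerivAt_xi0 (h0.trans hz.1) (hz.2.trans_le h1)).differentiableAt.differentiableWithinAt)
    (fun z hz => by
      rw [interior_Icc] at hz
      rw [(hasDerivAt_xi0 (h0.trans hz.1) (hz.2.trans_le h1)).deriv]
      exact xi1_ge (h0.trans hz.1) (hz.2.trans_le h1))
    s ⟨le_rfl, by linarith⟩ (s + t) ⟨by linarith, le_rfl⟩ (by linarith)
  linarith only [this]

theorem st_ge {I : Finset E} {x : E → ℝ} {p : ℝ} (hx : ∀ e, 0 ≤ x e) (hp : p ≤ 1)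
    (h : ∑ e ∈ I, x e = p) :
    -(p * √p / 2) + p ^ 2 / 4 - (∑ e ∈ I, x e ^ 2) / 4 ≤ st xi0 I x (1 - p) := by
  have h1 : -(p * √p / 2) + p ^ 2 / 4 - (∑ e ∈ I, x e ^ 2) / 4 =
      ∑ e ∈ I, x e / 2 * (-√p + (p - x e) / 2) := by
    have : ∀ e, x e / 2 * (-√p + (p - x e) / 2) = x e * (-√p / 2 + p / 4) - x e ^ 2 / 4 :=
      fun e => by ring
    simp only [this, Finset.sum_sub_distrib, ← Finset.sum_mul, h, ← Finset.sum_div]
    ring
  rw [h1]
  refine Finset.sum_le_sum fun e he => ?_
  rcases (hx e).eq_or_lt with h0 | h0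
  · simp [← h0]
  refine mul_le_mul_of_nonneg_left (add_le_add ?_ ?_) (by linarith only [h0])
  · have h2 : x e ≤ p := h ▸ Finset.single_le_sum (fun e _ => hx e) he
    refine le_trans (neg_le_neg (Real.sqrt_le_sqrt (by linarith only [h0]))) (xi0_ge (by linarith only [hp, h0]) (by linarith only [h2]))
  · have h2 : x e + ∑ f ∈ I.erase e, x f = p := h ▸ Finset.add_sum_erase I x he
    rw [show p - x e = ∑ f ∈ I.erase e, x f by linarith only [h2], Finset.sum_div]
    refine Finset.sum_le_sum fun f hf => xi0_incr h0 (hx f) ?_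
    have : x f ≤ ∑ f ∈ I.erase e, x f := Finset.single_le_sum (fun e _ => hx e) hf
    linarith only [hp, h2, this]

theorem sum_Iv_le {w : E → ℝ} (hw : ∀ e, 0 ≤ w e) :
    ∑ v ∈ U, ∑ e ∈ Iv a b U v, w e ≤ 2 * dot w (ins a b U) := by
  have h1 : ∀ v ∈ U, ∑ e ∈ Iv a b U v, w e = dot w (cut a b {v}) - mo a b U w v := fun v _ => by
    rw [← sum_Iv_Ov (U := U), sum_Ov]
    ring
  rw [Finset.sum_congr rfl h1, Finset.sum_sub_distrib, dot_sum_cut2, sum_mo Subset.rfl]
  have h2 : (dot w fun e => cut a b U e * cut a b U e) = dot w (cut a b U) :=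
    dot_congr fun e _ => by rcases cut_zo a b U e with h | h <;> simp [h]
  have h3 : dot w (ins2 a b U) ≤ dot w (ins a b U) := dot_mono hw fun e => by
    unfold ins2
    split_ifs
    · exact (ins_zo a b U).nonneg e
    · exact le_rfl
  linarith only [h2, h3]

theorem Psf2_ge {d p : ℝ} {x : E → ℝ} (h : Q a b U d x) (hp : p ≤ 1)
    (hm : ∀ v ∈ U, ∑ e ∈ Ov a b U v, x e = 1 - p) :
    ∑ e, negMulLog (x e) - dot x (ins a b U) - FF (dot (nm x) (cut a b U)) -
      U.card * (p * √p / 2 - p ^ 2 / 4) ≤ Psf2 a b U 0 x := by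
  have h1 : ∑ v ∈ U, (-(p * √p / 2) + p ^ 2 / 4 - (∑ e ∈ Iv a b U v, x e ^ 2) / 4) ≤
      St a b U xi0 x := Finset.sum_le_sum fun v hv => by
    rw [hm v hv]
    refine st_ge h.nonneg hp ?_
    linarith only [hm, hv, h, sum_Iv_Ov (a := a) (b := b) (U := U) (v := v) x, hm v hv, h.deg v hv]
  rw [Finset.sum_sub_distrib, ← Finset.sum_div, sum_const, nsmul_eq_mul] at h1
  have h2 := sum_Iv_le (a := a) (b := b) (U := U) (w := fun e => x e ^ 2) fun e => sq_nonneg _
  have h3 : dot (nm x) (ins a b U) ≤ dot x (ins a b U) - dot (fun e => x e ^ 2) (ins a b U) / 2 := by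
    refine (dot_mono' (x' := fun e => x e - x e ^ 2 / 2) (ins_zo a b U).nonneg
      fun e => nml_le (h.nonneg e) (h.le_one e)).trans (le_of_eq ?_)
    simp only [dot, Finset.sum_div, ← Finset.sum_sub_distrib]
    exact Finset.sum_congr rfl fun e _ => by ring
  unfold Psf2
  linarith only [h1, h2, h3]

end Pool.Agent.Work.MP_33747a_co.EK
end

-- merged part: Pool.Agent.Work.MP_33747a_co.S6
section
/-! The lower bound for the hafnian with star terms. -/

set_option autoImplicit false

namespace Pool.Agent.Work.MP_33747a_co.EK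

open Finset Real

theorem Ov_EE {N : ℕ} (u : Fin N) : Ov (ea N) (eb N) (UU N) (some u) = {Sum.inr u} := by
  ext e
  rw [mem_Ov, mem_singleton]
  rcases e with p | v
  · simp [cutU_inl]
  · by_cases h : v = u <;> simp [cutU_inr, cut_inr, h]

theorem haf_lower2 {n k : ℕ} (hk : 1 ≤ k) (hkn : k ≤ n) {B : Matrix (Fin (2 * n)) (Fin (2 * n)) ℝ}
    (hB : B ∈ Psi n) : exp (n * negMulLog (k / n) + 2 * n * negMulLog (1 - k / n) - k -
      (k * √(k / n) - k ^ 2 / (2 * n)) - (1 + log (max (4 * ((n : ℝ) - k)) 1))) ≤ haf k B := by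
  have hn : (0 : ℝ) < n := by exact_mod_cast (lt_of_lt_of_le hk hkn)
  have hkn' : (k : ℝ) ≤ n := by exact_mod_cast hkn
  have hq := Q_xB hB
  obtain ⟨α, hα⟩ : ∃ α : ℝ, α = k / n := ⟨_, rfl⟩
  rw [← hα]
  have hα0 : 0 ≤ α := by rw [hα]; positivity
  have hα1 : 0 ≤ 1 - α := by rw [hα, sub_nonneg, div_le_one hn]; exact hkn'
  have hαn : α * n = k := by rw [hα]; field_simp
  have hd : α * 0 + (1 - α) * ((2 * n : ℕ) : ℝ) = ((2 * (n - k) : ℕ) : ℝ) := by
    push_cast [Nat.cast_sub hkn]
    linarith only [hαn]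
  have hx := Q.combo hq Q_xm hα0 hα1 (by ring)
  rw [hd] at hx
  have hB0 : ∀ i j, i < j → 0 ≤ B i j := fun i j hij => hq.nonneg (Sum.inl ⟨(i, j), hij⟩)
  have h1 := bethe2 (by rw [card_UU]; exact ⟨n + (n - k), by omega⟩) (fun v hv => by
      obtain ⟨u, rfl⟩ := mem_UU.1 hv
      rw [Ov_EE, card_singleton]) hx (w := xB B + xm (2 * n))
    (fun e => add_nonneg (hq.nonneg e) (Q_xm.nonneg e)) (fun e he => by
      rcases e with p | v
      · have a1 := hB0 _ _ p.2
        simp only [xB, xm, Pi.add_apply, Pi.smul_apply, Sum.elim_inl, Pi.zero_apply, smul_eq_mul,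
          mul_zero, add_zero] at he ⊢
        exact lt_of_le_of_ne a1 (right_ne_zero_of_mul he).symm
      · simp [xB, xm])
  refine le_trans (exp_le_exp.2 ?_) (h1.trans (Z_le_haf (by omega) B hB0))
  have c0 := Psf2_ge hx (p := α) (by linarith) fun v hv => by
    obtain ⟨u, rfl⟩ := mem_UU.1 hv
    rw [Ov_EE, sum_singleton]
    simp [xB, xm]
  have c1 := card_eq_cut (fun e he => (hq.valid e he).1) hq.deg
  have c2 := card_eq_cut (fun e he => (hx.valid e he).1) hx.deg
  rw [hq.tot, card_UU] at c1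
  rw [hx.tot, card_UU] at c2
  rw [card_UU] at c0
  have c4 := dot_mono' (cut_zo (ea (2 * n)) (eb (2 * n)) (UU (2 * n))).nonneg (nm_le hx.le_one)
  rw [hx.tot] at c4
  have c5 := FF_le c4
  have c6 : ∑ e, negMulLog ((α • xB B + (1 - α) • xm (2 * n)) e) +
      dot (fun e => log ((xB B + xm (2 * n)) e)) (α • xB B + (1 - α) • xm (2 * n)) =
      negMulLog α * dot (xB B) (ins (ea (2 * n)) (eb (2 * n)) (UU (2 * n))) +
        2 * n * negMulLog (1 - α) := by
    simp only [dot, Fintype.sum_sum_type, xB, xm, Pi.add_apply, Pi.smul_apply, Sum.elim_inl,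
      Sum.elim_inr, Pi.zero_apply, Pi.one_apply, smul_eq_mul, mul_zero, add_zero, zero_add, mul_one,
      Real.log_one, zero_mul, Finset.sum_const_zero, insU_inl, Finset.sum_const, card_univ,
      Fintype.card_fin, nsmul_eq_mul, Real.negMulLog_mul, Finset.mul_sum]
    rw [add_right_comm, ← Finset.sum_add_distrib]
    push_cast
    congr 1
    refine Finset.sum_congr rfl fun p _ => ?_
    unfold negMulLog
    ring
  push_cast [Nat.cast_sub hkn] at c0 c1 c2 c5
  have c7 : dot (xB B) (ins (ea (2 * n)) (eb (2 * n)) (UU (2 * n))) = n := by linarith only [c1]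
  rw [c7] at c6
  have c8 : 2 * (2 * ((n : ℝ) - k)) = 4 * (n - k) := by ring
  rw [c8] at c5
  have c9 : 2 * (n : ℝ) * (α * √α / 2 - α ^ 2 / 4) = k * √α - k ^ 2 / (2 * n) := by
    rw [← hαn]
    field_simp
    ring
  linarith only [c6, c0, c2, c5, c9]

theorem star_ratio {n k : ℕ} (hk : 1 ≤ k) (hkn : k ≤ n) {B : Matrix (Fin (2 * n)) (Fin (2 * n)) ℝ}
    (hB : B ∈ Psi n) : haf k (J n) ≤
      42 * ((n : ℝ) - k + 1) * exp (k * √(k / n) - k ^ 2 / (2 * n)) * haf k B := by
  have h1 := haf_lower2 hk hkn hB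
  have h2 := haf_J_le hk hkn
  have hkn' : (k : ℝ) ≤ n := by exact_mod_cast hkn
  generalize (n : ℝ) * negMulLog (k / n) + 2 * n * negMulLog (1 - k / n) = A at h1 h2
  generalize (k : ℝ) * √(k / n) - k ^ 2 / (2 * n) = D at h1 ⊢
  have hm : 0 < max (4 * ((n : ℝ) - k)) 1 := lt_of_lt_of_le one_pos (le_max_right _ _)
  have h3 : exp (A - k) = exp 1 * max (4 * ((n : ℝ) - k)) 1 * exp D *
      exp (A - k - D - (1 + log (max (4 * ((n : ℝ) - k)) 1))) := by
    conv_rhs => rw [← exp_log hm, ← exp_add, ← exp_add, log_exp, ← exp_add]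
    congr 1
    ring
  have h4 : max (4 * ((n : ℝ) - k)) 1 ≤ 4 * (n - k + 1) := max_le (by linarith only []) (by linarith only [hkn'])
  have h5 : √2 * exp 1 * exp 1 ≤ 21 / 2 := by
    have a1 : √2 ≤ 1.4143 := Real.sqrt_le_iff.2 ⟨by norm_num, by norm_num⟩
    have a2 := Real.exp_one_lt_d9
    have a3 : exp 1 * exp 1 ≤ 7.39 := by linarith only [a2, exp_pos 1, mul_pos_of_neg_of_neg (Mathlib.Tactic.Linarith.sub_neg_of_lt a2) (Mathlib.Tactic.Linarith.sub_neg_of_lt (exp_pos (1 : ℝ)))]
    linarith only [a1, a3, exp_pos 1, Real.sqrt_nonneg 2, mul_nonneg_of_nonpos_of_nonpos (Mathlib.Tactic.Linarith.sub_nonpos_of_le a3) (Mathlib.Tactic.Linarith.sub_nonpos_of_le (sqrt_nonneg (2 : ℝ)))]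
  refine h2.trans ?_
  rw [h3]
  calc _ = (√2 * exp 1 * exp 1) * max (4 * ((n : ℝ) - k)) 1 * exp D *
        exp (A - k - D - (1 + log (max (4 * ((n : ℝ) - k)) 1))) := by ring
    _ ≤ (21 / 2) * (4 * (n - k + 1)) * exp D * haf k B := by gcongr
    _ = _ := by ring

end Pool.Agent.Work.MP_33747a_co.EK
end
end
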